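import Pool.Agent.CRN.Targets

set_option autoImplicit false

/-!
# CRN, RMN: Rademacher-Menshov for integer radii
-/

namespace Pool.Agent.CRN

open MeasureTheory FourierTransform Set Filter Topology
open scoped ENNReal NNReal
open Pool.Agent.MBS (E ex S Sstar)

namespace RMN_

/-! ### dyadic chaining -/

/-- `N` with the lowest `l` binary digits replaced by zero -/
def rd (N l : ℕ) : ℕ := N / 2 ^ l * 2 ^ l

theorem rd_zero (N : ℕ) : rd N 0 = N := by simp [rd]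

theorem rd_top {N J : ℕ} (h : N ≤ 2 ^ J) : rd N (J + 1) = 0 := by
  unfold rd
  have : N / 2 ^ (J + 1) = 0 := by
    apply Nat.div_eq_of_lt
    calc N ≤ 2 ^ J := h
      _ < 2 ^ (J + 1) := Nat.pow_lt_pow_right (by norm_num) (by omega)
  rw [this, zero_mul]

theorem rd_step (N l : ℕ) : rd N l = rd N (l + 1) ∨
    (rd N (l + 1) = (2 * (N / 2 ^ (l + 1))) * 2 ^ l ∧
      rd N l = (2 * (N / 2 ^ (l + 1)) + 1) * 2 ^ l) := by
  unfold rd
  have h1 : N / 2 ^ (l + 1) = N / 2 ^ l / 2 := by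
    rw [pow_succ, Nat.div_div_eq_div_mul]
  set q := N / 2 ^ l with hq
  rw [h1, pow_succ]
  rcases Nat.even_or_odd q with ⟨r, hr⟩ | ⟨r, hr⟩
  · left
    have : q / 2 = r := by omega
    rw [this, hr]; ring
  · right
    have : q / 2 = r := by omega
    rw [this, hr]
    exact ⟨by ring, rfl⟩

theorem chain_sum (P : ℕ → ℂ) (N L : ℕ) :
    P N = P (rd N L) + ∑ l ∈ Finset.range L, (P (rd N l) - P (rd N (l + 1))) := by
  induction L with
  | zero => simp [rd_zero]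
  | succ L ih =>
    rw [Finset.sum_range_succ, ih]
    ring

theorem step_le (P : ℕ → ℂ) {N J : ℕ} (h : N ≤ 2 ^ J) (l : ℕ) :
    ‖P (rd N l) - P (rd N (l + 1))‖ ^ 2 ≤
      ∑ i ∈ Finset.range (2 ^ J), ‖P ((i + 1) * 2 ^ l) - P (i * 2 ^ l)‖ ^ 2 := by
  rcases rd_step N l with h1 | ⟨h1, h2⟩
  · rw [h1, sub_self]
    have : (0 : ℝ) ≤ ∑ i ∈ Finset.range (2 ^ J), ‖P ((i + 1) * 2 ^ l) - P (i * 2 ^ l)‖ ^ 2 :=
      Finset.sum_nonneg fun i _ => by positivity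
    simpa using this
  · set i := 2 * (N / 2 ^ (l + 1)) with hi
    have h3 : (i + 1) * 2 ^ l ≤ 2 ^ J := by
      rw [← h2]
      exact (Nat.div_mul_le_self N (2 ^ l)).trans h
    have h4 : i < 2 ^ J := by
      have h5 : (i + 1) * 1 ≤ (i + 1) * 2 ^ l := Nat.mul_le_mul_left _ Nat.one_le_two_pow
      omega
    rw [h1, h2]
    exact Finset.single_le_sum (f := fun i => ‖P ((i + 1) * 2 ^ l) - P (i * 2 ^ l)‖ ^ 2)
      (fun i _ => by positivity) (Finset.mem_range.2 h4)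

theorem chain_le (P : ℕ → ℂ) (h0 : P 0 = 0) {N J : ℕ} (h : N ≤ 2 ^ J) :
    ‖P N‖ ^ 2 ≤ (J + 1) * ∑ l ∈ Finset.range (J + 1), ∑ i ∈ Finset.range (2 ^ J),
      ‖P ((i + 1) * 2 ^ l) - P (i * 2 ^ l)‖ ^ 2 := by
  have h1 := chain_sum P N (J + 1)
  rw [rd_top h, h0, zero_add] at h1
  rw [h1]
  calc ‖∑ l ∈ Finset.range (J + 1), (P (rd N l) - P (rd N (l + 1)))‖ ^ 2
      ≤ (∑ l ∈ Finset.range (J + 1), ‖P (rd N l) - P (rd N (l + 1))‖) ^ 2 := by
        gcongr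
        exact norm_sum_le _ _
    _ ≤ (Finset.range (J + 1)).card *
        ∑ l ∈ Finset.range (J + 1), ‖P (rd N l) - P (rd N (l + 1))‖ ^ 2 :=
        sq_sum_le_card_mul_sum_sq
    _ ≤ (J + 1) * ∑ l ∈ Finset.range (J + 1), ∑ i ∈ Finset.range (2 ^ J),
        ‖P ((i + 1) * 2 ^ l) - P (i * 2 ^ l)‖ ^ 2 := by
        rw [Finset.card_range]
        push_cast
        gcongr with l hl
        exact step_le P h l

theorem enorm_sq (z : ℂ) : ‖z‖ₑ ^ 2 = ENNReal.ofReal (‖z‖ ^ 2) := by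
  rw [ENNReal.ofReal_pow (norm_nonneg z), ofReal_norm]

theorem chain_enorm (P : ℕ → ℂ) (h0 : P 0 = 0) {N J : ℕ} (h : N ≤ 2 ^ J) :
    ‖P N‖ₑ ^ 2 ≤ ((J : ℝ≥0∞) + 1) * ∑ l ∈ Finset.range (J + 1), ∑ i ∈ Finset.range (2 ^ J),
      ‖P ((i + 1) * 2 ^ l) - P (i * 2 ^ l)‖ₑ ^ 2 := by
  have h1 := ENNReal.ofReal_le_ofReal (chain_le P h0 h)
  rw [← enorm_sq, ENNReal.ofReal_mul (by positivity),
    ENNReal.ofReal_sum_of_nonneg (fun l _ => Finset.sum_nonneg fun i _ => by positivity)] at h1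
  have h2 : ENNReal.ofReal ((J : ℝ) + 1) = (J : ℝ≥0∞) + 1 := by
    rw [ENNReal.ofReal_add (by positivity) zero_le_one, ENNReal.ofReal_natCast, ENNReal.ofReal_one]
  rw [h2] at h1
  refine h1.trans (le_of_eq ?_)
  congr 1
  refine Finset.sum_congr rfl fun l _ => ?_
  rw [ENNReal.ofReal_sum_of_nonneg (fun i _ => by positivity)]
  exact Finset.sum_congr rfl fun i _ => (enorm_sq _).symm

theorem sup_sq_le {a : ℕ → ℝ≥0∞} {p : ℕ → Prop} {B : ℝ≥0∞} (h : ∀ j, p j → a j ^ 2 ≤ B) :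
    (⨆ (j : ℕ) (_ : p j), a j) ^ 2 ≤ B := by
  have hle : ∀ j, p j → a j ≤ B ^ (1 / 2 : ℝ) := by
    intro j hj
    have h1 := ENNReal.rpow_le_rpow (h j hj) (by norm_num : (0 : ℝ) ≤ 1 / 2)
    rw [← ENNReal.rpow_natCast, ← ENNReal.rpow_mul] at h1
    norm_num at h1
    exact h1
  calc (⨆ (j : ℕ) (_ : p j), a j) ^ 2 ≤ (B ^ (1 / 2 : ℝ)) ^ 2 := by
        gcongr
        exact iSup₂_le hle
    _ = B := by
        rw [← ENNReal.rpow_natCast, ← ENNReal.rpow_mul]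
        norm_num

/-! ### Plancherel -/

variable {n : ℕ}

theorem IN_eq (h : E n → ℂ) (x : E n) : IN h x = 𝓕 h (-x) := by
  rw [Real.fourier_eq', IN]
  refine integral_congr_ae (Filter.Eventually.of_forall fun ξ => ?_)
  simp only [ex, smul_eq_mul]
  rw [inner_neg_right, real_inner_comm]
  have : (2 * Real.pi * Complex.I * ((inner ℝ ξ x : ℝ) : ℂ) : ℂ)
    = ((-2 * Real.pi * -(inner ℝ ξ x : ℝ) : ℝ) : ℂ) * Complex.I := by push_cast; ring
  rw [this]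
  ring

theorem fourier_cont {h : E n → ℂ} (hi : Integrable h) : Continuous (𝓕 h) := by
  have := VectorFourier.fourierIntegral_continuous (V := E n) (W := E n)
    Real.continuous_fourierChar (L := innerₗ (E n)) continuous_inner hi
  exact this

theorem IN_cont {h : E n → ℂ} (hi : Integrable h) : Continuous (IN h) := by
  have h1 : IN h = fun x => 𝓕 h (-x) := funext fun x => IN_eq h x
  rw [h1]
  exact (fourier_cont hi).comp continuous_neg

theorem planch0 {h : E n → ℂ} (hi : Integrable h) (h2 : MemLp h 2) :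
    ∫⁻ x, ‖𝓕 h x‖ₑ ^ 2 = ∫⁻ ξ, ‖h ξ‖ₑ ^ 2 := by
  have key := Pool.Agent.H25.Plancherel.eLpNorm_fourier_eq hi h2
  rw [eLpNorm_eq_lintegral_rpow_enorm_toReal (by norm_num) (by norm_num),
    eLpNorm_eq_lintegral_rpow_enorm_toReal (by norm_num) (by norm_num)] at key
  have key2 := ENNReal.rpow_left_injective (x := 1 / (2 : ℝ≥0∞).toReal) (by norm_num) key
  simp only [ENNReal.toReal_ofNat, ENNReal.rpow_ofNat] at key2
  exact key2

theorem planch {h : E n → ℂ} (hi : Integrable h) (h2 : MemLp h 2) :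
    ∫⁻ x, ‖IN h x‖ₑ ^ 2 = ∫⁻ ξ, ‖h ξ‖ₑ ^ 2 := by
  calc ∫⁻ x, ‖IN h x‖ₑ ^ 2 = ∫⁻ x, ‖𝓕 h (-x)‖ₑ ^ 2 := by
        refine lintegral_congr fun x => ?_
        rw [IN_eq]
    _ = ∫⁻ x, ‖𝓕 h x‖ₑ ^ 2 := by
        rw [lintegral_neg_eq_self (fun x => ‖𝓕 h x‖ₑ ^ 2)]
    _ = _ := planch0 hi h2

/-! ### the annuli -/

/-- `a < |ξ| ≤ b` -/
def An (n : ℕ) (a b : ℝ) : Set (E n) :=
  Metric.closedBall (0 : E n) b \ Metric.closedBall (0 : E n) a

theorem An_meas (a b : ℝ) : MeasurableSet (An n a b) :=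
  Metric.isClosed_closedBall.measurableSet.diff Metric.isClosed_closedBall.measurableSet

theorem An_int {g : E n → ℂ} (hg : Continuous g) (a b : ℝ) :
    Integrable ((An n a b).indicator g) := by
  have h1 : IntegrableOn g (Metric.closedBall (0 : E n) b) :=
    hg.continuousOn.integrableOn_compact (isCompact_closedBall _ _)
  exact (h1.mono_set sdiff_subset).integrable_indicator (An_meas a b)

theorem S_sub {f : E n → ℂ} (hg : Continuous (𝓕 f)) {a b : ℝ} (hab : a ≤ b) (x : E n) :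
    S f b x - S f a x = IN ((An n a b).indicator (𝓕 f)) x := by
  have hex : Continuous (fun ξ : E n => 𝓕 f ξ * ex x ξ) :=
    hg.mul (Pool.Agent.MBS.ex_continuous.comp (Continuous.prodMk_right x))
  have h1 : IntegrableOn (fun ξ : E n => 𝓕 f ξ * ex x ξ) (Metric.closedBall (0 : E n) b) :=
    hex.continuousOn.integrableOn_compact (isCompact_closedBall _ _)
  have h2 : Metric.closedBall (0 : E n) a ⊆ Metric.closedBall (0 : E n) b :=
    Metric.closedBall_subset_closedBall hab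
  have h3 := setIntegral_sdiff Metric.isClosed_closedBall.measurableSet h1 h2
  rw [S, S, ← h3, IN]
  have h4 : Metric.closedBall (0 : E n) b \ Metric.closedBall (0 : E n) a = An n a b := rfl
  rw [h4, ← integral_indicator (An_meas a b)]
  refine integral_congr_ae (Filter.Eventually.of_forall fun ξ => ?_)
  by_cases hξ : ξ ∈ An n a b
  · simp only [indicator_of_mem hξ]
  · simp only [indicator_of_notMem hξ, zero_mul]

theorem An_disj (l : ℕ) {i j : ℕ} (hij : i ≠ j) :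
    Disjoint (An n ((i * 2 ^ l : ℕ) : ℝ) (((i + 1) * 2 ^ l : ℕ) : ℝ))
      (An n ((j * 2 ^ l : ℕ) : ℝ) (((j + 1) * 2 ^ l : ℕ) : ℝ)) := by
  rw [Set.disjoint_left]
  rintro ξ ⟨h1, h2⟩ ⟨h3, h4⟩
  rw [mem_closedBall_zero_iff] at h1 h2 h3 h4
  push Not at h2 h4
  rcases lt_or_gt_of_ne hij with h | h
  · have h5 : (((i + 1) * 2 ^ l : ℕ) : ℝ) ≤ ((j * 2 ^ l : ℕ) : ℝ) := by
      exact_mod_cast Nat.mul_le_mul_right _ h
    linarith
  · have h5 : (((j + 1) * 2 ^ l : ℕ) : ℝ) ≤ ((i * 2 ^ l : ℕ) : ℝ) := by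
      exact_mod_cast Nat.mul_le_mul_right _ h
    linarith

theorem S_zero (hn : 1 ≤ n) (f : E n → ℂ) (x : E n) : S f 0 x = 0 := by
  have : Nonempty (Fin n) := ⟨⟨0, hn⟩⟩
  have h1 : volume (Metric.closedBall (0 : E n) 0) = 0 := by
    rw [Metric.closedBall_zero]
    exact measure_singleton _
  rw [S]
  exact setIntegral_measure_zero _ h1

end RMN_

open RMN_ in
theorem p_RMN : T_RMN := by
  intro n hn
  refine ⟨1, ?_⟩
  intro M f hf
  have hg : Continuous (𝓕 f) := fourier_cont hf.int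
  have hm : ∀ l i : ℕ, Measurable fun x : E n =>
      ‖IN ((An n ((i * 2 ^ l : ℕ) : ℝ) (((i + 1) * 2 ^ l : ℕ) : ℝ)).indicator (𝓕 f)) x‖ₑ ^ 2 :=
    fun l i => (IN_cont (An_int hg _ _)).measurable.enorm.pow_const 2
  have hpt : ∀ x : E n, (⨆ (j : ℕ) (_ : j ≤ 2 ^ M), ‖S f (j : ℝ) x‖ₑ) ^ 2 ≤
      ((M : ℝ≥0∞) + 1) * ∑ l ∈ Finset.range (M + 1), ∑ i ∈ Finset.range (2 ^ M),
        ‖IN ((An n ((i * 2 ^ l : ℕ) : ℝ) (((i + 1) * 2 ^ l : ℕ) : ℝ)).indicator (𝓕 f)) x‖ₑ ^ 2 := by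
    intro x
    refine sup_sq_le fun j hj => ?_
    have h0 : S f ((0 : ℕ) : ℝ) x = 0 := by
      rw [Nat.cast_zero]
      exact S_zero hn f x
    have h1 := chain_enorm (fun j : ℕ => S f (j : ℝ) x) h0 hj
    refine h1.trans (le_of_eq ?_)
    congr 1
    refine Finset.sum_congr rfl fun l _ => Finset.sum_congr rfl fun i _ => ?_
    rw [S_sub hg (by exact_mod_cast Nat.mul_le_mul_right _ (Nat.le_succ i))]
  have hsum : ∀ l : ℕ, ∑ i ∈ Finset.range (2 ^ M), ∫⁻ x,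
      ‖IN ((An n ((i * 2 ^ l : ℕ) : ℝ) (((i + 1) * 2 ^ l : ℕ) : ℝ)).indicator (𝓕 f)) x‖ₑ ^ 2 ≤
        ∫⁻ x, ‖f x‖ₑ ^ 2 := by
    intro l
    have hF2 : MemLp (𝓕 f) 2 := by
      refine ⟨hg.aestronglyMeasurable, ?_⟩
      rw [Pool.Agent.H25.Plancherel.eLpNorm_fourier_eq hf.int hf.sq]
      exact hf.sq.2
    calc ∑ i ∈ Finset.range (2 ^ M), ∫⁻ x,
          ‖IN ((An n ((i * 2 ^ l : ℕ) : ℝ) (((i + 1) * 2 ^ l : ℕ) : ℝ)).indicator (𝓕 f)) x‖ₑ ^ 2
        = ∑ i ∈ Finset.range (2 ^ M), ∫⁻ ξ in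
          An n ((i * 2 ^ l : ℕ) : ℝ) (((i + 1) * 2 ^ l : ℕ) : ℝ), ‖𝓕 f ξ‖ₑ ^ 2 := by
          refine Finset.sum_congr rfl fun i _ => ?_
          rw [planch (An_int hg _ _) (hF2.indicator (An_meas _ _)),
            ← lintegral_indicator (An_meas _ _)]
          refine lintegral_congr fun ξ => ?_
          by_cases hξ : ξ ∈ An n ((i * 2 ^ l : ℕ) : ℝ) (((i + 1) * 2 ^ l : ℕ) : ℝ)
          · rw [indicator_of_mem hξ, indicator_of_mem hξ]
          · rw [indicator_of_notMem hξ, indicator_of_notMem hξ]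
            simp
      _ = ∫⁻ ξ in ⋃ i ∈ Finset.range (2 ^ M),
          An n ((i * 2 ^ l : ℕ) : ℝ) (((i + 1) * 2 ^ l : ℕ) : ℝ), ‖𝓕 f ξ‖ₑ ^ 2 := by
          rw [lintegral_biUnion_finset (fun i _ j _ hij => An_disj l hij)
            (fun i _ => An_meas _ _)]
      _ ≤ ∫⁻ ξ, ‖𝓕 f ξ‖ₑ ^ 2 := setLIntegral_le_lintegral _ _
      _ = ∫⁻ x, ‖f x‖ₑ ^ 2 := planch0 hf.int hf.sq
  calc ∫⁻ x, (⨆ (j : ℕ) (_ : j ≤ 2 ^ M), ‖S f (j : ℝ) x‖ₑ) ^ 2
      ≤ ∫⁻ x, ((M : ℝ≥0∞) + 1) * ∑ l ∈ Finset.range (M + 1), ∑ i ∈ Finset.range (2 ^ M),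
        ‖IN ((An n ((i * 2 ^ l : ℕ) : ℝ) (((i + 1) * 2 ^ l : ℕ) : ℝ)).indicator (𝓕 f)) x‖ₑ ^ 2 :=
        lintegral_mono hpt
    _ = ((M : ℝ≥0∞) + 1) * ∑ l ∈ Finset.range (M + 1), ∑ i ∈ Finset.range (2 ^ M), ∫⁻ x,
        ‖IN ((An n ((i * 2 ^ l : ℕ) : ℝ) (((i + 1) * 2 ^ l : ℕ) : ℝ)).indicator (𝓕 f)) x‖ₑ ^ 2 := by
        rw [lintegral_const_mul _ (Finset.measurable_sum _ fun l _ =>
          Finset.measurable_sum _ fun i _ => hm l i),
          lintegral_finsetSum _ fun l _ => Finset.measurable_sum _ fun i _ => hm l i]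
        congr 1
        refine Finset.sum_congr rfl fun l _ => ?_
        rw [lintegral_finsetSum _ fun i _ => hm l i]
    _ ≤ ((M : ℝ≥0∞) + 1) * ∑ l ∈ Finset.range (M + 1), ∫⁻ x, ‖f x‖ₑ ^ 2 := by
        gcongr with l hl
        exact hsum l
    _ = ((1 : ℝ≥0) : ℝ≥0∞) * ((M : ℝ≥0∞) + 1) ^ 2 * ∫⁻ x, ‖f x‖ₑ ^ 2 := by
        rw [Finset.sum_const, Finset.card_range, nsmul_eq_mul]
        push_cast
        ring

end Pool.Agent.CRN
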