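import Pool.Agent.CRN.P_D2SN

set_option autoImplicit false

/-!
# Block ADFN: the angular degree of `S1 f R`
-/

namespace Pool.Agent.CRN

open MeasureTheory FourierTransform Set Filter Topology
open scoped ENNReal NNReal Pointwise RealInnerProductSpace
open Pool.Agent.MBS (E ex S Sstar ex_norm ex_continuous)
open Pool.Agent.CAR (e1)

namespace ADFN_

variable {n : ℕ}

theorem rt_apply (i j : Fin n) (φ : ℝ) (y : E n) (k : Fin n) :
    rt i j φ y k = if k = i then Real.cos φ * y i - Real.sin φ * y j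
      else if k = j then Real.sin φ * y i + Real.cos φ * y j else y k := rfl

theorem rt_i (i j : Fin n) (φ : ℝ) (y : E n) :
    rt i j φ y i = Real.cos φ * y i - Real.sin φ * y j := by
  rw [rt_apply, if_pos rfl]

theorem rt_j {i j : Fin n} (h : i ≠ j) (φ : ℝ) (y : E n) :
    rt i j φ y j = Real.sin φ * y i + Real.cos φ * y j := by
  rw [rt_apply, if_neg h.symm, if_pos rfl]

theorem rt_k {i j k : Fin n} (h1 : k ≠ i) (h2 : k ≠ j) (φ : ℝ) (y : E n) :
    rt i j φ y k = y k := by
  rw [rt_apply, if_neg h1, if_neg h2]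

theorem rt_add (i j : Fin n) (φ : ℝ) (x y : E n) :
    rt i j φ (x + y) = rt i j φ x + rt i j φ y := by
  ext k
  simp only [rt_apply, PiLp.add_apply]
  split_ifs <;> ring

theorem rt_smul (i j : Fin n) (φ : ℝ) (c : ℝ) (x : E n) :
    rt i j φ (c • x) = c • rt i j φ x := by
  ext k
  simp only [rt_apply, PiLp.smul_apply, smul_eq_mul]
  split_ifs <;> ring

theorem rt_rt {i j : Fin n} (h : i ≠ j) (α β : ℝ) (y : E n) :
    rt i j α (rt i j β y) = rt i j (α + β) y := by
  ext k
  by_cases h1 : k = i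
  · subst h1
    rw [rt_i, rt_i, rt_i, rt_j h, Real.cos_add, Real.sin_add]
    ring
  · by_cases h2 : k = j
    · subst h2
      rw [rt_j h, rt_i, rt_j h, rt_j h, Real.cos_add, Real.sin_add]
      ring
    · rw [rt_k h1 h2, rt_k h1 h2, rt_k h1 h2]

theorem rt_zero (i j : Fin n) (y : E n) : rt i j 0 y = y := by
  ext k
  rw [rt_apply, Real.cos_zero, Real.sin_zero]
  split_ifs with h1 h2
  · rw [h1]; ring
  · rw [h2]; ring
  · rfl

theorem inner_rt {i j : Fin n} (h : i ≠ j) (φ : ℝ) (x y : E n) :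
    ⟪rt i j φ x, rt i j φ y⟫ = ⟪x, y⟫ := by
  rw [PiLp.inner_apply, PiLp.inner_apply]
  have hk : ∀ k : Fin n, ⟪rt i j φ x k, rt i j φ y k⟫ = ⟪x k, y k⟫ +
      ((if k = i then (rt i j φ y i * rt i j φ x i - y i * x i) else 0) +
        (if k = j then (rt i j φ y j * rt i j φ x j - y j * x j) else 0)) := by
    intro k
    by_cases h1 : k = i
    · subst h1
      rw [if_pos rfl, if_neg h]
      simp only [RCLike.inner_apply, conj_trivial]
      ring
    · by_cases h2 : k = j
      · subst h2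
        rw [if_neg h1, if_pos rfl]
        simp only [RCLike.inner_apply, conj_trivial]
        ring
      · rw [if_neg h1, if_neg h2, rt_k h1 h2, rt_k h1 h2]
        ring
  rw [Finset.sum_congr rfl fun k _ => hk k, Finset.sum_add_distrib, Finset.sum_add_distrib,
    Finset.sum_ite_eq' Finset.univ i, Finset.sum_ite_eq' Finset.univ j, if_pos (Finset.mem_univ _),
    if_pos (Finset.mem_univ _), rt_i, rt_i, rt_j h, rt_j h]
  have hc : Real.cos φ ^ 2 = 1 - Real.sin φ ^ 2 := by
    have := Real.sin_sq_add_cos_sq φ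
    linarith
  have e : (Real.cos φ * y i - Real.sin φ * y j) * (Real.cos φ * x i - Real.sin φ * x j) -
      y i * x i + ((Real.sin φ * y i + Real.cos φ * y j) *
        (Real.sin φ * x i + Real.cos φ * x j) - y j * x j) = 0 := by
    ring_nf
    rw [hc]
    ring
  rw [e, add_zero]

/-- The rotation as a linear isometric automorphism. -/
noncomputable def rtL {i j : Fin n} (h : i ≠ j) (φ : ℝ) : E n ≃ₗᵢ[ℝ] E n where
  toFun := rt i j φ
  map_add' := rt_add i j φ
  map_smul' := rt_smul i j φ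
  invFun := rt i j (-φ)
  left_inv := fun y => by
    rw [rt_rt h, neg_add_cancel, rt_zero]
  right_inv := fun y => by
    rw [rt_rt h, add_neg_cancel, rt_zero]
  norm_map' := fun y => by
    change ‖rt i j φ y‖ = ‖y‖
    rw [@norm_eq_sqrt_real_inner _ _ _ (rt i j φ y), inner_rt h, ← norm_eq_sqrt_real_inner]

theorem rtL_apply {i j : Fin n} (h : i ≠ j) (φ : ℝ) (y : E n) : rtL h φ y = rt i j φ y := rfl

/-- The restriction of an isometry to the sphere. -/
noncomputable def sm (A : E n ≃ₗᵢ[ℝ] E n) (ω : Metric.sphere (0 : E n) 1) :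
    Metric.sphere (0 : E n) 1 :=
  ⟨A ω, by
    have := ω.2
    rw [mem_sphere_zero_iff_norm] at this ⊢
    rw [A.norm_map, this]⟩

theorem sm_continuous (A : E n ≃ₗᵢ[ℝ] E n) : Continuous (sm A) :=
  (A.continuous.comp continuous_subtype_val).subtype_mk _

theorem sm_pres (A : E n ≃ₗᵢ[ℝ] E n) : MeasurePreserving (sm A) (sg n) (sg n) := by
  refine ⟨(sm_continuous A).measurable, ?_⟩
  ext s hs
  rw [Measure.map_apply (sm_continuous A).measurable hs]
  unfold sg
  rw [Measure.toSphere_apply' _ ((sm_continuous A).measurable hs), Measure.toSphere_apply' _ hs]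
  congr 1
  rw [← (A.measurePreserving).measure_preimage_emb A.toHomeomorph.measurableEmbedding
    (Ioo (0 : ℝ) 1 • ((↑) '' s : Set (E n)))]
  congr 1
  ext z
  simp only [mem_preimage]
  constructor
  · rintro ⟨c, hc, w, ⟨ω, hω, rfl⟩, rfl⟩
    refine ⟨c, hc, A ω, ⟨sm A ω, hω, rfl⟩, ?_⟩
    simp only [map_smul]
  · rintro ⟨c, hc, w, ⟨ω, hω, rfl⟩, hz⟩
    refine ⟨c, hc, A.symm ω, ⟨sm A.symm ω, ?_, rfl⟩, ?_⟩
    · change sm A (sm A.symm ω) ∈ s
      have : sm A (sm A.symm ω) = ω := Subtype.ext (A.apply_symm_apply _)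
      rw [this]
      exact hω
    · apply A.injective
      rw [← hz]
      simp only [map_smul, LinearIsometryEquiv.apply_symm_apply]

theorem ex_iso (A : E n ≃ₗᵢ[ℝ] E n) (z ξ : E n) : ex (A z) (A ξ) = ex z ξ := by
  unfold ex
  rw [A.inner_map_map]

theorem D1_iso (A : E n ≃ₗᵢ[ℝ] E n) (R : ℝ) (z : E n) : D1 R (A z) = D1 R z := by
  unfold D1
  congr 1
  have h := (sm_pres A).integral_comp' (f := (⟨⟨sm A, sm A.symm,
    fun ω => Subtype.ext (A.symm_apply_apply _), fun ω => Subtype.ext (A.apply_symm_apply _)⟩,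
    (sm_continuous A).measurable, (sm_continuous A.symm).measurable⟩ :
      Metric.sphere (0 : E n) 1 ≃ᵐ Metric.sphere (0 : E n) 1))
    (fun ω : Metric.sphere (0 : E n) 1 => ex (A z) (R • (ω : E n)))
  rw [← h]
  refine integral_congr_ae (ae_of_all _ fun ω => ?_)
  change ex (A z) (R • A ω) = ex z (R • (ω : E n))
  rw [← map_smul, ex_iso]

theorem S1_iso (A : E n ≃ₗᵢ[ℝ] E n) {f : E n → ℂ} (hf : Integrable f) (R : ℝ) (x : E n) :
    S1 f R (A x) = ∫ y, f (A y) * D1 R (x - y) := by
  have : IsFiniteMeasure (sg n) := by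
    unfold sg
    infer_instance
  rw [D2SN_.S1_eq hf R (A x)]
  have h := (A.measurePreserving).integral_comp A.toHomeomorph.measurableEmbedding
    (fun y => f y * D1 R (A x - y))
  rw [← h]
  refine integral_congr_ae (ae_of_all _ fun y => ?_)
  simp only
  rw [← map_sub, D1_iso]

/-! ### the coefficients of a trigonometric polynomial -/

theorem ci_add (a b : ℝ) : ci (a + b) = ci a * ci b := by
  unfold ci
  rw [← Complex.exp_add]
  congr 1
  push_cast
  ring

theorem ci_pow (a : ℝ) (m : ℕ) : ci (m * a) = ci a ^ m := by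
  unfold ci
  rw [← Complex.exp_nat_mul]
  congr 1
  push_cast
  ring

theorem ci_eq_one {t : ℝ} (h : ci t = 1) : ∃ m : ℤ, t = m * (2 * Real.pi) := by
  unfold ci at h
  rw [Complex.exp_eq_one_iff] at h
  obtain ⟨m, hm⟩ := h
  refine ⟨m, ?_⟩
  have h2 : (t : ℂ) = ((m * (2 * Real.pi) : ℝ) : ℂ) := by
    have h3 : (t : ℂ) * Complex.I = ((m * (2 * Real.pi) : ℝ) : ℂ) * Complex.I := by
      rw [hm]
      push_cast
      ring
    exact mul_right_cancel₀ Complex.I_ne_zero h3
  exact_mod_cast h2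

theorem ci_two_pi (m : ℤ) : ci (m * (2 * Real.pi)) = 1 := by
  unfold ci
  rw [Complex.exp_eq_one_iff]
  exact ⟨m, by push_cast; ring⟩

/-- the nodes -/
noncomputable def nd (K m : ℕ) : ℝ := m * (2 * Real.pi / (2 * K + 1))

theorem char_sum (K : ℕ) (k l : ℤ) (hk : k ∈ Finset.Icc (-(K : ℤ)) K)
    (hl : l ∈ Finset.Icc (-(K : ℤ)) K) :
    ∑ m ∈ Finset.range (2 * K + 1), ci (l * nd K m) * ci (-(k * nd K m)) =
      if l = k then ((2 * K + 1 : ℕ) : ℂ) else 0 := by
  have e : ∀ m : ℕ, ci (l * nd K m) * ci (-(k * nd K m)) =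
      ci ((l - k : ℤ) * (2 * Real.pi / (2 * K + 1))) ^ m := by
    intro m
    rw [← ci_add, ← ci_pow]
    congr 1
    unfold nd
    push_cast
    ring
  rw [Finset.sum_congr rfl fun m _ => e m]
  split_ifs with h
  · subst h
    rw [sub_self]
    simp [ci]
  · have hz : ci ((l - k : ℤ) * (2 * Real.pi / (2 * K + 1))) ≠ 1 := by
      intro h1
      obtain ⟨m, hm⟩ := ci_eq_one h1
      have hp := Real.pi_pos
      have hK : (0 : ℝ) < 2 * K + 1 := by positivity
      have h2 : ((l - k : ℤ) : ℝ) = m * (2 * K + 1) := by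
        have h3 : ((l - k : ℤ) : ℝ) * (2 * Real.pi) = m * (2 * K + 1) * (2 * Real.pi) := by
          field_simp at hm
          rw [hm]
          ring
        exact mul_right_cancel₀ (by positivity) h3
      have h4 : l - k = m * (2 * K + 1) := by exact_mod_cast h2
      rw [Finset.mem_Icc] at hk hl
      have hm0 : m ≠ 0 := by
        rintro rfl
        rw [zero_mul] at h4
        omega
      rcases lt_or_gt_of_ne hm0 with h5 | h5
      · have : m * (2 * K + 1) ≤ -1 * (2 * K + 1) :=
          mul_le_mul_of_nonneg_right (by omega) (by omega)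
        omega
      · have : 1 * (2 * (K : ℤ) + 1) ≤ m * (2 * K + 1) :=
          mul_le_mul_of_nonneg_right (by omega) (by omega)
        omega
    rw [geom_sum_eq hz]
    have h1 : ci ((l - k : ℤ) * (2 * Real.pi / (2 * K + 1))) ^ (2 * K + 1) = 1 := by
      rw [← ci_pow]
      have h2 : ((2 * K + 1 : ℕ) : ℝ) * ((l - k : ℤ) * (2 * Real.pi / (2 * K + 1))) =
          (l - k : ℤ) * (2 * Real.pi) := by
        push_cast
        field_simp
      rw [h2, ci_two_pi]
    rw [h1, sub_self, zero_div]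

/-- the coefficients, as finite averages over the nodes -/
noncomputable def cf (K : ℕ) (i j : Fin n) (f : E n → ℂ) (k : ℤ) (y : E n) : ℂ :=
  ((2 * K + 1 : ℕ) : ℂ)⁻¹ * ∑ m ∈ Finset.range (2 * K + 1),
    f (rt i j (nd K m) y) * ci (-(k * nd K m))

theorem cf_spec {K : ℕ} {i j : Fin n} {f : E n → ℂ} (h : AD K f) (hij : i ≠ j) (y : E n) (φ : ℝ) :
    f (rt i j φ y) = ∑ k ∈ Finset.Icc (-(K : ℤ)) K, cf K i j f k y * ci (k * φ) := by
  obtain ⟨c, hc⟩ := h i j hij y
  rw [hc φ]
  refine Finset.sum_congr rfl fun k hk => ?_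
  congr 1
  unfold cf
  have hN : ((2 * K + 1 : ℕ) : ℂ) ≠ 0 := Nat.cast_ne_zero.mpr (by omega)
  have e : ∑ m ∈ Finset.range (2 * K + 1), f (rt i j (nd K m) y) * ci (-(k * nd K m)) =
      c k * ((2 * K + 1 : ℕ) : ℂ) := by
    have e1 : ∀ m : ℕ, f (rt i j (nd K m) y) * ci (-(k * nd K m)) =
        ∑ l ∈ Finset.Icc (-(K : ℤ)) K, c l * (ci (l * nd K m) * ci (-(k * nd K m))) := by
      intro m
      rw [hc, Finset.sum_mul]
      exact Finset.sum_congr rfl fun l _ => by ring
    rw [Finset.sum_congr rfl fun m _ => e1 m, Finset.sum_comm]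
    have e2 : ∀ l ∈ Finset.Icc (-(K : ℤ)) K,
        ∑ m ∈ Finset.range (2 * K + 1), c l * (ci (l * nd K m) * ci (-(k * nd K m))) =
          if l = k then c k * ((2 * K + 1 : ℕ) : ℂ) else 0 := by
      intro l hl
      rw [← Finset.mul_sum, char_sum K k l hk hl]
      split_ifs with h1
      · rw [h1]
      · rw [mul_zero]
    rw [Finset.sum_congr rfl e2, Finset.sum_ite_eq' _ k, if_pos hk]
  rw [e]
  field_simp

theorem cf_int {K : ℕ} {i j : Fin n} {f : E n → ℂ} (hf : Integrable f) (hij : i ≠ j) (k : ℤ) :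
    Integrable (cf K i j f k) := by
  unfold cf
  refine Integrable.const_mul (integrable_finsetSum _ fun m _ => ?_) _
  refine Integrable.mul_const ?_ _
  exact ((rtL hij (nd K m)).measurePreserving.integrable_comp_emb
    (rtL hij (nd K m)).toHomeomorph.measurableEmbedding).mpr hf

end ADFN_

open ADFN_ in
/-- `S1 f R` inherits the angular degree. -/
theorem p_ADFN : T_ADFN := by
  intro n K f hn hf hAD R i j hij x
  have : IsFiniteMeasure (sg n) := by
    unfold sg
    infer_instance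
  refine ⟨fun k => ∫ y, cf K i j f k y * D1 R (x - y), fun φ => ?_⟩
  rw [← rtL_apply hij, S1_iso (rtL hij φ) hf.int R x]
  have hint : ∀ k ∈ Finset.Icc (-(K : ℤ)) K,
      Integrable (fun y => cf K i j f k y * D1 R (x - y) * ci (k * φ)) := fun k _ =>
    (D2SN_.int_mul (cf_int hf.int hij k) (D2SN_.D1_cont R) (fun z => D2SN_.D1_bound R z)
      x).mul_const _
  have e : ∀ y : E n, f (rtL hij φ y) * D1 R (x - y) =
      ∑ k ∈ Finset.Icc (-(K : ℤ)) K, cf K i j f k y * D1 R (x - y) * ci (k * φ) := by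
    intro y
    rw [rtL_apply, cf_spec hAD hij y φ, Finset.sum_mul]
    exact Finset.sum_congr rfl fun k _ => by ring
  rw [integral_congr_ae (ae_of_all _ e), integral_finsetSum _ hint]
  exact Finset.sum_congr rfl fun k _ => integral_mul_const _ _

end Pool.Agent.CRN
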