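import Pool.Agent.CRN.Targets

set_option autoImplicit false

/-!
# CRN: the Helmholtz equation in polar coordinates (target HELN)
-/

namespace Pool.Agent.CRN

open MeasureTheory FourierTransform Set Filter Topology
open scoped ENNReal NNReal
open Pool.Agent.MBS (E ex S Sstar)
open Pool.Agent.CAR (e1)

namespace HELN_

variable {n : ℕ}

/-- The sphere. -/
abbrev Sp (n : ℕ) := Metric.sphere (0 : E n) 1

instance fin_sg : IsFiniteMeasure (sg n) := by
  unfold sg
  infer_instance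

/-- `e^(2 pi i t)`. -/
noncomputable def ee (t : ℝ) : ℂ := Complex.exp (2 * Real.pi * Complex.I * (t : ℂ))

lemma ee_cont : Continuous ee := by unfold ee; fun_prop

lemma ee_hda {p : ℝ → ℝ} {p' s : ℝ} (h : HasDerivAt p p' s) :
    HasDerivAt (fun s => ee (p s)) (2 * Real.pi * Complex.I * (p' : ℂ) * ee (p s)) s := by
  unfold ee
  have h1 : HasDerivAt (fun s => ((p s : ℝ) : ℂ)) (p' : ℂ) s := h.ofReal_comp
  have h2 := (h1.const_mul (2 * Real.pi * Complex.I)).cexp
  convert h2 using 1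
  ring

lemma int_of_cont {F : Sp n → ℂ} (hF : Continuous F) : Integrable F (sg n) :=
  hF.integrable_of_hasCompactSupport (HasCompactSupport.of_compactSpace F)

lemma cont_int {X : Type} [TopologicalSpace X] [FirstCountableTopology X] [LocallyCompactSpace X]
    {F : X → Sp n → ℂ} (hF : Continuous (Function.uncurry F)) :
    Continuous fun x => ∫ ω, F x ω ∂(sg n) := by
  have h := continuous_parametric_integral_of_continuous (μ := sg n) hF
    (s := univ) isCompact_univ
  simpa using h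

lemma int_hda {F F' : ℝ → Sp n → ℂ} (hF : Continuous (Function.uncurry F))
    (hF' : Continuous (Function.uncurry F'))
    (h : ∀ s ω, HasDerivAt (fun s => F s ω) (F' s ω) s) (s : ℝ) :
    HasDerivAt (fun s => ∫ ω, F s ω ∂(sg n)) (∫ ω, F' s ω ∂(sg n)) s := by
  have hK : IsCompact (Icc (s - 1) (s + 1) ×ˢ (univ : Set (Sp n))) :=
    isCompact_Icc.prod isCompact_univ
  obtain ⟨M, hM⟩ := (hK.image_of_continuousOn hF'.norm.continuousOn).bddAbove
  have hFs : ∀ t, Continuous (F t) := fun t => hF.comp (Continuous.prodMk_right t)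
  have hFs' : ∀ t, Continuous (F' t) := fun t => hF'.comp (Continuous.prodMk_right t)
  refine (hasDerivAt_integral_of_dominated_loc_of_deriv_le (μ := sg n) (F := F) (F' := F')
    (x₀ := s) (s := Icc (s - 1) (s + 1)) (bound := fun _ => M)
    (Icc_mem_nhds (by linarith) (by linarith))
    (Eventually.of_forall fun t => (hFs t).aestronglyMeasurable) (int_of_cont (hFs s))
    (hFs' s).aestronglyMeasurable (ae_of_all _ fun ω t ht => ?_) (integrable_const M)
    (ae_of_all _ fun ω t _ => h t ω)).2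
  exact hM ⟨(t, ω), ⟨ht, mem_univ _⟩, rfl⟩

/-! ### linearity of `SH` -/

lemma SH_int {h : E n → ℂ} (hh : Continuous h) (R : ℝ) (x : E n) :
    Integrable (fun ω : Sp n => h (R • (ω : E n)) * ex x (R • (ω : E n))) (sg n) := by
  refine int_of_cont ?_
  have h1 : Continuous fun ω : Sp n => R • (ω : E n) := by fun_prop
  refine (hh.comp h1).mul ?_
  exact Pool.Agent.MBS.ex_continuous.comp (continuous_const.prodMk h1)

lemma SH_sum {ι : Type} (s : Finset ι) (c : ι → E n → ℂ) (hc : ∀ i ∈ s, Continuous (c i)) (R : ℝ)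
    (x : E n) : ∑ i ∈ s, SH (c i) R x = SH (fun ξ => ∑ i ∈ s, c i ξ) R x := by
  unfold SH
  rw [← Finset.mul_sum]
  congr 1
  rw [← integral_finsetSum s fun i hi => SH_int (hc i hi) R x]
  refine integral_congr_ae (ae_of_all _ fun ω => ?_)
  simp only [Finset.sum_mul]

lemma SH_smul (c : ℂ) (h : E n → ℂ) (R : ℝ) (x : E n) :
    SH (fun ξ => c * h ξ) R x = c * SH h R x := by
  unfold SH
  simp only [mul_assoc]
  rw [integral_const_mul]
  ring

lemma SH_add {g h : E n → ℂ} (hg : Continuous g) (hh : Continuous h) (R : ℝ) (x : E n) :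
    SH (fun ξ => g ξ + h ξ) R x = SH g R x + SH h R x := by
  unfold SH
  rw [← mul_add, ← integral_add (SH_int hg R x) (SH_int hh R x)]
  congr 1
  refine integral_congr_ae (ae_of_all _ fun ω => ?_)
  simp only [add_mul]

lemma SH_zero (R : ℝ) (x : E n) : SH (fun _ => 0) R x = 0 := by
  unfold SH
  simp

lemma SH_congr {g h : E n → ℂ} (R : ℝ) (x : E n)
    (hgh : ∀ ω : Sp n, g (R • (ω : E n)) = h (R • (ω : E n))) : SH g R x = SH h R x := by
  unfold SH
  congr 1
  refine integral_congr_ae (ae_of_all _ fun ω => ?_)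
  simp only [hgh ω]

/-! ### the line -/

lemma inner_sum (x y : E n) : (inner ℝ x y : ℝ) = ∑ j, x j * y j := by
  rw [PiLp.inner_apply]
  refine Finset.sum_congr rfl fun j _ => ?_
  simp [mul_comm]

lemma SH_line {h : E n → ℂ} (hh : Continuous h) (R : ℝ) (θ : E n) (s : ℝ) :
    HasDerivAt (fun s : ℝ => SH h R (s • θ))
      (SH (fun ξ => 2 * Real.pi * Complex.I * ((inner ℝ θ ξ : ℝ) : ℂ) * h ξ) R (s • θ)) s := by
  unfold SH
  refine HasDerivAt.const_mul _ ?_
  have hw : Continuous fun p : ℝ × Sp n => R • (p.2 : E n) := by fun_prop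
  have hin : Continuous fun p : ℝ × Sp n => ((inner ℝ θ (R • (p.2 : E n)) : ℝ) : ℂ) :=
    Complex.continuous_ofReal.comp (continuous_const.inner hw)
  have hex : Continuous fun p : ℝ × Sp n => ex (p.1 • θ) (R • (p.2 : E n)) :=
    Pool.Agent.MBS.ex_continuous.comp ((continuous_fst.smul continuous_const).prodMk hw)
  refine int_hda (F := fun s (ω : Sp n) => h (R • (ω : E n)) * ex (s • θ) (R • (ω : E n)))
    (F' := fun s (ω : Sp n) => 2 * Real.pi * Complex.I * ((inner ℝ θ (R • (ω : E n)) : ℝ) : ℂ) *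
      h (R • (ω : E n)) * ex (s • θ) (R • (ω : E n))) ?_ ?_ ?_ s
  · exact (hh.comp hw).mul hex
  · exact ((continuous_const.mul hin).mul (hh.comp hw)).mul hex
  · intro t ω
    have h1 : HasDerivAt (fun s : ℝ => (inner ℝ (s • θ) (R • (ω : E n)) : ℝ))
        (inner ℝ θ (R • (ω : E n))) t := by
      simp only [real_inner_smul_left]
      simpa using (hasDerivAt_id t).mul_const (inner ℝ θ (R • (ω : E n)) : ℝ)
    have h2 := (ee_hda h1).const_mul (h (R • (ω : E n)))
    refine h2.congr_deriv ?_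
    unfold ee ex
    ring

/-! ### the rotations -/

lemma inner_rt (i j : Fin n) (hij : i ≠ j) (φ : ℝ) (x ξ : E n) :
    (inner ℝ (rt i j φ x) ξ : ℝ) = inner ℝ x ξ + (Real.cos φ - 1) * (x i * ξ i + x j * ξ j) +
      Real.sin φ * (x i * ξ j - x j * ξ i) := by
  rw [inner_sum, inner_sum]
  have h1 : ∀ k, rt i j φ x k * ξ k = x k * ξ k +
      ((if k = i then (Real.cos φ * x i - Real.sin φ * x j - x i) * ξ i else 0) +
        (if k = j then (Real.sin φ * x i + Real.cos φ * x j - x j) * ξ j else 0)) := by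
    intro k
    simp only [rt, PiLp.toLp_apply]
    by_cases hi : k = i
    · subst hi
      simp only [if_true, if_neg hij]
      ring
    · by_cases hj : k = j
      · subst hj
        simp only [if_true, if_neg hi]
        ring
      · simp only [if_neg hi, if_neg hj]
        ring
  rw [Finset.sum_congr rfl fun k _ => h1 k, Finset.sum_add_distrib, Finset.sum_add_distrib,
    Finset.sum_ite_eq' Finset.univ i, Finset.sum_ite_eq' Finset.univ j]
  simp only [Finset.mem_univ, if_true]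
  ring

/-- The coefficient of the second derivative in the plane `(i,j)`. -/
noncomputable def cf (i j : Fin n) (x ξ : E n) : ℂ :=
  -(4 * Real.pi ^ 2 * ((x i * ξ j - x j * ξ i : ℝ) : ℂ) ^ 2) -
    2 * Real.pi * Complex.I * ((x i * ξ i + x j * ξ j : ℝ) : ℂ)

lemma L2_eq {h : E n → ℂ} (hh : Continuous h) (R : ℝ) (x : E n) (i j : Fin n) (hij : i ≠ j) :
    L2 i j (SH h R) x = SH (fun ξ => cf i j x ξ * h ξ) R x := by
  unfold L2
  have hw : Continuous fun p : ℝ × Sp n => R • (p.2 : E n) := by fun_prop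
  have hB : Continuous fun p : ℝ × Sp n =>
      x i * (R • (p.2 : E n)) i + x j * (R • (p.2 : E n)) j := by
    fun_prop
  have hC : Continuous fun p : ℝ × Sp n =>
      x i * (R • (p.2 : E n)) j - x j * (R • (p.2 : E n)) i := by
    fun_prop
  have hin : Continuous fun p : ℝ × Sp n => (inner ℝ x (R • (p.2 : E n)) : ℝ) :=
    continuous_const.inner hw
  -- the phase and its derivatives
  let q : ℝ → Sp n → ℝ := fun φ ω => inner ℝ x (R • (ω : E n)) +
    (Real.cos φ - 1) * (x i * (R • (ω : E n)) i + x j * (R • (ω : E n)) j) +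
      Real.sin φ * (x i * (R • (ω : E n)) j - x j * (R • (ω : E n)) i)
  let q1 : ℝ → Sp n → ℝ := fun φ ω =>
    (-Real.sin φ) * (x i * (R • (ω : E n)) i + x j * (R • (ω : E n)) j) +
      Real.cos φ * (x i * (R • (ω : E n)) j - x j * (R • (ω : E n)) i)
  let q2 : ℝ → Sp n → ℝ := fun φ ω =>
    (-Real.cos φ) * (x i * (R • (ω : E n)) i + x j * (R • (ω : E n)) j) +
      (-Real.sin φ) * (x i * (R • (ω : E n)) j - x j * (R • (ω : E n)) i)
  have hqc : Continuous (Function.uncurry q) :=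
    (hin.add (((Real.continuous_cos.comp continuous_fst).sub continuous_const).mul hB)).add
      ((Real.continuous_sin.comp continuous_fst).mul hC)
  have hq1c : Continuous (Function.uncurry q1) :=
    ((Real.continuous_sin.comp continuous_fst).neg.mul hB).add
      ((Real.continuous_cos.comp continuous_fst).mul hC)
  have hq2c : Continuous (Function.uncurry q2) :=
    ((Real.continuous_cos.comp continuous_fst).neg.mul hB).add
      ((Real.continuous_sin.comp continuous_fst).neg.mul hC)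
  have hq : ∀ φ ω, HasDerivAt (fun φ => q φ ω) (q1 φ ω) φ := by
    intro φ ω
    have h1 := (((Real.hasDerivAt_cos φ).sub_const 1).mul_const
      (x i * (R • (ω : E n)) i + x j * (R • (ω : E n)) j)).const_add
      (inner ℝ x (R • (ω : E n)) : ℝ)
    exact h1.add ((Real.hasDerivAt_sin φ).mul_const _)
  have hq1 : ∀ φ ω, HasDerivAt (fun φ => q1 φ ω) (q2 φ ω) φ := by
    intro φ ω
    exact ((Real.hasDerivAt_sin φ).neg.mul_const _).add ((Real.hasDerivAt_cos φ).mul_const _)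
  have hhc : Continuous fun p : ℝ × Sp n => h (R • (p.2 : E n)) := hh.comp hw
  have heec : Continuous fun p : ℝ × Sp n => ee (q p.1 p.2) := ee_cont.comp hqc
  have hc1 : Continuous fun p : ℝ × Sp n => ((q1 p.1 p.2 : ℝ) : ℂ) :=
    Complex.continuous_ofReal.comp hq1c
  have hc2 : Continuous fun p : ℝ × Sp n => ((q2 p.1 p.2 : ℝ) : ℂ) :=
    Complex.continuous_ofReal.comp hq2c
  have e0 : (fun φ : ℝ => SH h R (rt i j φ x)) = fun φ => ((R ^ (n - 1) : ℝ) : ℂ) *
      ∫ ω : Sp n, h (R • (ω : E n)) * ee (q φ ω) ∂(sg n) := by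
    funext φ
    unfold SH
    congr 1
    refine integral_congr_ae (ae_of_all _ fun ω => ?_)
    simp only [ex, inner_rt i j hij, ee, q]
  have d1 : ∀ φ : ℝ, HasDerivAt (fun φ => ((R ^ (n - 1) : ℝ) : ℂ) *
      ∫ ω : Sp n, h (R • (ω : E n)) * ee (q φ ω) ∂(sg n)) (((R ^ (n - 1) : ℝ) : ℂ) *
      ∫ ω : Sp n, h (R • (ω : E n)) * (2 * Real.pi * Complex.I * ((q1 φ ω : ℝ) : ℂ) * ee (q φ ω))
        ∂(sg n)) φ := by
    intro φ
    refine HasDerivAt.const_mul _ (int_hda (F := fun φ ω => h (R • (ω : E n)) * ee (q φ ω))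
      (F' := fun φ ω => h (R • (ω : E n)) *
        (2 * Real.pi * Complex.I * ((q1 φ ω : ℝ) : ℂ) * ee (q φ ω))) (hhc.mul heec)
      (hhc.mul ((continuous_const.mul hc1).mul heec)) ?_ φ)
    intro t ω
    exact (ee_hda (hq t ω)).const_mul _
  have d2 : ∀ φ : ℝ, HasDerivAt (fun φ => ((R ^ (n - 1) : ℝ) : ℂ) *
      ∫ ω : Sp n, h (R • (ω : E n)) * (2 * Real.pi * Complex.I * ((q1 φ ω : ℝ) : ℂ) * ee (q φ ω))
        ∂(sg n)) (((R ^ (n - 1) : ℝ) : ℂ) *
      ∫ ω : Sp n, h (R • (ω : E n)) * (2 * Real.pi * Complex.I * ((q2 φ ω : ℝ) : ℂ) * ee (q φ ω) +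
        2 * Real.pi * Complex.I * ((q1 φ ω : ℝ) : ℂ) *
          (2 * Real.pi * Complex.I * ((q1 φ ω : ℝ) : ℂ) * ee (q φ ω))) ∂(sg n)) φ := by
    intro φ
    refine HasDerivAt.const_mul _ (int_hda
      (F := fun φ ω => h (R • (ω : E n)) *
        (2 * Real.pi * Complex.I * ((q1 φ ω : ℝ) : ℂ) * ee (q φ ω)))
      (F' := fun φ ω => h (R • (ω : E n)) *
        (2 * Real.pi * Complex.I * ((q2 φ ω : ℝ) : ℂ) * ee (q φ ω) +
        2 * Real.pi * Complex.I * ((q1 φ ω : ℝ) : ℂ) *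
          (2 * Real.pi * Complex.I * ((q1 φ ω : ℝ) : ℂ) * ee (q φ ω))))
      (hhc.mul ((continuous_const.mul hc1).mul heec))
      (hhc.mul (((continuous_const.mul hc2).mul heec).add ((continuous_const.mul hc1).mul
        ((continuous_const.mul hc1).mul heec)))) ?_ φ)
    intro t ω
    have h1 : HasDerivAt (fun φ => ((q1 φ ω : ℝ) : ℂ)) ((q2 t ω : ℝ) : ℂ) t :=
      (hq1 t ω).ofReal_comp
    have h2 := ((h1.const_mul (2 * Real.pi * Complex.I)).mul (ee_hda (hq t ω))).const_mul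
      (h (R • (ω : E n)))
    exact h2
  rw [e0, show deriv (fun φ => ((R ^ (n - 1) : ℝ) : ℂ) *
      ∫ ω : Sp n, h (R • (ω : E n)) * ee (q φ ω) ∂(sg n)) = _ from
    funext fun φ => (d1 φ).deriv, (d2 0).deriv]
  unfold SH
  congr 1
  refine integral_congr_ae (ae_of_all _ fun ω => ?_)
  have hx : ee (q 0 ω) = ex x (R • (ω : E n)) := by
    simp [ee, ex, q]
  have h1 : q1 0 ω = x i * (R • (ω : E n)) j - x j * (R • (ω : E n)) i := by simp [q1]
  have h2 : q2 0 ω = -(x i * (R • (ω : E n)) i + x j * (R • (ω : E n)) j) := by simp [q2]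
  simp only [hx, h1, h2, cf]
  push_cast
  linear_combination (4 * Real.pi ^ 2 * ((x i : ℂ) * ((R • (ω : E n)) j : ℂ) -
    (x j : ℂ) * ((R • (ω : E n)) i : ℂ)) ^ 2 * h (R • (ω : E n)) * ex x (R • (ω : E n))) *
    Complex.I_sq

/-! ### sums over the planes -/

lemma sym_sum (f : Fin n → Fin n → ℂ) (hf : ∀ i j, f i j = f j i) :
    2 * ∑ i, ∑ j, (if i < j then f i j else 0) = (∑ i, ∑ j, f i j) - ∑ i, f i i := by
  have h1 : ∀ i j, f i j = (if i < j then f i j else 0) + ((if j < i then f i j else 0) +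
      (if j = i then f i j else 0)) := by
    intro i j
    rcases lt_trichotomy i j with h | h | h
    · simp [h, h.ne', h.not_gt]
    · subst h; simp
    · simp [h, h.ne, h.not_gt]
  have h2 : ∑ i, ∑ j, f i j = ∑ i, ∑ j, (if i < j then f i j else 0) +
      (∑ i, ∑ j, (if j < i then f i j else 0) + ∑ i, f i i) := by
    rw [← Finset.sum_add_distrib, ← Finset.sum_add_distrib]
    refine Finset.sum_congr rfl fun i _ => ?_
    rw [Finset.sum_congr rfl fun j _ => h1 i j, Finset.sum_add_distrib, Finset.sum_add_distrib,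
      Finset.sum_ite_eq' Finset.univ i]
    simp
  have h3 : ∑ i, ∑ j, (if j < i then f i j else 0) = ∑ i, ∑ j, (if i < j then f i j else 0) := by
    rw [Finset.sum_comm]
    refine Finset.sum_congr rfl fun i _ => Finset.sum_congr rfl fun j _ => ?_
    rw [hf]
  rw [h2, h3]
  ring

lemma inner_sumC (x y : E n) : ((inner ℝ x y : ℝ) : ℂ) = ∑ j, (x j : ℂ) * (y j : ℂ) := by
  rw [inner_sum]
  push_cast
  rfl

lemma norm_sumC (x : E n) : ((‖x‖ : ℝ) : ℂ) ^ 2 = ∑ j, (x j : ℂ) ^ 2 := by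
  have h : ‖x‖ ^ 2 = ∑ j, x j * x j := by rw [← inner_sum, real_inner_self_eq_norm_sq]
  have h2 : ((‖x‖ ^ 2 : ℝ) : ℂ) = ((∑ j, x j * x j : ℝ) : ℂ) := by rw [h]
  push_cast at h2
  rw [h2]
  refine Finset.sum_congr rfl fun j _ => ?_
  ring

/-- The coefficient of the angular Laplacian. -/
noncomputable def cl (x ξ : E n) : ℂ :=
  -(4 * Real.pi ^ 2 * (((‖x‖ : ℝ) : ℂ) ^ 2 * ((‖ξ‖ : ℝ) : ℂ) ^ 2 -
    ((inner ℝ x ξ : ℝ) : ℂ) ^ 2)) -
    2 * Real.pi * Complex.I * ((n : ℂ) - 1) * ((inner ℝ x ξ : ℝ) : ℂ)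

lemma sum_cf (x ξ : E n) :
    ∑ i, ∑ j, (if i < j then cf i j x ξ else 0) = cl x ξ := by
  have hs := sym_sum (fun i j => cf i j x ξ) (by
    intro i j
    simp only [cf]
    push_cast
    ring)
  have h1 : ∑ i, cf i i x ξ = -(4 * Real.pi * Complex.I * ((inner ℝ x ξ : ℝ) : ℂ)) := by
    rw [inner_sumC, Finset.mul_sum, ← Finset.sum_neg_distrib]
    refine Finset.sum_congr rfl fun i _ => ?_
    simp only [cf]
    push_cast
    ring
  have h2 : ∑ i, ∑ j, cf i j x ξ = -(4 * Real.pi ^ 2 * (2 * (((‖x‖ : ℝ) : ℂ) ^ 2 *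
      ((‖ξ‖ : ℝ) : ℂ) ^ 2) - 2 * ((inner ℝ x ξ : ℝ) : ℂ) ^ 2)) -
      2 * Real.pi * Complex.I * (2 * n * ((inner ℝ x ξ : ℝ) : ℂ)) := by
    have e : ∀ i j, cf i j x ξ = -(4 * Real.pi ^ 2) * ((x i : ℂ) ^ 2 * (ξ j : ℂ) ^ 2) +
        (-(4 * Real.pi ^ 2) * ((ξ i : ℂ) ^ 2 * (x j : ℂ) ^ 2) +
        (8 * Real.pi ^ 2 * (((x i : ℂ) * (ξ i : ℂ)) * ((x j : ℂ) * (ξ j : ℂ))) +
        (-(2 * Real.pi * Complex.I) * ((x i : ℂ) * (ξ i : ℂ)) +
        -(2 * Real.pi * Complex.I) * ((x j : ℂ) * (ξ j : ℂ))))) := by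
      intro i j
      simp only [cf]
      push_cast
      ring
    have e2 : ∑ i, ∑ j, cf i j x ξ =
        -(4 * Real.pi ^ 2) * ((∑ i, (x i : ℂ) ^ 2) * ∑ j, (ξ j : ℂ) ^ 2) +
        (-(4 * Real.pi ^ 2) * ((∑ i, (ξ i : ℂ) ^ 2) * ∑ j, (x j : ℂ) ^ 2) +
        (8 * Real.pi ^ 2 * ((∑ i, (x i : ℂ) * (ξ i : ℂ)) * ∑ j, (x j : ℂ) * (ξ j : ℂ)) +
        (-(2 * Real.pi * Complex.I) * (n * ∑ i, (x i : ℂ) * (ξ i : ℂ)) +
        -(2 * Real.pi * Complex.I) * (n * ∑ j, (x j : ℂ) * (ξ j : ℂ))))) := by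
      have e3 : ∑ k, (x k : ℂ) * ((n : ℂ) * (ξ k : ℂ)) = n * ∑ k, (x k : ℂ) * (ξ k : ℂ) := by
        rw [Finset.mul_sum]
        exact Finset.sum_congr rfl fun k _ => by ring
      simp only [e, Finset.sum_add_distrib, ← Finset.mul_sum, ← Finset.sum_mul]
      simp only [Finset.sum_const, Finset.card_univ, Fintype.card_fin, nsmul_eq_mul]
      rw [e3]
    rw [e2, ← norm_sumC, ← norm_sumC, ← inner_sumC]
    ring
  rw [h1, h2] at hs
  have h3 : (2 : ℂ) ≠ 0 := two_ne_zero
  refine mul_left_cancel₀ h3 ?_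
  rw [hs, cl]
  ring

lemma cf_cont (i j : Fin n) (x : E n) : Continuous fun ξ : E n => cf i j x ξ := by
  unfold cf
  have h1 : Continuous fun ξ : E n => (x i * ξ j - x j * ξ i : ℝ) := by fun_prop
  have h2 : Continuous fun ξ : E n => (x i * ξ i + x j * ξ j : ℝ) := by fun_prop
  exact ((continuous_const.mul ((Complex.continuous_ofReal.comp h1).pow 2)).neg).sub
    (continuous_const.mul (Complex.continuous_ofReal.comp h2))

lemma Lam_eq {h : E n → ℂ} (hh : Continuous h) (R : ℝ) (x : E n) :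
    Lam (SH h R) x = SH (fun ξ => cl x ξ * h ξ) R x := by
  have h1 : ∀ i j : Fin n, (if i < j then L2 i j (SH h R) x else 0) =
      SH (fun ξ => (if i < j then cf i j x ξ else 0) * h ξ) R x := by
    intro i j
    by_cases hij : i < j
    · simp only [hij, if_true]
      exact L2_eq hh R x i j hij.ne
    · simp only [hij, if_false, zero_mul]
      exact (SH_zero R x).symm
  have hc : ∀ i j : Fin n, Continuous fun ξ : E n => (if i < j then cf i j x ξ else 0) * h ξ := by
    intro i j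
    by_cases hij : i < j
    · simp only [hij, if_true]
      exact (cf_cont i j x).mul hh
    · simp only [hij, if_false, zero_mul]
      exact continuous_const
  unfold Lam
  simp only [h1]
  have h2 : ∀ i : Fin n, ∑ j : Fin n, SH (fun ξ => (if i < j then cf i j x ξ else 0) * h ξ) R x =
      SH (fun ξ => ∑ j : Fin n, (if i < j then cf i j x ξ else 0) * h ξ) R x :=
    fun i => SH_sum Finset.univ _ (fun j _ => hc i j) R x
  simp only [h2]
  rw [SH_sum Finset.univ _ (fun i _ => continuous_finsetSum _ fun j _ => hc i j) R x]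
  congr 1
  funext ξ
  rw [← sum_cf, Finset.sum_mul]
  refine Finset.sum_congr rfl fun i _ => ?_
  rw [Finset.sum_mul]

end HELN_

open HELN_ in
/-- HELN. -/
theorem p_HELN : T_HELN := by
  intro n h hn hh
  refine ⟨fun R θ ρ hR hθ hρ => ?_, ?_⟩
  · have hin : Continuous fun ξ : E n => ((inner ℝ θ ξ : ℝ) : ℂ) :=
      Complex.continuous_ofReal.comp (continuous_const.inner continuous_id)
    set h1 : E n → ℂ := fun ξ => 2 * Real.pi * Complex.I * ((inner ℝ θ ξ : ℝ) : ℂ) * h ξ with hh1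
    set h2 : E n → ℂ := fun ξ => 2 * Real.pi * Complex.I * ((inner ℝ θ ξ : ℝ) : ℂ) * h1 ξ with hh2
    have hc1 : Continuous h1 := (continuous_const.mul hin).mul hh
    have hc2 : Continuous h2 := (continuous_const.mul hin).mul hc1
    have hsum : ∀ s : ℝ, (∑ j : Fin n, (θ j : ℂ) *
        SH (fun ξ => 2 * Real.pi * Complex.I * (ξ j : ℂ) * h ξ) R (s • θ)) =
        SH h1 R (s • θ) := by
      intro s
      simp only [← SH_smul]
      rw [SH_sum Finset.univ (fun (j : Fin n) ξ => (θ j : ℂ) *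
        (2 * Real.pi * Complex.I * (ξ j : ℂ) * h ξ)) ?_ R (s • θ)]
      · congr 1
        funext ξ
        rw [hh1]
        simp only
        rw [inner_sumC, Finset.mul_sum, Finset.sum_mul]
        refine Finset.sum_congr rfl fun j _ => ?_
        ring
      · intro j _
        have hj : Continuous fun ξ : E n => (ξ j : ℂ) :=
          Complex.continuous_ofReal.comp (by fun_prop)
        exact continuous_const.mul ((continuous_const.mul hj).mul hh)
    have hWD : ∀ s : ℝ, WD h R θ s = ((s ^ (((n : ℝ) - 1) / 2) : ℝ) : ℂ) *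
        (SH h1 R (s • θ) + ((((n : ℝ) - 1) / 2 / s : ℝ) : ℂ) * SH h R (s • θ)) := by
      intro s
      unfold WD
      rw [hsum]
    set a : ℝ := ((n : ℝ) - 1) / 2 with ha
    have hp : HasDerivAt (fun s : ℝ => ((s ^ a : ℝ) : ℂ)) ((a * ρ ^ (a - 1) : ℝ) : ℂ) ρ :=
      (Real.hasDerivAt_rpow_const (Or.inl hρ.ne')).ofReal_comp
    have hd : HasDerivAt (fun s : ℝ => ((a / s : ℝ) : ℂ)) ((-(a / ρ ^ 2) : ℝ) : ℂ) ρ := by
      have h3 : HasDerivAt (fun s : ℝ => a / s) (-(a / ρ ^ 2)) ρ := by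
        have h4 := (hasDerivAt_inv hρ.ne').const_mul a
        exact h4.congr_deriv (by ring)
      exact h3.ofReal_comp
    have hu := SH_line hh R θ ρ
    have hu1 := SH_line hc1 R θ ρ
    have hr1 : ρ ^ (a - 1) = ρ ^ a / ρ := Real.rpow_sub_one hρ.ne' a
    have hr2 : ρ ^ (a - 2) = ρ ^ a / ρ ^ 2 := by
      rw [Real.rpow_sub hρ, Real.rpow_two]
    have hρC : (ρ : ℂ) ≠ 0 := by exact_mod_cast hρ.ne'
    refine ⟨?_, ?_⟩
    · have key := hp.mul hu
      rw [hWD]
      refine key.congr_deriv ?_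
      have hX : SH (fun ξ => 2 * Real.pi * Complex.I * ((inner ℝ θ ξ : ℝ) : ℂ) * h ξ) R (ρ • θ) =
        SH h1 R (ρ • θ) := rfl
      rw [hr1, hX]
      push_cast
      field_simp
      ring
    · have key := hp.mul (hu1.add (hd.mul hu))
      have hfun : (fun s : ℝ => WD h R θ s) = fun s : ℝ => ((s ^ a : ℝ) : ℂ) *
        (SH h1 R (s • θ) + ((a / s : ℝ) : ℂ) * SH h R (s • θ)) := funext hWD
      rw [hfun]
      have hL : Lam (SH h R) (ρ • θ) = -(4 * Real.pi ^ 2 * ρ ^ 2 * R ^ 2) * SH h R (ρ • θ) +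
          (-(ρ : ℂ) ^ 2 * SH h2 R (ρ • θ) +
          -(((n : ℂ) - 1) * ρ) * SH h1 R (ρ • θ)) := by
        have hk : ∀ (c : ℂ) (g : E n → ℂ), Continuous g → Continuous fun ξ => c * g ξ :=
          fun c g hg => continuous_const.mul hg
        have hA := SH_add (g := fun ξ => -(ρ : ℂ) ^ 2 * h2 ξ)
          (h := fun ξ => -(((n : ℂ) - 1) * ρ) * h1 ξ) (hk _ h2 hc2) (hk _ h1 hc1) R (ρ • θ)
        have hB := SH_add (g := fun ξ => -(4 * Real.pi ^ 2 * ρ ^ 2 * R ^ 2) * h ξ)
          (h := fun ξ => -(ρ : ℂ) ^ 2 * h2 ξ + -(((n : ℂ) - 1) * ρ) * h1 ξ) (hk _ h hh)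
          ((hk _ h2 hc2).add (hk _ h1 hc1)) R (ρ • θ)
        rw [Lam_eq hh, ← SH_smul, ← SH_smul, ← SH_smul, ← hA, ← hB]
        refine SH_congr R (ρ • θ) fun ω => ?_
        have hω : ‖(R • (ω : E n))‖ = R := by
          rw [norm_smul, Real.norm_of_nonneg hR.le]
          have : ‖(ω : E n)‖ = 1 := by simp
          rw [this, mul_one]
        have hx : ‖ρ • θ‖ = ρ := by
          rw [norm_smul, Real.norm_of_nonneg hρ.le, hθ, mul_one]
        rw [cl, hω, hx, real_inner_smul_left]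
        simp only [hh1, hh2]
        push_cast
        linear_combination (4 * Real.pi ^ 2 * (ρ : ℂ) ^ 2 *
          ((inner ℝ θ (R • (ω : E n)) : ℝ) : ℂ) ^ 2 * h (R • (ω : E n))) * Complex.I_sq
      rw [hL]
      refine key.congr_deriv ?_
      have hX : SH (fun ξ => 2 * Real.pi * Complex.I * ((inner ℝ θ ξ : ℝ) : ℂ) * h ξ) R (ρ • θ) =
        SH h1 R (ρ • θ) := rfl
      have hX2 : SH (fun ξ => 2 * Real.pi * Complex.I * ((inner ℝ θ ξ : ℝ) : ℂ) * h1 ξ) R
        (ρ • θ) = SH h2 R (ρ • θ) := rfl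
      simp only [Pi.add_apply, Pi.mul_apply]
      rw [hr1, hr2, hX, hX2]
      have hn' : ((n : ℝ) - 1) * (n - 3) / 4 = a * (a - 1) := by rw [ha]; ring
      rw [hn']
      have hn2 : (n : ℂ) - 1 = 2 * (a : ℂ) := by rw [ha]; push_cast; ring
      rw [hn2]
      push_cast
      field_simp
      ring
  · have e : (fun p : ℝ × E n => Lam (SH h p.1) p.2) = fun p : ℝ × E n =>
        ((p.1 ^ (n - 1) : ℝ) : ℂ) * ∫ ω : Sp n, cl p.2 (p.1 • (ω : E n)) * h (p.1 • (ω : E n)) *
          ex p.2 (p.1 • (ω : E n)) ∂(sg n) := by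
      funext p
      rw [Lam_eq hh]
      rfl
    rw [e]
    refine Continuous.mul ?_ ?_
    · exact Complex.continuous_ofReal.comp (continuous_fst.pow _)
    · have hw : Continuous fun q : (ℝ × E n) × Sp n => q.1.1 • (q.2 : E n) := by fun_prop
      have hx : Continuous fun q : (ℝ × E n) × Sp n => q.1.2 := by fun_prop
      refine cont_int (F := fun (p : ℝ × E n) (ω : Sp n) =>
        cl p.2 (p.1 • (ω : E n)) * h (p.1 • (ω : E n)) * ex p.2 (p.1 • (ω : E n))) ?_
      refine (Continuous.mul ?_ (hh.comp hw)).mul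
        (Pool.Agent.MBS.ex_continuous.comp (hx.prodMk hw))
      have hin : Continuous fun q : (ℝ × E n) × Sp n =>
          ((inner ℝ q.1.2 (q.1.1 • (q.2 : E n)) : ℝ) : ℂ) :=
        Complex.continuous_ofReal.comp (hx.inner hw)
      have hnx : Continuous fun q : (ℝ × E n) × Sp n => ((‖q.1.2‖ : ℝ) : ℂ) :=
        Complex.continuous_ofReal.comp hx.norm
      have hnw : Continuous fun q : (ℝ × E n) × Sp n => ((‖q.1.1 • (q.2 : E n)‖ : ℝ) : ℂ) :=
        Complex.continuous_ofReal.comp hw.norm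
      exact ((continuous_const.mul (((hnx.pow 2).mul (hnw.pow 2)).sub (hin.pow 2))).neg).sub
        (continuous_const.mul hin)

end Pool.Agent.CRN
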