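import Pool.Agent.CRN.Targets

set_option autoImplicit false

/-!
# Block RAYN: the strong Carleson theorem for one-sided integrals
-/

namespace Pool.Agent.CRN

open MeasureTheory FourierTransform Set Filter Topology
open scoped ENNReal NNReal
open Pool.Agent.CAR (e1)

namespace RAYN_

theorem e1_norm (x : ℝ) : ‖e1 x‖ = 1 := by
  unfold e1
  rw [show (2 * Real.pi * Complex.I * (x : ℂ) : ℂ) = ((2 * Real.pi * x : ℝ) : ℂ) * Complex.I
    from by push_cast; ring]
  exact Complex.norm_exp_ofReal_mul_I _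

theorem e1_continuous : Continuous e1 := by
  unfold e1
  fun_prop

/-- The truncated integrals. -/
noncomputable def F (G : ℝ → ℂ) (a R ρ : ℝ) : ℂ := ∫ r in Ioc a R, G r * e1 (r * ρ)

theorem intOn {G : ℝ → ℂ} (h : MemLp G 2 volume) (ρ : ℝ) :
    LocallyIntegrable (fun r => G r * e1 (r * ρ)) volume := by
  have h1 : LocallyIntegrable G volume := h.locallyIntegrable (by norm_num)
  have hm : Continuous (fun r : ℝ => e1 (r * ρ)) :=
    e1_continuous.comp (continuous_id.mul continuous_const)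
  intro x
  obtain ⟨s, hs, hi⟩ := h1 x
  refine ⟨s, hs, ?_⟩
  exact hi.mul_bdd (c := 1) hm.aestronglyMeasurable (ae_of_all _ fun r => (e1_norm _).le)

theorem F_eq {G : ℝ → ℂ} {a R ρ : ℝ} :
    F G a R ρ = ∫ r in a..(max a R), G r * e1 (r * ρ) := by
  unfold F
  rw [intervalIntegral.integral_of_le (le_max_left _ _)]
  rcases le_total a R with h | h
  · rw [max_eq_right h]
  · rw [max_eq_left h, Ioc_eq_empty (not_lt.2 h), Ioc_self]

theorem F_cont_R {G : ℝ → ℂ} (h : MemLp G 2 volume) (a ρ : ℝ) :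
    Continuous (fun R => F G a R ρ) := by
  have h1 := intOn h ρ
  have h2 : Continuous (fun b : ℝ => ∫ r in a..b, G r * e1 (r * ρ)) :=
    intervalIntegral.continuous_primitive (fun x y =>
      (h1.integrableOn_isCompact isCompact_uIcc).intervalIntegrable) a
  have h3 : (fun R => F G a R ρ) =
      fun R => ∫ r in a..(max a R), G r * e1 (r * ρ) := funext fun R => F_eq
  rw [h3]
  exact h2.comp (continuous_const.max continuous_id)

theorem F_cont_rho {G : ℝ → ℂ} (h : MemLp G 2 volume) (a R : ℝ) :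
    Continuous (fun ρ => F G a R ρ) := by
  have h1 : LocallyIntegrable G volume := h.locallyIntegrable (by norm_num)
  have h2 : Integrable G (volume.restrict (Ioc a R)) :=
    (h1.integrableOn_isCompact isCompact_Icc).mono_set Ioc_subset_Icc_self
  unfold F
  refine continuous_of_dominated (bound := fun r => ‖G r‖) (fun ρ => ?_) (fun ρ => ?_)
    h2.norm ?_
  · have hm : Continuous (fun r : ℝ => e1 (r * ρ)) :=
      e1_continuous.comp (continuous_id.mul continuous_const)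
    exact h2.1.mul hm.aestronglyMeasurable
  · refine ae_of_all _ fun r => ?_
    rw [norm_mul, e1_norm, mul_one]
  · refine ae_of_all _ fun r => ?_
    exact continuous_const.mul (e1_continuous.comp (continuous_const.mul continuous_id))

/-- Suprema over rational radii. -/
theorem iSup_rat {f : ℝ → ℝ≥0∞} (hf : Continuous f) : ⨆ R : ℝ, f R = ⨆ q : ℚ, f (q : ℝ) := by
  refine le_antisymm (iSup_le fun R => ?_) (iSup_le fun q => le_iSup f (q : ℝ))
  have hc : IsClosed {R : ℝ | f R ≤ ⨆ q : ℚ, f (q : ℝ)} := isClosed_le hf continuous_const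
  exact Rat.denseRange_cast.induction_on (p := fun R : ℝ => f R ≤ ⨆ q : ℚ, f (q : ℝ)) R hc
    (fun q => le_iSup (fun q : ℚ => f (q : ℝ)) q)

/-- The truncated maximal function. -/
noncomputable def HN (G : ℝ → ℂ) (a : ℝ) (n : ℕ) (ρ : ℝ) : ℝ≥0∞ :=
  ⨆ R : ℝ, ‖F G a (min R n) ρ‖ₑ

theorem HN_meas {G : ℝ → ℂ} (h : MemLp G 2 volume) (a : ℝ) (n : ℕ) :
    Measurable (HN G a n) := by
  have h1 : HN G a n = fun ρ => ⨆ q : ℚ, ‖F G a (min (q : ℝ) n) ρ‖ₑ := by
    funext ρ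
    unfold HN
    exact iSup_rat (((F_cont_R h a ρ).comp (continuous_id.min continuous_const)).enorm)
  rw [h1]
  exact Measurable.iSup fun q => (F_cont_rho h a _).enorm.measurable

theorem HN_mono (G : ℝ → ℂ) (a : ℝ) : Monotone (HN G a) := by
  intro n m hnm ρ
  refine iSup_le fun R => ?_
  have h1 : (n : ℝ) ≤ m := by exact_mod_cast hnm
  have h2 : min (min R (n : ℝ)) (m : ℝ) = min R n := min_eq_left ((min_le_right _ _).trans h1)
  have h3 := le_iSup (fun R : ℝ => ‖F G a (min R m) ρ‖ₑ) (min R n)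
  rw [h2] at h3
  exact h3

theorem HN_sup (G : ℝ → ℂ) (a ρ : ℝ) : ⨆ R : ℝ, ‖F G a R ρ‖ₑ = ⨆ n : ℕ, HN G a n ρ := by
  refine le_antisymm (iSup_le fun R => ?_) (iSup_le fun n => iSup_le fun R => ?_)
  · obtain ⟨n, hn⟩ := exists_nat_ge R
    refine le_trans ?_ (le_iSup (fun n : ℕ => HN G a n ρ) n)
    have h3 := le_iSup (fun R : ℝ => ‖F G a (min R n) ρ‖ₑ) R
    rw [min_eq_left hn] at h3
    exact h3
  · exact le_iSup (fun R : ℝ => ‖F G a R ρ‖ₑ) (min R n)

/-- The truncated function. -/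
noncomputable def gn (G : ℝ → ℂ) (a : ℝ) (n : ℕ) : ℝ → ℂ := (Ioc a (n : ℝ)).indicator G

theorem F_gn (G : ℝ → ℂ) (a : ℝ) (n : ℕ) (R ρ : ℝ) (hR : R ≤ n) :
    F G a R ρ = ∫ r in Iio R, gn G a n r * e1 (ρ * r) := by
  have h1 : (fun r => gn G a n r * e1 (ρ * r)) =
      (Ioc a (n : ℝ)).indicator (fun r => G r * e1 (r * ρ)) := by
    funext r
    unfold gn
    by_cases hr : r ∈ Ioc a (n : ℝ)
    · rw [indicator_of_mem hr, indicator_of_mem hr, mul_comm ρ r]
    · rw [indicator_of_notMem hr, indicator_of_notMem hr, zero_mul]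
  rw [h1, setIntegral_indicator measurableSet_Ioc]
  have h2 : Iio R ∩ Ioc a (n : ℝ) = Ioo a R := by
    ext r
    simp only [mem_inter_iff, mem_Iio, mem_Ioc, mem_Ioo]
    constructor
    · rintro ⟨h3, h4, -⟩
      exact ⟨h4, h3⟩
    · rintro ⟨h3, h4⟩
      exact ⟨h4, h3, h4.le.trans hR⟩
  rw [h2, ← integral_Ioc_eq_integral_Ioo]
  rfl

/-- The bound for square integrable functions. -/
theorem main {C : ℝ≥0} (hC : ∀ g : ℝ → ℂ, Measurable g → Integrable g →
    Integrable (fun ξ => ‖g ξ‖ ^ 2) →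
    ∫⁻ x, (⨆ m : ℝ, ‖∫ ξ in Iio m, g ξ * e1 (x * ξ)‖ₑ) ^ 2 ≤ C * ∫⁻ ξ, ‖g ξ‖ₑ ^ 2)
    {G : ℝ → ℂ} (hm : Measurable G) (h : MemLp G 2 volume) (a : ℝ) :
    ∫⁻ ρ, (⨆ R : ℝ, ‖F G a R ρ‖ₑ) ^ 2 ≤ C * ∫⁻ ξ, ‖G ξ‖ₑ ^ 2 := by
  have h1 : ∫⁻ ρ, (⨆ R : ℝ, ‖F G a R ρ‖ₑ) ^ 2 = ⨆ n : ℕ, ∫⁻ ρ, HN G a n ρ ^ 2 := by
    rw [← lintegral_iSup (fun n => (HN_meas h a n).pow_const 2)
      (fun n m hnm ρ => pow_le_pow_left' (HN_mono G a hnm ρ) 2)]
    refine lintegral_congr fun ρ => ?_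
    rw [HN_sup G a ρ, ENNReal.iSup_pow]
  rw [h1]
  refine iSup_le fun n => ?_
  have hGl : LocallyIntegrable G volume := h.locallyIntegrable (by norm_num)
  have hgm : Measurable (gn G a n) := hm.indicator measurableSet_Ioc
  have hgi : Integrable (gn G a n) :=
    ((hGl.integrableOn_isCompact isCompact_Icc).mono_set
      Ioc_subset_Icc_self).integrable_indicator measurableSet_Ioc
  have hg2 : MemLp (gn G a n) 2 volume := h.indicator measurableSet_Ioc
  have hgs : Integrable (fun ξ => ‖gn G a n ξ‖ ^ 2) :=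
    (memLp_two_iff_integrable_sq_norm hgm.aestronglyMeasurable).1 hg2
  have key := hC (gn G a n) hgm hgi hgs
  have h2 : ∫⁻ ρ, HN G a n ρ ^ 2 ≤
      ∫⁻ x, (⨆ m : ℝ, ‖∫ ξ in Iio m, gn G a n ξ * e1 (x * ξ)‖ₑ) ^ 2 := by
    refine lintegral_mono fun ρ => pow_le_pow_left' (iSup_le fun R => ?_) 2
    have h3 := le_iSup (fun m : ℝ => ‖∫ ξ in Iio m, gn G a n ξ * e1 (ρ * ξ)‖ₑ) (min R n)
    rw [← F_gn G a n (min R n) ρ (min_le_right _ _)] at h3
    exact h3
  have h3 : ∫⁻ ξ, ‖gn G a n ξ‖ₑ ^ 2 ≤ ∫⁻ ξ, ‖G ξ‖ₑ ^ 2 := by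
    refine lintegral_mono fun r => ?_
    unfold gn
    by_cases hr : r ∈ Ioc a (n : ℝ)
    · rw [indicator_of_mem hr]
    · rw [indicator_of_notMem hr]
      simp
  refine (h2.trans key).trans ?_
  gcongr

end RAYN_

open RAYN_ in
/-- The strong Carleson theorem for one-sided integrals. -/
theorem p_RAYN : T_RAYN := by
  rintro ⟨C, hC⟩
  refine ⟨C + 1, fun B a s hB hs => ?_⟩
  set J : ℝ≥0∞ := ∫⁻ r in Ioi a, ‖B r‖ₑ ^ 2 with hJ
  by_cases hf : J = ⊤
  · rw [hf, ENNReal.mul_top (by simp)]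
    exact le_top
  set G : ℝ → ℂ := (Ioi a).indicator B with hG
  have hGm : Measurable G := hB.indicator measurableSet_Ioi
  have hJ2 : ∫⁻ r, ‖G r‖ₑ ^ 2 = J := by
    rw [hJ, ← lintegral_indicator measurableSet_Ioi]
    refine lintegral_congr fun r => ?_
    rw [hG]
    by_cases hr : r ∈ Ioi a
    · rw [indicator_of_mem hr, indicator_of_mem hr]
    · rw [indicator_of_notMem hr, indicator_of_notMem hr]
      simp
  have hG2 : MemLp G 2 volume := by
    refine ⟨hGm.aestronglyMeasurable, ?_⟩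
    rw [eLpNorm_lt_top_iff_lintegral_rpow_enorm_lt_top (by norm_num) (by norm_num)]
    have h1 : ∀ r, ‖G r‖ₑ ^ ((2 : ℝ≥0∞).toReal) = ‖G r‖ₑ ^ 2 := by
      intro r
      rw [ENNReal.toReal_ofNat, ENNReal.rpow_ofNat]
    rw [lintegral_congr h1, hJ2]
    exact lt_top_iff_ne_top.mpr hf
  have hF : ∀ R ρ : ℝ, F G a R ρ = ∫ r in Ioc a R, B r * e1 (r * ρ) := by
    intro R ρ
    unfold F
    refine setIntegral_congr_fun measurableSet_Ioc fun r hr => ?_
    simp only [hG]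
    rw [indicator_of_mem (show r ∈ Ioi a from hr.1)]
  have key := main hC hGm hG2 a
  rw [hJ2] at key
  have h2 : ∫⁻ ρ, (⨆ R : ℝ, ‖∫ r in Ioc a R, B r * e1 (s * (r * ρ))‖ₑ) ^ 2 =
      ∫⁻ ρ, (⨆ R : ℝ, ‖F G a R ρ‖ₑ) ^ 2 := by
    rcases hs with hs | hs
    · refine lintegral_congr fun ρ => ?_
      congr 1
      refine iSup_congr fun R => ?_
      rw [hF, hs]
      simp only [one_mul]
    · rw [← lintegral_neg_eq_self (fun ρ => (⨆ R : ℝ, ‖F G a R ρ‖ₑ) ^ 2)]
      refine lintegral_congr fun ρ => ?_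
      congr 1
      refine iSup_congr fun R => ?_
      rw [hF, hs]
      have h3 : ∀ r : ℝ, -1 * (r * ρ) = r * -ρ := fun r => by ring
      simp only [h3]
  rw [h2]
  refine key.trans ?_
  gcongr
  simp

end Pool.Agent.CRN
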