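import Pool.Agent.CRN.Targets

set_option autoImplicit false

/-!
# AHN: the local extension estimate (Agmon–Hörmander)
-/

namespace Pool.Agent.CRN

open MeasureTheory FourierTransform Set Filter Topology
open scoped ENNReal NNReal
open Pool.Agent.MBS (E ex S Sstar)
open Pool.Agent.CAR (e1)

namespace AHN_

variable {n : ℕ}

/-- Gaussian -/
noncomputable def gs (a : ℝ) (x : E n) : ℝ := Real.exp (-(a * ‖x‖ ^ 2))

lemma gs_pos (a : ℝ) (x : E n) : 0 < gs a x := Real.exp_pos _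

lemma gs_cont (a : ℝ) : Continuous (fun x : E n => gs a x) := by
  unfold gs
  fun_prop

lemma gs_int (a : ℝ) (ha : 0 < a) : Integrable (fun x : E n => gs a x) := by
  have h := GaussianFourier.integrable_cexp_neg_mul_sq_norm_add (V := E n) (b := (a : ℂ))
    (by simpa using ha) 0 0
  refine h.norm.congr (ae_of_all _ fun x => ?_)
  show ‖Complex.exp (-(a : ℂ) * (‖x‖ : ℂ) ^ 2 + 0 * _)‖ = gs a x
  rw [zero_mul, add_zero, Complex.norm_exp]
  unfold gs
  congr 1
  have : (-(a : ℂ) * (‖x‖ : ℂ) ^ 2) = ((-(a * ‖x‖ ^ 2) : ℝ) : ℂ) := by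
    push_cast
    ring
  rw [this, Complex.ofReal_re]

lemma gs_four (ζ : E n) : ∫ x : E n, ex x ζ * (gs Real.pi x : ℂ) = (gs Real.pi ζ : ℂ) := by
  have h := GaussianFourier.integral_cexp_neg_mul_sq_norm_add (V := E n) (b := (Real.pi : ℂ))
    (by simpa using Real.pi_pos) (2 * Real.pi * Complex.I) ζ
  have hp : (Real.pi : ℂ) ≠ 0 := by exact_mod_cast Real.pi_ne_zero
  have e1 : ∀ x : E n, ex x ζ * (gs Real.pi x : ℂ) = Complex.exp (-(Real.pi : ℂ) * (‖x‖ : ℂ) ^ 2 +
      (2 * Real.pi * Complex.I) * ((inner ℝ ζ x : ℝ) : ℂ)) := by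
    intro x
    unfold ex gs
    rw [Complex.ofReal_exp, ← Complex.exp_add, real_inner_comm]
    congr 1
    push_cast
    ring
  simp only [e1]
  rw [h, div_self hp, Complex.one_cpow, one_mul]
  unfold gs
  rw [Complex.ofReal_exp]
  congr 1
  push_cast
  field_simp
  rw [Complex.I_sq]
  ring

lemma ex_mul_conj (x a b : E n) : ex x a * (starRingEnd ℂ) (ex x b) = ex x (a - b) := by
  unfold ex
  rw [← Complex.exp_conj, ← Complex.exp_add]
  congr 1
  rw [inner_sub_right]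
  simp only [map_mul, Complex.conj_ofReal, Complex.conj_I, map_ofNat]
  push_cast
  ring

lemma norm_ex' (x ξ : E n) : ‖ex x ξ‖ = 1 := by
  unfold ex
  rw [show (2 * (Real.pi : ℂ) * Complex.I * ((inner ℝ x ξ : ℝ) : ℂ)) =
    ((2 * Real.pi * inner ℝ x ξ : ℝ) : ℂ) * Complex.I by push_cast; ring]
  exact Complex.norm_exp_ofReal_mul_I _

lemma cont_ex : Continuous (fun p : E n × E n => ex p.1 p.2) := by
  unfold ex
  fun_prop

/-- the quadratic estimate for one radius -/
lemma core (R : ℝ) (σ : Measure (Metric.sphere (0 : E n) 1)) [IsFiniteMeasure σ]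
    (g : Metric.sphere (0 : E n) 1 → ℂ) (hg : Integrable g σ) :
    ∫⁻ x : E n, ‖∫ ω, g ω * ex x (R • (ω : E n)) ∂σ‖ₑ ^ 2 * ENNReal.ofReal (gs Real.pi x) ≤
      ∫⁻ z, ‖g z.1‖ₑ * ‖g z.2‖ₑ * ENNReal.ofReal (gs Real.pi (R • ((z.1 : E n) - (z.2 : E n))))
        ∂(σ.prod σ) := by
  set Φ : Metric.sphere (0 : E n) 1 × Metric.sphere (0 : E n) 1 → ℂ :=
    fun z => g z.1 * (starRingEnd ℂ) (g z.2) with hΦ
  have hgc : Integrable (fun ω => (starRingEnd ℂ) (g ω)) σ := by
    refine hg.norm.mono' ?_ (ae_of_all _ fun ω => ?_)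
    · exact Complex.continuous_conj.comp_aestronglyMeasurable hg.aestronglyMeasurable
    · rw [RCLike.norm_conj]
  have hΦi : Integrable Φ (σ.prod σ) := hg.mul_prod hgc
  set I : E n → ℂ := fun x => ∫ ω, g ω * ex x (R • (ω : E n)) ∂σ with hI
  set H : E n × (Metric.sphere (0 : E n) 1 × Metric.sphere (0 : E n) 1) → ℂ := fun p =>
    ((gs Real.pi p.1 : ℂ) * Φ p.2) * ex p.1 (R • ((p.2.1 : E n) - (p.2.2 : E n))) with hH
  have hHi : Integrable H ((volume : Measure (E n)).prod (σ.prod σ)) := by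
    have h1 : Integrable (fun p : E n × (Metric.sphere (0 : E n) 1 × Metric.sphere (0 : E n) 1) =>
        (gs Real.pi p.1 : ℂ) * Φ p.2) ((volume : Measure (E n)).prod (σ.prod σ)) :=
      ((gs_int Real.pi Real.pi_pos).ofReal (𝕜 := ℂ)).mul_prod hΦi
    refine Integrable.mul_bdd (c := 1) h1 ?_ (ae_of_all _ fun p => (norm_ex' _ _).le)
    have hc : Continuous (fun p : E n × (Metric.sphere (0 : E n) 1 ×
        Metric.sphere (0 : E n) 1) => ex p.1 (R • ((p.2.1 : E n) - (p.2.2 : E n)))) := by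
      refine cont_ex.comp (continuous_fst.prodMk ?_)
      exact ((continuous_subtype_val.comp (continuous_fst.comp continuous_snd)).sub
        (continuous_subtype_val.comp (continuous_snd.comp continuous_snd))).const_smul R
    exact hc.aestronglyMeasurable
  have hx : ∀ x, ∫ z, H (x, z) ∂(σ.prod σ) = ((‖I x‖ ^ 2 * gs Real.pi x : ℝ) : ℂ) := by
    intro x
    have e1 : ((‖I x‖ ^ 2 : ℝ) : ℂ) = I x * (starRingEnd ℂ) (I x) := by
      rw [Complex.mul_conj, Complex.normSq_eq_norm_sq]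
    have e2 : (starRingEnd ℂ) (I x) =
        ∫ ω, (starRingEnd ℂ) (g ω) * (starRingEnd ℂ) (ex x (R • (ω : E n))) ∂σ := by
      simp only [hI]
      rw [← integral_conj]
      refine integral_congr_ae (ae_of_all _ fun ω => ?_)
      show (starRingEnd ℂ) (g ω * ex x (R • (ω : E n))) = _
      rw [map_mul]
    rw [Complex.ofReal_mul, e1, e2]
    simp only [hI]
    rw [← integral_prod_mul, ← integral_mul_const]
    refine integral_congr_ae (ae_of_all _ fun z => ?_)
    show ((gs Real.pi x : ℂ) * (g z.1 * (starRingEnd ℂ) (g z.2))) *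
      ex x (R • ((z.1 : E n) - (z.2 : E n))) = _
    rw [smul_sub, ← ex_mul_conj]
    ring
  have hz : ∀ z, ∫ x, H (x, z) = Φ z * (gs Real.pi (R • ((z.1 : E n) - (z.2 : E n))) : ℂ) := by
    intro z
    rw [← gs_four, ← integral_const_mul]
    refine integral_congr_ae (ae_of_all _ fun x => ?_)
    show ((gs Real.pi x : ℂ) * Φ z) * ex x (R • ((z.1 : E n) - (z.2 : E n))) = _
    ring
  have hswap : ∫ x, ∫ z, H (x, z) ∂(σ.prod σ) = ∫ z, (∫ x, H (x, z)) ∂(σ.prod σ) :=
    integral_integral_swap (f := fun x z => H (x, z)) hHi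
  simp only [hx, hz] at hswap
  have hFi : Integrable (fun x => ‖I x‖ ^ 2 * gs Real.pi x) := by
    have h1 := hHi.integral_prod_left
    have h2 : Integrable (fun x => ((‖I x‖ ^ 2 * gs Real.pi x : ℝ) : ℂ)) :=
      h1.congr (ae_of_all _ hx)
    have h3 := h2.re
    refine h3.congr (ae_of_all _ fun x => ?_)
    exact Complex.ofReal_re _
  have hleft : ∫⁻ x : E n, ‖I x‖ₑ ^ 2 * ENNReal.ofReal (gs Real.pi x) =
      ‖∫ x, ((‖I x‖ ^ 2 * gs Real.pi x : ℝ) : ℂ)‖ₑ := by
    rw [integral_complex_ofReal, ← ofReal_norm, Complex.norm_real, Real.norm_eq_abs,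
      abs_of_nonneg (integral_nonneg fun x => mul_nonneg (by positivity) (gs_pos _ _).le),
      ofReal_integral_eq_lintegral_ofReal hFi
        (ae_of_all _ fun x => mul_nonneg (by positivity) (gs_pos _ _).le)]
    refine lintegral_congr fun x => ?_
    rw [ENNReal.ofReal_mul (by positivity), ENNReal.ofReal_pow (norm_nonneg _), ofReal_norm]
  show ∫⁻ x : E n, ‖I x‖ₑ ^ 2 * ENNReal.ofReal (gs Real.pi x) ≤ _
  rw [hleft, hswap]
  refine (enorm_integral_le_lintegral_enorm _).trans (lintegral_mono fun z => ?_)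
  show ‖Φ z * (gs Real.pi (R • ((z.1 : E n) - (z.2 : E n))) : ℂ)‖ₑ ≤ _
  rw [enorm_mul, hΦ]
  simp only
  rw [enorm_mul]
  refine mul_le_mul' (mul_le_mul' le_rfl ?_) ?_
  · rw [← ofReal_norm, RCLike.norm_conj, ofReal_norm]
  · rw [← ofReal_norm, Complex.norm_real, Real.norm_eq_abs, abs_of_pos (gs_pos _ _)]

/-- the constant -/
noncomputable def M (n : ℕ) : ℝ≥0∞ :=
  ∫⁻ ζ : E n, ENNReal.ofReal (Real.exp Real.pi * gs (Real.pi / 2) ζ)

lemma M_lt : M n < ∞ := by
  unfold M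
  have h1 : Integrable (fun ζ : E n => Real.exp Real.pi * gs (Real.pi / 2) ζ) :=
    (gs_int (Real.pi / 2) (by positivity)).const_mul _
  rw [← ofReal_integral_eq_lintegral_ofReal h1
    (ae_of_all _ fun x => mul_nonneg (Real.exp_pos _).le (gs_pos _ _).le)]
  exact ENNReal.ofReal_lt_top

/-- the Schur bound -/
lemma schur (h1 : T_POLN) (hn : 2 ≤ n) (R : ℝ) (hR : 0 < R)
    (ω : Metric.sphere (0 : E n) 1) :
    ENNReal.ofReal (R ^ (n - 1)) *
      ∫⁻ ω', ENNReal.ofReal (gs Real.pi (R • ((ω : E n) - (ω' : E n)))) ∂(sg n) ≤ M n := by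
  have hpol := (h1 n (by omega)).1
  set F : E n → ℝ≥0∞ := fun ζ =>
    ENNReal.ofReal (Real.exp Real.pi * gs (Real.pi / 2) (R • (ω : E n) - ζ)) with hF
  have hFm : Measurable F := by
    refine ENNReal.measurable_ofReal.comp (Measurable.const_mul ?_ _)
    exact (gs_cont _).measurable.comp (measurable_const.sub measurable_id)
  have hpt : ∀ r ∈ Ioc R (R + 1), ENNReal.ofReal (R ^ (n - 1)) *
      ∫⁻ ω', ENNReal.ofReal (gs Real.pi (R • ((ω : E n) - (ω' : E n)))) ∂(sg n) ≤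
      ∫⁻ ω', ENNReal.ofReal (r ^ (n - 1)) * F (r • (ω' : E n)) ∂(sg n) := by
    intro r hr
    rw [← lintegral_const_mul']
    swap
    · exact ENNReal.ofReal_ne_top
    refine lintegral_mono fun ω' => mul_le_mul' ?_ ?_
    · apply ENNReal.ofReal_le_ofReal
      exact pow_le_pow_left₀ hR.le hr.1.le _
    · apply ENNReal.ofReal_le_ofReal
      unfold gs
      rw [← Real.exp_add]
      apply Real.exp_le_exp.mpr
      have hω' : ‖(ω' : E n)‖ = 1 := by
        have := ω'.2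
        rwa [mem_sphere_zero_iff_norm] at this
      have e1 : ‖R • (ω : E n) - r • (ω' : E n)‖ ≤ ‖R • ((ω : E n) - (ω' : E n))‖ + 1 := by
        have e2 : R • (ω : E n) - r • (ω' : E n) =
            R • ((ω : E n) - (ω' : E n)) + (R - r) • (ω' : E n) := by
          rw [smul_sub, sub_smul]
          abel
        rw [e2]
        refine (norm_add_le _ _).trans ?_
        rw [norm_smul (R - r), hω', mul_one, Real.norm_eq_abs]
        have e3 : |R - r| ≤ 1 := by
          rw [abs_le]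
          constructor <;> linarith [hr.1, hr.2]
        linarith
      have e4 : ‖R • (ω : E n) - r • (ω' : E n)‖ ^ 2 ≤
          2 * ‖R • ((ω : E n) - (ω' : E n))‖ ^ 2 + 2 := by
        have e5 := norm_nonneg (R • (ω : E n) - r • (ω' : E n))
        have e6 := norm_nonneg (R • ((ω : E n) - (ω' : E n)))
        nlinarith [sq_nonneg (‖R • ((ω : E n) - (ω' : E n))‖ - 1)]
      nlinarith [Real.pi_pos]
  have hvol : volume (Ioc R (R + 1)) = 1 := by
    rw [Real.volume_Ioc]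
    simp
  calc ENNReal.ofReal (R ^ (n - 1)) *
      ∫⁻ ω', ENNReal.ofReal (gs Real.pi (R • ((ω : E n) - (ω' : E n)))) ∂(sg n)
      = ∫⁻ _r in Ioc R (R + 1), ENNReal.ofReal (R ^ (n - 1)) *
        ∫⁻ ω', ENNReal.ofReal (gs Real.pi (R • ((ω : E n) - (ω' : E n)))) ∂(sg n) := by
        rw [setLIntegral_const, hvol, mul_one]
    _ ≤ ∫⁻ r in Ioc R (R + 1), ∫⁻ ω', ENNReal.ofReal (r ^ (n - 1)) *
        F (r • (ω' : E n)) ∂(sg n) := setLIntegral_mono' measurableSet_Ioc hpt
    _ ≤ ∫⁻ r in Ioi (0 : ℝ), ∫⁻ ω', ENNReal.ofReal (r ^ (n - 1)) *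
        F (r • (ω' : E n)) ∂(sg n) := by
        refine lintegral_mono_set fun r hr => ?_
        exact hR.trans hr.1
    _ = ∫⁻ ζ, F ζ := (hpol F hFm).symm
    _ = M n := by
        unfold M
        simp only [hF]
        exact lintegral_sub_left_eq_self
          (fun ζ => ENNReal.ofReal (Real.exp Real.pi * gs (Real.pi / 2) ζ)) (R • (ω : E n))

lemma mul_le_add_sq (a b : ℝ≥0∞) : a * b ≤ a ^ 2 + b ^ 2 := by
  rcases le_total a b with h | h
  · calc a * b ≤ b * b := mul_le_mul' h le_rfl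
      _ = b ^ 2 := (sq b).symm
      _ ≤ a ^ 2 + b ^ 2 := le_add_self
  · calc a * b ≤ a * a := mul_le_mul' le_rfl h
      _ = a ^ 2 := (sq a).symm
      _ ≤ a ^ 2 + b ^ 2 := le_self_add

lemma gs_one (x : E n) (hx : x ∈ Metric.closedBall (0 : E n) 2) :
    (1 : ℝ≥0∞) ≤ ENNReal.ofReal (Real.exp (4 * Real.pi)) * ENNReal.ofReal (gs Real.pi x) := by
  rw [← ENNReal.ofReal_mul (Real.exp_pos _).le, ENNReal.one_le_ofReal]
  unfold gs
  rw [← Real.exp_add]
  apply Real.one_le_exp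
  rw [mem_closedBall_zero_iff] at hx
  have h4 : ‖x‖ ^ 2 ≤ 4 := by nlinarith [norm_nonneg x]
  nlinarith [Real.pi_pos]

lemma gs_meas (R : ℝ) (ω : Metric.sphere (0 : E n) 1) :
    Measurable fun ω' : Metric.sphere (0 : E n) 1 =>
      ENNReal.ofReal (gs Real.pi (R • ((ω : E n) - (ω' : E n)))) := by
  refine ENNReal.measurable_ofReal.comp ((gs_cont _).measurable.comp ?_)
  exact ((continuous_const.sub continuous_subtype_val).const_smul R).measurable

lemma gs_meas2 (R : ℝ) :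
    Measurable fun z : Metric.sphere (0 : E n) 1 × Metric.sphere (0 : E n) 1 =>
      ENNReal.ofReal (gs Real.pi (R • ((z.1 : E n) - (z.2 : E n)))) := by
  refine ENNReal.measurable_ofReal.comp ((gs_cont _).measurable.comp ?_)
  exact (((continuous_subtype_val.comp continuous_fst).sub
    (continuous_subtype_val.comp continuous_snd)).const_smul R).measurable

lemma gs_symm (R : ℝ) (a b : E n) : gs Real.pi (R • (a - b)) = gs Real.pi (R • (b - a)) := by
  unfold gs
  rw [norm_smul, norm_smul, norm_sub_rev]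

/-- the two parts of the Schur estimate -/
lemma partA (h1 : T_POLN) (hn : 2 ≤ n) [IsFiniteMeasure (sg n)] (R : ℝ) (hR : 0 < R)
    (u : Metric.sphere (0 : E n) 1 → ℝ≥0∞) (hu : Measurable u) :
    ENNReal.ofReal (R ^ (n - 1)) * ∫⁻ z, u z.1 *
        ENNReal.ofReal (gs Real.pi (R • ((z.1 : E n) - (z.2 : E n)))) ∂((sg n).prod (sg n)) ≤
        M n * ∫⁻ ω, u ω ∂(sg n) := by
  have hm1 : Measurable fun z : Metric.sphere (0 : E n) 1 × Metric.sphere (0 : E n) 1 =>
      u z.1 * ENNReal.ofReal (gs Real.pi (R • ((z.1 : E n) - (z.2 : E n)))) :=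
    (hu.comp measurable_fst).mul (gs_meas2 R)
  rw [lintegral_prod _ hm1.aemeasurable,
    ← lintegral_const_mul' _ _ ENNReal.ofReal_ne_top, ← lintegral_const_mul' _ _ M_lt.ne]
  refine lintegral_mono fun ω => ?_
  have e1 : ∫⁻ ω', u ω * ENNReal.ofReal (gs Real.pi (R • ((ω : E n) - (ω' : E n)))) ∂(sg n) =
      u ω * ∫⁻ ω', ENNReal.ofReal (gs Real.pi (R • ((ω : E n) - (ω' : E n)))) ∂(sg n) :=
    lintegral_const_mul _ (gs_meas R ω)
  show ENNReal.ofReal (R ^ (n - 1)) * ∫⁻ ω', u ω *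
    ENNReal.ofReal (gs Real.pi (R • ((ω : E n) - (ω' : E n)))) ∂(sg n) ≤ M n * u ω
  rw [e1, mul_left_comm, mul_comm (M n)]
  exact mul_le_mul' le_rfl (schur h1 hn R hR ω)

lemma partB [IsFiniteMeasure (sg n)] (R : ℝ) (u : Metric.sphere (0 : E n) 1 → ℝ≥0∞) :
    ∫⁻ z, u z.2 * ENNReal.ofReal (gs Real.pi (R • ((z.1 : E n) - (z.2 : E n))))
        ∂((sg n).prod (sg n)) =
      ∫⁻ z, u z.1 * ENNReal.ofReal (gs Real.pi (R • ((z.1 : E n) - (z.2 : E n))))
        ∂((sg n).prod (sg n)) := by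
  rw [← lintegral_prod_swap]
  refine lintegral_congr fun z => ?_
  show u z.1 * ENNReal.ofReal (gs Real.pi (R • ((z.2 : E n) - (z.1 : E n)))) =
    u z.1 * ENNReal.ofReal (gs Real.pi (R • ((z.1 : E n) - (z.2 : E n))))
  rw [gs_symm]

end AHN_

open AHN_ in
theorem p_AHN (h1 : T_POLN) : T_AHN := by
  intro n hn
  have hfin : IsFiniteMeasure (sg n) := (h1 n (by omega)).2.2
  have hpol := (h1 n (by omega)).1
  set C : ℝ≥0∞ := ENNReal.ofReal (Real.exp (4 * Real.pi)) * (2 * M n) with hC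
  have hCt : C ≠ ∞ := by
    rw [hC]
    exact ENNReal.mul_ne_top ENNReal.ofReal_ne_top (ENNReal.mul_ne_top (by simp) M_lt.ne)
  refine ⟨C.toNNReal, fun h hh => ?_⟩
  rw [ENNReal.coe_toNNReal hCt, hpol (fun ξ => ‖h ξ‖ₑ ^ 2) (hh.enorm.pow_const 2),
    ← lintegral_const_mul']
  swap
  · exact hCt
  refine setLIntegral_mono' measurableSet_Ioi fun R hR => ?_
  have hR0 : 0 < R := hR
  rw [lintegral_const_mul' _ _ ENNReal.ofReal_ne_top]
  set g : Metric.sphere (0 : E n) 1 → ℂ := fun ω => h (R • (ω : E n)) with hg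
  have hgm : Measurable g := by
    refine hh.comp ?_
    exact (continuous_subtype_val.const_smul R).measurable
  set ρ : ℝ≥0∞ := ENNReal.ofReal (R ^ (n - 1)) with hρ
  have hρ0 : ρ ≠ 0 := by
    rw [hρ, Ne, ENNReal.ofReal_eq_zero, not_le]
    positivity
  show _ ≤ C * (ρ * ∫⁻ ω, ‖g ω‖ₑ ^ 2 ∂(sg n))
  by_cases hinf : ∫⁻ ω, ‖g ω‖ₑ ^ 2 ∂(sg n) = ∞
  · by_cases hz : C = 0
    · -- the constant cannot vanish
      exfalso
      have hM : M n ≠ 0 := by
        unfold M
        rw [Ne, lintegral_eq_zero_iff]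
        · intro hcon
          have h2 : (fun ζ : E n => ENNReal.ofReal
              (Real.exp Real.pi * gs (Real.pi / 2) ζ)) =ᵐ[volume] 0 := hcon
          have h3 : (volume : Measure (E n)) = 0 := by
            rw [← Measure.measure_univ_eq_zero]
            have h4 := h2
            rw [Filter.EventuallyEq, ae_iff] at h4
            refine le_antisymm ?_ zero_le
            rw [← h4]
            refine measure_mono fun ζ _ => ?_
            show ¬ ENNReal.ofReal (Real.exp Real.pi * gs (Real.pi / 2) ζ) = 0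
            rw [ENNReal.ofReal_eq_zero, not_le]
            exact mul_pos (Real.exp_pos _) (gs_pos _ _)
          exact (NeZero.ne (volume : Measure (E n))) h3
        · exact ENNReal.measurable_ofReal.comp ((gs_cont _).measurable.const_mul _)
      rw [hC] at hz
      rcases mul_eq_zero.mp hz with h2 | h2
      · rw [ENNReal.ofReal_eq_zero, ← not_lt] at h2
        exact h2 (Real.exp_pos _)
      · rcases mul_eq_zero.mp h2 with h3 | h3
        · simp at h3
        · exact hM h3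
    · rw [hinf, ENNReal.mul_top hρ0, ENNReal.mul_top hz]
      exact le_top
  · have hmem : MemLp g 2 (sg n) := by
      refine ⟨hgm.aestronglyMeasurable, ?_⟩
      rw [eLpNorm_lt_top_iff_lintegral_rpow_enorm_lt_top (by norm_num) (by norm_num)]
      have h2 : ∫⁻ ω, ‖g ω‖ₑ ^ 2 ∂(sg n) < ∞ := lt_top_iff_ne_top.mpr hinf
      simpa using h2
    have hgi : Integrable g (sg n) := hmem.integrable (by norm_num)
    have hcore := core R (sg n) g hgi
    set I : E n → ℂ := fun x => ∫ ω, g ω * ex x (R • (ω : E n)) ∂(sg n) with hI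
    have hSH : ∀ x, ‖SH h R x‖ₑ ^ 2 = ρ ^ 2 * ‖I x‖ₑ ^ 2 := by
      intro x
      unfold SH
      rw [enorm_mul, mul_pow]
      congr 2
      rw [← ofReal_norm, Complex.norm_real, Real.norm_eq_abs, abs_of_nonneg (by positivity)]
    have hm1 : Measurable fun z : Metric.sphere (0 : E n) 1 × Metric.sphere (0 : E n) 1 =>
        ‖g z.1‖ₑ ^ 2 * ENNReal.ofReal (gs Real.pi (R • ((z.1 : E n) - (z.2 : E n)))) :=
      ((hgm.comp measurable_fst).enorm.pow_const 2).mul (gs_meas2 R)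
    have hA := partA h1 hn R hR0 (fun ω => ‖g ω‖ₑ ^ 2) (hgm.enorm.pow_const 2)
    have hB := partB R (fun ω => ‖g ω‖ₑ ^ 2)
    rw [← hρ] at hA
    have hpt : ∀ x ∈ Metric.closedBall (0 : E n) 2, ‖SH h R x‖ₑ ^ 2 ≤
        ENNReal.ofReal (Real.exp (4 * Real.pi)) * (ρ ^ 2 *
          (‖I x‖ₑ ^ 2 * ENNReal.ofReal (gs Real.pi x))) := by
      intro x hx
      rw [hSH]
      have h3 := gs_one x hx
      calc ρ ^ 2 * ‖I x‖ₑ ^ 2 = 1 * (ρ ^ 2 * ‖I x‖ₑ ^ 2) := (one_mul _).symm
        _ ≤ (ENNReal.ofReal (Real.exp (4 * Real.pi)) * ENNReal.ofReal (gs Real.pi x)) *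
            (ρ ^ 2 * ‖I x‖ₑ ^ 2) := mul_le_mul' h3 le_rfl
        _ = _ := by ring
    calc ∫⁻ x in Metric.closedBall (0 : E n) 2, ‖SH h R x‖ₑ ^ 2
        ≤ ∫⁻ x in Metric.closedBall (0 : E n) 2,
            ENNReal.ofReal (Real.exp (4 * Real.pi)) * (ρ ^ 2 *
              (‖I x‖ₑ ^ 2 * ENNReal.ofReal (gs Real.pi x))) :=
          setLIntegral_mono' Metric.isClosed_closedBall.measurableSet hpt
      _ ≤ ∫⁻ x, ENNReal.ofReal (Real.exp (4 * Real.pi)) * (ρ ^ 2 *
              (‖I x‖ₑ ^ 2 * ENNReal.ofReal (gs Real.pi x))) := setLIntegral_le_lintegral _ _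
      _ = ENNReal.ofReal (Real.exp (4 * Real.pi)) * (ρ ^ 2 *
            ∫⁻ x, ‖I x‖ₑ ^ 2 * ENNReal.ofReal (gs Real.pi x)) := by
          rw [lintegral_const_mul' _ _ ENNReal.ofReal_ne_top,
            lintegral_const_mul' _ _ (ENNReal.pow_ne_top ENNReal.ofReal_ne_top)]
      _ ≤ ENNReal.ofReal (Real.exp (4 * Real.pi)) * (ρ ^ 2 *
            ∫⁻ z, ‖g z.1‖ₑ * ‖g z.2‖ₑ *
              ENNReal.ofReal (gs Real.pi (R • ((z.1 : E n) - (z.2 : E n)))) ∂((sg n).prod (sg n))) := by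
          gcongr
      _ ≤ ENNReal.ofReal (Real.exp (4 * Real.pi)) * (ρ ^ 2 *
            ∫⁻ z, (‖g z.1‖ₑ ^ 2 *
              ENNReal.ofReal (gs Real.pi (R • ((z.1 : E n) - (z.2 : E n)))) + ‖g z.2‖ₑ ^ 2 *
              ENNReal.ofReal (gs Real.pi (R • ((z.1 : E n) - (z.2 : E n)))))
                ∂((sg n).prod (sg n))) := by
          gcongr with z
          rw [← add_mul]
          exact mul_le_mul' (mul_le_add_sq _ _) le_rfl
      _ = ENNReal.ofReal (Real.exp (4 * Real.pi)) * (2 * ρ * (ρ *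
            ∫⁻ z, ‖g z.1‖ₑ ^ 2 *
              ENNReal.ofReal (gs Real.pi (R • ((z.1 : E n) - (z.2 : E n))))
                ∂((sg n).prod (sg n)))) := by
          rw [lintegral_add_left hm1, hB]
          ring
      _ ≤ ENNReal.ofReal (Real.exp (4 * Real.pi)) * (2 * ρ *
            (M n * ∫⁻ ω, ‖g ω‖ₑ ^ 2 ∂(sg n))) := by gcongr
      _ = C * (ρ * ∫⁻ ω, ‖g ω‖ₑ ^ 2 ∂(sg n)) := by
          rw [hC]
          ring

end Pool.Agent.CRN
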