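import Pool.Agent.CRN.Targets

set_option autoImplicit false

/-!
# ARCN: a ball meets the annuli of a sphere in pieces of area `ρ^{n-1}`
-/

namespace Pool.Agent.CRN

open MeasureTheory FourierTransform Set Filter Topology
open scoped ENNReal NNReal
open Pool.Agent.MBS (E ex S Sstar)

namespace ARCN_

/-- the comparison kernel -/
noncomputable def kk (N a : ℝ) : ℝ≥0∞ := ENNReal.ofReal (((1 + |a| / N) ^ 2)⁻¹)

noncomputable def K0 (N : ℝ) : ℝ≥0∞ := ∫⁻ a : ℝ, kk N a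

lemma kk_le (N : ℝ) (hN : 1 ≤ N) (a : ℝ) :
    kk N a ≤ ENNReal.ofReal (N ^ 2 * (1 + a ^ 2)⁻¹) := by
  unfold kk
  apply ENNReal.ofReal_le_ofReal
  have hN0 : 0 < N := by linarith
  have h1 : 0 < 1 + a ^ 2 := by positivity
  have h2 : (1 + a ^ 2) / N ^ 2 ≤ (1 + |a| / N) ^ 2 := by
    rw [div_le_iff₀ (by positivity)]
    have h3 : (1 + |a| / N) ^ 2 * N ^ 2 = (N + |a|) ^ 2 := by
      field_simp
    rw [h3]
    have h4 : |a| ^ 2 = a ^ 2 := sq_abs a
    nlinarith [abs_nonneg a]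
  calc ((1 + |a| / N) ^ 2)⁻¹ ≤ ((1 + a ^ 2) / N ^ 2)⁻¹ := by
        apply inv_anti₀ (by positivity) h2
    _ = N ^ 2 * (1 + a ^ 2)⁻¹ := by
        rw [inv_div]
        ring

lemma K0_lt (N : ℝ) (hN : 1 ≤ N) : K0 N < ∞ := by
  have h1 : Integrable (fun a : ℝ => N ^ 2 * (1 + a ^ 2)⁻¹) :=
    integrable_inv_one_add_sq.const_mul _
  have h2 : ∫⁻ a : ℝ, ENNReal.ofReal (N ^ 2 * (1 + a ^ 2)⁻¹) < ∞ := by
    rw [← ofReal_integral_eq_lintegral_ofReal h1 (ae_of_all _ fun a => by positivity)]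
    exact ENNReal.ofReal_lt_top
  exact lt_of_le_of_lt (lintegral_mono fun a => kk_le N hN a) h2

lemma key (N B R t : ℝ) (hN : 2 ≤ N) (hB : 0 ≤ B) (ht0 : 0 ≤ t) (ht : B ≤ (N - 1) * t ^ 2) :
    |t - √(max R √(N / (N - 1) * B) ^ 2 - B)| / N ≤ |√(t ^ 2 + B) - R| := by
  have hN1 : 0 < N - 1 := by linarith
  have hN0 : 0 < N := by linarith
  set q : ℝ := √(N / (N - 1) * B) with hq
  set R2 : ℝ := max R q with hR2
  set s : ℝ := √(t ^ 2 + B) with hs
  have hs0 : 0 ≤ s := Real.sqrt_nonneg _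
  have hs2 : s ^ 2 = t ^ 2 + B := Real.sq_sqrt (by positivity)
  have hq0 : 0 ≤ q := Real.sqrt_nonneg _
  have hq2 : q ^ 2 = N / (N - 1) * B := Real.sq_sqrt (by positivity)
  have hNq : N / (N - 1) * B = B + B / (N - 1) := by
    field_simp
    ring
  have hR20 : 0 ≤ R2 := hq0.trans (le_max_right _ _)
  have hR22 : B + B / (N - 1) ≤ R2 ^ 2 := by
    rw [← hNq, ← hq2]
    exact pow_le_pow_left₀ hq0 (le_max_right _ _) 2
  have hBN : 0 ≤ B / (N - 1) := by positivity
  set a₀ : ℝ := √(R2 ^ 2 - B) with ha₀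
  have ha0 : 0 ≤ a₀ := Real.sqrt_nonneg _
  have ha2 : a₀ ^ 2 = R2 ^ 2 - B := Real.sq_sqrt (by linarith)
  have hBa : B ≤ (N - 1) * a₀ ^ 2 := by
    have h1 : B / (N - 1) ≤ a₀ ^ 2 := by rw [ha2]; linarith
    rw [div_le_iff₀ hN1] at h1
    linarith
  have h1 : s ≤ N * t := by
    apply le_of_sq_le_sq _ (by positivity)
    nlinarith [sq_nonneg t, mul_nonneg hN0.le (sq_nonneg t)]
  have h2 : R2 ≤ N * a₀ := by
    apply le_of_sq_le_sq _ (by positivity)
    nlinarith [sq_nonneg a₀, mul_nonneg hN0.le (sq_nonneg a₀)]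
  have h3 : |s - R2| ≤ |s - R| := by
    rcases le_total q R with h | h
    · rw [hR2, max_eq_left h]
    · rw [hR2, max_eq_right h]
      have h4 : q ≤ s := by
        apply Real.sqrt_le_sqrt
        rw [hNq]
        have h5 : B / (N - 1) ≤ t ^ 2 := by
          rw [div_le_iff₀ hN1]
          linarith
        linarith
      rw [abs_of_nonneg (by linarith), abs_of_nonneg (by linarith)]
      linarith
  refine le_trans ?_ h3
  have h5 : (s - R2) * (s + R2) = (t - a₀) * (t + a₀) := by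
    have e1 : (s - R2) * (s + R2) = s ^ 2 - R2 ^ 2 := by ring
    have e2 : (t - a₀) * (t + a₀) = t ^ 2 - a₀ ^ 2 := by ring
    rw [e1, e2, hs2, ha2]
    ring
  have h6 : |s - R2| * (s + R2) = |t - a₀| * (t + a₀) := by
    rw [← abs_of_nonneg (add_nonneg hs0 hR20), ← abs_mul, h5, abs_mul,
      abs_of_nonneg (add_nonneg ht0 ha0)]
  rcases eq_or_lt_of_le (add_nonneg ht0 ha0) with h7 | h7
  · have e1 : t = 0 := by linarith
    have e2 : a₀ = 0 := by linarith
    rw [e1, e2]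
    simp
  · have h8 : |t - a₀| * (t + a₀) ≤ |s - R2| * (N * (t + a₀)) := by
      rw [← h6]
      exact mul_le_mul_of_nonneg_left (by linarith) (abs_nonneg _)
    have h9 : |t - a₀| ≤ |s - R2| * N := by
      have : |t - a₀| * (t + a₀) ≤ (|s - R2| * N) * (t + a₀) := by
        calc _ ≤ _ := h8
          _ = _ := by ring
      exact le_of_mul_le_mul_right this h7
    rw [div_le_iff₀ hN0]
    exact h9

/-- the weight in coordinates -/
noncomputable def HH (R a B : ℝ) : ℝ≥0∞ := ENNReal.ofReal (((1 + |√(a ^ 2 + B) - R|) ^ 2)⁻¹)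

lemma HH_le (N R B : ℝ) (hN : 2 ≤ N) (hB : 0 ≤ B) : ∃ a₀ : ℝ, ∀ a : ℝ, B ≤ (N - 1) * a ^ 2 →
    HH R a B ≤ kk N (a - a₀) + kk N (a + a₀) := by
  refine ⟨√(max R √(N / (N - 1) * B) ^ 2 - B), fun a ha => ?_⟩
  set a₀ : ℝ := √(max R √(N / (N - 1) * B) ^ 2 - B) with ha₀
  have h1 := key N B R |a| hN hB (abs_nonneg a) (by rwa [sq_abs])
  rw [← ha₀, sq_abs] at h1
  have hN0 : 0 < N := by linarith
  have h2 : HH R a B ≤ kk N (|a| - a₀) := by
    unfold HH kk
    apply ENNReal.ofReal_le_ofReal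
    apply inv_anti₀ (by positivity)
    gcongr
  refine h2.trans ?_
  rcases le_total 0 a with h | h
  · rw [abs_of_nonneg h]
    exact le_self_add
  · rw [abs_of_nonpos h]
    have e1 : kk N (-a - a₀) = kk N (a + a₀) := by
      unfold kk
      rw [show -a - a₀ = -(a + a₀) by ring, abs_neg]
    rw [e1]
    exact le_add_self

lemma inner_le (N R B : ℝ) (hN : 2 ≤ N) (hB : 0 ≤ B) :
    ∫⁻ a : ℝ, (if B ≤ (N - 1) * a ^ 2 then HH R a B else 0) ≤ 2 * K0 N := by
  obtain ⟨a₀, h⟩ := HH_le N R B hN hB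
  have hm : Measurable (kk N) := by
    unfold kk
    fun_prop
  calc ∫⁻ a : ℝ, (if B ≤ (N - 1) * a ^ 2 then HH R a B else 0) ≤
        ∫⁻ a : ℝ, (kk N (a - a₀) + kk N (a + a₀)) := by
        refine lintegral_mono fun a => ?_
        show (if B ≤ (N - 1) * a ^ 2 then HH R a B else 0) ≤ kk N (a - a₀) + kk N (a + a₀)
        split_ifs with h1
        · exact h a h1
        · exact zero_le
    _ = (∫⁻ a : ℝ, kk N (a - a₀)) + ∫⁻ a : ℝ, kk N (a + a₀) :=
        lintegral_add_left (hm.comp (measurable_id.sub_const a₀)) _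
    _ = 2 * K0 N := by
        rw [lintegral_sub_right_eq_self (kk N) a₀, lintegral_add_right_eq_self (kk N) a₀,
          two_mul]
        rfl

open Classical in
/-- the sector where one coordinate dominates -/
noncomputable def GG {m : ℕ} (R ρ : ℝ) (c : Fin m → ℝ) (p : ℝ × (Fin m → ℝ)) : ℝ≥0∞ :=
  if p.2 ∈ Icc (fun i => c i - ρ) (fun i => c i + ρ) ∧ ∑ i, p.2 i ^ 2 ≤ (m : ℝ) * p.1 ^ 2 then
    HH R p.1 (∑ i, p.2 i ^ 2) else 0

lemma meas_GG {m : ℕ} (R ρ : ℝ) (c : Fin m → ℝ) : Measurable (GG R ρ c) := by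
  unfold GG HH
  refine Measurable.ite ?_ (by fun_prop) measurable_const
  have h1 : MeasurableSet {p : ℝ × (Fin m → ℝ) |
      p.2 ∈ Icc (fun i => c i - ρ) (fun i => c i + ρ)} :=
    measurable_snd measurableSet_Icc
  have h2 : MeasurableSet {p : ℝ × (Fin m → ℝ) | ∑ i, p.2 i ^ 2 ≤ (m : ℝ) * p.1 ^ 2} :=
    measurableSet_le (by fun_prop) (by fun_prop)
  exact h1.inter h2

lemma sector {m : ℕ} (hm : 1 ≤ m) (R ρ : ℝ) (c : Fin m → ℝ) :
    ∫⁻ p : ℝ × (Fin m → ℝ), GG R ρ c p ≤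
      2 * K0 ((m : ℝ) + 1) * ENNReal.ofReal (2 * ρ) ^ m := by
  have hm1 : (1 : ℝ) ≤ m := by exact_mod_cast hm
  have e1 : (volume : Measure (ℝ × (Fin m → ℝ))) = (volume : Measure ℝ).prod volume := rfl
  rw [e1, lintegral_prod_symm _ (meas_GG R ρ c).aemeasurable]
  have hvol : ∫⁻ y : Fin m → ℝ, (Icc (fun i => c i - ρ) (fun i => c i + ρ)).indicator
      (fun _ => 2 * K0 ((m : ℝ) + 1)) y = 2 * K0 ((m : ℝ) + 1) * ENNReal.ofReal (2 * ρ) ^ m := by
    rw [lintegral_indicator_const measurableSet_Icc, Real.volume_Icc_pi]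
    congr 1
    have h1 : ∀ i : Fin m, ENNReal.ofReal (c i + ρ - (c i - ρ)) = ENNReal.ofReal (2 * ρ) := by
      intro i
      congr 1
      ring
    rw [Finset.prod_congr rfl fun i _ => h1 i, Finset.prod_const, Finset.card_univ,
      Fintype.card_fin]
  rw [← hvol]
  refine lintegral_mono fun y => ?_
  show ∫⁻ a : ℝ, GG R ρ c (a, y) ≤ _
  by_cases h : y ∈ Icc (fun i => c i - ρ) (fun i => c i + ρ)
  · rw [indicator_of_mem h]
    have h1 := inner_le ((m : ℝ) + 1) R (∑ i, y i ^ 2) (by linarith) (by positivity)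
    rw [add_sub_cancel_right] at h1
    refine le_trans (le_of_eq ?_) h1
    refine lintegral_congr fun a => ?_
    unfold GG
    simp only [h, true_and]
  · rw [indicator_of_notMem h]
    refine le_of_eq ?_
    rw [lintegral_eq_zero_iff (by
      exact (meas_GG R ρ c).comp (by fun_prop : Measurable fun a : ℝ => (a, y)))]
    refine Eventually.of_forall fun a => ?_
    show GG R ρ c (a, y) = 0
    unfold GG
    exact if_neg (fun h' => h (And.left h'))

end ARCN_

open ARCN_ in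
theorem p_ARCN : T_ARCN := by
  intro n hn
  obtain ⟨m, rfl⟩ : ∃ m, n = m + 1 := ⟨n - 1, by omega⟩
  have hm : 1 ≤ m := by omega
  have hm1 : (1 : ℝ) ≤ m := by exact_mod_cast hm
  have hfin : K0 ((m : ℝ) + 1) < ∞ := K0_lt _ (by linarith)
  refine ⟨((m : ℝ≥0) + 1) * (2 * (K0 ((m : ℝ) + 1)).toNNReal * 2 ^ m), fun ξ R ρ hρ => ?_⟩
  have hK : (((((m : ℝ≥0) + 1) * (2 * (K0 ((m : ℝ) + 1)).toNNReal * 2 ^ m) : ℝ≥0)) : ℝ≥0∞) =
      ((m : ℝ≥0∞) + 1) * (2 * K0 ((m : ℝ) + 1) * 2 ^ m) := by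
    push_cast
    rw [ENNReal.coe_toNNReal hfin.ne]
  rw [hK, ← lintegral_indicator Metric.isClosed_closedBall.measurableSet]
  set F : E (m + 1) → ℝ≥0∞ := (Metric.closedBall ξ ρ).indicator
    (fun ζ => ENNReal.ofReal (dw 2 R ζ)) with hF
  -- coordinates
  have hcoord : ∀ (j : Fin (m + 1)) (G : E (m + 1) → ℝ≥0∞),
      ∫⁻ ζ, G ζ = ∫⁻ p : ℝ × (Fin m → ℝ),
        G (WithLp.toLp 2 (Fin.insertNth (α := fun _ => ℝ) j p.1 p.2)) := by
    intro j G
    have h1 : ∫⁻ y : Fin (m + 1) → ℝ, G (WithLp.toLp 2 y) = ∫⁻ ζ, G ζ :=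
      (PiLp.volume_preserving_toLp (Fin (m + 1))).lintegral_comp_emb
        (MeasurableEquiv.toLp 2 (Fin (m + 1) → ℝ)).measurableEmbedding G
    have h2 := (volume_preserving_piFinSuccAbove (fun _ : Fin (m + 1) => ℝ) j).symm
    have h3 := h2.lintegral_comp_emb
      (MeasurableEquiv.piFinSuccAbove (fun _ : Fin (m + 1) => ℝ) j).symm.measurableEmbedding
      (fun y => G (WithLp.toLp 2 y))
    rw [← h1, ← h3]
    rfl
  -- norm in coordinates
  have hnorm : ∀ (j : Fin (m + 1)) (p : ℝ × (Fin m → ℝ)),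
      ‖(WithLp.toLp 2 (Fin.insertNth (α := fun _ => ℝ) j p.1 p.2) : E (m + 1))‖ =
        √(p.1 ^ 2 + ∑ i, p.2 i ^ 2) := by
    intro j p
    rw [EuclideanSpace.norm_eq, Fin.sum_univ_succAbove _ j]
    simp
  set G : Fin (m + 1) → E (m + 1) → ℝ≥0∞ := fun j ζ =>
    if (∀ i : Fin m, |ζ (j.succAbove i) - ξ (j.succAbove i)| ≤ ρ) ∧
      (∀ i, |ζ i| ≤ |ζ j|) then ENNReal.ofReal (dw 2 R ζ) else 0 with hG
  have hpt : ∀ ζ, F ζ ≤ ∑ j, G j ζ := by
    intro ζ
    by_cases h : ζ ∈ Metric.closedBall ξ ρ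
    · obtain ⟨j, -, hj⟩ := Finset.exists_max_image Finset.univ (fun i => |ζ i|)
        ⟨0, Finset.mem_univ _⟩
      have hGj : F ζ = G j ζ := by
        rw [hF, indicator_of_mem h]
        simp only [hG]
        rw [if_pos]
        refine ⟨fun i => ?_, fun i => hj i (Finset.mem_univ _)⟩
        have h1 := PiLp.norm_apply_le (ζ - ξ) (j.succAbove i)
        rw [Metric.mem_closedBall, dist_eq_norm] at h
        exact le_trans h1 h
      rw [hGj]
      exact Finset.single_le_sum (f := fun j => G j ζ) (fun _ _ => zero_le)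
        (Finset.mem_univ j)
    · rw [hF, indicator_of_notMem h]
      exact zero_le
  have hGle : ∀ (j : Fin (m + 1)) (p : ℝ × (Fin m → ℝ)),
      G j (WithLp.toLp 2 (Fin.insertNth (α := fun _ => ℝ) j p.1 p.2)) ≤
        GG R ρ (fun i => ξ (j.succAbove i)) p := by
    intro j p
    simp only [hG]
    split_ifs with h
    · obtain ⟨h1, h2⟩ := h
      simp only [Fin.insertNth_apply_succAbove, Fin.insertNth_apply_same] at h1 h2
      unfold GG
      rw [if_pos]
      · unfold dw HH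
        rw [hnorm]
      · refine ⟨⟨fun i => ?_, fun i => ?_⟩, ?_⟩
        · have := (abs_le.1 (h1 i)).1
          show ξ (j.succAbove i) - ρ ≤ p.2 i
          linarith
        · have := (abs_le.1 (h1 i)).2
          show p.2 i ≤ ξ (j.succAbove i) + ρ
          linarith
        · calc ∑ i, p.2 i ^ 2 ≤ ∑ _i : Fin m, p.1 ^ 2 := by
                refine Finset.sum_le_sum fun i _ => ?_
                have h3 := h2 (j.succAbove i)
                simp only [Fin.insertNth_apply_succAbove] at h3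
                rw [← sq_abs (p.2 i), ← sq_abs p.1]
                exact pow_le_pow_left₀ (abs_nonneg _) h3 2
            _ = (m : ℝ) * p.1 ^ 2 := by simp
    · exact zero_le
  have hGint : ∀ j, ∫⁻ ζ, G j ζ ≤ 2 * K0 ((m : ℝ) + 1) * ENNReal.ofReal (2 * ρ) ^ m := by
    intro j
    rw [hcoord j]
    exact (lintegral_mono fun p => hGle j p).trans (sector hm R ρ _)
  have hGm : ∀ j, Measurable (G j) := by
    intro j
    have hdw : Measurable fun ζ : E (m + 1) => ENNReal.ofReal (dw 2 R ζ) := by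
      unfold dw
      fun_prop
    refine Measurable.ite ?_ hdw measurable_const
    have h1 : MeasurableSet {ζ : E (m + 1) |
        ∀ i : Fin m, |ζ (j.succAbove i) - ξ (j.succAbove i)| ≤ ρ} := by
      simp only [Set.ofPred_forall]
      exact MeasurableSet.iInter fun i => measurableSet_le (by fun_prop) (by fun_prop)
    have h2 : MeasurableSet {ζ : E (m + 1) | ∀ i, |ζ i| ≤ |ζ j|} := by
      simp only [Set.ofPred_forall]
      exact MeasurableSet.iInter fun i => measurableSet_le (by fun_prop) (by fun_prop)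
    exact h1.inter h2
  calc ∫⁻ ζ, F ζ ≤ ∫⁻ ζ, ∑ j, G j ζ := lintegral_mono hpt
    _ = ∑ j, ∫⁻ ζ, G j ζ := lintegral_finsetSum _ fun j _ => hGm j
    _ ≤ ∑ _j : Fin (m + 1), 2 * K0 ((m : ℝ) + 1) * ENNReal.ofReal (2 * ρ) ^ m :=
        Finset.sum_le_sum fun j _ => hGint j
    _ = ((m : ℝ≥0∞) + 1) * (2 * K0 ((m : ℝ) + 1) * 2 ^ m) *
        ENNReal.ofReal (ρ ^ (m + 1 - 1)) := by
        rw [Finset.sum_const, Finset.card_univ, Fintype.card_fin, nsmul_eq_mul,
          ENNReal.ofReal_mul (by norm_num : (0 : ℝ) ≤ 2), Nat.add_sub_cancel,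
          ENNReal.ofReal_pow (by linarith), mul_pow]
        have e2 : ENNReal.ofReal 2 = 2 := by simp
        rw [e2]
        push_cast
        ring

end Pool.Agent.CRN
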