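import Pool.Agent.CRN.Targets

/-!
# CRN: Bernstein's inequality on the rotation orbits (target T_BERN)
-/

set_option autoImplicit false

namespace Pool.Agent.CRN

open MeasureTheory FourierTransform Set Filter Topology
open scoped ENNReal NNReal
open Pool.Agent.MBS (E ex S Sstar)

namespace BERN_

/-! ### trigonometric polynomials -/

lemma ci_zero : ci 0 = 1 := by simp [ci]

lemma ci_add (a b : ℝ) : ci (a + b) = ci a * ci b := by
  unfold ci
  rw [← Complex.exp_add]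
  congr 1
  push_cast
  ring

lemma ci_cont : Continuous ci := by
  unfold ci
  fun_prop

lemma ci_int (m : ℤ) : ∫ φ in (-Real.pi)..Real.pi, ci (m * φ) =
    if m = 0 then ((2 * Real.pi : ℝ) : ℂ) else 0 := by
  split_ifs with h
  · subst h
    simp only [Int.cast_zero, zero_mul, ci_zero]
    rw [intervalIntegral.integral_const]
    simp only [sub_neg_eq_add]
    rw [← two_mul, Complex.real_smul, mul_one]
  · have hc : (m : ℂ) * Complex.I ≠ 0 := by
      simp [h, Complex.I_ne_zero]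
    have e : (fun φ : ℝ => ci (m * φ)) = fun φ : ℝ => Complex.exp ((m : ℂ) * Complex.I * φ) := by
      funext φ
      unfold ci
      congr 1
      push_cast
      ring
    rw [e, integral_exp_mul_complex hc]
    have e2 : Complex.exp ((m : ℂ) * Complex.I * (Real.pi : ℝ)) =
        Complex.exp ((m : ℂ) * Complex.I * ((-Real.pi : ℝ) : ℂ)) := by
      rw [Complex.exp_eq_exp_iff_exists_int]
      refine ⟨m, ?_⟩
      push_cast
      ring
    rw [e2, sub_self, zero_div]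

/-- trigonometric polynomial -/
noncomputable def TP (K : ℕ) (c : ℤ → ℂ) (φ : ℝ) : ℂ :=
  ∑ k ∈ Finset.Icc (-(K : ℤ)) K, c k * ci (k * φ)

lemma TP_cont (K : ℕ) (c : ℤ → ℂ) : Continuous (TP K c) := by
  unfold TP
  refine continuous_finsetSum _ fun k _ => continuous_const.mul (ci_cont.comp ?_)
  fun_prop

lemma ci_deriv (k : ℤ) (φ : ℝ) :
    HasDerivAt (fun φ : ℝ => ci (k * φ)) ((k : ℂ) * Complex.I * ci (k * φ)) φ := by
  unfold ci
  have h1 : HasDerivAt (fun φ : ℝ => (((k : ℝ) * φ : ℝ) : ℂ) * Complex.I)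
      ((k : ℂ) * Complex.I) φ := by
    have h2 : HasDerivAt (fun φ : ℝ => (φ : ℂ)) 1 φ := Complex.ofRealCLM.hasDerivAt
    have h3 := (h2.const_mul (k : ℂ)).mul_const Complex.I
    simp only [mul_one] at h3
    refine h3.congr_of_eventuallyEq (Eventually.of_forall fun t => ?_)
    push_cast
    ring
  have := h1.cexp
  rw [mul_comm]
  exact this

lemma TP_deriv (K : ℕ) (c : ℤ → ℂ) :
    deriv (TP K c) = TP K (fun k => (k : ℂ) * Complex.I * c k) := by
  funext φ
  have h : HasDerivAt (TP K c) (TP K (fun k => (k : ℂ) * Complex.I * c k) φ) φ := by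
    unfold TP
    have h0 := HasDerivAt.fun_sum (u := Finset.Icc (-(K : ℤ)) K)
      (A := fun (k : ℤ) (φ : ℝ) => c k * ci (k * φ))
      (A' := fun k => c k * ((k : ℂ) * Complex.I * ci (k * φ))) (x := φ)
      (fun k _ => (ci_deriv k φ).const_mul (c k))
    refine h0.congr_deriv ?_
    refine Finset.sum_congr rfl fun k _ => ?_
    ring
  exact h.deriv

lemma TP_deriv2 (K : ℕ) (c : ℤ → ℂ) :
    deriv (deriv (TP K c)) = TP K (fun k => -((k : ℂ) ^ 2 * c k)) := by
  rw [TP_deriv, TP_deriv]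
  unfold TP
  funext φ
  refine Finset.sum_congr rfl fun k _ => ?_
  have : Complex.I * Complex.I = -1 := Complex.I_mul_I
  linear_combination ((k : ℂ) ^ 2 * c k * ci (k * φ)) * this

lemma TP_coef (K : ℕ) (c : ℤ → ℂ) (l : ℤ) (hl : l ∈ Finset.Icc (-(K : ℤ)) K) :
    ∫ φ in (-Real.pi)..Real.pi, TP K c φ * ci (-l * φ) = ((2 * Real.pi : ℝ) : ℂ) * c l := by
  have e : (fun φ : ℝ => TP K c φ * ci (-l * φ)) =
      fun φ => ∑ k ∈ Finset.Icc (-(K : ℤ)) K, c k * ci (((k - l : ℤ) : ℝ) * φ) := by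
    funext φ
    unfold TP
    rw [Finset.sum_mul]
    refine Finset.sum_congr rfl fun k _ => ?_
    rw [mul_assoc, ← ci_add]
    congr 2
    push_cast
    ring
  rw [e, intervalIntegral.integral_finsetSum]
  · have : ∀ k ∈ Finset.Icc (-(K : ℤ)) K,
        ∫ φ in (-Real.pi)..Real.pi, c k * ci (((k - l : ℤ) : ℝ) * φ) =
        if k = l then ((2 * Real.pi : ℝ) : ℂ) * c l else 0 := by
      intro k _
      rw [intervalIntegral.integral_const_mul, ci_int]
      by_cases h : k = l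
      · subst h
        simp only [sub_self, if_true]
        ring
      · rw [if_neg (by omega), if_neg h, mul_zero]
    rw [Finset.sum_congr rfl this, Finset.sum_ite_eq' , if_pos hl]
  · intro k _
    apply Continuous.intervalIntegrable
    exact continuous_const.mul (ci_cont.comp (by fun_prop))

lemma norm_ci (t : ℝ) : ‖ci t‖ = 1 := Complex.norm_exp_ofReal_mul_I t

lemma conj_ci (t : ℝ) : (starRingEnd ℂ) (ci t) = ci (-t) := by
  unfold ci
  rw [← Complex.exp_conj]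
  congr 1
  simp

/-- Parseval -/
lemma pars (K : ℕ) (c : ℤ → ℂ) : ∫ φ in (-Real.pi)..Real.pi, ‖TP K c φ‖ ^ 2 =
    2 * Real.pi * ∑ k ∈ Finset.Icc (-(K : ℤ)) K, ‖c k‖ ^ 2 := by
  have h : (((∫ φ in (-Real.pi)..Real.pi, ‖TP K c φ‖ ^ 2 : ℝ)) : ℂ) =
      ((2 * Real.pi * ∑ k ∈ Finset.Icc (-(K : ℤ)) K, ‖c k‖ ^ 2 : ℝ) : ℂ) := by
    rw [← intervalIntegral.integral_ofReal]
    have e : (fun φ : ℝ => ((‖TP K c φ‖ ^ 2 : ℝ) : ℂ)) = fun φ : ℝ =>
        ∑ l ∈ Finset.Icc (-(K : ℤ)) K, (starRingEnd ℂ) (c l) * (TP K c φ * ci (-l * φ)) := by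
      funext φ
      have h1 : ((‖TP K c φ‖ ^ 2 : ℝ) : ℂ) = TP K c φ * (starRingEnd ℂ) (TP K c φ) := by
        rw [Complex.mul_conj, Complex.normSq_eq_norm_sq]
      rw [h1]
      conv_lhs => rw [show (starRingEnd ℂ) (TP K c φ) = ∑ l ∈ Finset.Icc (-(K : ℤ)) K,
        (starRingEnd ℂ) (c l) * ci (-l * φ) from by
          unfold TP
          rw [map_sum]
          refine Finset.sum_congr rfl fun l _ => ?_
          rw [map_mul, conj_ci]
          congr 2
          ring]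
      rw [Finset.mul_sum]
      refine Finset.sum_congr rfl fun l _ => ?_
      ring
    rw [e, intervalIntegral.integral_finsetSum]
    · have : ∀ l ∈ Finset.Icc (-(K : ℤ)) K,
          ∫ φ in (-Real.pi)..Real.pi, (starRingEnd ℂ) (c l) * (TP K c φ * ci (-l * φ)) =
          ((2 * Real.pi * ‖c l‖ ^ 2 : ℝ) : ℂ) := by
        intro l hl
        rw [intervalIntegral.integral_const_mul, TP_coef K c l hl]
        have h1 : ((‖c l‖ ^ 2 : ℝ) : ℂ) = c l * (starRingEnd ℂ) (c l) := by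
          rw [Complex.mul_conj, Complex.normSq_eq_norm_sq]
        have e3 : ((2 * Real.pi * ‖c l‖ ^ 2 : ℝ) : ℂ) =
            ((2 * Real.pi : ℝ) : ℂ) * ((‖c l‖ ^ 2 : ℝ) : ℂ) := by push_cast; ring
        rw [e3, h1]
        ring
      rw [Finset.sum_congr rfl this, ← Complex.ofReal_sum, Finset.mul_sum]
    · intro l _
      apply Continuous.intervalIntegrable
      exact continuous_const.mul ((TP_cont K c).mul (ci_cont.comp (by fun_prop)))
  exact_mod_cast h

lemma parsL (K : ℕ) (c : ℤ → ℂ) : ∫⁻ φ in Ioc (-Real.pi) Real.pi, ‖TP K c φ‖ₑ ^ 2 =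
    ENNReal.ofReal (2 * Real.pi * ∑ k ∈ Finset.Icc (-(K : ℤ)) K, ‖c k‖ ^ 2) := by
  rw [← pars, intervalIntegral.integral_of_le (by linarith [Real.pi_pos]),
    ofReal_integral_eq_lintegral_ofReal]
  · refine lintegral_congr fun φ => ?_
    rw [ENNReal.ofReal_pow (norm_nonneg _), ofReal_norm]
  · have : Continuous (fun φ => ‖TP K c φ‖ ^ 2) := (TP_cont K c).norm.pow 2
    exact (this.intervalIntegrable (-Real.pi) Real.pi).1
  · exact Eventually.of_forall fun φ => by positivity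

/-- Bernstein on one orbit -/
lemma bern1 (K : ℕ) (c : ℤ → ℂ) :
    ∫⁻ φ in Ioc (-Real.pi) Real.pi, ‖TP K (fun k => -((k : ℂ) ^ 2 * c k)) φ‖ₑ ^ 2 ≤
      (K : ℝ≥0∞) ^ 4 * ∫⁻ φ in Ioc (-Real.pi) Real.pi, ‖TP K c φ‖ₑ ^ 2 := by
  rw [parsL, parsL]
  have e : (K : ℝ≥0∞) ^ 4 = ENNReal.ofReal ((K : ℝ) ^ 4) := by
    rw [ENNReal.ofReal_pow (by positivity), ENNReal.ofReal_natCast]
  rw [e, ← ENNReal.ofReal_mul (by positivity)]
  apply ENNReal.ofReal_le_ofReal
  have h : ∑ k ∈ Finset.Icc (-(K : ℤ)) K, ‖-((k : ℂ) ^ 2 * c k)‖ ^ 2 ≤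
      (K : ℝ) ^ 4 * ∑ k ∈ Finset.Icc (-(K : ℤ)) K, ‖c k‖ ^ 2 := by
    rw [Finset.mul_sum]
    refine Finset.sum_le_sum fun k hk => ?_
    rw [Finset.mem_Icc] at hk
    rw [norm_neg, norm_mul, norm_pow, mul_pow]
    have h1 : ‖(k : ℂ)‖ ≤ K := by
      rw [Complex.norm_intCast, abs_le]
      constructor
      · exact_mod_cast hk.1
      · exact_mod_cast hk.2
    have h2 : (‖(k : ℂ)‖ ^ 2) ^ 2 ≤ (K : ℝ) ^ 4 := by
      rw [← pow_mul]
      exact pow_le_pow_left₀ (norm_nonneg _) h1 4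
    exact mul_le_mul_of_nonneg_right h2 (by positivity)
  have hp : 0 ≤ 2 * Real.pi := by positivity
  nlinarith [mul_le_mul_of_nonneg_left h hp]

/-! ### rotations -/

variable {n : ℕ}

lemma rt_apply (i j : Fin n) (φ : ℝ) (y : E n) (k : Fin n) : rt i j φ y k =
    if k = i then Real.cos φ * y i - Real.sin φ * y j
    else if k = j then Real.sin φ * y i + Real.cos φ * y j else y k := rfl

lemma rt_add {i j : Fin n} (hij : i ≠ j) (a b : ℝ) (y : E n) :
    rt i j a (rt i j b y) = rt i j (a + b) y := by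
  ext k
  simp only [rt_apply, if_true, if_neg hij.symm, Real.cos_add, Real.sin_add]
  by_cases h1 : k = i
  · simp only [if_pos h1]
    ring
  · by_cases h2 : k = j
    · simp only [if_neg h1, if_pos h2]
      ring
    · simp only [if_neg h1, if_neg h2]

lemma rt_norm {i j : Fin n} (hij : i ≠ j) (φ : ℝ) (y : E n) : ‖rt i j φ y‖ = ‖y‖ := by
  rw [EuclideanSpace.norm_eq, EuclideanSpace.norm_eq]
  congr 1
  rw [← sub_eq_zero, ← Finset.sum_sub_distrib, Fintype.sum_eq_add i j hij]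
  · simp only [rt_apply, if_true, if_neg hij.symm, Real.norm_eq_abs, sq_abs]
    nlinarith [Real.sin_sq_add_cos_sq φ]
  · rintro k ⟨h1, h2⟩
    rw [rt_apply, if_neg h1, if_neg h2, sub_self]

/-- the rotation as a linear isometry -/
noncomputable def rtL {i j : Fin n} (hij : i ≠ j) (φ : ℝ) : E n →ₗᵢ[ℝ] E n where
  toFun := rt i j φ
  map_add' x y := by
    ext k
    simp only [rt_apply, PiLp.add_apply]
    split_ifs <;> ring
  map_smul' a x := by
    ext k
    simp only [rt_apply, PiLp.smul_apply, smul_eq_mul, RingHom.id_apply]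
    split_ifs <;> ring
  norm_map' x := rt_norm hij φ x

lemma rt_cont {i j : Fin n} : Continuous (fun p : ℝ × E n => rt i j p.1 p.2) := by
  unfold rt
  refine (PiLp.continuous_toLp 2 _).comp (continuous_pi fun k => ?_)
  split_ifs <;> fun_prop

lemma rt_cont' (i j : Fin n) : Continuous (fun p : E n × ℝ => rt i j p.2 p.1) := by
  unfold rt
  refine (PiLp.continuous_toLp 2 _).comp (continuous_pi fun k => ?_)
  split_ifs <;> fun_prop

lemma rt_mp {i j : Fin n} (hij : i ≠ j) (φ : ℝ) :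
    MeasurePreserving (rt i j φ) (volume : Measure (E n)) volume := by
  have h := (LinearIsometry.toLinearIsometryEquiv (rtL hij φ) rfl).measurePreserving
  exact h

lemma rt_lint {i j : Fin n} (hij : i ≠ j) (φ : ℝ) (F : E n → ℝ≥0∞) (hF : Measurable F) :
    ∫⁻ x in A1 n, F (rt i j φ x) = ∫⁻ x in A1 n, F x := by
  have hA : MeasurableSet (A1 n) :=
    (isClosed_le continuous_const continuous_norm).measurableSet.inter
      (isClosed_le continuous_norm continuous_const).measurableSet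
  have hpre : rt i j φ ⁻¹' (A1 n) = A1 n := by
    ext x
    simp only [A1, mem_preimage, mem_ofPred_eq, rt_norm hij]
  have := (rt_mp hij φ).setLIntegral_comp_preimage hA hF
  rw [hpre] at this
  exact this

lemma orbit {i j : Fin n} (hij : i ≠ j) (F : E n → ℝ≥0∞) (hF : Measurable F) :
    ∫⁻ x in A1 n, ∫⁻ φ in Ioc (-Real.pi) Real.pi, F (rt i j φ x) =
      ENNReal.ofReal (2 * Real.pi) * ∫⁻ x in A1 n, F x := by
  rw [lintegral_lintegral_swap]
  · rw [lintegral_congr (fun φ => rt_lint hij φ F hF), setLIntegral_const, Real.volume_Ioc,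
      mul_comm]
    congr 2
    ring
  · apply Measurable.aemeasurable
    exact hF.comp (rt_cont' i j).measurable

/-! ### the second derivative along the orbits -/

lemma L2_orbit {i j : Fin n} (hij : i ≠ j) (K : ℕ) (u : E n → ℂ) (x : E n) (c : ℤ → ℂ)
    (hc : ∀ φ : ℝ, u (rt i j φ x) = ∑ k ∈ Finset.Icc (-(K : ℤ)) K, c k * ci (k * φ)) (φ : ℝ) :
    L2 i j u (rt i j φ x) = TP K (fun k => -((k : ℂ) ^ 2 * c k)) φ := by
  unfold L2
  have e : (fun θ : ℝ => u (rt i j θ (rt i j φ x))) = TP K (fun k => c k * ci (k * φ)) := by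
    funext θ
    rw [rt_add hij, hc]
    unfold TP
    refine Finset.sum_congr rfl fun k _ => ?_
    rw [mul_assoc, ← ci_add]
    congr 2
    ring
  rw [e, TP_deriv2]
  unfold TP
  refine Finset.sum_congr rfl fun k _ => ?_
  rw [mul_zero, ci_zero]
  ring

lemma rt_zero (i j : Fin n) (x : E n) : rt i j 0 x = x := by
  ext k
  rw [rt_apply, Real.cos_zero, Real.sin_zero]
  split_ifs with h1 h2
  · rw [h1]; ring
  · rw [h2]; ring
  · rfl

/-- continuous formula -/
noncomputable def Q (i j : Fin n) (K : ℕ) (u : E n → ℂ) (x : E n) : ℂ :=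
  ∑ k ∈ Finset.Icc (-(K : ℤ)) K, -((k : ℂ) ^ 2 * (((2 * Real.pi : ℝ) : ℂ)⁻¹ *
    ∫ φ in (-Real.pi)..Real.pi, u (rt i j φ x) * ci (-k * φ)))

lemma Q_cont (i j : Fin n) (K : ℕ) (u : E n → ℂ) (hu : Continuous u) :
    Continuous (Q i j K u) := by
  unfold Q
  refine continuous_finsetSum _ fun k _ => ((continuous_const.mul
    (continuous_const.mul ?_)).neg)
  apply intervalIntegral.continuous_parametric_intervalIntegral_of_continuous'
  exact (hu.comp (rt_cont' i j)).mul (ci_cont.comp (by fun_prop))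

lemma L2_eq_Q {i j : Fin n} (hij : i ≠ j) (K : ℕ) (u : E n → ℂ) (hA : AD K u) :
    L2 i j u = Q i j K u := by
  funext x
  obtain ⟨c, hc⟩ := hA i j hij x
  have h := L2_orbit hij K u x c hc 0
  rw [rt_zero] at h
  rw [h]
  unfold TP Q
  refine Finset.sum_congr rfl fun k hk => ?_
  have e : (fun φ : ℝ => u (rt i j φ x) * ci (-k * φ)) = fun φ => TP K c φ * ci (-k * φ) := by
    funext φ
    rw [hc]
    rfl
  rw [e, TP_coef K c k hk, mul_zero, ci_zero, mul_one, inv_mul_cancel_left₀]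
  have := Real.pi_pos
  norm_cast
  positivity

lemma plane {i j : Fin n} (hij : i ≠ j) (K : ℕ) (u : E n → ℂ) (hu : Continuous u)
    (hA : AD K u) : ∫⁻ x in A1 n, ‖L2 i j u x‖ₑ ^ 2 ≤
      (K : ℝ≥0∞) ^ 4 * ∫⁻ x in A1 n, ‖u x‖ₑ ^ 2 := by
  have hQ : Measurable (fun x => ‖L2 i j u x‖ₑ ^ 2) := by
    rw [L2_eq_Q hij K u hA]
    exact (Q_cont i j K u hu).measurable.enorm.pow_const 2
  have hU : Measurable (fun x => ‖u x‖ₑ ^ 2) := hu.measurable.enorm.pow_const 2
  have h1 := orbit hij _ hQ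
  have h2 := orbit hij _ hU
  have h3 : ∫⁻ x in A1 n, ∫⁻ φ in Ioc (-Real.pi) Real.pi, ‖L2 i j u (rt i j φ x)‖ₑ ^ 2 ≤
      ∫⁻ x in A1 n, (K : ℝ≥0∞) ^ 4 * ∫⁻ φ in Ioc (-Real.pi) Real.pi, ‖u (rt i j φ x)‖ₑ ^ 2 := by
    refine lintegral_mono fun x => ?_
    obtain ⟨c, hc⟩ := hA i j hij x
    have e1 : ∀ φ, ‖L2 i j u (rt i j φ x)‖ₑ ^ 2 =
        ‖TP K (fun k => -((k : ℂ) ^ 2 * c k)) φ‖ₑ ^ 2 := fun φ => by
      rw [L2_orbit hij K u x c hc]
    have e2 : ∀ φ, ‖u (rt i j φ x)‖ₑ ^ 2 = ‖TP K c φ‖ₑ ^ 2 := fun φ => by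
      rw [hc]
      rfl
    rw [lintegral_congr e1, lintegral_congr e2]
    exact bern1 K c
  rw [lintegral_const_mul', h1, h2] at h3
  · have hp : ENNReal.ofReal (2 * Real.pi) ≠ 0 := by
      rw [Ne, ENNReal.ofReal_eq_zero, not_le]
      positivity
    have hp' : ENNReal.ofReal (2 * Real.pi) ≠ ∞ := ENNReal.ofReal_ne_top
    rw [← ENNReal.mul_le_mul_iff_right hp hp']
    calc ENNReal.ofReal (2 * Real.pi) * ∫⁻ x in A1 n, ‖L2 i j u x‖ₑ ^ 2 ≤ _ := h3
      _ = _ := by ring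
  · exact ENNReal.pow_ne_top (ENNReal.natCast_ne_top K)

lemma sq_sum {ι : Type} (s : Finset ι) (f : ι → ℂ) :
    ‖∑ p ∈ s, f p‖ₑ ^ 2 ≤ (s.card : ℝ≥0∞) * ∑ p ∈ s, ‖f p‖ₑ ^ 2 := by
  have h : ‖∑ p ∈ s, f p‖₊ ^ 2 ≤ (s.card : ℝ≥0) * ∑ p ∈ s, ‖f p‖₊ ^ 2 :=
    (pow_le_pow_left₀ (by positivity) (nnnorm_sum_le s f) 2).trans sq_sum_le_card_mul_sum_sq
  have := ENNReal.coe_le_coe.2 h
  push_cast at this
  exact this

end BERN_

open BERN_ in
theorem p_BERN : T_BERN := by
  intro n hn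
  refine ⟨(n * n) * (n * n), fun K u hK hu hA => ?_⟩
  have hterm : ∀ p : Fin n × Fin n, ∫⁻ x in A1 n,
      ‖(if p.1 < p.2 then L2 p.1 p.2 u x else 0)‖ₑ ^ 2 ≤
      (K : ℝ≥0∞) ^ 4 * ∫⁻ x in A1 n, ‖u x‖ₑ ^ 2 := by
    intro p
    by_cases h : p.1 < p.2
    · simp only [if_pos h]
      exact plane h.ne K u hu hA
    · simp only [if_neg h]
      simp
  have hmeas : ∀ p : Fin n × Fin n, Measurable (fun x : E n =>
      ‖(if p.1 < p.2 then L2 p.1 p.2 u x else 0)‖ₑ ^ 2) := by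
    intro p
    by_cases h : p.1 < p.2
    · simp only [if_pos h]
      rw [L2_eq_Q h.ne K u hA]
      exact (Q_cont p.1 p.2 K u hu).measurable.enorm.pow_const 2
    · simp only [if_neg h]
      exact measurable_const
  calc ∫⁻ x in A1 n, ‖Lam u x‖ₑ ^ 2
      ≤ ∫⁻ x in A1 n, ((n * n : ℕ) : ℝ≥0∞) * ∑ p : Fin n × Fin n,
          ‖(if p.1 < p.2 then L2 p.1 p.2 u x else 0)‖ₑ ^ 2 := by
        refine lintegral_mono fun x => ?_
        have e : Lam u x = ∑ p : Fin n × Fin n, (if p.1 < p.2 then L2 p.1 p.2 u x else 0) := by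
          unfold Lam
          rw [Fintype.sum_prod_type]
        rw [e]
        have := sq_sum (Finset.univ : Finset (Fin n × Fin n))
          (fun p => if p.1 < p.2 then L2 p.1 p.2 u x else 0)
        simpa using this
    _ = ((n * n : ℕ) : ℝ≥0∞) * ∑ p : Fin n × Fin n, ∫⁻ x in A1 n,
          ‖(if p.1 < p.2 then L2 p.1 p.2 u x else 0)‖ₑ ^ 2 := by
        rw [lintegral_const_mul' _ _ (ENNReal.natCast_ne_top _),
          lintegral_finsetSum _ (fun p _ => hmeas p)]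
    _ ≤ ((n * n : ℕ) : ℝ≥0∞) * ∑ _p : Fin n × Fin n,
          (K : ℝ≥0∞) ^ 4 * ∫⁻ x in A1 n, ‖u x‖ₑ ^ 2 := by
        gcongr with p _
        exact hterm p
    _ = _ := by
        rw [Finset.sum_const, nsmul_eq_mul, Finset.card_univ, Fintype.card_prod, Fintype.card_fin]
        push_cast
        ring

end Pool.Agent.CRN
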