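import Pool.Agent.CRN.Targets

/-!
# Bessel's equation for the ball kernel
-/

set_option autoImplicit false

namespace Pool.Agent.CRN

open MeasureTheory FourierTransform Set Filter Topology
open scoped ENNReal NNReal
open Pool.Agent.MBS (E ex S Sstar)

namespace BESN_

variable {n : ℕ}

/-- the phase -/
noncomputable def a (z : E n) (ω : Metric.sphere (0 : E n) 1) : ℝ := inner ℝ z (ω : E n)

/-- the exponential -/
noncomputable def w (z : E n) (r : ℝ) (ω : Metric.sphere (0 : E n) 1) : ℂ :=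
  Complex.exp (2 * Real.pi * Complex.I * ((r * a z ω : ℝ) : ℂ))

theorem ex_eq (z : E n) (r : ℝ) (ω : Metric.sphere (0 : E n) 1) :
    ex z (r • (ω : E n)) = w z r ω := by
  unfold ex w a
  rw [inner_smul_right]

theorem norm_w (z : E n) (r : ℝ) (ω : Metric.sphere (0 : E n) 1) : ‖w z r ω‖ = 1 := by
  unfold w
  rw [Complex.norm_exp]
  simp

theorem cont_a (z : E n) : Continuous (a z) := by
  unfold a
  fun_prop

theorem cont_w (z : E n) (r : ℝ) : Continuous (w z r) := by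
  unfold w
  have := cont_a z
  fun_prop

theorem cont_ex (z : E n) : Continuous (fun ζ : E n => ex z ζ) := by
  unfold ex
  fun_prop

/-- continuous functions on the sphere are integrable -/
theorem integ [IsFiniteMeasure (sg n)] {g : Metric.sphere (0 : E n) 1 → ℂ} (hg : Continuous g) :
    Integrable g (sg n) := by
  obtain ⟨C, hC⟩ := isCompact_univ.exists_bound_of_continuousOn hg.continuousOn
  exact Integrable.of_bound hg.aestronglyMeasurable C
    (Eventually.of_forall fun ω => hC ω (mem_univ ω))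

/-- derivative with respect to the radius -/
theorem deriv_r (z : E n) (r : ℝ) (ω : Metric.sphere (0 : E n) 1) :
    HasDerivAt (fun s : ℝ => w z s ω)
      (2 * Real.pi * Complex.I * (a z ω : ℂ) * w z r ω) r := by
  unfold w
  have h1 : HasDerivAt (fun s : ℝ => (2 * Real.pi * Complex.I * ((s * a z ω : ℝ) : ℂ)))
      (2 * Real.pi * Complex.I * (a z ω : ℂ)) r := by
    have h0 : HasDerivAt (fun s : ℝ => ((s * a z ω : ℝ) : ℂ)) (((1 : ℝ) * a z ω : ℝ) : ℂ) r :=
      ((hasDerivAt_id r).mul_const (a z ω)).ofReal_comp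
    have h2 := h0.const_mul (2 * Real.pi * Complex.I : ℂ)
    simpa using h2
  have h3 := h1.cexp
  convert h3 using 1
  ring

/-- differentiation under the integral sign -/
theorem deriv_int [IsFiniteMeasure (sg n)] (z : E n) (g : Metric.sphere (0 : E n) 1 → ℂ)
    (hg : Continuous g) (r : ℝ) :
    HasDerivAt (fun s : ℝ => ∫ ω, g ω * w z s ω ∂(sg n))
      (∫ ω, g ω * (2 * Real.pi * Complex.I * (a z ω : ℂ) * w z r ω) ∂(sg n)) r := by
  have hac := cont_a z
  have key := hasDerivAt_integral_of_dominated_loc_of_deriv_le (μ := sg n) (s := Set.univ)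
    (F := fun s ω => g ω * w z s ω)
    (F' := fun s ω => g ω * (2 * Real.pi * Complex.I * (a z ω : ℂ) * w z s ω))
    (bound := fun ω => ‖g ω * (2 * Real.pi * Complex.I * (a z ω : ℂ))‖) (x₀ := r)
    Filter.univ_mem ?_ ?_ ?_ ?_ ?_ ?_
  · exact key.2
  · exact Eventually.of_forall fun s => (hg.mul (cont_w z s)).aestronglyMeasurable
  · exact integ (hg.mul (cont_w z r))
  · refine Continuous.aestronglyMeasurable ?_
    have := cont_w z r
    fun_prop
  · refine Eventually.of_forall fun ω s _ => ?_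
    rw [← mul_assoc, norm_mul _ (w z s ω), norm_w, mul_one]
  · exact (integ (g := fun ω => g ω * (2 * Real.pi * Complex.I * (a z ω : ℂ)))
      (by fun_prop)).norm
  · refine Eventually.of_forall fun ω s _ => ?_
    exact (deriv_r z s ω).const_mul (g ω)

noncomputable def J (z : E n) (r : ℝ) : ℂ := ∫ ω, w z r ω ∂(sg n)

noncomputable def Ja (z : E n) (r : ℝ) : ℂ := ∫ ω, (a z ω : ℂ) * w z r ω ∂(sg n)

theorem dJ [IsFiniteMeasure (sg n)] (z : E n) (r : ℝ) :
    HasDerivAt (J z) (2 * Real.pi * Complex.I * Ja z r) r := by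
  have h := deriv_int z (fun _ => 1) continuous_const r
  simp only [one_mul] at h
  have h2 : ∫ ω, 2 * Real.pi * Complex.I * (a z ω : ℂ) * w z r ω ∂(sg n) =
      2 * Real.pi * Complex.I * Ja z r := by
    unfold Ja
    rw [← integral_const_mul]
    congr 1
    funext ω
    ring
  rw [← h2]
  exact h

theorem contJ [IsFiniteMeasure (sg n)] (z : E n) : Continuous (J z) :=
  continuous_iff_continuousAt.mpr fun r => (dJ z r).continuousAt

theorem contJa [IsFiniteMeasure (sg n)] (z : E n) : Continuous (Ja z) := by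
  have hac := cont_a z
  exact continuous_iff_continuousAt.mpr fun r =>
    (deriv_int z (fun ω => (a z ω : ℂ)) (by fun_prop) r).continuousAt

theorem D1_eq (z : E n) (r : ℝ) : D1 r z = ((r ^ (n - 1) : ℝ) : ℂ) * J z r := by
  unfold D1 J
  simp only [ex_eq]

/-- polar coordinates on the ball -/
theorem polar (h1 : T_POLN) (hn : 0 < n) {G : E n → ℂ} (hG : Continuous G) {R : ℝ}
    (hR : 0 ≤ R) :
    ∫ ζ in Metric.closedBall (0 : E n) R, G ζ =
      ∫ r in (0 : ℝ)..R, ((r ^ (n - 1) : ℝ) : ℂ) * ∫ ω, G (r • (ω : E n)) ∂(sg n) := by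
  have hm : MeasurableSet (Metric.closedBall (0 : E n) R) :=
    Metric.isClosed_closedBall.measurableSet
  have hi : Integrable ((Metric.closedBall (0 : E n) R).indicator G) := by
    rw [integrable_indicator_iff hm]
    exact hG.continuousOn.integrableOn_compact (isCompact_closedBall 0 R)
  have h2 := (h1 n hn).2.1 _ hi
  rw [← integral_indicator hm, h2, intervalIntegral.integral_of_le hR,
    ← integral_indicator measurableSet_Ioi, ← integral_indicator measurableSet_Ioc]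
  congr 1
  funext r
  by_cases hr : 0 < r
  · rw [indicator_of_mem (show r ∈ Ioi (0 : ℝ) from hr)]
    have hnr : ∀ ω : Metric.sphere (0 : E n) 1, ‖r • (ω : E n)‖ = r := by
      intro ω
      rw [norm_smul, norm_eq_of_mem_sphere, mul_one, Real.norm_of_nonneg hr.le]
    by_cases hrR : r ≤ R
    · rw [indicator_of_mem (show r ∈ Ioc (0 : ℝ) R from ⟨hr, hrR⟩)]
      congr 1
      congr 1
      funext ω
      rw [indicator_of_mem]
      rw [mem_closedBall_zero_iff, hnr]
      exact hrR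
    · rw [indicator_of_notMem (show r ∉ Ioc (0 : ℝ) R from fun h => hrR h.2)]
      have : ∀ ω : Metric.sphere (0 : E n) 1,
          (Metric.closedBall (0 : E n) R).indicator G (r • (ω : E n)) = 0 := by
        intro ω
        apply indicator_of_notMem
        rw [mem_closedBall_zero_iff, hnr]
        exact hrR
      simp [this]
  · rw [indicator_of_notMem (show r ∉ Ioi (0 : ℝ) from hr),
      indicator_of_notMem (show r ∉ Ioc (0 : ℝ) R from fun h => hr h.1)]

theorem DD_eq (h1 : T_POLN) (hn : 0 < n) (z : E n) {R : ℝ} (hR : 0 ≤ R) :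
    DD R z = ∫ r in (0 : ℝ)..R, ((r ^ (n - 1) : ℝ) : ℂ) * J z r := by
  unfold DD
  rw [polar h1 hn (cont_ex z) hR]
  unfold J
  simp only [ex_eq]

theorem Q_eq (h1 : T_POLN) (hn : 0 < n) (z : E n) {R : ℝ} (hR : 0 ≤ R) :
    ∫ ζ in Metric.closedBall (0 : E n) R, ((inner ℝ z ζ : ℝ) : ℂ) * ex z ζ =
      ∫ r in (0 : ℝ)..R, ((r ^ n : ℝ) : ℂ) * Ja z r := by
  have hc : Continuous fun ζ : E n => ((inner ℝ z ζ : ℝ) : ℂ) * ex z ζ :=
    (Complex.continuous_ofReal.comp (by fun_prop)).mul (cont_ex z)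
  rw [polar h1 hn hc hR]
  refine intervalIntegral.integral_congr fun r _ => ?_
  have h3 : ∀ ω : Metric.sphere (0 : E n) 1,
      ((inner ℝ z (r • (ω : E n)) : ℝ) : ℂ) * ex z (r • (ω : E n)) =
        (r : ℂ) * ((a z ω : ℂ) * w z r ω) := by
    intro ω
    rw [ex_eq, inner_smul_right]
    unfold a
    push_cast
    ring
  simp only [h3]
  rw [integral_const_mul]
  unfold Ja
  have h4 : r ^ n = r ^ (n - 1) * r := by
    rw [← pow_succ]
    congr 1
    omega
  rw [h4]
  push_cast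
  ring

theorem P_eq (h1 : T_POLN) (hn : 0 < n) (z : E n) {R : ℝ} (hR : 0 ≤ R) :
    ∫ ζ in Metric.closedBall (0 : E n) R, (((R ^ 2 - ‖ζ‖ ^ 2) / 2 : ℝ) : ℂ) * ex z ζ =
      ∫ r in (0 : ℝ)..R, (((R ^ 2 - r ^ 2) / 2 * r ^ (n - 1) : ℝ) : ℂ) * J z r := by
  have hc : Continuous fun ζ : E n => (((R ^ 2 - ‖ζ‖ ^ 2) / 2 : ℝ) : ℂ) * ex z ζ :=
    (Complex.continuous_ofReal.comp (by fun_prop)).mul (cont_ex z)
  rw [polar h1 hn hc hR]
  refine intervalIntegral.integral_congr fun r hr => ?_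
  rw [uIcc_of_le hR] at hr
  have h3 : ∀ ω : Metric.sphere (0 : E n) 1,
      (((R ^ 2 - ‖r • (ω : E n)‖ ^ 2) / 2 : ℝ) : ℂ) * ex z (r • (ω : E n)) =
        (((R ^ 2 - r ^ 2) / 2 : ℝ) : ℂ) * w z r ω := by
    intro ω
    rw [ex_eq, norm_smul, norm_eq_of_mem_sphere, mul_one, Real.norm_of_nonneg hr.1]
  simp only [h3]
  rw [integral_const_mul]
  unfold J
  push_cast
  ring

/-- the derivative of an integral with variable upper limit -/
theorem dInt {f : ℝ → ℂ} (hf : Continuous f) (R : ℝ) :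
    HasDerivAt (fun r : ℝ => ∫ s in (0 : ℝ)..r, f s) (f R) R :=
  (hf.integral_hasStrictDerivAt 0 R).hasDerivAt

theorem ident (h1 : T_POLN) (h2 : T_IBPN) (hn : 0 < n) (z : E n) {R : ℝ} (hR : 0 < R) :
    ((R ^ (n - 1) : ℝ) : ℂ) * Ja z R = 2 * Real.pi * Complex.I * ‖z‖ ^ 2 * DD R z := by
  haveI := (h1 n hn).2.2
  have hJ := contJ z
  have hJa := contJa z
  set A : ℝ → ℂ := fun R => ∫ r in (0 : ℝ)..R, ((r ^ (n - 1) : ℝ) : ℂ) * J z r with hA
  set B : ℝ → ℂ := fun R => ∫ r in (0 : ℝ)..R, ((r ^ 2 * r ^ (n - 1) : ℝ) : ℂ) * J z r with hB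
  have cA : Continuous fun r : ℝ => ((r ^ (n - 1) : ℝ) : ℂ) * J z r := by fun_prop
  have cB : Continuous fun r : ℝ => ((r ^ 2 * r ^ (n - 1) : ℝ) : ℂ) * J z r := by fun_prop
  have cQ : Continuous fun r : ℝ => ((r ^ n : ℝ) : ℂ) * Ja z r := by fun_prop
  have hPAB : ∀ R : ℝ, ∫ r in (0 : ℝ)..R, (((R ^ 2 - r ^ 2) / 2 * r ^ (n - 1) : ℝ) : ℂ) * J z r =
      (R : ℂ) ^ 2 / 2 * A R - 1 / 2 * B R := by
    intro R
    rw [hA, hB]
    simp only
    rw [← intervalIntegral.integral_const_mul, ← intervalIntegral.integral_const_mul,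
      ← intervalIntegral.integral_sub ((cA.const_mul _).intervalIntegrable _ _)
        ((cB.const_mul _).intervalIntegrable _ _)]
    refine intervalIntegral.integral_congr fun r _ => ?_
    push_cast
    ring
  have hEq : ∀ R : ℝ, 0 < R → ∫ r in (0 : ℝ)..R, ((r ^ n : ℝ) : ℂ) * Ja z r =
      2 * Real.pi * Complex.I * ‖z‖ ^ 2 * ((R : ℂ) ^ 2 / 2 * A R - 1 / 2 * B R) := by
    intro R hR
    rw [← Q_eq h1 hn z hR.le, h2 n z R hn hR, P_eq h1 hn z hR.le, hPAB]
  have d1 : HasDerivAt (fun R : ℝ => ∫ r in (0 : ℝ)..R, ((r ^ n : ℝ) : ℂ) * Ja z r)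
      (((R ^ n : ℝ) : ℂ) * Ja z R) R := dInt cQ R
  have dA : HasDerivAt A (((R ^ (n - 1) : ℝ) : ℂ) * J z R) R := dInt cA R
  have dB : HasDerivAt B (((R ^ 2 * R ^ (n - 1) : ℝ) : ℂ) * J z R) R := dInt cB R
  have dR : HasDerivAt (fun R : ℝ => (R : ℂ) ^ 2 / 2) (R : ℂ) R := by
    have h0 : HasDerivAt (fun r : ℝ => (r : ℂ)) ((1 : ℝ) : ℂ) R := (hasDerivAt_id R).ofReal_comp
    refine ((h0.fun_pow 2).div_const 2).congr_deriv ?_
    push_cast
    ring
  have d2 : HasDerivAt (fun R : ℝ => 2 * Real.pi * Complex.I * ‖z‖ ^ 2 *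
      ((R : ℂ) ^ 2 / 2 * A R - 1 / 2 * B R))
      (2 * Real.pi * Complex.I * ‖z‖ ^ 2 * ((R : ℂ) * A R)) R := by
    refine (((dR.fun_mul dA).fun_sub (dB.const_mul (1 / 2 : ℂ))).const_mul
      (2 * Real.pi * Complex.I * ‖z‖ ^ 2 : ℂ)).congr_deriv ?_
    push_cast
    ring
  have d3 : HasDerivAt (fun R : ℝ => ∫ r in (0 : ℝ)..R, ((r ^ n : ℝ) : ℂ) * Ja z r)
      (2 * Real.pi * Complex.I * ‖z‖ ^ 2 * ((R : ℂ) * A R)) R := by
    refine d2.congr_of_eventuallyEq ?_
    filter_upwards [Ioi_mem_nhds hR] with r hr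
    exact hEq r hr
  have h5 := d1.unique d3
  have hDD : DD R z = A R := DD_eq h1 hn z hR.le
  have h4 : R ^ n = R ^ (n - 1) * R := by
    rw [← pow_succ]
    congr 1
    omega
  have hR' : (R : ℂ) ≠ 0 := by exact_mod_cast hR.ne'
  rw [hDD]
  rw [h4] at h5
  refine mul_right_cancel₀ hR' ?_
  push_cast at h5 ⊢
  linear_combination h5

end BESN_

open BESN_ in
theorem p_BESN (h1 : T_POLN) (h2 : T_IBPN) : T_BESN := by
  intro n z R hn2 hR
  have hn : 0 < n := by omega
  haveI := (h1 n hn).2.2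
  have hJ := contJ z
  constructor
  · have hc : Continuous (fun s : ℝ => ((s ^ (n - 1) : ℝ) : ℂ) * J z s) := by fun_prop
    have h3 : HasDerivAt (fun r : ℝ => ∫ s in (0 : ℝ)..r, ((s ^ (n - 1) : ℝ) : ℂ) * J z s)
        (D1 R z) R := by
      rw [D1_eq]
      exact dInt hc R
    refine h3.congr_of_eventuallyEq ?_
    filter_upwards [Ioi_mem_nhds hR] with r hr
    exact DD_eq h1 hn z (le_of_lt hr)
  · have h0 : HasDerivAt (fun r : ℝ => ((r ^ (n - 1) : ℝ) : ℂ))
        (((((n - 1 : ℕ) : ℝ) * R ^ (n - 1 - 1) * 1 : ℝ)) : ℂ) R :=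
      ((hasDerivAt_id R).fun_pow (n - 1)).ofReal_comp
    have h3 := h0.fun_mul (dJ z R)
    have h4 : (fun r : ℝ => D1 r z) = (fun r : ℝ => ((r ^ (n - 1) : ℝ) : ℂ) * J z r) := by
      funext r
      exact D1_eq z r
    rw [h4]
    refine h3.congr_deriv ?_
    rw [D1_eq]
    have h5 := ident h1 h2 hn z hR
    have hR' : (R : ℂ) ≠ 0 := by exact_mod_cast hR.ne'
    have h6 : R ^ (n - 1) = R ^ (n - 1 - 1) * R := by
      rw [← pow_succ]
      congr 1
      omega
    have h7 : (((n - 1 : ℕ) : ℝ) : ℂ) = (n : ℂ) - 1 := by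
      rw [Nat.cast_sub (by omega)]
      push_cast
      ring
    have h8 : ((n : ℂ) - 1) / R * (((R ^ (n - 1) : ℝ) : ℂ) * J z R) =
        ((n : ℂ) - 1) * ((R ^ (n - 1 - 1) : ℝ) : ℂ) * J z R := by
      rw [h6]
      push_cast
      field_simp
    rw [h8]
    have h9 : 4 * (Real.pi : ℂ) ^ 2 * ‖z‖ ^ 2 * DD R z =
        -(2 * Real.pi * Complex.I * (2 * Real.pi * Complex.I * ‖z‖ ^ 2 * DD R z)) := by
      linear_combination (4 * (Real.pi : ℂ) ^ 2 * ‖z‖ ^ 2 * DD R z) * Complex.I_sq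
    rw [h9, ← h5, mul_one, Complex.ofReal_mul, h7]
    ring

end Pool.Agent.CRN
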