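import Pool.Agent.CRN.Targets

set_option autoImplicit false

/-!
# Block D2SN: `S f R x` as a function of `R`
-/

namespace Pool.Agent.CRN

open MeasureTheory FourierTransform Set Filter Topology
open scoped ENNReal NNReal
open Pool.Agent.MBS (E ex S Sstar ex_norm ex_continuous)
open Pool.Agent.CAR (e1)

namespace D2SN_

variable {n : ℕ}

/-- The integrand of the Fourier transform, shifted. -/
theorem four_mul_ex (f : E n → ℂ) (x ξ : E n) :
    𝓕 f ξ * ex x ξ = ∫ y, f y * ex (x - y) ξ := by
  rw [Real.fourier_eq', ← integral_mul_const]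
  refine integral_congr_ae (ae_of_all _ fun y => ?_)
  simp only [ex, smul_eq_mul]
  rw [mul_right_comm, mul_comm _ (f y), ← Complex.exp_add]
  congr 2
  rw [inner_sub_left]
  push_cast
  ring

section gen

variable {X : Type*} [MeasurableSpace X] (μ : Measure X) [IsFiniteMeasure μ] (p : X → E n)

theorem ker_continuous (hp : Measurable p) : Continuous (fun z : E n => ∫ a, ex z (p a) ∂μ) := by
  refine continuous_of_dominated (bound := fun _ => 1) (fun z => ?_) (fun z => ?_)
    (integrable_const 1) ?_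
  · have h1 : Continuous (fun ξ : E n => ex z ξ) :=
      ex_continuous.comp (continuous_const.prodMk continuous_id)
    exact (h1.measurable.comp hp).aestronglyMeasurable
  · exact ae_of_all _ fun a => (ex_norm _ _).le
  · exact ae_of_all _ fun a => ex_continuous.comp (continuous_id.prodMk continuous_const)

theorem fub (hp : Measurable p) {f : E n → ℂ} (hf : Integrable f) (x : E n) :
    ∫ a, 𝓕 f (p a) * ex x (p a) ∂μ = ∫ y, f y * ∫ a, ex (x - y) (p a) ∂μ := by
  have hm : Measurable (fun z : X × E n => ex (x - z.2) (p z.1)) :=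
    ex_continuous.measurable.comp ((measurable_const.sub measurable_snd).prodMk
      (hp.comp measurable_fst))
  have hi : Integrable (Function.uncurry fun (a : X) (y : E n) => f y * ex (x - y) (p a))
      (μ.prod volume) := by
    refine (hf.comp_snd μ).mul_bdd (c := 1) hm.aestronglyMeasurable
      (ae_of_all _ fun z => (ex_norm _ _).le)
  calc ∫ a, 𝓕 f (p a) * ex x (p a) ∂μ
      = ∫ a, (∫ y, f y * ex (x - y) (p a)) ∂μ :=
        integral_congr_ae (ae_of_all _ fun a => four_mul_ex f x (p a))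
    _ = ∫ y, ∫ a, f y * ex (x - y) (p a) ∂μ := integral_integral_swap hi
    _ = ∫ y, f y * ∫ a, ex (x - y) (p a) ∂μ :=
        integral_congr_ae (ae_of_all _ fun y => integral_const_mul _ _)

end gen

instance finBall (R : ℝ) :
    IsFiniteMeasure ((volume : Measure (E n)).restrict (Metric.closedBall 0 R)) :=
  ⟨by
    rw [Measure.restrict_apply_univ]
    exact measure_closedBall_lt_top⟩

theorem S_eq {f : E n → ℂ} (hf : Integrable f) (R : ℝ) (x : E n) :
    S f R x = ∫ y, f y * DD R (x - y) := by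
  unfold S DD
  exact fub _ id measurable_id hf x

theorem sph_meas (R : ℝ) : Measurable (fun ω : Metric.sphere (0 : E n) 1 => R • (ω : E n)) :=
  (continuous_subtype_val.const_smul R).measurable

theorem S1_eq [IsFiniteMeasure (sg n)] {f : E n → ℂ} (hf : Integrable f) (R : ℝ) (x : E n) :
    S1 f R x = ∫ y, f y * D1 R (x - y) := by
  unfold S1 SH D1
  rw [fub (sg n) (fun ω : Metric.sphere (0 : E n) 1 => R • (ω : E n)) (sph_meas R) hf x,
    ← integral_const_mul]
  refine integral_congr_ae (ae_of_all _ fun y => ?_)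
  simp only
  ring

theorem DD_cont (R : ℝ) : Continuous (DD (n := n) R) :=
  ker_continuous (volume.restrict (Metric.closedBall (0 : E n) R)) id measurable_id

theorem D1_cont [IsFiniteMeasure (sg n)] (R : ℝ) : Continuous (D1 (n := n) R) :=
  continuous_const.mul (ker_continuous (sg n)
    (fun ω : Metric.sphere (0 : E n) 1 => R • (ω : E n)) (sph_meas R))

/-- A bound for the ball kernel. -/
noncomputable def VB (n : ℕ) (R : ℝ) : ℝ := (volume (Metric.closedBall (0 : E n) R)).toReal

theorem VB_nonneg (R : ℝ) : 0 ≤ VB n R := ENNReal.toReal_nonneg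

theorem DD_bound {r R : ℝ} (h : r ≤ R) (z : E n) : ‖DD r z‖ ≤ VB n R := by
  have h1 : ‖DD r z‖ ≤ 1 * (volume.real (Metric.closedBall (0 : E n) r)) :=
    norm_setIntegral_le_of_norm_le_const measure_closedBall_lt_top
      (fun ζ _ => (ex_norm _ _).le)
  have h2 : (volume.real (Metric.closedBall (0 : E n) r)) ≤ VB n R :=
    ENNReal.toReal_mono measure_closedBall_lt_top.ne
      (measure_mono (Metric.closedBall_subset_closedBall h))
  linarith

theorem D1_bound [IsFiniteMeasure (sg n)] (r : ℝ) (z : E n) :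
    ‖D1 r z‖ ≤ |r| ^ (n - 1) * (sg n).real univ := by
  unfold D1
  rw [norm_mul, Complex.norm_real, Real.norm_eq_abs, abs_pow]
  refine mul_le_mul_of_nonneg_left ?_ (by positivity)
  have h1 := norm_integral_le_of_norm_le_const (μ := sg n)
    (f := fun ω : Metric.sphere (0 : E n) 1 => ex z (r • (ω : E n))) (C := 1)
    (ae_of_all _ fun ω => (ex_norm _ _).le)
  rw [one_mul] at h1
  exact h1

theorem int_mul {f : E n → ℂ} (hf : Integrable f) {K : E n → ℂ} (hK : Continuous K) {C : ℝ}
    (hC : ∀ z, ‖K z‖ ≤ C) (x : E n) : Integrable (fun y => f y * K (x - y)) := by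
  refine hf.mul_bdd (c := C) ?_ (ae_of_all _ fun y => hC _)
  exact (hK.comp (continuous_const.sub continuous_id)).aestronglyMeasurable

/-- A multiple of `f` by a function bounded by one on the support. -/
theorem int_supp {f : E n → ℂ} (hf : Integrable f) (hs : ∀ y, f y ≠ 0 → ‖y‖ ≤ 1)
    {m : E n → ℂ} (hm : Continuous m) (hb : ∀ y : E n, ‖y‖ ≤ 1 → ‖m y‖ ≤ 1) :
    Integrable (fun y => m y * f y) := by
  refine hf.mono (hm.aestronglyMeasurable.mul hf.1) (ae_of_all _ fun y => ?_)
  rw [norm_mul]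
  by_cases h : f y = 0
  · simp [h]
  · have := mul_le_mul_of_nonneg_right (hb y (hs y h)) (norm_nonneg (f y))
    linarith

end D2SN_

open D2SN_ in
/-- The derivatives of the ball sums with respect to the radius. -/
theorem p_D2SN (h1 : T_POLN) (h2 : T_BESN) : T_D2SN := by
  intro n f hn hf hs x R hR
  haveI : IsFiniteMeasure (sg n) := (h1 n (by omega)).2.2
  set A : ℝ := (sg n).real univ with hA
  have hA0 : 0 ≤ A := measureReal_nonneg
  have hfi := hf.int
  have hpi := Real.pi_pos
  have hnb : Ioo (R / 2) (2 * R) ∈ 𝓝 R := Ioo_mem_nhds (by linarith) (by linarith)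
  have hrpos : ∀ r ∈ Ioo (R / 2) (2 * R), 0 < r := fun r hr => by
    have := hr.1
    linarith
  have hDr : ∀ r ∈ Ioo (R / 2) (2 * R), ∀ z : E n, ‖D1 r z‖ ≤ (2 * R) ^ (n - 1) * A := by
    intro r hr z
    refine (D1_bound r z).trans ?_
    rw [abs_of_pos (hrpos r hr)]
    exact mul_le_mul_of_nonneg_right (pow_le_pow_left₀ (hrpos r hr).le hr.2.le _) hA0
  constructor
  · have key := hasDerivAt_integral_of_dominated_loc_of_deriv_le (μ := (volume : Measure (E n)))
      (F := fun (r : ℝ) (y : E n) => f y * DD r (x - y))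
      (F' := fun (r : ℝ) (y : E n) => f y * D1 r (x - y)) (x₀ := R)
      (bound := fun y => ‖f y‖ * ((2 * R) ^ (n - 1) * A)) hnb
      (Eventually.of_forall fun r =>
        (int_mul hfi (DD_cont r) (fun z => DD_bound (le_refl r) z) x).1)
      (int_mul hfi (DD_cont R) (fun z => DD_bound (le_refl R) z) x)
      (int_mul hfi (D1_cont R) (fun z => D1_bound R z) x).1
      (ae_of_all _ fun y r hr => by
        rw [norm_mul]
        exact mul_le_mul_of_nonneg_left (hDr r hr _) (norm_nonneg _))
      (hfi.norm.mul_const _)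
      (ae_of_all _ fun y r hr => (h2 n (x - y) r hn (hrpos r hr)).1.const_mul (f y))
    have e1 : (fun r => S f r x) = fun r => ∫ y, f y * DD r (x - y) :=
      funext fun r => S_eq hfi r x
    rw [e1, S1_eq hfi R x]
    exact key.2
  · have hbd : ∀ y : E n, ∀ r ∈ Ioo (R / 2) (2 * R),
        ‖f y * (((n : ℂ) - 1) / r * D1 r (x - y) -
          4 * Real.pi ^ 2 * ‖x - y‖ ^ 2 * DD r (x - y))‖ ≤
        ‖f y‖ * (((n : ℝ) + 1) / (R / 2) * ((2 * R) ^ (n - 1) * A) +
          4 * Real.pi ^ 2 * (‖x‖ + 1) ^ 2 * VB n (2 * R)) := by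
      intro y r hr
      rw [norm_mul]
      by_cases h0 : f y = 0
      · simp [h0]
      refine mul_le_mul_of_nonneg_left ?_ (norm_nonneg _)
      have hy := hs y h0
      have hxy : ‖x - y‖ ≤ ‖x‖ + 1 := (norm_sub_le x y).trans (by linarith)
      refine (norm_sub_le _ _).trans (add_le_add ?_ ?_)
      · rw [norm_mul, norm_div, Complex.norm_real, Real.norm_eq_abs, abs_of_pos (hrpos r hr)]
        refine mul_le_mul ?_ (hDr r hr _) (norm_nonneg _) (by positivity)
        refine div_le_div₀ (by positivity) ?_ (by linarith) hr.1.le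
        refine (norm_sub_le _ _).trans ?_
        rw [Complex.norm_natCast, norm_one]
      · rw [norm_mul, norm_mul, norm_mul, norm_pow, norm_pow, Complex.norm_real,
          Complex.norm_real, Real.norm_eq_abs, abs_of_pos hpi, norm_norm, Complex.norm_ofNat]
        have h3 := DD_bound hr.2.le (x - y)
        have h4 : ‖x - y‖ ^ 2 ≤ (‖x‖ + 1) ^ 2 := by gcongr
        have h5 := VB_nonneg (n := n) (2 * R)
        gcongr
    have hcm : ∀ r : ℝ, Continuous (fun y : E n =>
        ((n : ℂ) - 1) / r * D1 r (x - y) -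
          4 * Real.pi ^ 2 * ‖x - y‖ ^ 2 * DD r (x - y)) := by
      intro r
      have c1 : Continuous (fun y : E n => D1 r (x - y)) :=
        (D1_cont r).comp (continuous_const.sub continuous_id)
      have c2 : Continuous (fun y : E n => DD r (x - y)) :=
        (DD_cont r).comp (continuous_const.sub continuous_id)
      have c3 : Continuous (fun y : E n => ((‖x - y‖ : ℝ) : ℂ)) :=
        Complex.continuous_ofReal.comp (continuous_const.sub continuous_id).norm
      exact (continuous_const.mul c1).sub ((continuous_const.mul (c3.pow 2)).mul c2)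
    have key := hasDerivAt_integral_of_dominated_loc_of_deriv_le (μ := (volume : Measure (E n)))
      (F := fun (r : ℝ) (y : E n) => f y * D1 r (x - y))
      (F' := fun (r : ℝ) (y : E n) => f y * (((n : ℂ) - 1) / r * D1 r (x - y) -
        4 * Real.pi ^ 2 * ‖x - y‖ ^ 2 * DD r (x - y))) (x₀ := R)
      (bound := fun y => ‖f y‖ *
        (((n : ℝ) + 1) / (R / 2) * ((2 * R) ^ (n - 1) * A) +
          4 * Real.pi ^ 2 * (‖x‖ + 1) ^ 2 * VB n (2 * R))) hnb
      (Eventually.of_forall fun r => (int_mul hfi (D1_cont r) (fun z => D1_bound r z) x).1)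
      (int_mul hfi (D1_cont R) (fun z => D1_bound R z) x)
      (hfi.1.mul (hcm R).aestronglyMeasurable)
      (ae_of_all _ fun y r hr => hbd y r hr)
      (hfi.norm.mul_const _)
      (ae_of_all _ fun y r hr => (h2 n (x - y) r hn (hrpos r hr)).2.const_mul (f y))
    have e1 : (fun r => S1 f r x) = fun r => ∫ y, f y * D1 r (x - y) :=
      funext fun r => S1_eq hfi r x
    rw [e1]
    have hc0 : ∀ i : Fin n, Continuous (fun y : E n => ((y i : ℝ) : ℂ)) := fun i =>
      Complex.continuous_ofReal.comp (by fun_prop)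
    have hle : ∀ (i : Fin n) (y : E n), ‖y‖ ≤ 1 → ‖((y i : ℝ) : ℂ)‖ ≤ 1 := by
      intro i y hy
      rw [Complex.norm_real]
      exact (PiLp.norm_apply_le y i).trans hy
    have i0 : ∀ i : Fin n, Integrable (fun y : E n => ((y i : ℝ) : ℂ) * f y) := fun i =>
      int_supp hfi hs (hc0 i) (hle i)
    have i2 : Integrable (fun y : E n => ((‖y‖ ^ 2 : ℝ) : ℂ) * f y) := by
      refine int_supp hfi hs (Complex.continuous_ofReal.comp (continuous_norm.pow 2)) ?_
      intro y hy
      rw [Complex.norm_real, norm_pow, norm_norm]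
      exact pow_le_one₀ (norm_nonneg y) hy
    have hDb : ∀ z : E n, ‖DD R z‖ ≤ VB n R := fun z => DD_bound (le_refl R) z
    have j1 := int_mul hfi (D1_cont R) (fun z => D1_bound R z) x
    have j2 := int_mul hfi (DD_cont R) hDb x
    have j3 := fun i => int_mul (i0 i) (DD_cont R) hDb x
    have j5 := int_mul i2 (DD_cont R) hDb x
    rw [S1_eq hfi R x, S_eq hfi R x, S_eq i2 R x]
    have hsum : (∑ j : Fin n, (x j : ℂ) * S (fun y => (y j : ℂ) * f y) R x) =
        ∫ y : E n, ∑ j : Fin n, (x j : ℂ) * (((y j : ℝ) : ℂ) * f y * DD R (x - y)) := by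
      rw [integral_finset_sum _ (fun j _ => (j3 j).const_mul _)]
      refine Finset.sum_congr rfl fun j _ => ?_
      rw [integral_const_mul, ← S_eq (i0 j) R x]
    have k3 : Integrable (fun y : E n =>
        ∑ j : Fin n, (x j : ℂ) * (((y j : ℝ) : ℂ) * f y * DD R (x - y))) :=
      integrable_finset_sum _ (fun j _ => (j3 j).const_mul _)
    rw [hsum]
    have e2 : ((n : ℂ) - 1) / R * (∫ y, f y * D1 R (x - y)) -
        4 * Real.pi ^ 2 * ‖x‖ ^ 2 * (∫ y, f y * DD R (x - y)) +
        4 * Real.pi ^ 2 * (2 * (∫ y : E n, ∑ j : Fin n,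
          (x j : ℂ) * (((y j : ℝ) : ℂ) * f y * DD R (x - y))) -
          ∫ y : E n, ((‖y‖ ^ 2 : ℝ) : ℂ) * f y * DD R (x - y)) =
        ∫ y, f y * (((n : ℂ) - 1) / R * D1 R (x - y) -
          4 * Real.pi ^ 2 * ‖x - y‖ ^ 2 * DD R (x - y)) := by
      have k4 : Integrable (fun y : E n => 2 * (∑ j : Fin n,
          (x j : ℂ) * (((y j : ℝ) : ℂ) * f y * DD R (x - y)))) := k3.const_mul _
      have k45 : Integrable (fun y : E n => 2 * (∑ j : Fin n,
          (x j : ℂ) * (((y j : ℝ) : ℂ) * f y * DD R (x - y))) -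
          ((‖y‖ ^ 2 : ℝ) : ℂ) * f y * DD R (x - y)) := k4.sub j5
      have kc : Integrable (fun y : E n => 4 * (Real.pi : ℂ) ^ 2 * (2 * (∑ j : Fin n,
          (x j : ℂ) * (((y j : ℝ) : ℂ) * f y * DD R (x - y))) -
          ((‖y‖ ^ 2 : ℝ) : ℂ) * f y * DD R (x - y))) := k45.const_mul _
      have k1 : Integrable (fun y : E n => ((n : ℂ) - 1) / R * (f y * D1 R (x - y))) :=
        j1.const_mul _
      have k2 : Integrable (fun y : E n =>
          4 * (Real.pi : ℂ) ^ 2 * (‖x‖ : ℂ) ^ 2 * (f y * DD R (x - y))) := j2.const_mul _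
      have k12 : Integrable (fun y : E n => ((n : ℂ) - 1) / R * (f y * D1 R (x - y)) -
          4 * (Real.pi : ℂ) ^ 2 * (‖x‖ : ℂ) ^ 2 * (f y * DD R (x - y))) := k1.sub k2
      rw [← integral_const_mul, ← integral_const_mul, ← integral_const_mul,
        ← integral_sub k4 j5, ← integral_const_mul,
        ← integral_sub k1 k2, ← integral_add k12 kc]
      refine integral_congr_ae (ae_of_all _ fun y => ?_)
      have hxy : ((‖x - y‖ : ℝ) : ℂ) ^ 2 = ((‖x‖ : ℝ) : ℂ) ^ 2 -
          2 * (∑ j : Fin n, ((x j : ℝ) : ℂ) * ((y j : ℝ) : ℂ)) + ((‖y‖ : ℝ) : ℂ) ^ 2 := by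
        have h3 : ‖x - y‖ ^ 2 = ‖x‖ ^ 2 - 2 * (∑ j : Fin n, x j * y j) + ‖y‖ ^ 2 := by
          rw [norm_sub_sq_real]
          congr 3
          rw [PiLp.inner_apply]
          simp [mul_comm]
        exact_mod_cast congrArg (fun t : ℝ => (t : ℂ)) h3
      have hS : (∑ j : Fin n, (x j : ℂ) * (((y j : ℝ) : ℂ) * f y * DD R (x - y))) =
          (∑ j : Fin n, ((x j : ℝ) : ℂ) * ((y j : ℝ) : ℂ)) * (f y * DD R (x - y)) := by
        rw [Finset.sum_mul]
        exact Finset.sum_congr rfl fun j _ => by ring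
      simp only [hxy, hS]
      push_cast
      ring
    rw [e2]
    exact key.2

end Pool.Agent.CRN
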