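import Pool.Agent.CRN.Targets

set_option autoImplicit false

/-!
# CRN: the spherical part is the radial derivative of the ball sum (target DSN)
-/

namespace Pool.Agent.CRN

open MeasureTheory FourierTransform Set Filter Topology
open scoped ENNReal NNReal
open Pool.Agent.MBS (E ex S Sstar ex_norm ex_continuous)

namespace DSN_

variable {n : ℕ}

lemma fourier_cont {g : E n → ℂ} (hg : Integrable g) : Continuous (𝓕 g) :=
  VectorFourier.fourierIntegral_continuous Real.continuous_fourierChar
    (by simp only [innerₗ_apply_apply]; fun_prop) hg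

lemma fourier_le (f : E n → ℂ) (ξ : E n) : ‖𝓕 f ξ‖ ≤ ∫ y, ‖f y‖ :=
  VectorFourier.norm_fourierIntegral_le_integral_norm Real.fourierChar volume (innerₗ (E n)) f ξ

/-- The integrand on the sphere. -/
noncomputable def H (f : E n → ℂ) (x ξ : E n) : ℂ := 𝓕 f ξ * ex x ξ

lemma H_cont {f : E n → ℂ} (hf : Integrable f) : Continuous fun p : E n × E n => H f p.1 p.2 :=
  ((fourier_cont hf).comp continuous_snd).mul ex_continuous

lemma sp_cont : Continuous fun q : (ℝ × E n) × Metric.sphere (0 : E n) 1 =>
    q.1.1 • (q.2 : E n) := by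
  have h1 : Continuous fun q : (ℝ × E n) × Metric.sphere (0 : E n) 1 => q.1.1 :=
    continuous_fst.comp continuous_fst
  have h2 : Continuous fun q : (ℝ × E n) × Metric.sphere (0 : E n) 1 => (q.2 : E n) :=
    continuous_subtype_val.comp continuous_snd
  exact h1.smul h2

lemma J_cont {f : E n → ℂ} (hf : Integrable f) :
    Continuous fun q : (ℝ × E n) × Metric.sphere (0 : E n) 1 =>
      H f q.1.2 (q.1.1 • (q.2 : E n)) := by
  have h1 : Continuous fun q : (ℝ × E n) × Metric.sphere (0 : E n) 1 => q.1.2 :=
    continuous_snd.comp continuous_fst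
  have h2 := h1.prodMk (sp_cont (n := n))
  have h3 := (H_cont hf).comp h2
  exact h3

lemma I_cont {f : E n → ℂ} (hf : Integrable f) (hfin : IsFiniteMeasure (sg n)) :
    Continuous fun p : ℝ × E n =>
      ∫ ω : Metric.sphere (0 : E n) 1, H f p.2 (p.1 • (ω : E n)) ∂(sg n) := by
  have hJ := J_cont hf
  have a1 : ∀ p : ℝ × E n, AEStronglyMeasurable
      (fun ω : Metric.sphere (0 : E n) 1 => H f p.2 (p.1 • (ω : E n))) (sg n) := fun p => by
    have h0 : Continuous fun ω : Metric.sphere (0 : E n) 1 => (p, ω) :=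
      continuous_const.prodMk continuous_id
    have h := hJ.comp h0
    exact h.aestronglyMeasurable
  have a2 : ∀ p : ℝ × E n, ∀ᵐ ω : Metric.sphere (0 : E n) 1 ∂(sg n),
      ‖H f p.2 (p.1 • (ω : E n))‖ ≤ ∫ y, ‖f y‖ := fun p => ae_of_all _ fun ω => by
    unfold H
    rw [norm_mul, ex_norm, mul_one]
    exact fourier_le f _
  have a3 : ∀ᵐ ω : Metric.sphere (0 : E n) 1 ∂(sg n),
      Continuous fun p : ℝ × E n => H f p.2 (p.1 • (ω : E n)) :=
    ae_of_all _ fun ω => by
      have h0 : Continuous fun p : ℝ × E n => (p, ω) := continuous_id.prodMk continuous_const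
      have h := hJ.comp h0
      exact h
  exact continuous_of_dominated a1 a2 (integrable_const _) a3

lemma S1_cont {f : E n → ℂ} (hf : Integrable f) (hfin : IsFiniteMeasure (sg n)) :
    Continuous fun p : ℝ × E n => S1 f p.1 p.2 := by
  have h1 : Continuous fun p : ℝ × E n => p.1 ^ (n - 1) := continuous_fst.pow (n - 1)
  have h2 : Continuous fun p : ℝ × E n => ((p.1 ^ (n - 1) : ℝ) : ℂ) :=
    Complex.continuous_ofReal.comp h1
  exact h2.mul (I_cont hf hfin)

lemma ann (hP : T_POLN) (hn : 0 < n) {f : E n → ℂ} (hf : Integrable f) (x : E n) (a b : ℝ)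
    (ha : 0 ≤ a) (hab : a ≤ b) : S f b x = S f a x + ∫ r in a..b, S1 f r x := by
  have hH0 : Continuous fun ξ : E n => (x, ξ) := continuous_const.prodMk continuous_id
  have hH1 := (H_cont hf).comp hH0
  have hH : Continuous (H f x) := hH1
  have hI : ∀ R : ℝ, IntegrableOn (H f x) (Metric.closedBall (0 : E n) R) := fun R =>
    hH.continuousOn.integrableOn_compact (isCompact_closedBall _ _)
  have hu : Metric.closedBall (0 : E n) b =
      Metric.closedBall 0 a ∪ (Metric.closedBall (0 : E n) b \ Metric.closedBall 0 a) :=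
    (union_sdiff_cancel (Metric.closedBall_subset_closedBall hab)).symm
  have hm : MeasurableSet (Metric.closedBall (0 : E n) b \ Metric.closedBall 0 a) :=
    measurableSet_closedBall.diff measurableSet_closedBall
  have h1 : S f b x = S f a x +
      ∫ ξ in Metric.closedBall (0 : E n) b \ Metric.closedBall 0 a, H f x ξ := by
    unfold S
    conv_lhs => rw [hu]
    exact setIntegral_union disjoint_sdiff_right hm (hI a) ((hI b).mono_set sdiff_subset)
  rw [h1]
  congr 1
  rw [← integral_indicator hm]
  have h2 := (hP n hn).2.1 ((Metric.closedBall (0 : E n) b \ Metric.closedBall 0 a).indicator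
    (H f x)) ((integrable_indicator_iff hm).2 ((hI b).mono_set sdiff_subset))
  rw [h2, intervalIntegral.integral_of_le hab]
  have h3 : ∀ r ∈ Ioi (0 : ℝ), (((r ^ (n - 1) : ℝ) : ℂ) * ∫ ω : Metric.sphere (0 : E n) 1,
      (Metric.closedBall (0 : E n) b \ Metric.closedBall 0 a).indicator (H f x)
        (r • (ω : E n)) ∂(sg n)) = (Ioc a b).indicator (fun r => S1 f r x) r := by
    intro r hr
    have hr0 : (0 : ℝ) < r := hr
    have hnorm : ∀ ω : Metric.sphere (0 : E n) 1, ‖r • (ω : E n)‖ = r := fun ω => by
      rw [norm_smul, Real.norm_of_nonneg hr0.le, norm_eq_of_mem_sphere, mul_one]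
    by_cases h : r ∈ Ioc a b
    · rw [indicator_of_mem h]
      unfold S1 SH
      congr 1
      refine integral_congr_ae (ae_of_all _ fun ω => ?_)
      simp only
      rw [indicator_of_mem]
      · rfl
      · rw [Set.mem_sdiff, mem_closedBall_zero_iff, mem_closedBall_zero_iff, hnorm]
        exact ⟨h.2, not_le.2 h.1⟩
    · rw [indicator_of_notMem h]
      have h4 : ∀ ω : Metric.sphere (0 : E n) 1,
          (Metric.closedBall (0 : E n) b \ Metric.closedBall 0 a).indicator (H f x)
            (r • (ω : E n)) = 0 := fun ω => by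
        refine indicator_of_notMem (fun hc => h ?_) _
        rw [Set.mem_sdiff, mem_closedBall_zero_iff, mem_closedBall_zero_iff, hnorm] at hc
        exact ⟨not_le.1 hc.2, hc.1⟩
      simp only [h4, integral_zero, mul_zero]
  rw [setIntegral_congr_fun measurableSet_Ioi h3, setIntegral_indicator measurableSet_Ioc]
  congr 1
  congr 1
  ext r
  exact ⟨fun h => h.2, fun h => ⟨lt_of_le_of_lt ha h.1, h⟩⟩

end DSN_

open DSN_ in
/-- DSN. -/
theorem p_DSN (h1 : T_POLN) : T_DSN := by
  intro n f hn hf
  exact ⟨S1_cont hf.int (h1 n (by omega)).2.2,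
    fun x a b ha hab => ann h1 (by omega) hf.int x a b ha hab⟩


end Pool.Agent.CRN
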