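import Pool.Agent.CRN.Targets

set_option autoImplicit false

/-!
# CRN: GLN, the global inequality
-/

namespace Pool.Agent.CRN

open MeasureTheory FourierTransform Set Filter Topology
open scoped ENNReal NNReal
open Pool.Agent.MBS (E ex S Sstar)

namespace GLN_

variable {n : ℕ}

theorem F_cont {f : E n → ℂ} (hf : Nice f) : Continuous (𝓕 f) :=
  VectorFourier.fourierIntegral_continuous Real.continuous_fourierChar
    (by exact continuous_inner) hf.int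

theorem ex_meas (x : E n) : Measurable (fun ξ : E n => ex x ξ) :=
  (Pool.Agent.MBS.ex_continuous.comp (Continuous.prodMk_right x)).measurable

theorem intEx {g : E n → ℂ} {s : Set (E n)} (h : IntegrableOn g s) (x : E n) :
    IntegrableOn (fun ξ => g ξ * ex x ξ) s := by
  refine Integrable.mono h (h.1.mul (ex_meas x).aestronglyMeasurable) (ae_of_all _ fun ξ => ?_)
  rw [norm_mul, Pool.Agent.MBS.ex_norm, mul_one]

theorem S_cont {f : E n → ℂ} (hf : Nice f) (R : ℝ) : Continuous (fun x => S f R x) := by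
  have h : IntegrableOn (𝓕 f) (Metric.closedBall (0 : E n) R) :=
    (F_cont hf).continuousOn.integrableOn_compact (isCompact_closedBall _ _)
  unfold S
  refine continuous_of_dominated (bound := fun ξ => ‖𝓕 f ξ‖)
    (fun x => (intEx h x).1) (fun x => ae_of_all _ fun ξ => ?_) h.norm (ae_of_all _ fun ξ => ?_)
  · rw [norm_mul, Pool.Agent.MBS.ex_norm, mul_one]
  · exact continuous_const.mul (Pool.Agent.MBS.ex_continuous.comp (Continuous.prodMk_left ξ))

theorem Sstar_meas {f : E n → ℂ} (hf : Nice f) : Measurable (Sstar f) := by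
  refine LowerSemicontinuous.measurable ?_
  refine lowerSemicontinuous_iSup fun R => lowerSemicontinuous_iSup fun _ => ?_
  exact (S_cont hf R).enorm.lowerSemicontinuous

theorem nice_ind {f : E n → ℂ} (hf : Nice f) {s : Set (E n)} (hs : MeasurableSet s) :
    Nice (s.indicator f) :=
  ⟨hf.meas.indicator hs, hf.int.indicator hs, hf.sq.indicator hs⟩

theorem cs_lint {α : Type*} [MeasurableSpace α] (μ : Measure α) {f g : α → ℝ≥0∞}
    (hf : AEMeasurable f μ) (hg : AEMeasurable g μ) :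
    ∫⁻ a, f a * g a ∂μ ≤ (∫⁻ a, f a ^ 2 ∂μ) ^ (1 / 2 : ℝ) * (∫⁻ a, g a ^ 2 ∂μ) ^ (1 / 2 : ℝ) := by
  have h := ENNReal.lintegral_mul_le_Lp_mul_Lq μ Real.HolderConjugate.two_two hf hg
  simp only [ENNReal.rpow_two] at h
  exact h

theorem cs_tsum {ι : Type*} (f g : ι → ℝ≥0∞) :
    ∑' i, f i * g i ≤ (∑' i, f i ^ 2) ^ (1 / 2 : ℝ) * (∑' i, g i ^ 2) ^ (1 / 2 : ℝ) := by
  let _ : MeasurableSpace ι := ⊤
  have hf : AEMeasurable f Measure.count := Measurable.aemeasurable measurable_from_top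
  have hg : AEMeasurable g Measure.count := Measurable.aemeasurable measurable_from_top
  have h := cs_lint Measure.count hf hg
  have _ : MeasurableSingletonClass ι := ⟨fun _ => trivial⟩
  rw [lintegral_count, lintegral_count, lintegral_count] at h
  exact h

theorem half_sq (x : ℝ≥0∞) : (x ^ (1 / 2 : ℝ)) ^ 2 = x := by
  rw [← ENNReal.rpow_natCast, ← ENNReal.rpow_mul]
  norm_num

theorem meas_sh (j : ℤ) : MeasurableSet (sh n j) :=
  (measurableSet_le measurable_const measurable_norm).inter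
    (measurableSet_lt measurable_norm measurable_const)

theorem sh_cover {x : E n} (hx : x ≠ 0) : ∃ j : ℤ, x ∈ sh n j := by
  obtain ⟨m, hm⟩ := exists_mem_Ico_zpow (x := ‖x‖) (y := (2 : ℝ)) (norm_pos_iff.2 hx)
    (by norm_num)
  exact ⟨m, hm.1, hm.2⟩

/-- the weights of the far part -/
noncomputable def ww (m : ℤ) : ℝ≥0∞ := (ENNReal.ofReal ((2 : ℝ) ^ (-|(m : ℝ)| / 4))) ^ (1 / 2 : ℝ)

theorem ww_eq (m : ℤ) : ww m = ENNReal.ofReal (((2 : ℝ) ^ (-(1 / 8) : ℝ)) ^ m.natAbs) := by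
  unfold ww
  rw [ENNReal.ofReal_rpow_of_nonneg (by positivity) (by norm_num), ← Real.rpow_mul (by norm_num),
    ← Real.rpow_natCast, ← Real.rpow_mul (by norm_num)]
  congr 2
  rw [Nat.cast_natAbs, Int.cast_abs]
  ring

theorem ww_sum : ∑' m, ww m ≠ ⊤ := by
  have hr : (2 : ℝ) ^ (-(1 / 8) : ℝ) < 1 := Real.rpow_lt_one_of_one_lt_of_neg (by norm_num)
    (by norm_num)
  have hr0 : 0 ≤ (2 : ℝ) ^ (-(1 / 8) : ℝ) := by positivity
  have h1 := summable_geometric_of_lt_one hr0 hr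
  have h2 : Summable (fun m : ℤ => ((2 : ℝ) ^ (-(1 / 8) : ℝ)) ^ m.natAbs) := by
    refine Summable.of_nat_of_neg ?_ ?_
    · exact h1.congr fun m => by simp
    · exact h1.congr fun m => by simp
  simp only [ww_eq]
  exact h2.tsum_ofReal_ne_top

theorem sq_add_le (p q : ℝ≥0∞) : (p + q) ^ 2 ≤ 2 * (p ^ 2 + q ^ 2) := by
  have h := ENNReal.rpow_add_le_mul_rpow_add_rpow p q (p := 2) (by norm_num)
  have e : (2 : ℝ≥0∞) ^ ((2 : ℝ) - 1) = 2 := by norm_num
  rw [e] at h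
  simpa only [ENNReal.rpow_two] using h

theorem cs_w (t w : ℤ → ℝ≥0∞) (h0 : ∀ i, w i ≠ 0) (ht : ∀ i, w i ≠ ⊤) :
    (∑' i, t i) ^ 2 ≤ (∑' i, w i) * ∑' i, (w i)⁻¹ * t i ^ 2 := by
  have h := cs_tsum (fun i => w i ^ (1 / 2 : ℝ)) (fun i => (w i)⁻¹ ^ (1 / 2 : ℝ) * t i)
  have e1 : ∀ i, w i ^ (1 / 2 : ℝ) * ((w i)⁻¹ ^ (1 / 2 : ℝ) * t i) = t i := by
    intro i
    rw [← mul_assoc, ← ENNReal.mul_rpow_of_nonneg _ _ (by norm_num),
      ENNReal.mul_inv_cancel (h0 i) (ht i), ENNReal.one_rpow, one_mul]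
  simp only [e1, half_sq, mul_pow] at h
  calc (∑' i, t i) ^ 2 ≤ ((∑' i, w i) ^ (1 / 2 : ℝ) *
        (∑' i, (w i)⁻¹ * t i ^ 2) ^ (1 / 2 : ℝ)) ^ 2 := by gcongr
    _ = _ := by rw [mul_pow, half_sq, half_sq]

theorem ww_sq (m : ℤ) : ww m ^ 2 = ENNReal.ofReal ((2 : ℝ) ^ (-|(m : ℝ)| / 4)) := by
  unfold ww
  exact half_sq _

theorem ww_ne_zero (m : ℤ) : ww m ≠ 0 := by
  rw [ww_eq]
  simp only [ne_eq, ENNReal.ofReal_eq_zero, not_le]
  positivity

theorem ww_ne_top (m : ℤ) : ww m ≠ ⊤ := by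
  rw [ww_eq]
  exact ENNReal.ofReal_ne_top

theorem ww_shift (i : ℤ) : ∑' j, ww (i - j) = ∑' m, ww m :=
  (Equiv.subLeft i).tsum_eq ww

theorem one_le_log (K : ℕ) (hK : 1 ≤ K) : 1 ≤ ENNReal.ofReal (Real.log (2 + K) ^ 2) := by
  rw [← ENNReal.ofReal_one]
  refine ENNReal.ofReal_le_ofReal ?_
  have hK1 : (1 : ℝ) ≤ K := by exact_mod_cast hK
  have h1 : (1 : ℝ) ≤ Real.log (2 + K) := by
    rw [Real.le_log_iff_exp_le (by linarith)]
    have := Real.exp_one_lt_d9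
    linarith
  exact one_le_pow₀ h1

theorem nr_eq (j : ℤ) : sh n (j - 1) ∪ sh n j ∪ sh n (j + 1) = {x : E n | ‖x‖ ∈
    Ico ((2 : ℝ) ^ (j - 1)) ((2 : ℝ) ^ (j - 1 + 1)) ∪ Ico ((2 : ℝ) ^ j) ((2 : ℝ) ^ (j + 1)) ∪
      Ico ((2 : ℝ) ^ (j + 1)) ((2 : ℝ) ^ (j + 1 + 1))} := rfl

end GLN_

open GLN_ in
/-- GLN -/
theorem p_GLN (h1 : T_NDJN) (h2 : T_OFFN) (h3 : T_SHL) : T_GLN := by
  intro hC n hn
  obtain ⟨C1, hN⟩ := h1 hC n hn
  obtain ⟨C2, hO⟩ := h2 n hn
  set W : ℝ≥0∞ := ∑' m, ww m with hW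
  have hWt : W ≠ ⊤ := ww_sum
  set Q : ℝ≥0∞ := 2 * (C1 * 3) + 2 * W * (C2 * W) with hQ
  have hQt : Q ≠ ⊤ := by
    rw [hQ]
    exact ENNReal.add_ne_top.2 ⟨ENNReal.mul_ne_top (by norm_num)
      (ENNReal.mul_ne_top ENNReal.coe_ne_top (by norm_num)),
      ENNReal.mul_ne_top (ENNReal.mul_ne_top (by norm_num) hWt)
        (ENNReal.mul_ne_top ENNReal.coe_ne_top hWt)⟩
  refine ⟨Q.toNNReal, ?_⟩
  intro K f hK hf hAD
  rw [ENNReal.coe_toNNReal hQt]
  obtain ⟨hsAD, hsub', hs3, hs1⟩ := h3 n f hn hf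
  set ell : ℝ≥0∞ := ENNReal.ofReal (Real.log (2 + K) ^ 2) with hell
  have hell1 : 1 ≤ ell := one_le_log K hK
  set L : ℝ≥0∞ := ∫⁻ x, ‖f x‖ₑ ^ 2 with hL
  set nr : ℤ → E n → ℂ := fun j => (sh n (j - 1) ∪ sh n j ∪ sh n (j + 1)).indicator f with hnr
  have hnrN : ∀ j, Nice (nr j) := fun j =>
    nice_ind hf (((meas_sh _).union (meas_sh _)).union (meas_sh _))
  have hnrA : ∀ j, AD K (nr j) := by
    intro j
    simp only [hnr]
    rw [nr_eq]
    exact hsAD K _ hAD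
  set fi : ℤ → E n → ℂ := fun i => (sh n i).indicator f with hfi
  have hfiN : ∀ i, Nice (fi i) := fun i => nice_ind hf (meas_sh i)
  set a : ℤ → ℝ≥0∞ := fun i => ∫⁻ x, ‖fi i x‖ₑ ^ 2 with ha
  have has : ∑' i, a i ≤ L := hs1
  set nn : ℤ → ℝ≥0∞ := fun j => ∫⁻ x, ‖nr j x‖ₑ ^ 2 with hnn
  have hns : ∑' j, nn j ≤ 3 * L := hs3
  set t : ℤ → ℤ → E n → ℝ≥0∞ := fun j i x => if 2 ≤ |i - j| then Sstar (fi i) x else 0 with ht
  have htm : ∀ j i, Measurable (t j i) := by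
    intro j i
    simp only [ht]
    by_cases hij : 2 ≤ |i - j|
    · simp only [if_pos hij]
      exact Sstar_meas (hfiN i)
    · simp only [if_neg hij]
      exact measurable_const
  -- far terms
  have hfar : ∀ i j : ℤ, (ww (i - j))⁻¹ * ∫⁻ x in sh n j, t j i x ^ 2 ≤
      C2 * (ww (i - j) * a i) := by
    intro i j
    by_cases hij : 2 ≤ |i - j|
    · have g2 : ∫⁻ x in sh n j, t j i x ^ 2 ≤ C2 * ww (i - j) ^ 2 * a i := by
        simp only [ht, if_pos hij]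
        refine (hO i j (fi i) hij (hfiN i) ?_).trans (le_of_eq ?_)
        · intro y hy
          by_contra hn
          exact hy (indicator_of_notMem hn f)
        · rw [ww_sq]
          simp only [Int.cast_sub, ha]
      calc (ww (i - j))⁻¹ * ∫⁻ x in sh n j, t j i x ^ 2
          ≤ (ww (i - j))⁻¹ * (C2 * ww (i - j) ^ 2 * a i) := by gcongr
        _ = ((ww (i - j))⁻¹ * ww (i - j)) * (C2 * (ww (i - j) * a i)) := by ring
        _ = _ := by
            rw [ENNReal.inv_mul_cancel (ww_ne_zero _) (ww_ne_top _), one_mul]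
    · simp only [ht, if_neg hij]
      simp
  -- one shell
  have hone : ∀ j : ℤ, ∫⁻ x in sh n j, Sstar f x ^ 2 ≤
      2 * (C1 * ell * nn j) + 2 * W * ∑' i, C2 * (ww (i - j) * a i) := by
    intro j
    have g1 : ∫⁻ x in sh n j, Sstar f x ^ 2 ≤ ∫⁻ x in sh n j, (2 * Sstar (nr j) x ^ 2 +
        2 * W * ∑' i : ℤ, (ww (i - j))⁻¹ * t j i x ^ 2) := by
      refine setLIntegral_mono_ae' (meas_sh j) (ae_of_all _ fun x _ => ?_)
      have g2 : Sstar f x ≤ Sstar (nr j) x + ∑' i, t j i x := hsub' j x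
      have g3 := cs_w (fun i => t j i x) (fun i => ww (i - j)) (fun i => ww_ne_zero _)
        (fun i => ww_ne_top _)
      have g4 : ∑' i, ww (i - j) = W := (Equiv.subRight j).tsum_eq ww
      rw [g4] at g3
      calc Sstar f x ^ 2 ≤ (Sstar (nr j) x + ∑' i, t j i x) ^ 2 := by gcongr
        _ ≤ 2 * (Sstar (nr j) x ^ 2 + (∑' i, t j i x) ^ 2) := sq_add_le _ _
        _ ≤ 2 * (Sstar (nr j) x ^ 2 + W * ∑' i, (ww (i - j))⁻¹ * t j i x ^ 2) := by gcongr
        _ = _ := by ring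
    refine g1.trans ?_
    rw [lintegral_add_left (((Sstar_meas (hnrN j)).pow_const 2).const_mul 2),
      lintegral_const_mul _ ((Sstar_meas (hnrN j)).pow_const 2)]
    have hm : ∀ i : ℤ, Measurable (fun x => (ww (i - j))⁻¹ * t j i x ^ 2) := fun i =>
      ((htm j i).pow_const 2).const_mul _
    rw [lintegral_const_mul _ (Measurable.tsum hm), lintegral_tsum fun i =>
      (hm i).aemeasurable]
    refine add_le_add ?_ ?_
    · gcongr
      exact hN K j (nr j) hK (hnrN j) (hnrA j)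
    · refine mul_le_mul_right (ENNReal.tsum_le_tsum fun i => ?_) _
      rw [lintegral_const_mul _ ((htm j i).pow_const 2)]
      exact hfar i j
  -- all shells
  have hall : ∫⁻ x, Sstar f x ^ 2 ≤ ∑' j, ∫⁻ x in sh n j, Sstar f x ^ 2 := by
    have hsub : (univ : Set (E n)) ⊆ {(0 : E n)} ∪ ⋃ j, sh n j := by
      intro x _
      by_cases h0 : x = 0
      · left; exact h0
      · right
        obtain ⟨j, hj⟩ := sh_cover h0
        exact mem_iUnion.2 ⟨j, hj⟩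
    have _ : Nonempty (Fin n) := ⟨⟨0, by omega⟩⟩
    have _ : Nontrivial (E n) := inferInstance
    have hz : (volume : Measure (E n)) {(0 : E n)} = 0 := measure_singleton _
    calc ∫⁻ x, Sstar f x ^ 2 = ∫⁻ x in univ, Sstar f x ^ 2 := by rw [setLIntegral_univ]
      _ ≤ ∫⁻ x in {(0 : E n)} ∪ ⋃ j, sh n j, Sstar f x ^ 2 := lintegral_mono_set hsub
      _ ≤ (∫⁻ x in {(0 : E n)}, Sstar f x ^ 2) + ∫⁻ x in ⋃ j, sh n j, Sstar f x ^ 2 :=
          lintegral_union_le _ _ _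
      _ = ∫⁻ x in ⋃ j, sh n j, Sstar f x ^ 2 := by
          rw [setLIntegral_measure_zero _ _ hz, zero_add]
      _ ≤ _ := lintegral_iUnion_le _ _
  have hfars : ∑' j, ∑' i, C2 * (ww (i - j) * a i) ≤ C2 * W * L := by
    rw [ENNReal.tsum_comm]
    have e1 : ∀ i, ∑' j, (C2 : ℝ≥0∞) * (ww (i - j) * a i) = C2 * W * a i := by
      intro i
      rw [ENNReal.tsum_mul_left, ENNReal.tsum_mul_right, ww_shift, ← mul_assoc]
    simp only [e1, ENNReal.tsum_mul_left]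
    gcongr
  calc ∫⁻ x, Sstar f x ^ 2 ≤ ∑' j, ∫⁻ x in sh n j, Sstar f x ^ 2 := hall
    _ ≤ ∑' j, (2 * (C1 * ell * nn j) + 2 * W * ∑' i, C2 * (ww (i - j) * a i)) :=
        ENNReal.tsum_le_tsum hone
    _ = 2 * (C1 * ell * ∑' j, nn j) + 2 * W * ∑' j, ∑' i, C2 * (ww (i - j) * a i) := by
        rw [ENNReal.tsum_add, ENNReal.tsum_mul_left, ENNReal.tsum_mul_left,
          ENNReal.tsum_mul_left]
    _ ≤ 2 * (C1 * ell * (3 * L)) + 2 * W * (C2 * W * L) := by gcongr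
    _ = 2 * (C1 * ell * (3 * L)) + 2 * W * (C2 * W * (1 * L)) := by rw [one_mul]
    _ ≤ 2 * (C1 * ell * (3 * L)) + 2 * W * (C2 * W * (ell * L)) := by gcongr
    _ = Q * ell * L := by rw [hQ]; ring

end Pool.Agent.CRN
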