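import Pool.Agent.CRN.Targets

set_option autoImplicit false

/-!
# CRN, target HI1: variation of parameters on rays
-/

namespace Pool.Agent.CRN

open MeasureTheory FourierTransform Set Filter Topology
open scoped ENNReal NNReal
open Pool.Agent.MBS (E ex S Sstar)
open Pool.Agent.CAR (e1)

namespace HI1_

theorem ex_cont {n : ℕ} : Continuous (fun p : E n × E n => ex p.1 p.2) :=
  Pool.Agent.MBS.ex_continuous

theorem sg_fin (n : ℕ) : IsFiniteMeasure (sg n) := by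
  unfold sg
  infer_instance

theorem SH_cont {n : ℕ} {h : E n → ℂ} (hh : Continuous h) :
    Continuous (fun p : ℝ × E n => SH h p.1 p.2) := by
  have := sg_fin n
  unfold SH
  have h1 : Continuous (Function.uncurry fun (p : ℝ × E n) (ω : Metric.sphere (0 : E n) 1) =>
      h (p.1 • (ω : E n)) * ex p.2 (p.1 • (ω : E n))) := by
    have h0 : Continuous fun q : (ℝ × E n) × Metric.sphere (0 : E n) 1 =>
        q.1.1 • (q.2 : E n) := by fun_prop
    exact (hh.comp h0).mul (ex_cont.comp ((continuous_snd.comp continuous_fst).prodMk h0))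
  have h2 := continuous_parametric_integral_of_continuous (μ := sg n) h1 isCompact_univ
  simp only [Measure.restrict_univ] at h2
  have h3 : Continuous fun p : ℝ × E n => ((p.1 ^ (n - 1) : ℝ) : ℂ) := by fun_prop
  exact h3.mul h2

theorem comp2 {n : ℕ} {F : ℝ → E n → ℂ} (hF : Continuous (fun p : ℝ × E n => F p.1 p.2))
    {X : Type} [TopologicalSpace X] {u : X → ℝ} {v : X → E n} (hu : Continuous u)
    (hv : Continuous v) : Continuous (fun x => F (u x) (v x)) :=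
  hF.comp (hu.prodMk hv)

theorem e1_norm (x : ℝ) : ‖e1 x‖ = 1 := by
  unfold e1
  rw [show (2 * Real.pi * Complex.I * (x : ℂ) : ℂ) = ((2 * Real.pi * x : ℝ) : ℂ) * Complex.I by
    push_cast; ring]
  exact Complex.norm_exp_ofReal_mul_I _

theorem e1_cont : Continuous e1 := by
  unfold e1
  fun_prop

theorem e1_mul (x : ℝ) : e1 x * e1 (-x) = 1 := by
  unfold e1
  rw [← Complex.exp_add]
  push_cast
  rw [show (2 * Real.pi * Complex.I * x + 2 * Real.pi * Complex.I * -(x : ℂ) : ℂ) = 0 by ring,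
    Complex.exp_zero]

theorem e1_deriv (c s : ℝ) : HasDerivAt (fun s : ℝ => e1 (c * s))
    (2 * Real.pi * Complex.I * c * e1 (c * s)) s := by
  unfold e1
  have h1 : HasDerivAt (fun s : ℝ => (2 * Real.pi * Complex.I * ((c * s : ℝ) : ℂ) : ℂ))
      (2 * Real.pi * Complex.I * c) s := by
    have h2 : HasDerivAt (fun s : ℝ => ((c * s : ℝ) : ℂ)) (c : ℂ) s := by
      have := ((hasDerivAt_id s).const_mul c).ofReal_comp
      simpa using this
    exact h2.const_mul _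
  have h3 := h1.cexp
  convert h3 using 1
  ring

/-- the two amplitudes before averaging; `c = -r` gives `B_+`, `c = r` gives `B_-` -/
noncomputable def Bf {n : ℕ} (h : E n → ℂ) (θ : E n) (c r s : ℝ) : ℂ :=
  e1 (c * s) * ((WD h r θ s - 2 * Real.pi * Complex.I * c *
    (((s ^ (((n : ℝ) - 1) / 2) : ℝ) : ℂ) * SH h r (s • θ))) / (4 * Real.pi * Complex.I * r))

/-- their derivative -/
noncomputable def Df {n : ℕ} (h : E n → ℂ) (θ : E n) (c r s : ℝ) : ℂ :=
  e1 (c * s) * ((((s ^ (((n : ℝ) - 1) / 2 - 2) : ℝ) : ℂ) *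
    (((((n : ℝ) - 1) * (n - 3) / 4 : ℝ) : ℂ) * SH h r (s • θ) - Lam (SH h r) (s • θ))) /
      (4 * Real.pi * Complex.I * r))

theorem Bf_deriv {n : ℕ} {h : E n → ℂ} (hel : T_HELN) (hn : 2 ≤ n) (hh : Continuous h)
    {θ : E n} (hθ : ‖θ‖ = 1) {c r s : ℝ} (hr : 0 < r) (hs : 0 < s) (hc : c ^ 2 = r ^ 2) :
    HasDerivAt (fun s => Bf h θ c r s) (Df h θ c r s) s := by
  obtain ⟨h1, h2⟩ := (hel n h hn hh).1 r θ s hr hθ hs
  have h3 := (h2.sub (h1.const_mul (2 * Real.pi * Complex.I * c))).div_const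
    (4 * Real.pi * Complex.I * r)
  have h4 := (e1_deriv c s).mul h3
  have hc' : (c : ℂ) ^ 2 = (r : ℂ) ^ 2 := by exact_mod_cast hc
  have hI : Complex.I ^ 2 = -1 := Complex.I_sq
  have h5 : HasDerivAt (fun s => Bf h θ c r s) _ s := h4
  refine h5.congr_deriv ?_
  simp only [Pi.sub_apply]
  unfold Df
  set W := WD h r θ s
  set w := (((s ^ (((n : ℝ) - 1) / 2) : ℝ) : ℂ) * SH h r (s • θ))
  set X := (((s ^ (((n : ℝ) - 1) / 2 - 2) : ℝ) : ℂ) *
    (((((n : ℝ) - 1) * (n - 3) / 4 : ℝ) : ℂ) * SH h r (s • θ) - Lam (SH h r) (s • θ)))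
  have e : (2 * Real.pi * Complex.I * c) * (2 * Real.pi * Complex.I * c) =
      -(4 * Real.pi ^ 2 * r ^ 2 : ℂ) := by
    calc (2 * Real.pi * Complex.I * c) * (2 * Real.pi * Complex.I * c) =
          4 * Real.pi ^ 2 * Complex.I ^ 2 * (c : ℂ) ^ 2 := by ring
      _ = _ := by rw [hI, hc']; ring
  have e2 : (-(4 * Real.pi ^ 2 * r ^ 2 * w) : ℂ) =
      (2 * Real.pi * Complex.I * c) * (2 * Real.pi * Complex.I * c) * w := by
    rw [e]
    ring
  rw [e2]
  ring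

/-- the size of the right-hand side of the equation -/
noncomputable def gf {n : ℕ} (h : E n → ℂ) (θ : E n) (r s : ℝ) : ℝ :=
  ‖SH h r (s • θ)‖ + ‖Lam (SH h r) (s • θ)‖

/-- the constant -/
noncomputable def Kc (n : ℕ) : ℝ := 2 ^ n * ((n : ℝ) ^ 2 + 1)

theorem Kc_pos (n : ℕ) : 0 < Kc n := by
  unfold Kc
  positivity

theorem Df_le {n : ℕ} (hn : 2 ≤ n) (h : E n → ℂ) (θ : E n) {c r s : ℝ} (hr : 0 < r)
    (hs : 1 ≤ s) (hs2 : s ≤ 2) : ‖Df h θ c r s‖ ≤ Kc n * r⁻¹ * gf h θ r s := by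
  have hn' : (2 : ℝ) ≤ n := by exact_mod_cast hn
  have hpi := Real.pi_gt_three
  have hs0 : 0 < s := by linarith
  unfold Df gf
  rw [norm_mul, e1_norm, one_mul, norm_div, norm_mul, Complex.norm_real,
    Real.norm_of_nonneg (by positivity)]
  have e1 : ‖(4 * Real.pi * Complex.I * r : ℂ)‖ = 4 * Real.pi * r := by
    rw [norm_mul, norm_mul, norm_mul, Complex.norm_I, Complex.norm_real, Complex.norm_real,
      Real.norm_of_nonneg (by positivity), Real.norm_of_nonneg hr.le]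
    simp
  have h1 : s ^ (((n : ℝ) - 1) / 2 - 2) ≤ 2 ^ n := by
    calc s ^ (((n : ℝ) - 1) / 2 - 2) ≤ s ^ (n : ℝ) :=
          Real.rpow_le_rpow_of_exponent_le hs (by linarith)
      _ ≤ 2 ^ (n : ℝ) := Real.rpow_le_rpow hs0.le hs2 (by positivity)
      _ = 2 ^ n := Real.rpow_natCast _ _
  have h2 : ‖((((n : ℝ) - 1) * (n - 3) / 4 : ℝ) : ℂ)‖ ≤ (n : ℝ) ^ 2 := by
    rw [Complex.norm_real, Real.norm_eq_abs, abs_le]
    constructor <;> nlinarith
  have h3 : ‖((((n : ℝ) - 1) * (n - 3) / 4 : ℝ) : ℂ) * SH h r (s • θ) - Lam (SH h r) (s • θ)‖ ≤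
      ((n : ℝ) ^ 2 + 1) * (‖SH h r (s • θ)‖ + ‖Lam (SH h r) (s • θ)‖) := by
    refine (norm_sub_le _ _).trans ?_
    rw [norm_mul]
    have a1 := norm_nonneg (SH h r (s • θ))
    have a2 := norm_nonneg (Lam (SH h r) (s • θ))
    have a3 := mul_le_mul_of_nonneg_right h2 a1
    have a4 : 0 ≤ (n : ℝ) ^ 2 * ‖Lam (SH h r) (s • θ)‖ := by positivity
    nlinarith
  rw [e1]
  set G : ℝ := ‖SH h r (s • θ)‖ + ‖Lam (SH h r) (s • θ)‖ with hG
  have hG0 : 0 ≤ G := by positivity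
  calc s ^ (((n : ℝ) - 1) / 2 - 2) *
        ‖((((n : ℝ) - 1) * (n - 3) / 4 : ℝ) : ℂ) * SH h r (s • θ) - Lam (SH h r) (s • θ)‖ /
          (4 * Real.pi * r) ≤ 2 ^ n * (((n : ℝ) ^ 2 + 1) * G) / (1 * r) := by
        gcongr
        linarith
    _ = _ := by
        unfold Kc
        field_simp

theorem gf_cont {n : ℕ} {h : E n → ℂ} (hel : T_HELN) (hn : 2 ≤ n) (hh : Continuous h)
    (θ : E n) : Continuous (fun p : ℝ × ℝ => gf h θ p.1 p.2) := by
  have hu : Continuous fun p : ℝ × ℝ => p.1 := by fun_prop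
  have hv : Continuous fun p : ℝ × ℝ => p.2 • θ := by fun_prop
  have h1 := comp2 (F := SH h) (SH_cont hh) hu hv
  have h2 := comp2 (F := fun r => Lam (SH h r)) (hel n h hn hh).2 hu hv
  exact h1.norm.add h2.norm

theorem WD_cont {n : ℕ} {h : E n → ℂ} (hn : 2 ≤ n) (hh : Continuous h) (θ : E n) :
    Continuous (fun p : ℝ × ℝ => WD h p.1 θ (max p.2 1)) := by
  have hn' : (2 : ℝ) ≤ n := by exact_mod_cast hn
  have hm : Continuous fun p : ℝ × ℝ => max p.2 1 := by fun_prop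
  have hm0 : ∀ p : ℝ × ℝ, max p.2 1 ≠ 0 := fun p =>
    (lt_of_lt_of_le one_pos (le_max_right _ _)).ne'
  have hu : Continuous fun p : ℝ × ℝ => p.1 := by fun_prop
  have hv : Continuous fun p : ℝ × ℝ => (max p.2 1) • θ := by fun_prop
  have hS : ∀ g : E n → ℂ, Continuous g →
      Continuous fun p : ℝ × ℝ => SH g p.1 ((max p.2 1) • θ) := fun g hg =>
    comp2 (F := SH g) (SH_cont hg) hu hv
  have hj : ∀ j : Fin n, Continuous fun ξ : E n =>
      2 * Real.pi * Complex.I * (ξ j : ℂ) * h ξ := by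
    intro j
    have : Continuous fun ξ : E n => (ξ j : ℂ) := by fun_prop
    exact (continuous_const.mul this).mul hh
  have hp : Continuous fun p : ℝ × ℝ => (((max p.2 1) ^ (((n : ℝ) - 1) / 2) : ℝ) : ℂ) :=
    Complex.continuous_ofReal.comp (hm.rpow_const fun p => Or.inl (hm0 p))
  have hq : Continuous fun p : ℝ × ℝ => ((((n : ℝ) - 1) / 2 / (max p.2 1) : ℝ) : ℂ) :=
    Complex.continuous_ofReal.comp (continuous_const.div hm hm0)
  unfold WD
  refine hp.mul (Continuous.add ?_ (hq.mul (hS h hh)))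
  exact continuous_finsetSum _ fun j _ => continuous_const.mul (hS _ (hj j))

/-- the clamped amplitude -/
theorem Bf_cont {n : ℕ} {h : E n → ℂ} (hn : 2 ≤ n) (hh : Continuous h) (θ : E n) (σ : ℝ) :
    Continuous (fun p : ℝ × ℝ => Bf h θ (σ * max p.1 1) (max p.1 1) (max p.2 1)) := by
  have hm : Continuous fun p : ℝ × ℝ => max p.2 1 := by fun_prop
  have hr : Continuous fun p : ℝ × ℝ => max p.1 1 := by fun_prop
  have hm0 : ∀ p : ℝ × ℝ, max p.2 1 ≠ 0 := fun p =>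
    (lt_of_lt_of_le one_pos (le_max_right _ _)).ne'
  have hr0 : ∀ p : ℝ × ℝ, max p.1 1 ≠ 0 := fun p =>
    (lt_of_lt_of_le one_pos (le_max_right _ _)).ne'
  have hW : Continuous fun p : ℝ × ℝ => WD h (max p.1 1) θ (max p.2 1) :=
    (WD_cont hn hh θ).comp (by fun_prop : Continuous fun p : ℝ × ℝ => (max p.1 1, p.2))
  have hv : Continuous fun p : ℝ × ℝ => (max p.2 1) • θ := by fun_prop
  have hS : Continuous fun p : ℝ × ℝ => SH h (max p.1 1) ((max p.2 1) • θ) :=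
    comp2 (F := SH h) (SH_cont hh) hr hv
  have hp : Continuous fun p : ℝ × ℝ => (((max p.2 1) ^ (((n : ℝ) - 1) / 2) : ℝ) : ℂ) :=
    Complex.continuous_ofReal.comp (hm.rpow_const fun p => Or.inl (hm0 p))
  have hc : Continuous fun p : ℝ × ℝ => ((σ * max p.1 1 : ℝ) : ℂ) := by fun_prop
  have he : Continuous fun p : ℝ × ℝ => e1 (σ * max p.1 1 * max p.2 1) :=
    e1_cont.comp (by fun_prop)
  unfold Bf
  refine he.mul (Continuous.div (hW.sub ((continuous_const.mul hc).mul (hp.mul hS)))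
    (by fun_prop) fun p => ?_)
  have : ((max p.1 1 : ℝ) : ℂ) ≠ 0 := by exact_mod_cast hr0 p
  have hpi : (Real.pi : ℂ) ≠ 0 := by exact_mod_cast Real.pi_ne_zero
  simp [this, hpi]

/-- the oscillation of the amplitudes -/
theorem Bf_osc {n : ℕ} {h : E n → ℂ} (hel : T_HELN) (hn : 2 ≤ n) (hh : Continuous h)
    {θ : E n} (hθ : ‖θ‖ = 1) {c r : ℝ} (hr : 0 < r) (hc : c ^ 2 = r ^ 2) {ρ : ℝ}
    (hρ1 : 1 ≤ ρ) (hρ2 : ρ ≤ 2) :
    ‖Bf h θ c r ρ - ∫ s in (1 : ℝ)..2, Bf h θ c r s‖ ≤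
      Kc n * r⁻¹ * ∫ s in (1 : ℝ)..2, gf h θ r s := by
  have hg : Continuous fun s : ℝ => gf h θ r s :=
    (gf_cont hel hn hh θ).comp (by fun_prop : Continuous fun s : ℝ => (r, s))
  have hg0 : ∀ s, 0 ≤ gf h θ r s := fun s => by unfold gf; positivity
  have hK : 0 ≤ Kc n * r⁻¹ := mul_nonneg (Kc_pos n).le (by positivity)
  -- continuity of the derivative
  have hu : Continuous fun _ : ℝ => r := continuous_const
  have hv : Continuous fun s : ℝ => s • θ := by fun_prop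
  have hL : Continuous fun s : ℝ => Lam (SH h r) (s • θ) :=
    comp2 (F := fun r => Lam (SH h r)) (hel n h hn hh).2 hu hv
  have hS : Continuous fun s : ℝ => SH h r (s • θ) := comp2 (F := SH h) (SH_cont hh) hu hv
  have hD : ContinuousOn (fun s => Df h θ c r s) (Ioi 0) := by
    intro s hs
    have hs0 : s ≠ 0 := (mem_Ioi.1 hs).ne'
    have hp : ContinuousAt (fun s : ℝ => (((s ^ (((n : ℝ) - 1) / 2 - 2) : ℝ) : ℂ))) s :=
      Complex.continuous_ofReal.continuousAt.comp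
        (Real.continuousAt_rpow_const s _ (Or.inl hs0))
    have he : Continuous fun s : ℝ => e1 (c * s) := e1_cont.comp (by fun_prop)
    unfold Df
    exact (he.continuousAt.mul ((hp.mul ((hS.const_mul _).sub hL).continuousAt).div_const
      _)).continuousWithinAt
  have hsub : ∀ {x y : ℝ}, x ∈ Icc (1 : ℝ) 2 → y ∈ Icc (1 : ℝ) 2 → uIcc x y ⊆ Icc (1 : ℝ) 2 :=
    fun hx hy => uIcc_subset_Icc hx hy
  have hdiff : ∀ s ∈ Icc (1 : ℝ) 2, ‖Bf h θ c r ρ - Bf h θ c r s‖ ≤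
      Kc n * r⁻¹ * ∫ s in (1 : ℝ)..2, gf h θ r s := by
    intro s hs
    have hs' := hsub hs ⟨hρ1, hρ2⟩
    have h1 : ∫ u in s..ρ, Df h θ c r u = Bf h θ c r ρ - Bf h θ c r s := by
      refine intervalIntegral.integral_eq_sub_of_hasDerivAt (fun u hu => ?_) ?_
      · exact Bf_deriv hel hn hh hθ hr (lt_of_lt_of_le one_pos (hs' hu).1) hc
      · refine ContinuousOn.intervalIntegrable (hD.mono fun u hu => ?_)
        exact lt_of_lt_of_le one_pos (hs' hu).1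
    rw [← h1]
    have h2 : ‖∫ u in s..ρ, Df h θ c r u‖ ≤ |∫ u in s..ρ, Kc n * r⁻¹ * gf h θ r u| := by
      refine intervalIntegral.norm_integral_le_abs_of_norm_le
        ((ae_restrict_iff' measurableSet_uIoc).2 (Eventually.of_forall fun u hu => ?_))
        ((hg.const_mul _).intervalIntegrable _ _)
      have := hs' (uIoc_subset_uIcc hu)
      exact Df_le hn h θ hr this.1 this.2
    refine h2.trans ?_
    rw [intervalIntegral.integral_const_mul, abs_mul, abs_of_nonneg hK]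
    refine mul_le_mul_of_nonneg_left ?_ hK
    have h3 : |∫ u in s..ρ, gf h θ r u| ≤ |∫ u in (1 : ℝ)..2, gf h θ r u| := by
      refine intervalIntegral.abs_integral_mono_interval ?_
        (Eventually.of_forall fun u => hg0 u) (hg.intervalIntegrable _ _)
      rw [uIoc_of_le (by norm_num : (1 : ℝ) ≤ 2)]
      intro u hu
      rw [uIoc, mem_Ioc] at hu
      exact ⟨lt_of_le_of_lt (le_min hs.1 hρ1) hu.1, hu.2.trans (max_le hs.2 hρ2)⟩
    have h4 : |∫ u in (1 : ℝ)..2, gf h θ r u| = ∫ u in (1 : ℝ)..2, gf h θ r u :=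
      abs_of_nonneg (intervalIntegral.integral_nonneg (by norm_num) fun u _ => hg0 u)
    rwa [h4] at h3
  -- integrate
  have hBi : IntervalIntegrable (fun s => Bf h θ c r s) volume 1 2 := by
    refine ContinuousOn.intervalIntegrable fun s hs => ?_
    rw [uIcc_of_le (by norm_num : (1 : ℝ) ≤ 2)] at hs
    exact (Bf_deriv hel hn hh hθ hr (lt_of_lt_of_le one_pos hs.1)
      hc).continuousAt.continuousWithinAt
  have h4 : Bf h θ c r ρ - ∫ s in (1 : ℝ)..2, Bf h θ c r s =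
      ∫ s in (1 : ℝ)..2, (Bf h θ c r ρ - Bf h θ c r s) := by
    rw [intervalIntegral.integral_sub (by simp) hBi, intervalIntegral.integral_const]
    norm_num
  rw [h4]
  have h5 := intervalIntegral.norm_integral_le_of_norm_le_const
    (f := fun s => Bf h θ c r ρ - Bf h θ c r s) (a := 1) (b := 2)
    (C := Kc n * r⁻¹ * ∫ s in (1 : ℝ)..2, gf h θ r s) fun s hs => by
      rw [uIoc_of_le (by norm_num : (1 : ℝ) ≤ 2)] at hs
      exact hdiff s ⟨hs.1.le, hs.2⟩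
  refine h5.trans (le_of_eq ?_)
  norm_num

/-- the error of the representation by the averages -/
noncomputable def er {n : ℕ} (f : E n → ℂ) (θ : E n) (ρ r : ℝ) : ℂ :=
  ((ρ ^ (((n : ℝ) - 1) / 2) : ℝ) : ℂ) * S1 f r (ρ • θ) - Bp f r θ * e1 (1 * (r * ρ)) +
    Bm f r θ * e1 (-1 * (r * ρ))

theorem Bp_eq {n : ℕ} (f : E n → ℂ) (r : ℝ) (θ : E n) :
    Bp f r θ = ∫ s in (1 : ℝ)..2, Bf (𝓕 f) θ (-r) r s := by
  unfold Bp Bf S1
  refine intervalIntegral.integral_congr fun s _ => ?_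
  rw [neg_mul r s]
  push_cast
  ring

theorem Bm_eq {n : ℕ} (f : E n → ℂ) (r : ℝ) (θ : E n) :
    Bm f r θ = ∫ s in (1 : ℝ)..2, Bf (𝓕 f) θ r r s := by
  unfold Bm Bf S1
  rfl

theorem er_le {n : ℕ} {f : E n → ℂ} (hel : T_HELN) (hn : 2 ≤ n) (hh : Continuous (𝓕 f))
    {θ : E n} (hθ : ‖θ‖ = 1) {r : ℝ} (hr : 0 < r) {ρ : ℝ} (hρ1 : 1 ≤ ρ) (hρ2 : ρ ≤ 2) :
    ‖er f θ ρ r‖ ≤ 2 * (Kc n * r⁻¹ * ∫ s in (1 : ℝ)..2, gf (𝓕 f) θ r s) := by
  have h1 := Bf_osc hel hn hh hθ (c := -r) hr (by ring) hρ1 hρ2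
  have h2 := Bf_osc hel hn hh hθ (c := r) hr rfl hρ1 hρ2
  rw [← Bp_eq] at h1
  rw [← Bm_eq] at h2
  have hr' : (r : ℂ) ≠ 0 := by exact_mod_cast hr.ne'
  have hpi : (Real.pi : ℂ) ≠ 0 := by exact_mod_cast Real.pi_ne_zero
  have hI : Complex.I ≠ 0 := Complex.I_ne_zero
  have e : er f θ ρ r = e1 (r * ρ) * (Bf (𝓕 f) θ (-r) r ρ - Bp f r θ) -
      e1 (-(r * ρ)) * (Bf (𝓕 f) θ r r ρ - Bm f r θ) := by
    have h3 := e1_mul (r * ρ)
    have h4 : e1 (r * ρ) * Bf (𝓕 f) θ (-r) r ρ - e1 (-(r * ρ)) * Bf (𝓕 f) θ r r ρ =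
        ((ρ ^ (((n : ℝ) - 1) / 2) : ℝ) : ℂ) * S1 f r (ρ • θ) := by
      unfold Bf S1
      rw [neg_mul r ρ]
      set W := WD (𝓕 f) r θ ρ
      set w := ((ρ ^ (((n : ℝ) - 1) / 2) : ℝ) : ℂ) * SH (𝓕 f) r (ρ • θ)
      push_cast
      calc e1 (r * ρ) * (e1 (-(r * ρ)) * ((W - 2 * Real.pi * Complex.I * -(r : ℂ) * w) /
            (4 * Real.pi * Complex.I * r))) -
            e1 (-(r * ρ)) * (e1 (r * ρ) * ((W - 2 * Real.pi * Complex.I * r * w) /
            (4 * Real.pi * Complex.I * r)))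
          = (e1 (r * ρ) * e1 (-(r * ρ))) * ((4 * Real.pi * Complex.I * r * w) /
            (4 * Real.pi * Complex.I * r)) := by ring
        _ = w := by
            rw [h3]
            field_simp
    unfold er
    rw [← h4, one_mul, neg_one_mul]
    ring
  rw [e]
  refine (norm_sub_le _ _).trans ?_
  rw [norm_mul, norm_mul, e1_norm, e1_norm, one_mul, one_mul]
  linarith

theorem fourier_cont {n : ℕ} {f : E n → ℂ} (hf : Integrable f) : Continuous (𝓕 f) := by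
  have := VectorFourier.fourierIntegral_continuous (V := E n) (W := E n)
      Real.continuous_fourierChar (L := innerₗ (E n)) continuous_inner hf
  exact this

/-- an averaged amplitude is continuous on `[1, ∞)` -/
theorem avg_cont {n : ℕ} {h : E n → ℂ} (hn : 2 ≤ n) (hh : Continuous h) (θ : E n) (σ : ℝ) :
    ContinuousOn (fun r : ℝ => ∫ s in (1 : ℝ)..2, Bf h θ (σ * r) r s) (Ici 1) := by
  have h1 : Continuous fun r : ℝ => ∫ s in (1 : ℝ)..2,
      Bf h θ (σ * max r 1) (max r 1) (max s 1) :=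
    intervalIntegral.continuous_parametric_intervalIntegral_of_continuous'
      (f := fun r s => Bf h θ (σ * max r 1) (max r 1) (max s 1)) (Bf_cont hn hh θ σ) 1 2
  refine h1.continuousOn.congr fun r hr => ?_
  refine intervalIntegral.integral_congr fun s hs => ?_
  rw [uIcc_of_le (by norm_num : (1 : ℝ) ≤ 2)] at hs
  rw [max_eq_left (show (1 : ℝ) ≤ r from hr), max_eq_left hs.1]

theorem lint_gf {n : ℕ} {h : E n → ℂ} (hel : T_HELN) (hn : 2 ≤ n) (hh : Continuous h)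
    (θ : E n) (r : ℝ) : ENNReal.ofReal (∫ s in (1 : ℝ)..2, gf h θ r s) =
      ∫⁻ s in Icc (1 : ℝ) 2, (‖SH h r (s • θ)‖ₑ + ‖Lam (SH h r) (s • θ)‖ₑ) := by
  have hg : Continuous fun s : ℝ => gf h θ r s :=
    (gf_cont hel hn hh θ).comp (by fun_prop : Continuous fun s : ℝ => (r, s))
  have hg0 : ∀ s, 0 ≤ gf h θ r s := fun s => by unfold gf; positivity
  rw [intervalIntegral.integral_of_le (by norm_num : (1 : ℝ) ≤ 2), ← integral_Icc_eq_integral_Ioc,
    ofReal_integral_eq_lintegral_ofReal (hg.integrableOn_Icc) (Eventually.of_forall hg0)]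
  refine lintegral_congr fun s => ?_
  unfold gf
  rw [ENNReal.ofReal_add (norm_nonneg _) (norm_nonneg _), ofReal_norm, ofReal_norm]

end HI1_

open HI1_ in
/-- **HI1**: variation of parameters on the ray -/
theorem p_HI1 (h1 : T_DSN) (h2 : T_HELN) : T_HI1 := by
  intro n hn
  refine ⟨Real.toNNReal (2 * Kc n + 1), ?_⟩
  intro f θ a R ρ hf hθ ha haR hρ1 hρ2
  have hK := Kc_pos n
  have hn' : (2 : ℝ) ≤ n := by exact_mod_cast hn
  have hh : Continuous (𝓕 f) := fourier_cont hf.int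
  obtain ⟨hc, hftc⟩ := h1 n f hn hf
  have hρ0 : 0 < ρ := by linarith
  set p : ℝ := ρ ^ (((n : ℝ) - 1) / 2) with hp
  have hp1 : 1 ≤ p := Real.one_le_rpow hρ1 (by linarith)
  have hsub : Icc a R ⊆ Ici (1 : ℝ) := fun r hr => ha.trans hr.1
  have hsub' : Ioc a R ⊆ Icc a R := Ioc_subset_Icc_self
  -- continuity
  have cS : Continuous fun r : ℝ => S1 f r (ρ • θ) :=
    comp2 (F := S1 f) hc continuous_id continuous_const
  have cP : ContinuousOn (fun r => Bp f r θ) (Ici 1) := by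
    have := avg_cont hn hh θ (-1)
    simp only [neg_one_mul] at this
    exact this.congr fun r _ => Bp_eq f r θ
  have cM : ContinuousOn (fun r => Bm f r θ) (Ici 1) := by
    have := avg_cont hn hh θ 1
    simp only [one_mul] at this
    exact this.congr fun r _ => Bm_eq f r θ
  have ce : ∀ σ : ℝ, Continuous fun r : ℝ => e1 (σ * (r * ρ)) := fun σ =>
    e1_cont.comp (by fun_prop)
  have cP' : ContinuousOn (fun r => Bp f r θ * e1 (1 * (r * ρ))) (Icc a R) :=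
    (cP.mono hsub).mul (ce 1).continuousOn
  have cM' : ContinuousOn (fun r => Bm f r θ * e1 (-1 * (r * ρ))) (Icc a R) :=
    (cM.mono hsub).mul (ce (-1)).continuousOn
  have cE : ContinuousOn (fun r => er f θ ρ r) (Icc a R) := by
    unfold er
    exact (((cS.const_mul _).continuousOn).sub cP').add cM'
  have iP : IntegrableOn (fun r => Bp f r θ * e1 (1 * (r * ρ))) (Ioc a R) :=
    (cP'.integrableOn_Icc).mono_set hsub'
  have iM : IntegrableOn (fun r => Bm f r θ * e1 (-1 * (r * ρ))) (Ioc a R) :=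
    (cM'.integrableOn_Icc).mono_set hsub'
  have iE : IntegrableOn (fun r => er f θ ρ r) (Ioc a R) :=
    (cE.integrableOn_Icc).mono_set hsub'
  -- the representation
  have hrep : (p : ℂ) * (S f R (ρ • θ) - S f a (ρ • θ)) =
      (∫ r in Ioc a R, Bp f r θ * e1 (1 * (r * ρ))) -
        (∫ r in Ioc a R, Bm f r θ * e1 (-1 * (r * ρ))) + ∫ r in Ioc a R, er f θ ρ r := by
    have e2 := integral_add (f := fun r => Bp f r θ * e1 (1 * (r * ρ)) -
      Bm f r θ * e1 (-1 * (r * ρ))) (iP.sub iM) iE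
    rw [hftc (ρ • θ) a R (by linarith) haR, add_sub_cancel_left,
      intervalIntegral.integral_of_le haR, ← integral_const_mul, ← integral_sub iP iM, ← e2]
    refine integral_congr_ae (Eventually.of_forall fun r => ?_)
    simp only
    unfold er
    ring
  -- the three terms
  have b1 : ‖∫ r in Ioc a R, Bp f r θ * e1 (1 * (r * ρ))‖ₑ ≤
      ⨆ R' : ℝ, ‖∫ r in Ioc a R', Bp f r θ * e1 (1 * (r * ρ))‖ₑ :=
    le_iSup (fun R' : ℝ => ‖∫ r in Ioc a R', Bp f r θ * e1 (1 * (r * ρ))‖ₑ) R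
  have b2 : ‖∫ r in Ioc a R, Bm f r θ * e1 (-1 * (r * ρ))‖ₑ ≤
      ⨆ R' : ℝ, ‖∫ r in Ioc a R', Bm f r θ * e1 (-1 * (r * ρ))‖ₑ :=
    le_iSup (fun R' : ℝ => ‖∫ r in Ioc a R', Bm f r θ * e1 (-1 * (r * ρ))‖ₑ) R
  have b3 : ‖∫ r in Ioc a R, er f θ ρ r‖ₑ ≤ ENNReal.ofReal (2 * Kc n) *
      ∫⁻ r in Ioi a, ENNReal.ofReal r⁻¹ * ∫⁻ s in Icc (1 : ℝ) 2,
        (‖S1 f r (s • θ)‖ₑ + ‖Lam (S1 f r) (s • θ)‖ₑ) := by
    calc ‖∫ r in Ioc a R, er f θ ρ r‖ₑ ≤ ∫⁻ r in Ioc a R, ‖er f θ ρ r‖ₑ :=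
          enorm_integral_le_lintegral_enorm _
      _ ≤ ∫⁻ r in Ioc a R, ENNReal.ofReal (2 * Kc n) * (ENNReal.ofReal r⁻¹ *
          ∫⁻ s in Icc (1 : ℝ) 2, (‖S1 f r (s • θ)‖ₑ + ‖Lam (S1 f r) (s • θ)‖ₑ)) := by
          refine setLIntegral_mono' measurableSet_Ioc fun r hr => ?_
          have hr0 : 0 < r := by linarith [hr.1]
          have e3 := er_le h2 hn hh hθ hr0 hρ1 hρ2
          have e4 := lint_gf h2 hn hh θ r
          have e5 : (∫⁻ s in Icc (1 : ℝ) 2, (‖S1 f r (s • θ)‖ₑ + ‖Lam (S1 f r) (s • θ)‖ₑ)) =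
              ∫⁻ s in Icc (1 : ℝ) 2, (‖SH (𝓕 f) r (s • θ)‖ₑ + ‖Lam (SH (𝓕 f) r) (s • θ)‖ₑ) := rfl
          rw [e5, ← e4, ← ENNReal.ofReal_mul (by positivity), ← ENNReal.ofReal_mul (by positivity),
            ← ofReal_norm]
          refine ENNReal.ofReal_le_ofReal (e3.trans (le_of_eq ?_))
          ring
      _ ≤ ∫⁻ r in Ioi a, ENNReal.ofReal (2 * Kc n) * (ENNReal.ofReal r⁻¹ *
          ∫⁻ s in Icc (1 : ℝ) 2, (‖S1 f r (s • θ)‖ₑ + ‖Lam (S1 f r) (s • θ)‖ₑ)) :=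
          lintegral_mono_set Ioc_subset_Ioi_self
      _ = _ := by rw [lintegral_const_mul' _ _ ENNReal.ofReal_ne_top]
  set X := ⨆ R' : ℝ, ‖∫ r in Ioc a R', Bp f r θ * e1 (1 * (r * ρ))‖ₑ
  set Y := ⨆ R' : ℝ, ‖∫ r in Ioc a R', Bm f r θ * e1 (-1 * (r * ρ))‖ₑ
  set Z := ∫⁻ r in Ioi a, ENNReal.ofReal r⁻¹ * ∫⁻ s in Icc (1 : ℝ) 2,
    (‖S1 f r (s • θ)‖ₑ + ‖Lam (S1 f r) (s • θ)‖ₑ)
  have hC : ((Real.toNNReal (2 * Kc n + 1) : ℝ≥0) : ℝ≥0∞) = ENNReal.ofReal (2 * Kc n) + 1 := by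
    rw [← ENNReal.ofReal_one, ← ENNReal.ofReal_add (by positivity) (by norm_num)]
    rfl
  rw [hC]
  calc ‖S f R (ρ • θ) - S f a (ρ • θ)‖ₑ
      ≤ ‖(p : ℂ)‖ₑ * ‖S f R (ρ • θ) - S f a (ρ • θ)‖ₑ := by
        refine le_mul_of_one_le_left (zero_le) ?_
        rw [← ofReal_norm, Complex.norm_real, Real.norm_of_nonneg (by linarith),
          ENNReal.one_le_ofReal]
        exact hp1
    _ = ‖(p : ℂ) * (S f R (ρ • θ) - S f a (ρ • θ))‖ₑ := (enorm_mul _ _).symm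
    _ ≤ X + Y + ENNReal.ofReal (2 * Kc n) * Z := by
        rw [hrep]
        refine (enorm_add_le _ _).trans (add_le_add (enorm_sub_le.trans (add_le_add b1 b2)) b3)
    _ ≤ (X + Y + Z) + ENNReal.ofReal (2 * Kc n) * (X + Y + Z) :=
        add_le_add le_self_add (mul_le_mul_right (le_add_self : Z ≤ X + Y + Z) _)
    _ = (ENNReal.ofReal (2 * Kc n) + 1) * (X + Y + Z) := by ring

end Pool.Agent.CRN
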