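import Pool.Agent.CRN.Targets

set_option autoImplicit false

/-!
# CRN: size and measurability of the amplitudes (target `T_HI2`)
-/

namespace Pool.Agent.CRN

open MeasureTheory FourierTransform Set Filter Topology
open scoped ENNReal NNReal
open Pool.Agent.MBS (E ex S Sstar)
open Pool.Agent.CAR (e1)

namespace HI2_

variable {n : ℕ}

theorem fin_sg (n : ℕ) : IsFiniteMeasure (sg n) := by
  unfold sg; infer_instance

theorem cont_ex : Continuous (fun p : E n × E n => ex p.1 p.2) := by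
  unfold ex
  fun_prop

theorem sm_SH {h : E n → ℂ} (hh : Measurable h) :
    StronglyMeasurable (fun p : ℝ × E n => SH h p.1 p.2) := by
  have := fin_sg n
  unfold SH
  have hF : StronglyMeasurable (fun q : (ℝ × E n) × Metric.sphere (0 : E n) 1 =>
      h (q.1.1 • (q.2 : E n)) * ex q.1.2 (q.1.1 • (q.2 : E n))) := by
    have hc : Continuous (fun q : (ℝ × E n) × Metric.sphere (0 : E n) 1 =>
        q.1.1 • (q.2 : E n)) := by fun_prop
    have hc2 : Continuous (fun q : (ℝ × E n) × Metric.sphere (0 : E n) 1 =>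
        ex q.1.2 (q.1.1 • (q.2 : E n))) :=
      cont_ex.comp ((continuous_snd.comp continuous_fst).prodMk hc)
    exact ((hh.comp hc.measurable).mul hc2.measurable).stronglyMeasurable
  have h2 : StronglyMeasurable (fun p : ℝ × E n => ((p.1 ^ (n - 1) : ℝ) : ℂ)) := by
    have : Continuous (fun p : ℝ × E n => ((p.1 ^ (n - 1) : ℝ) : ℂ)) := by fun_prop
    exact this.stronglyMeasurable
  exact h2.mul (StronglyMeasurable.integral_prod_right' hF)

theorem meas_SH {h : E n → ℂ} (hh : Measurable h) {β : Type*} [MeasurableSpace β]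
    {u : β → ℝ} {v : β → E n} (hu : Measurable u) (hv : Measurable v) :
    Measurable (fun b => SH h (u b) (v b)) :=
  (sm_SH hh).measurable.comp (hu.prodMk hv)

theorem meas_smul : Measurable (fun q : (ℝ × Metric.sphere (0 : E n) 1) × ℝ =>
    q.2 • (q.1.2 : E n)) := by
  have : Continuous (fun q : (ℝ × Metric.sphere (0 : E n) 1) × ℝ =>
    q.2 • (q.1.2 : E n)) := by fun_prop
  exact this.measurable

theorem meas_WD {h : E n → ℂ} (hh : Measurable h) :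
    Measurable (fun q : (ℝ × Metric.sphere (0 : E n) 1) × ℝ =>
      WD h q.1.1 (q.1.2 : E n) q.2) := by
  unfold WD
  have h1 : Measurable (fun q : (ℝ × Metric.sphere (0 : E n) 1) × ℝ =>
      ((q.2 ^ (((n : ℝ) - 1) / 2) : ℝ) : ℂ)) :=
    Complex.measurable_ofReal.comp (measurable_snd.pow_const _)
  have h2 : Measurable (fun q : (ℝ × Metric.sphere (0 : E n) 1) × ℝ =>
      SH h q.1.1 (q.2 • (q.1.2 : E n))) :=
    meas_SH hh (measurable_fst.comp measurable_fst) meas_smul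
  have h3 : ∀ j : Fin n, Measurable (fun q : (ℝ × Metric.sphere (0 : E n) 1) × ℝ =>
      (((q.1.2 : E n) j : ℝ) : ℂ) *
      SH (fun ξ => 2 * Real.pi * Complex.I * (ξ j : ℂ) * h ξ) q.1.1 (q.2 • (q.1.2 : E n))) := by
    intro j
    have hj : Measurable (fun ξ : E n => 2 * Real.pi * Complex.I * (ξ j : ℂ) * h ξ) := by
      have : Continuous (fun ξ : E n => 2 * Real.pi * Complex.I * (ξ j : ℂ)) := by fun_prop
      exact this.measurable.mul hh
    have hc : Continuous (fun q : (ℝ × Metric.sphere (0 : E n) 1) × ℝ =>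
      (((q.1.2 : E n) j : ℝ) : ℂ)) := by fun_prop
    exact hc.measurable.mul (meas_SH hj (measurable_fst.comp measurable_fst) meas_smul)
  have h4 : Measurable (fun q : (ℝ × Metric.sphere (0 : E n) 1) × ℝ =>
      ((((n : ℝ) - 1) / 2 / q.2 : ℝ) : ℂ)) :=
    Complex.measurable_ofReal.comp (measurable_const.div measurable_snd)
  exact h1.mul ((Finset.measurable_sum _ fun j _ => h3 j).add (h4.mul h2))

/-- the integrands of the two amplitudes; `ε = ∓ 1` in the exponential, `δ = ± 1` in the middle -/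
noncomputable def G (h : E n → ℂ) (ε δ : ℝ) (r : ℝ) (θ : E n) (s : ℝ) : ℂ :=
  e1 (ε * (r * s)) * ((WD h r θ s + (δ : ℂ) * (2 * Real.pi * Complex.I * r *
    (((s ^ (((n : ℝ) - 1) / 2) : ℝ) : ℂ) * SH h r (s • θ)))) / (4 * Real.pi * Complex.I * r))

theorem Bp_eq (f : E n → ℂ) (r : ℝ) (θ : E n) :
    Bp f r θ = ∫ s in Ioc (1 : ℝ) 2, G (𝓕 f) (-1) 1 r θ s := by
  unfold Bp G S1
  rw [intervalIntegral.integral_of_le (by norm_num)]
  simp only [neg_one_mul, Complex.ofReal_one, one_mul]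

theorem Bm_eq (f : E n → ℂ) (r : ℝ) (θ : E n) :
    Bm f r θ = ∫ s in Ioc (1 : ℝ) 2, G (𝓕 f) 1 (-1) r θ s := by
  unfold Bm G S1
  rw [intervalIntegral.integral_of_le (by norm_num)]
  simp only [one_mul, Complex.ofReal_neg, Complex.ofReal_one, neg_mul, ← sub_eq_add_neg]

theorem cont_e1 : Continuous e1 := by
  unfold e1
  fun_prop

theorem norm_e1 (x : ℝ) : ‖e1 x‖ = 1 := by
  unfold e1
  rw [Complex.norm_exp]
  have : (2 * (Real.pi : ℂ) * Complex.I * (x : ℂ)).re = 0 := by simp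
  rw [this, Real.exp_zero]

theorem meas_G {h : E n → ℂ} (hh : Measurable h) (ε δ : ℝ) :
    Measurable (fun q : (ℝ × Metric.sphere (0 : E n) 1) × ℝ =>
      G h ε δ q.1.1 (q.1.2 : E n) q.2) := by
  unfold G
  have h0 : Measurable (fun q : (ℝ × Metric.sphere (0 : E n) 1) × ℝ =>
      e1 (ε * (q.1.1 * q.2))) := by
    have : Continuous (fun q : (ℝ × Metric.sphere (0 : E n) 1) × ℝ => ε * (q.1.1 * q.2)) := by
      fun_prop
    exact (cont_e1.comp this).measurable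
  have h1 : Measurable (fun q : (ℝ × Metric.sphere (0 : E n) 1) × ℝ =>
      ((q.2 ^ (((n : ℝ) - 1) / 2) : ℝ) : ℂ)) :=
    Complex.measurable_ofReal.comp (measurable_snd.pow_const _)
  have h2 : Measurable (fun q : (ℝ × Metric.sphere (0 : E n) 1) × ℝ =>
      SH h q.1.1 (q.2 • (q.1.2 : E n))) :=
    meas_SH hh (measurable_fst.comp measurable_fst) meas_smul
  have h3 : Measurable (fun q : (ℝ × Metric.sphere (0 : E n) 1) × ℝ => (q.1.1 : ℂ)) := by
    have : Continuous (fun q : (ℝ × Metric.sphere (0 : E n) 1) × ℝ => (q.1.1 : ℂ)) := by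
      fun_prop
    exact this.measurable
  exact h0.mul (((meas_WD hh).add (measurable_const.mul ((measurable_const.mul h3).mul
    (h1.mul h2)))).div (measurable_const.mul h3))

theorem meas_int {h : E n → ℂ} (hh : Measurable h) (ε δ : ℝ) :
    Measurable (fun p : ℝ × Metric.sphere (0 : E n) 1 =>
      ∫ s in Ioc (1 : ℝ) 2, G h ε δ p.1 (p.2 : E n) s) :=
  (StronglyMeasurable.integral_prod_right' (meas_G hh ε δ).stronglyMeasurable).measurable

theorem SH_coord (h : E n → ℂ) (j : Fin n) {r : ℝ} (hr : 0 < r) (x : E n) :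
    SH (fun ξ => 2 * Real.pi * Complex.I * (ξ j : ℂ) * h ξ) r x =
      2 * Real.pi * Complex.I * r * SH (fun ξ => ((ξ j / ‖ξ‖ : ℝ) : ℂ) * h ξ) r x := by
  unfold SH
  have e : ∀ ω : Metric.sphere (0 : E n) 1,
      2 * Real.pi * Complex.I * ((r • (ω : E n)) j : ℂ) * h (r • (ω : E n)) *
        ex x (r • (ω : E n)) = (2 * Real.pi * Complex.I * r) *
      ((((r • (ω : E n)) j / ‖r • (ω : E n)‖ : ℝ) : ℂ) * h (r • (ω : E n)) *
        ex x (r • (ω : E n))) := by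
    intro ω
    have h1 : ‖r • (ω : E n)‖ = r := by
      rw [norm_smul, norm_eq_of_mem_sphere ω, mul_one, Real.norm_of_nonneg hr.le]
    have h2 : (r • (ω : E n)) j = r * (ω : E n) j := by simp
    rw [h1, h2]
    have h3 : r * (ω : E n) j / r = (ω : E n) j := by field_simp
    rw [h3]
    push_cast
    ring
  simp only [e]
  rw [integral_const_mul]
  ring

/-- square of a sum with `n + 1` terms -/
theorem sq_sum_le (a : Fin n → ℝ) (b : ℝ) :
    (∑ j, a j + b) ^ 2 ≤ ((n : ℝ) + 1) * (b ^ 2 + ∑ j, a j ^ 2) := by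
  have h := sq_sum_le_card_mul_sum_sq (s := (Finset.univ : Finset (Fin (n + 1))))
    (f := Fin.cons b a)
  rw [Fin.sum_univ_succ, Fin.sum_univ_succ] at h
  simp only [Fin.cons_zero, Fin.cons_succ, Finset.card_univ, Fintype.card_fin] at h
  push_cast at h
  rw [add_comm (∑ j, a j) b]
  exact h

theorem abs_coord_le (θ : E n) (j : Fin n) : |θ j| ≤ ‖θ‖ := by
  have := EuclideanSpace.norm_eq θ
  rw [this]
  have h1 : ‖θ j‖ ^ 2 ≤ ∑ i, ‖θ i‖ ^ 2 :=
    Finset.single_le_sum (f := fun i => ‖θ i‖ ^ 2) (fun i _ => sq_nonneg _) (Finset.mem_univ j)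
  have h2 : |θ j| = Real.sqrt (‖θ j‖ ^ 2) := by
    rw [Real.norm_eq_abs, Real.sqrt_sq (abs_nonneg _)]
  rw [h2]
  exact Real.sqrt_le_sqrt h1

/-- the constant -/
noncomputable def K0 (n : ℕ) : ℝ := (2 : ℝ) ^ (((n : ℝ) - 1) / 2) * n

theorem norm_G_le (hn : 2 ≤ n) (h : E n → ℂ) (ε δ : ℝ) (hδ : |δ| = 1) {r s : ℝ} (hr : 1 ≤ r)
    (hs : 1 ≤ s) (hs2 : s ≤ 2) (θ : E n) (hθ : ‖θ‖ = 1) :
    ‖G h ε δ r θ s‖ ≤ K0 n *
      (∑ j : Fin n, ‖SH (fun ξ => ((ξ j / ‖ξ‖ : ℝ) : ℂ) * h ξ) r (s • θ)‖ +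
        ‖SH h r (s • θ)‖) := by
  have hr0 : (0 : ℝ) < r := by linarith
  have hs0 : (0 : ℝ) < s := by linarith
  have hπ := Real.pi_pos
  have hπ3 := Real.pi_gt_three
  have hn' : (2 : ℝ) ≤ n := by exact_mod_cast hn
  set α : ℝ := ((n : ℝ) - 1) / 2 with hα
  set A : Fin n → ℂ := fun j => SH (fun ξ => ((ξ j / ‖ξ‖ : ℝ) : ℂ) * h ξ) r (s • θ) with hA
  set U : ℂ := SH h r (s • θ) with hU
  have hI : Complex.I ≠ 0 := Complex.I_ne_zero
  have hπc : (Real.pi : ℂ) ≠ 0 := by exact_mod_cast hπ.ne'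
  have hrc : (r : ℂ) ≠ 0 := by exact_mod_cast hr0.ne'
  have e : (WD h r θ s + (δ : ℂ) * (2 * Real.pi * Complex.I * r *
      (((s ^ α : ℝ) : ℂ) * U))) / (4 * Real.pi * Complex.I * r) =
      ((s ^ α : ℝ) : ℂ) * (2⁻¹ * (∑ j : Fin n, (θ j : ℂ) * A j) +
        ((α / s : ℝ) : ℂ) / (4 * Real.pi * Complex.I * r) * U + (δ : ℂ) / 2 * U) := by
    have hw : WD h r θ s = ((s ^ α : ℝ) : ℂ) *
        ((∑ j : Fin n, (θ j : ℂ) * (2 * Real.pi * Complex.I * r * A j)) +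
          ((α / s : ℝ) : ℂ) * U) := by
      unfold WD
      simp only [SH_coord h _ hr0, hA, hU, hα]
    have hsum : ∑ j : Fin n, (θ j : ℂ) * (2 * Real.pi * Complex.I * r * A j) =
        2 * Real.pi * Complex.I * r * ∑ j : Fin n, (θ j : ℂ) * A j := by
      rw [Finset.mul_sum]
      exact Finset.sum_congr rfl fun j _ => by ring
    rw [hw, hsum]
    field_simp
    ring
  have hG : ‖G h ε δ r θ s‖ = ‖(WD h r θ s + (δ : ℂ) * (2 * Real.pi * Complex.I * r *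
      (((s ^ α : ℝ) : ℂ) * U))) / (4 * Real.pi * Complex.I * r)‖ := by
    unfold G
    rw [norm_mul, norm_e1, one_mul]
  rw [hG, e, norm_mul]
  have hsα : ‖((s ^ α : ℝ) : ℂ)‖ ≤ (2 : ℝ) ^ α := by
    rw [Complex.norm_real, Real.norm_of_nonneg (Real.rpow_nonneg hs0.le _)]
    exact Real.rpow_le_rpow hs0.le hs2 (by rw [hα]; linarith)
  have h1 : ‖∑ j : Fin n, (θ j : ℂ) * A j‖ ≤ ∑ j : Fin n, ‖A j‖ := by
    refine (norm_sum_le _ _).trans (Finset.sum_le_sum fun j _ => ?_)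
    rw [norm_mul, Complex.norm_real, Real.norm_eq_abs]
    have := abs_coord_le θ j
    rw [hθ] at this
    exact mul_le_of_le_one_left (norm_nonneg _) this
  have h2 : ‖((α / s : ℝ) : ℂ) / (4 * Real.pi * Complex.I * r)‖ ≤ α := by
    have hα0 : 0 ≤ α := by rw [hα]; linarith
    rw [norm_div, Complex.norm_real, Real.norm_of_nonneg (div_nonneg hα0 hs0.le)]
    have : ‖(4 * (Real.pi : ℂ) * Complex.I * r)‖ = 4 * Real.pi * r := by
      simp [abs_of_pos hπ, abs_of_pos hr0]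
    rw [this]
    have h4 : (1 : ℝ) ≤ 4 * Real.pi * r := by nlinarith
    calc α / s / (4 * Real.pi * r) ≤ α / s := div_le_self (div_nonneg hα0 hs0.le) h4
      _ ≤ α := div_le_self hα0 hs
  have h3 : ‖(δ : ℂ) / 2‖ = 1 / 2 := by
    rw [norm_div, Complex.norm_real, Real.norm_eq_abs, hδ]
    simp
  have hinner : ‖2⁻¹ * (∑ j : Fin n, (θ j : ℂ) * A j) +
        ((α / s : ℝ) : ℂ) / (4 * Real.pi * Complex.I * r) * U + (δ : ℂ) / 2 * U‖ ≤
      n * (∑ j : Fin n, ‖A j‖ + ‖U‖) := by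
    have hS0 : 0 ≤ ∑ j : Fin n, ‖A j‖ := Finset.sum_nonneg fun j _ => norm_nonneg _
    have hU0 := norm_nonneg U
    calc _ ≤ ‖(2⁻¹ : ℂ) * (∑ j : Fin n, (θ j : ℂ) * A j)‖ +
          ‖((α / s : ℝ) : ℂ) / (4 * Real.pi * Complex.I * r) * U‖ + ‖(δ : ℂ) / 2 * U‖ :=
          (norm_add_le _ _).trans (add_le_add_left (norm_add_le _ _) _)
      _ ≤ 2⁻¹ * ∑ j : Fin n, ‖A j‖ + α * ‖U‖ + 1 / 2 * ‖U‖ := by
          rw [norm_mul, norm_mul, norm_mul, h3]
          have h5 : ‖(2⁻¹ : ℂ)‖ = 2⁻¹ := by simp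
          rw [h5]
          have := mul_le_mul_of_nonneg_right h2 hU0
          linarith
      _ ≤ n * (∑ j : Fin n, ‖A j‖ + ‖U‖) := by
          rw [hα]
          nlinarith
  have hfin := mul_le_mul hsα hinner (norm_nonneg _)
    (Real.rpow_nonneg (by norm_num : (0 : ℝ) ≤ 2) α)
  refine hfin.trans (le_of_eq ?_)
  unfold K0
  rw [← hα]
  ring

theorem enorm_G_sq_le (hn : 2 ≤ n) (h : E n → ℂ) (ε δ : ℝ) (hδ : |δ| = 1) {r s : ℝ}
    (hr : 1 ≤ r) (hs : 1 ≤ s) (hs2 : s ≤ 2) (θ : E n) (hθ : ‖θ‖ = 1) :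
    ‖G h ε δ r θ s‖ₑ ^ 2 ≤ ENNReal.ofReal (K0 n ^ 2 * (n + 1)) *
      (‖SH h r (s • θ)‖ₑ ^ 2 +
        ∑ j : Fin n, ‖SH (fun ξ => ((ξ j / ‖ξ‖ : ℝ) : ℂ) * h ξ) r (s • θ)‖ₑ ^ 2) := by
  have h1 := norm_G_le hn h ε δ hδ hr hs hs2 θ hθ
  set A : Fin n → ℂ := fun j => SH (fun ξ => ((ξ j / ‖ξ‖ : ℝ) : ℂ) * h ξ) r (s • θ) with hA
  set U : ℂ := SH h r (s • θ) with hU
  have h2 : ‖G h ε δ r θ s‖ ^ 2 ≤ K0 n ^ 2 * (n + 1) * (‖U‖ ^ 2 + ∑ j, ‖A j‖ ^ 2) := by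
    have h3 := pow_le_pow_left₀ (norm_nonneg _) h1 2
    rw [mul_pow] at h3
    have h4 := sq_sum_le (fun j => ‖A j‖) ‖U‖
    calc _ ≤ _ := h3
      _ ≤ K0 n ^ 2 * ((n + 1) * (‖U‖ ^ 2 + ∑ j, ‖A j‖ ^ 2)) :=
          mul_le_mul_of_nonneg_left h4 (sq_nonneg _)
      _ = _ := by ring
  have e1' : ∀ z : ℂ, ‖z‖ₑ ^ 2 = ENNReal.ofReal (‖z‖ ^ 2) := fun z => by
    rw [ENNReal.ofReal_pow (norm_nonneg z), ofReal_norm]
  simp only [e1']
  rw [← ENNReal.ofReal_sum_of_nonneg (fun j _ => sq_nonneg _),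
    ← ENNReal.ofReal_add (sq_nonneg _) (Finset.sum_nonneg fun j _ => sq_nonneg _),
    ← ENNReal.ofReal_mul (by positivity)]
  exact ENNReal.ofReal_le_ofReal h2

theorem sq_lintegral_le {g : ℝ → ℝ≥0∞} (hg : Measurable g) :
    (∫⁻ s in Ioc (1 : ℝ) 2, g s) ^ 2 ≤ ∫⁻ s in Ioc (1 : ℝ) 2, g s ^ 2 := by
  have h := ENNReal.lintegral_mul_le_Lp_mul_Lq (volume.restrict (Ioc (1 : ℝ) 2))
    Real.HolderConjugate.two_two hg.aemeasurable
    (aemeasurable_const (b := (1 : ℝ≥0∞)))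
  simp only [Pi.mul_apply, mul_one, ENNReal.one_rpow, lintegral_const,
    Measure.restrict_apply MeasurableSet.univ, univ_inter, Real.volume_Ioc] at h
  norm_num at h
  have h2 := pow_le_pow_left' h 2
  refine h2.trans (le_of_eq ?_)
  rw [← ENNReal.rpow_natCast, ← ENNReal.rpow_mul]
  norm_num

theorem bound (hn : 2 ≤ n) {h : E n → ℂ} (hh : Measurable h) (ε δ : ℝ) (hδ : |δ| = 1) {r : ℝ}
    (hr : 1 ≤ r) (θ : E n) (hθ : ‖θ‖ = 1) :
    ‖∫ s in Ioc (1 : ℝ) 2, G h ε δ r θ s‖ₑ ^ 2 ≤ ENNReal.ofReal (K0 n ^ 2 * (n + 1)) *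
      ∫⁻ s in Icc (1 : ℝ) 2, (‖SH h r (s • θ)‖ₑ ^ 2 +
        ∑ j : Fin n, ‖SH (fun ξ => ((ξ j / ‖ξ‖ : ℝ) : ℂ) * h ξ) r (s • θ)‖ₑ ^ 2) := by
  have hm : Measurable (fun s => ‖G h ε δ r θ s‖ₑ) := by
    have h1 := (meas_G hh ε δ).comp
      (measurable_const.prodMk measurable_id : Measurable (fun s : ℝ =>
        ((r, (⟨θ, by simp [hθ]⟩ : Metric.sphere (0 : E n) 1)), s)))
    exact h1.enorm
  calc ‖∫ s in Ioc (1 : ℝ) 2, G h ε δ r θ s‖ₑ ^ 2
      ≤ (∫⁻ s in Ioc (1 : ℝ) 2, ‖G h ε δ r θ s‖ₑ) ^ 2 :=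
        pow_le_pow_left' (enorm_integral_le_lintegral_enorm _) 2
    _ ≤ ∫⁻ s in Ioc (1 : ℝ) 2, ‖G h ε δ r θ s‖ₑ ^ 2 := sq_lintegral_le hm
    _ ≤ ∫⁻ s in Ioc (1 : ℝ) 2, ENNReal.ofReal (K0 n ^ 2 * (n + 1)) *
        (‖SH h r (s • θ)‖ₑ ^ 2 +
        ∑ j : Fin n, ‖SH (fun ξ => ((ξ j / ‖ξ‖ : ℝ) : ℂ) * h ξ) r (s • θ)‖ₑ ^ 2) :=
        setLIntegral_mono' measurableSet_Ioc
          fun s hs => enorm_G_sq_le hn h ε δ hδ hr hs.1.le hs.2 θ hθ
    _ = ENNReal.ofReal (K0 n ^ 2 * (n + 1)) * ∫⁻ s in Ioc (1 : ℝ) 2,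
        (‖SH h r (s • θ)‖ₑ ^ 2 +
        ∑ j : Fin n, ‖SH (fun ξ => ((ξ j / ‖ξ‖ : ℝ) : ℂ) * h ξ) r (s • θ)‖ₑ ^ 2) :=
        lintegral_const_mul' _ _ ENNReal.ofReal_ne_top
    _ ≤ _ := by
        gcongr
        exact Ioc_subset_Icc_self

end HI2_

/-- the Fourier transform of an integrable function is continuous -/
theorem HI2_.cont_fourier {n : ℕ} {f : E n → ℂ} (hf : Integrable f) : Continuous (𝓕 f) :=
  VectorFourier.fourierIntegral_continuous Real.continuous_fourierChar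
    (by exact continuous_inner) hf

theorem p_HI2 (_h1 : T_HELN) (_h2 : T_DSN) : T_HI2 := by
  intro n hn
  refine ⟨2 * (HI2_.K0 n ^ 2 * (n + 1)).toNNReal, fun f hf => ?_⟩
  have hF : Measurable (𝓕 f) := (HI2_.cont_fourier hf.int).measurable
  refine ⟨?_, ?_, ?_⟩
  · simp only [HI2_.Bp_eq]
    exact HI2_.meas_int hF _ _
  · simp only [HI2_.Bm_eq]
    exact HI2_.meas_int hF _ _
  · intro r θ hr hθ
    rw [HI2_.Bp_eq, HI2_.Bm_eq]
    have h1 := HI2_.bound hn hF (-1) 1 (by simp) hr θ hθ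
    have h2 := HI2_.bound hn hF 1 (-1) (by simp) hr θ hθ
    refine (add_le_add h1 h2).trans (le_of_eq ?_)
    rw [← two_mul, ← mul_assoc]
    push_cast
    rfl

end Pool.Agent.CRN
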