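import Pool.Agent.CRN.P_ENN

set_option autoImplicit false

/-! CRN-HIN: large radii. -/

namespace Pool.Agent.CRN

open MeasureTheory FourierTransform Set Filter Topology
open scoped ENNReal NNReal
open Pool.Agent.MBS (E ex S Sstar)
open Pool.Agent.CAR (e1)

namespace HIN_

variable {n : ℕ}

theorem e1n (x : ℝ) : ‖e1 x‖ = 1 := by
  unfold e1
  rw [show (2 * Real.pi * Complex.I * (x : ℂ) : ℂ) = ((2 * Real.pi * x : ℝ) : ℂ) * Complex.I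
    from by push_cast; ring]
  exact Complex.norm_exp_ofReal_mul_I _

theorem e1c : Continuous e1 := by
  unfold e1; fun_prop

/-- one term of the supremum is continuous in `ρ` -/
theorem term_cont {B : ℝ → ℂ} (hB : Measurable B) (a s R : ℝ) :
    Continuous (fun ρ : ℝ => ∫ r in Ioc a R, B r * e1 (s * (r * ρ))) := by
  by_cases hi : IntegrableOn B (Ioc a R)
  · refine continuous_of_dominated (bound := fun r => ‖B r‖) ?_ ?_ hi.norm ?_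
    · intro ρ
      exact (hB.mul (e1c.measurable.comp (by fun_prop))).aestronglyMeasurable
    · intro ρ
      refine Eventually.of_forall fun r => ?_
      rw [norm_mul, e1n, mul_one]
    · refine Eventually.of_forall fun r => ?_
      exact continuous_const.mul (e1c.comp (by fun_prop))
  · have : (fun ρ : ℝ => ∫ r in Ioc a R, B r * e1 (s * (r * ρ))) = fun _ => 0 := by
      funext ρ
      refine integral_undef fun h => hi ?_
      refine (integrable_norm_iff hB.aestronglyMeasurable).1 ?_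
      refine h.norm.congr (Eventually.of_forall fun r => ?_)
      simp only [norm_mul, e1n, mul_one]
    rw [this]
    exact continuous_const

theorem sup_meas {B : ℝ → ℂ} (hB : Measurable B) (a s : ℝ) :
    Measurable (fun ρ : ℝ => ⨆ R : ℝ, ‖∫ r in Ioc a R, B r * e1 (s * (r * ρ))‖ₑ) := by
  have : LowerSemicontinuous (fun ρ : ℝ => ⨆ R : ℝ, ‖∫ r in Ioc a R, B r * e1 (s * (r * ρ))‖ₑ) :=
    lowerSemicontinuous_iSup fun R => (term_cont hB a s R).enorm.lowerSemicontinuous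
  exact this.measurable

/-- the maximal function -/
noncomputable def GG (f : E n → ℂ) (a : ℝ) (x : E n) : ℝ≥0∞ :=
  ⨆ R ∈ Ici a, ‖S f R x - S f a x‖ₑ

theorem GG_meas (hD : T_DSN) (hn : 2 ≤ n) {f : E n → ℂ} (hf : Nice f) {a : ℝ} (ha : 0 ≤ a) :
    Measurable (GG f a) := by
  obtain ⟨hc, hS⟩ := hD n f hn hf
  have : LowerSemicontinuous (GG f a) := by
    refine lowerSemicontinuous_biSup fun R hR => ?_
    have h1 : (fun x => ‖S f R x - S f a x‖ₑ) = fun x => ‖∫ r in a..R, S1 f r x‖ₑ := by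
      funext x
      rw [hS x a R ha hR, add_sub_cancel_left]
    rw [h1]
    refine Continuous.lowerSemicontinuous (Continuous.enorm ?_)
    refine intervalIntegral.continuous_parametric_intervalIntegral_of_continuous' ?_ a R
    exact hc.comp continuous_swap
  exact this.measurable

theorem A1_meas : MeasurableSet (A1 n) := by
  have : IsClosed (A1 n) :=
    (isClosed_le continuous_const continuous_norm).inter
      (isClosed_le continuous_norm continuous_const)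
  exact this.measurableSet

theorem A1_sub : A1 n ⊆ Metric.closedBall (0 : E n) 2 := by
  intro x hx
  rw [mem_closedBall_zero_iff]
  exact hx.2

theorem sph_norm (ω : Metric.sphere (0 : E n) 1) : ‖(ω : E n)‖ = 1 := by
  have := ω.2
  rwa [mem_sphere_zero_iff_norm] at this

theorem smul_mem {s : ℝ} (hs : s ∈ Icc (1 : ℝ) 2) (ω : Metric.sphere (0 : E n) 1) :
    s • (ω : E n) ∈ A1 n := by
  have h : ‖s • (ω : E n)‖ = s := by
    rw [norm_smul, sph_norm, mul_one, Real.norm_of_nonneg (by linarith [hs.1])]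
  exact ⟨by rw [h]; exact hs.1, by rw [h]; exact hs.2⟩

theorem smul_notMem {s : ℝ} (h0 : 0 < s) (hs : s ∉ Icc (1 : ℝ) 2)
    (ω : Metric.sphere (0 : E n) 1) : s • (ω : E n) ∉ A1 n := by
  have h : ‖s • (ω : E n)‖ = s := by
    rw [norm_smul, sph_norm, mul_one, Real.norm_of_nonneg h0.le]
  intro hx
  have h1 := hx.1
  have h2 := hx.2
  rw [h] at h1 h2
  exact hs ⟨h1, h2⟩

theorem polar_le (hP : T_POLN) (hn : 2 ≤ n) {W : E n → ℝ≥0∞} (hW : Measurable W) :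
    ∫⁻ s in Icc (1 : ℝ) 2, ∫⁻ ω, W (s • (ω : E n)) ∂(sg n) ≤ ∫⁻ x in A1 n, W x := by
  rw [← lintegral_indicator A1_meas, (hP n (by omega)).1 _ (hW.indicator A1_meas)]
  calc ∫⁻ s in Icc (1 : ℝ) 2, ∫⁻ ω, W (s • (ω : E n)) ∂(sg n)
      ≤ ∫⁻ s in Icc (1 : ℝ) 2, ∫⁻ ω, ENNReal.ofReal (s ^ (n - 1)) *
          (A1 n).indicator W (s • (ω : E n)) ∂(sg n) := by
        refine setLIntegral_mono' measurableSet_Icc fun s hs => lintegral_mono fun ω => ?_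
        rw [indicator_of_mem (smul_mem hs ω)]
        have h1 : (1 : ℝ≥0∞) ≤ ENNReal.ofReal (s ^ (n - 1)) := by
          rw [← ENNReal.ofReal_one]
          exact ENNReal.ofReal_le_ofReal (one_le_pow₀ hs.1)
        calc W (s • (ω : E n)) = 1 * W (s • (ω : E n)) := (one_mul _).symm
          _ ≤ _ := by gcongr
    _ ≤ _ := lintegral_mono_set fun s hs => lt_of_lt_of_le one_pos hs.1

theorem polar_ge (hP : T_POLN) (hn : 2 ≤ n) {W : E n → ℝ≥0∞} (hW : Measurable W) :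
    ∫⁻ x in A1 n, W x ≤
      (2 : ℝ≥0∞) ^ (n - 1) * ∫⁻ s in Icc (1 : ℝ) 2, ∫⁻ ω, W (s • (ω : E n)) ∂(sg n) := by
  rw [← lintegral_indicator A1_meas, (hP n (by omega)).1 _ (hW.indicator A1_meas),
    ← lintegral_const_mul' _ _ (by finiteness), ← lintegral_indicator measurableSet_Icc]
  refine (setLIntegral_mono' (g := (Icc (1 : ℝ) 2).indicator fun s =>
    (2 : ℝ≥0∞) ^ (n - 1) * ∫⁻ ω, W (s • (ω : E n)) ∂(sg n)) measurableSet_Ioi
    fun s hs => ?_).trans (setLIntegral_le_lintegral _ _)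
  by_cases h : s ∈ Icc (1 : ℝ) 2
  · rw [indicator_of_mem h, ← lintegral_const_mul' _ _ (by finiteness)]
    refine lintegral_mono fun ω => ?_
    rw [indicator_of_mem (smul_mem h ω)]
    have h2 : ENNReal.ofReal (s ^ (n - 1)) ≤ (2 : ℝ≥0∞) ^ (n - 1) := by
      rw [ENNReal.ofReal_pow (by linarith [h.1])]
      refine pow_le_pow_left' ?_ _
      have h4 := ENNReal.ofReal_le_ofReal h.2
      simpa using h4
    gcongr
  · rw [indicator_of_notMem h]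
    have h3 : ∀ ω : Metric.sphere (0 : E n) 1, ENNReal.ofReal (s ^ (n - 1)) *
        (A1 n).indicator W (s • (ω : E n)) = 0 := fun ω => by
      rw [indicator_of_notMem (smul_notMem hs h ω), mul_zero]
    simp only [h3, lintegral_zero, le_refl]

theorem swap_le (hP : T_POLN) (hn : 2 ≤ n) {W : ℝ × E n → ℝ≥0∞} (hW : Measurable W) (a : ℝ) :
    ∫⁻ ω, (∫⁻ r in Ioi a, ∫⁻ s in Icc (1 : ℝ) 2, W (r, s • (ω : E n))) ∂(sg n) ≤
      ∫⁻ r in Ioi a, ∫⁻ x in A1 n, W (r, x) := by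
  have : IsFiniteMeasure (sg n) := (hP n (by omega)).2.2
  have hm : Measurable (fun q : (Metric.sphere (0 : E n) 1 × ℝ) × ℝ =>
      W (q.1.2, q.2 • (q.1.1 : E n))) := by
    refine hW.comp (Measurable.prodMk (by fun_prop) ?_)
    have h1 : Continuous (fun q : (Metric.sphere (0 : E n) 1 × ℝ) × ℝ =>
      q.2 • (q.1.1 : E n)) := by fun_prop
    exact h1.measurable
  rw [lintegral_lintegral_swap]
  · refine lintegral_mono fun r => ?_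
    rw [lintegral_lintegral_swap]
    · exact polar_le hP hn (hW.comp measurable_prodMk_left)
    · have h2 : Measurable (fun q : Metric.sphere (0 : E n) 1 × ℝ =>
          W (r, q.2 • (q.1 : E n))) :=
        hm.comp ((measurable_fst.prodMk measurable_const).prodMk measurable_snd)
      exact h2.aemeasurable
  · exact (Measurable.lintegral_prod_right' hm).aemeasurable

theorem SH_meas [IsFiniteMeasure (sg n)] {h : E n → ℂ} (hh : Measurable h) :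
    Measurable (fun p : ℝ × E n => SH h p.1 p.2) := by
  unfold SH
  refine Measurable.mul ?_ ?_
  · exact Complex.measurable_ofReal.comp (measurable_fst.pow_const _)
  · have h0 : Continuous (fun q : (ℝ × E n) × Metric.sphere (0 : E n) 1 =>
        q.1.1 • (q.2 : E n)) := by fun_prop
    have h1 : StronglyMeasurable (fun q : (ℝ × E n) × Metric.sphere (0 : E n) 1 =>
        h (q.1.1 • (q.2 : E n)) * ex q.1.2 (q.1.1 • (q.2 : E n))) := by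
      refine Measurable.stronglyMeasurable ((hh.comp h0.measurable).mul ?_)
      have h2 : Continuous (fun q : (ℝ × E n) × Metric.sphere (0 : E n) 1 =>
          ex q.1.2 (q.1.1 • (q.2 : E n))) :=
        Pool.Agent.MBS.ex_continuous.comp
          ((continuous_snd.comp continuous_fst).prodMk h0)
      exact h2.measurable
    exact h1.integral_prod_right'.measurable

/-- Cauchy–Schwarz -/
theorem cs_lint {α : Type*} [MeasurableSpace α] (μ : Measure α) {f g : α → ℝ≥0∞}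
    (hf : AEMeasurable f μ) (hg : AEMeasurable g μ) :
    (∫⁻ x, f x * g x ∂μ) ^ 2 ≤ (∫⁻ x, f x ^ 2 ∂μ) * ∫⁻ x, g x ^ 2 ∂μ := by
  have h := ENNReal.lintegral_mul_le_Lp_mul_Lq μ Real.HolderConjugate.two_two hf hg
  have h2 := pow_le_pow_left' h 2
  refine h2.trans ?_
  rw [mul_pow, ← ENNReal.rpow_mul_natCast, ← ENNReal.rpow_mul_natCast]
  norm_num

theorem inv_sq {a : ℝ} (ha : 0 < a) :
    ∫⁻ r in Ioi a, ENNReal.ofReal r⁻¹ ^ 2 = ENNReal.ofReal a⁻¹ := by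
  have h1 : ∫⁻ r in Ioi a, ENNReal.ofReal r⁻¹ ^ 2 = ∫⁻ r in Ioi a, ENNReal.ofReal (r ^ (-2 : ℝ)) := by
    refine setLIntegral_congr_fun measurableSet_Ioi fun r hr => ?_
    have hr0 : (0 : ℝ) < r := ha.trans hr
    rw [← ENNReal.ofReal_pow (inv_nonneg.2 hr0.le), Real.rpow_neg hr0.le]
    norm_num
  rw [h1, ← ofReal_integral_eq_lintegral_ofReal
    (integrableOn_Ioi_rpow_of_lt (by norm_num) ha), integral_Ioi_rpow_of_lt (by norm_num) ha]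
  · congr 1
    rw [show (-2 : ℝ) + 1 = -1 by norm_num, Real.rpow_neg_one]
    ring
  · refine (ae_restrict_iff' measurableSet_Ioi).2 (Eventually.of_forall fun r hr => ?_)
    exact Real.rpow_nonneg (ha.trans hr).le _

theorem two (a b : ℝ≥0∞) : (a + b) ^ 2 ≤ 2 * (a ^ 2 + b ^ 2) := by
  by_cases ha : a = ⊤
  · simp [ha]
  by_cases hb : b = ⊤
  · simp [hb]
  lift a to ℝ≥0 using ha
  lift b to ℝ≥0 using hb
  have h : (a + b) ^ 2 ≤ 2 * (a ^ 2 + b ^ 2) := add_sq_le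
  exact_mod_cast h

theorem three (a b c : ℝ≥0∞) : (a + b + c) ^ 2 ≤ 9 * (a ^ 2 + b ^ 2 + c ^ 2) := by
  have h : a + b + c ≤ 3 * max a (max b c) := by
    have h1 : a ≤ max a (max b c) := le_max_left _ _
    have h2 : b ≤ max a (max b c) := (le_max_left b c).trans (le_max_right _ _)
    have h3 : c ≤ max a (max b c) := (le_max_right b c).trans (le_max_right _ _)
    calc a + b + c ≤ max a (max b c) + max a (max b c) + max a (max b c) :=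
          add_le_add (add_le_add h1 h2) h3
      _ = 3 * max a (max b c) := by ring
  have h4 : max a (max b c) ^ 2 ≤ a ^ 2 + b ^ 2 + c ^ 2 := by
    rcases max_cases a (max b c) with ⟨e, -⟩ | ⟨e, -⟩
    · rw [e, add_assoc]; exact le_self_add
    · rw [e]
      rcases max_cases b c with ⟨e2, -⟩ | ⟨e2, -⟩
      · rw [e2]
        calc b ^ 2 ≤ a ^ 2 + b ^ 2 := le_add_self
          _ ≤ _ := le_self_add
      · rw [e2]; exact le_add_self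
  calc (a + b + c) ^ 2 ≤ (3 * max a (max b c)) ^ 2 := pow_le_pow_left' h 2
    _ = 9 * max a (max b c) ^ 2 := by ring
    _ ≤ _ := by gcongr

theorem SH_joint (hD : T_DSN) (hn : 2 ≤ n) {f : E n → ℂ} (hf : Nice f) :
    Measurable (fun p : ℝ × E n => S1 f p.1 p.2) := (hD n f hn hf).1.measurable

theorem f_cont {f : E n → ℂ} (hf : Nice f) : Continuous (𝓕 f) := ENN_.f_cont hf

/-- the two weights -/
noncomputable def W1 (f : E n → ℂ) (p : ℝ × E n) : ℝ≥0∞ :=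
  ‖S1 f p.1 p.2‖ₑ ^ 2 +
    ∑ j : Fin n, ‖SH (fun ξ => ((ξ j / ‖ξ‖ : ℝ) : ℂ) * 𝓕 f ξ) p.1 p.2‖ₑ ^ 2

noncomputable def W2 (f : E n → ℂ) (p : ℝ × E n) : ℝ≥0∞ :=
  2 * (‖S1 f p.1 p.2‖ₑ ^ 2 + ‖Lam (S1 f p.1) p.2‖ₑ ^ 2)

theorem hj_meas {f : E n → ℂ} (hf : Nice f) (j : Fin n) :
    Measurable (fun ξ : E n => ((ξ j / ‖ξ‖ : ℝ) : ℂ) * 𝓕 f ξ) := by
  refine Measurable.mul (Complex.measurable_ofReal.comp ?_) (f_cont hf).measurable
  exact (by fun_prop : Measurable fun ξ : E n => ξ j / ‖ξ‖)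

theorem hj_le (f : E n → ℂ) (j : Fin n) (ξ : E n) :
    ‖((ξ j / ‖ξ‖ : ℝ) : ℂ) * 𝓕 f ξ‖ₑ ^ 2 ≤ ‖𝓕 f ξ‖ₑ ^ 2 := by
  refine pow_le_pow_left' ?_ 2
  rw [← ofReal_norm, ← ofReal_norm]
  refine ENNReal.ofReal_le_ofReal ?_
  rw [norm_mul, Complex.norm_real, Real.norm_eq_abs, abs_div, abs_norm]
  have h1 : |ξ j| / ‖ξ‖ ≤ 1 := by
    refine div_le_one_of_le₀ ?_ (norm_nonneg _)
    have := PiLp.norm_apply_le ξ j
    rwa [Real.norm_eq_abs] at this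
  calc |ξ j| / ‖ξ‖ * ‖𝓕 f ξ‖ ≤ 1 * ‖𝓕 f ξ‖ := by gcongr
    _ = ‖𝓕 f ξ‖ := one_mul _

theorem W1_meas (hP : T_POLN) (hD : T_DSN) (hn : 2 ≤ n) {f : E n → ℂ} (hf : Nice f) :
    Measurable (W1 f) := by
  have : IsFiniteMeasure (sg n) := (hP n (by omega)).2.2
  unfold W1
  refine ((SH_joint hD hn hf).enorm.pow_const 2).add ?_
  refine Finset.measurable_sum _ fun j _ => ?_
  exact (SH_meas (hj_meas hf j)).enorm.pow_const 2

theorem Lam_meas (hH : T_HELN) (hn : 2 ≤ n) {f : E n → ℂ} (hf : Nice f) :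
    Measurable (fun p : ℝ × E n => Lam (S1 f p.1) p.2) :=
  (hH n (𝓕 f) hn (f_cont hf)).2.measurable

theorem W2_meas (hD : T_DSN) (hH : T_HELN) (hn : 2 ≤ n) {f : E n → ℂ} (hf : Nice f) :
    Measurable (W2 f) := by
  unfold W2
  exact (((SH_joint hD hn hf).enorm.pow_const 2).add
    ((Lam_meas hH hn hf).enorm.pow_const 2)).const_mul 2

/-- the error term on a ray -/
noncomputable def Er (f : E n → ℂ) (a : ℝ) (θ : E n) : ℝ≥0∞ :=
  ∫⁻ r in Ioi a, ENNReal.ofReal r⁻¹ * ∫⁻ s in Icc (1 : ℝ) 2,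
    (‖S1 f r (s • θ)‖ₑ + ‖Lam (S1 f r) (s • θ)‖ₑ)

theorem Er_le (hD : T_DSN) (hH : T_HELN) (hn : 2 ≤ n) {f : E n → ℂ} (hf : Nice f) {a : ℝ}
    (ha : 0 < a) (θ : E n) :
    Er f a θ ^ 2 ≤ ENNReal.ofReal a⁻¹ * ∫⁻ r in Ioi a, ∫⁻ s in Icc (1 : ℝ) 2, W2 f (r, s • θ) := by
  have h0 : Measurable (fun q : ℝ × ℝ => (q.1, q.2 • θ)) := by
    have : Continuous (fun q : ℝ × ℝ => (q.1, q.2 • θ)) := by fun_prop
    exact this.measurable
  have h1 : Measurable (fun q : ℝ × ℝ => ‖S1 f q.1 (q.2 • θ)‖ₑ + ‖Lam (S1 f q.1) (q.2 • θ)‖ₑ) :=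
    ((SH_joint hD hn hf).comp h0).enorm.add ((Lam_meas hH hn hf).comp h0).enorm
  have h2 : Measurable (fun r : ℝ => ∫⁻ s in Icc (1 : ℝ) 2,
      (‖S1 f r (s • θ)‖ₑ + ‖Lam (S1 f r) (s • θ)‖ₑ)) := Measurable.lintegral_prod_right' h1
  refine (cs_lint (volume.restrict (Ioi a)) (f := fun r : ℝ => ENNReal.ofReal r⁻¹)
    (by fun_prop) h2.aemeasurable).trans ?_
  rw [inv_sq ha]
  gcongr with r
  have h3 := cs_lint (volume.restrict (Icc (1 : ℝ) 2)) (f := fun _ => 1)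
    (g := fun s => ‖S1 f r (s • θ)‖ₑ + ‖Lam (S1 f r) (s • θ)‖ₑ) (by fun_prop)
    (h1.comp measurable_prodMk_left).aemeasurable
  simp only [one_mul, one_pow, lintegral_const, Measure.restrict_apply_univ,
    Real.volume_Icc] at h3
  have h4 : ENNReal.ofReal (2 - 1) = 1 := by norm_num
  rw [h4, one_mul] at h3
  refine h3.trans (lintegral_mono fun s => ?_)
  unfold W2
  exact two _ _

theorem AH_le {CA : ℝ≥0} (hCA : ∀ h : E n → ℂ, Measurable h →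
    ∫⁻ R in Ioi (0 : ℝ), ∫⁻ x in Metric.closedBall (0 : E n) 2, ‖SH h R x‖ₑ ^ 2 ≤
      CA * ∫⁻ ξ, ‖h ξ‖ₑ ^ 2) {a : ℝ} (ha : 0 ≤ a) {h : E n → ℂ} (hh : Measurable h) :
    ∫⁻ r in Ioi a, ∫⁻ x in A1 n, ‖SH h r x‖ₑ ^ 2 ≤ CA * ∫⁻ ξ, ‖h ξ‖ₑ ^ 2 := by
  refine le_trans ?_ (hCA h hh)
  refine (lintegral_mono_set (Ioi_subset_Ioi ha)).trans ?_
  exact lintegral_mono fun r => lintegral_mono_set A1_sub

end HIN_

open HIN_ in
theorem p_HIN (h1 : T_POLN) (h2 : T_AHN) (h3 : T_DSN) (h4 : T_HELN) (h5 : T_ADFN) (h6 : T_BERN)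
    (h7 : T_RAYN) (h8 : T_HI1) (h9 : T_HI2) : T_HIN := by
  intro hCarl n hn
  obtain ⟨C1, hC1⟩ := h8 n hn
  obtain ⟨C2, hC2⟩ := h9 n hn
  obtain ⟨CR, hCR⟩ := h7 hCarl
  obtain ⟨CB, hCB⟩ := h6 n hn
  obtain ⟨CA, hCA⟩ := h2 n hn
  have hfin : IsFiniteMeasure (sg n) := (h1 n (by omega)).2.2
  refine ⟨2 ^ (n - 1) * (9 * C1 ^ 2 * CR * C2 * ((1 + n) * CA) + 18 * C1 ^ 2 * (1 + CB) * CA),
    fun K f hK hf hAD => ?_⟩
  have hK1 : (1 : ℝ) ≤ K := by exact_mod_cast hK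
  obtain ⟨a, ha⟩ : ∃ a : ℝ, a = (K : ℝ) ^ 4 := ⟨_, rfl⟩
  have ha1 : 1 ≤ a := by rw [ha]; exact one_le_pow₀ hK1
  have ha0 : 0 < a := by linarith
  have h21 : ENNReal.ofReal (2 - 1) = 1 := by norm_num
  rw [← ha]
  -- the ray estimate
  have ray : ∀ ω : Metric.sphere (0 : E n) 1,
      ∫⁻ ρ in Icc (1 : ℝ) 2, GG f a (ρ • (ω : E n)) ^ 2 ≤
      ∫⁻ r in Ioi a, ∫⁻ s in Icc (1 : ℝ) 2,
        (9 * (C1 : ℝ≥0∞) ^ 2 * CR * C2 * W1 f (r, s • (ω : E n)) +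
          9 * (C1 : ℝ≥0∞) ^ 2 * ENNReal.ofReal a⁻¹ * W2 f (r, s • (ω : E n))) := by
    intro ω
    have hθ := sph_norm ω
    obtain ⟨mp, mq, hb⟩ := hC2 f hf
    have mBp : Measurable (fun r : ℝ => Bp f r (ω : E n)) :=
      mp.comp (measurable_id.prodMk measurable_const)
    have mBm : Measurable (fun r : ℝ => Bm f r (ω : E n)) :=
      mq.comp (measurable_id.prodMk measurable_const)
    have hP1 := hCR (fun r => Bp f r (ω : E n)) a 1 mBp (Or.inl rfl)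
    have hQ1 := hCR (fun r => Bm f r (ω : E n)) a (-1) mBm (Or.inr rfl)
    have mP := sup_meas mBp a 1
    have mQ := sup_meas mBm a (-1)
    obtain ⟨P, hP⟩ : ∃ P : ℝ → ℝ≥0∞, P = fun ρ => ⨆ R' : ℝ,
      ‖∫ r in Ioc a R', Bp f r (ω : E n) * e1 (1 * (r * ρ))‖ₑ := ⟨_, rfl⟩
    obtain ⟨Q, hQ⟩ : ∃ Q : ℝ → ℝ≥0∞, Q = fun ρ => ⨆ R' : ℝ,
      ‖∫ r in Ioc a R', Bm f r (ω : E n) * e1 (-1 * (r * ρ))‖ₑ := ⟨_, rfl⟩
    rw [← hP] at mP
    rw [← hQ] at mQ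
    have hP2 : ∫⁻ ρ in Icc (1 : ℝ) 2, P ρ ^ 2 ≤ CR * ∫⁻ r in Ioi a, ‖Bp f r (ω : E n)‖ₑ ^ 2 := by
      rw [hP]
      exact (setLIntegral_le_lintegral _ _).trans hP1
    have hQ2 : ∫⁻ ρ in Icc (1 : ℝ) 2, Q ρ ^ 2 ≤ CR * ∫⁻ r in Ioi a, ‖Bm f r (ω : E n)‖ₑ ^ 2 := by
      rw [hQ]
      exact (setLIntegral_le_lintegral _ _).trans hQ1
    have s1 : ∀ ρ ∈ Icc (1 : ℝ) 2, GG f a (ρ • (ω : E n)) ^ 2 ≤
        9 * (C1 : ℝ≥0∞) ^ 2 * (P ρ ^ 2 + (Q ρ ^ 2 + Er f a ω ^ 2)) := by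
      intro ρ hρ
      have s0 : GG f a (ρ • (ω : E n)) ≤ C1 * (P ρ + Q ρ + Er f a ω) := by
        refine iSup₂_le fun R hR => ?_
        rw [hP, hQ]
        exact hC1 f ω a R ρ hf hθ ha1 hR hρ.1 hρ.2
      calc GG f a (ρ • (ω : E n)) ^ 2 ≤ (C1 * (P ρ + Q ρ + Er f a ω)) ^ 2 :=
            pow_le_pow_left' s0 2
        _ = (C1 : ℝ≥0∞) ^ 2 * (P ρ + Q ρ + Er f a ω) ^ 2 := mul_pow _ _ _
        _ ≤ (C1 : ℝ≥0∞) ^ 2 * (9 * (P ρ ^ 2 + Q ρ ^ 2 + Er f a ω ^ 2)) := by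
            gcongr
            exact three _ _ _
        _ = _ := by ring
    have hB : (∫⁻ r in Ioi a, ‖Bp f r (ω : E n)‖ₑ ^ 2) +
        (∫⁻ r in Ioi a, ‖Bm f r (ω : E n)‖ₑ ^ 2) ≤
        C2 * ∫⁻ r in Ioi a, ∫⁻ s in Icc (1 : ℝ) 2, W1 f (r, s • (ω : E n)) := by
      rw [← lintegral_const_mul' _ _ (by finiteness)]
      refine (le_lintegral_add _ _).trans ?_
      refine setLIntegral_mono' measurableSet_Ioi fun r hr => ?_
      exact hb r ω (ha1.trans (le_of_lt hr)) hθ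
    calc ∫⁻ ρ in Icc (1 : ℝ) 2, GG f a (ρ • (ω : E n)) ^ 2
        ≤ ∫⁻ ρ in Icc (1 : ℝ) 2, 9 * (C1 : ℝ≥0∞) ^ 2 * (P ρ ^ 2 + (Q ρ ^ 2 + Er f a ω ^ 2)) :=
          setLIntegral_mono' measurableSet_Icc s1
      _ = 9 * (C1 : ℝ≥0∞) ^ 2 * ((∫⁻ ρ in Icc (1 : ℝ) 2, P ρ ^ 2) +
            ((∫⁻ ρ in Icc (1 : ℝ) 2, Q ρ ^ 2) + Er f a ω ^ 2)) := by
          rw [lintegral_const_mul' _ _ (by finiteness), lintegral_add_left (mP.pow_const 2),
            lintegral_add_left (mQ.pow_const 2), lintegral_const, Measure.restrict_apply_univ,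
            Real.volume_Icc, h21, mul_one]
      _ ≤ 9 * (C1 : ℝ≥0∞) ^ 2 * (CR * (∫⁻ r in Ioi a, ‖Bp f r (ω : E n)‖ₑ ^ 2) +
            (CR * (∫⁻ r in Ioi a, ‖Bm f r (ω : E n)‖ₑ ^ 2) +
              ENNReal.ofReal a⁻¹ * ∫⁻ r in Ioi a, ∫⁻ s in Icc (1 : ℝ) 2,
                W2 f (r, s • (ω : E n)))) := by
          refine mul_le_mul_right ?_ _
          exact add_le_add hP2 (add_le_add hQ2 (Er_le h3 h4 hn hf ha0 ω))
      _ = 9 * (C1 : ℝ≥0∞) ^ 2 * (CR * ((∫⁻ r in Ioi a, ‖Bp f r (ω : E n)‖ₑ ^ 2) +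
            (∫⁻ r in Ioi a, ‖Bm f r (ω : E n)‖ₑ ^ 2)) +
              ENNReal.ofReal a⁻¹ * ∫⁻ r in Ioi a, ∫⁻ s in Icc (1 : ℝ) 2,
                W2 f (r, s • (ω : E n))) := by ring
      _ ≤ 9 * (C1 : ℝ≥0∞) ^ 2 * (CR * (C2 * ∫⁻ r in Ioi a, ∫⁻ s in Icc (1 : ℝ) 2,
              W1 f (r, s • (ω : E n))) +
              ENNReal.ofReal a⁻¹ * ∫⁻ r in Ioi a, ∫⁻ s in Icc (1 : ℝ) 2,
                W2 f (r, s • (ω : E n))) := by
          gcongr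
      _ = (9 * (C1 : ℝ≥0∞) ^ 2 * CR * C2) * (∫⁻ r in Ioi a, ∫⁻ s in Icc (1 : ℝ) 2,
              W1 f (r, s • (ω : E n))) +
              (9 * (C1 : ℝ≥0∞) ^ 2 * ENNReal.ofReal a⁻¹) *
              ∫⁻ r in Ioi a, ∫⁻ s in Icc (1 : ℝ) 2, W2 f (r, s • (ω : E n)) := by ring
      _ ≤ _ := by
          rw [← lintegral_const_mul' _ _ (by finiteness), ← lintegral_const_mul' _ _ (by finiteness)]
          refine (le_lintegral_add _ _).trans (lintegral_mono fun r => ?_)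
          simp only []
          rw [← lintegral_const_mul' _ _ (by finiteness), ← lintegral_const_mul' _ _ (by finiteness)]
          exact le_lintegral_add _ _
  have mW1 := W1_meas h1 h3 hn hf
  have mW2 := W2_meas h3 h4 hn hf
  have mG := GG_meas h3 hn hf ha0.le
  have mA : ∀ {h : E n → ℂ}, Measurable h →
      Measurable (fun r : ℝ => ∫⁻ x in A1 n, ‖SH h r x‖ₑ ^ 2) := fun hh =>
    Measurable.lintegral_prod_right' ((SH_meas hh).enorm.pow_const 2)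
  have mA0 : Measurable (fun r : ℝ => ∫⁻ x in A1 n, ‖S1 f r x‖ₑ ^ 2) :=
    mA (f_cont hf).measurable
  have hpl : ∫⁻ ξ, ‖𝓕 f ξ‖ₑ ^ 2 = ∫⁻ x, ‖f x‖ₑ ^ 2 := ENN_.plancherel hf.int hf.sq
  have bA0 : ∫⁻ r in Ioi a, ∫⁻ x in A1 n, ‖S1 f r x‖ₑ ^ 2 ≤ CA * ∫⁻ x, ‖f x‖ₑ ^ 2 := by
    rw [← hpl]
    exact AH_le hCA ha0.le (f_cont hf).measurable
  have bAj : ∀ j : Fin n, ∫⁻ r in Ioi a, ∫⁻ x in A1 n,
      ‖SH (fun ξ => ((ξ j / ‖ξ‖ : ℝ) : ℂ) * 𝓕 f ξ) r x‖ₑ ^ 2 ≤ CA * ∫⁻ x, ‖f x‖ₑ ^ 2 := by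
    intro j
    rw [← hpl]
    refine (AH_le hCA ha0.le (hj_meas hf j)).trans ?_
    gcongr _ * ?_
    exact lintegral_mono fun ξ => hj_le f j ξ
  -- one radius
  have one : ∀ r : ℝ, ∫⁻ x in A1 n, (9 * (C1 : ℝ≥0∞) ^ 2 * CR * C2 * W1 f (r, x) +
      9 * (C1 : ℝ≥0∞) ^ 2 * ENNReal.ofReal a⁻¹ * W2 f (r, x)) ≤
      9 * (C1 : ℝ≥0∞) ^ 2 * CR * C2 * ((∫⁻ x in A1 n, ‖S1 f r x‖ₑ ^ 2) +
        ∑ j : Fin n, ∫⁻ x in A1 n, ‖SH (fun ξ => ((ξ j / ‖ξ‖ : ℝ) : ℂ) * 𝓕 f ξ) r x‖ₑ ^ 2) +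
      18 * (C1 : ℝ≥0∞) ^ 2 * (1 + CB) * ∫⁻ x in A1 n, ‖S1 f r x‖ₑ ^ 2 := by
    intro r
    have e1' : ∫⁻ x in A1 n, W1 f (r, x) = (∫⁻ x in A1 n, ‖S1 f r x‖ₑ ^ 2) +
        ∑ j : Fin n, ∫⁻ x in A1 n, ‖SH (fun ξ => ((ξ j / ‖ξ‖ : ℝ) : ℂ) * 𝓕 f ξ) r x‖ₑ ^ 2 := by
      unfold W1
      rw [lintegral_add_left, lintegral_finsetSum]
      · intro j _
        exact ((SH_meas (hj_meas hf j)).comp measurable_prodMk_left).enorm.pow_const 2
      · exact ((SH_joint h3 hn hf).comp measurable_prodMk_left).enorm.pow_const 2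
    have e2 : ∫⁻ x in A1 n, W2 f (r, x) ≤ 2 * ((1 + CB * (K : ℝ≥0∞) ^ 4) *
        ∫⁻ x in A1 n, ‖S1 f r x‖ₑ ^ 2) := by
      unfold W2
      rw [lintegral_const_mul' _ _ (by finiteness), lintegral_add_left, add_mul, one_mul]
      · gcongr
        refine hCB K (S1 f r) hK ?_ (h5 n K f hn hf hAD r)
        exact (h3 n f hn hf).1.comp (Continuous.prodMk_right r)
      · exact ((SH_joint h3 hn hf).comp measurable_prodMk_left).enorm.pow_const 2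
    have e3 : ENNReal.ofReal a⁻¹ * (1 + CB * (K : ℝ≥0∞) ^ 4) ≤ 1 + CB := by
      rw [mul_add, mul_one]
      have f1 : ENNReal.ofReal a⁻¹ ≤ 1 := by
        rw [← ENNReal.ofReal_one]
        exact ENNReal.ofReal_le_ofReal (inv_le_one_of_one_le₀ ha1)
      have f2 : ENNReal.ofReal a⁻¹ * (K : ℝ≥0∞) ^ 4 = 1 := by
        have f3 : ((K : ℝ≥0∞)) ^ 4 = ENNReal.ofReal a := by
          rw [ha, ENNReal.ofReal_pow (by positivity), ENNReal.ofReal_natCast]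
        rw [f3, ← ENNReal.ofReal_mul (by positivity), inv_mul_cancel₀ ha0.ne',
          ENNReal.ofReal_one]
      have f4 : ENNReal.ofReal a⁻¹ * ((CB : ℝ≥0∞) * (K : ℝ≥0∞) ^ 4) = (CB : ℝ≥0∞) := by
        calc ENNReal.ofReal a⁻¹ * ((CB : ℝ≥0∞) * (K : ℝ≥0∞) ^ 4)
            = (CB : ℝ≥0∞) * (ENNReal.ofReal a⁻¹ * (K : ℝ≥0∞) ^ 4) := by ring
          _ = (CB : ℝ≥0∞) := by rw [f2, mul_one]
      rw [f4]
      gcongr
    have mW1r : Measurable (fun x => 9 * (C1 : ℝ≥0∞) ^ 2 * CR * C2 * W1 f (r, x)) :=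
      (mW1.comp measurable_prodMk_left).const_mul _
    rw [lintegral_add_left mW1r,
      lintegral_const_mul' _ _ (by finiteness), lintegral_const_mul' _ _ (by finiteness), e1']
    refine add_le_add le_rfl ?_
    calc 9 * (C1 : ℝ≥0∞) ^ 2 * ENNReal.ofReal a⁻¹ * ∫⁻ x in A1 n, W2 f (r, x)
        ≤ 9 * (C1 : ℝ≥0∞) ^ 2 * ENNReal.ofReal a⁻¹ * (2 * ((1 + CB * (K : ℝ≥0∞) ^ 4) *
          ∫⁻ x in A1 n, ‖S1 f r x‖ₑ ^ 2)) := by gcongr
      _ = 18 * (C1 : ℝ≥0∞) ^ 2 * (ENNReal.ofReal a⁻¹ * (1 + CB * (K : ℝ≥0∞) ^ 4)) *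
          ∫⁻ x in A1 n, ‖S1 f r x‖ₑ ^ 2 := by ring
      _ ≤ _ := by gcongr
  calc ∫⁻ x in A1 n, (⨆ R ∈ Ici a, ‖S f R x - S f a x‖ₑ) ^ 2
      = ∫⁻ x in A1 n, GG f a x ^ 2 := rfl
    _ ≤ (2 : ℝ≥0∞) ^ (n - 1) * ∫⁻ s in Icc (1 : ℝ) 2, ∫⁻ ω, GG f a (s • (ω : E n)) ^ 2 ∂(sg n) :=
        polar_ge h1 hn (mG.pow_const 2)
    _ = (2 : ℝ≥0∞) ^ (n - 1) *
        ∫⁻ ω, (∫⁻ s in Icc (1 : ℝ) 2, GG f a (s • (ω : E n)) ^ 2) ∂(sg n) := by
        rw [lintegral_lintegral_swap]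
        have h0 : Continuous (fun q : ℝ × Metric.sphere (0 : E n) 1 => q.1 • (q.2 : E n)) := by
          fun_prop
        exact ((mG.comp h0.measurable).pow_const 2).aemeasurable
    _ ≤ (2 : ℝ≥0∞) ^ (n - 1) * ∫⁻ ω, (∫⁻ r in Ioi a, ∫⁻ s in Icc (1 : ℝ) 2,
        (9 * (C1 : ℝ≥0∞) ^ 2 * CR * C2 * W1 f (r, s • (ω : E n)) +
          9 * (C1 : ℝ≥0∞) ^ 2 * ENNReal.ofReal a⁻¹ * W2 f (r, s • (ω : E n)))) ∂(sg n) := by
        refine mul_le_mul_right ?_ _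
        exact lintegral_mono fun ω => ray ω
    _ ≤ (2 : ℝ≥0∞) ^ (n - 1) * ∫⁻ r in Ioi a, ∫⁻ x in A1 n,
        (9 * (C1 : ℝ≥0∞) ^ 2 * CR * C2 * W1 f (r, x) +
          9 * (C1 : ℝ≥0∞) ^ 2 * ENNReal.ofReal a⁻¹ * W2 f (r, x)) := by
        gcongr _ * ?_
        exact swap_le h1 hn (W := fun p => 9 * (C1 : ℝ≥0∞) ^ 2 * CR * C2 * W1 f p +
          9 * (C1 : ℝ≥0∞) ^ 2 * ENNReal.ofReal a⁻¹ * W2 f p)
          ((mW1.const_mul _).add (mW2.const_mul _)) a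
    _ ≤ (2 : ℝ≥0∞) ^ (n - 1) * ∫⁻ r in Ioi a,
        (9 * (C1 : ℝ≥0∞) ^ 2 * CR * C2 * ((∫⁻ x in A1 n, ‖S1 f r x‖ₑ ^ 2) +
        ∑ j : Fin n, ∫⁻ x in A1 n, ‖SH (fun ξ => ((ξ j / ‖ξ‖ : ℝ) : ℂ) * 𝓕 f ξ) r x‖ₑ ^ 2) +
      18 * (C1 : ℝ≥0∞) ^ 2 * (1 + CB) * ∫⁻ x in A1 n, ‖S1 f r x‖ₑ ^ 2) := by
        refine mul_le_mul_right ?_ _
        exact lintegral_mono fun r => one r
    _ = (2 : ℝ≥0∞) ^ (n - 1) * (9 * (C1 : ℝ≥0∞) ^ 2 * CR * C2 *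
        ((∫⁻ r in Ioi a, ∫⁻ x in A1 n, ‖S1 f r x‖ₑ ^ 2) +
        ∑ j : Fin n, ∫⁻ r in Ioi a, ∫⁻ x in A1 n,
          ‖SH (fun ξ => ((ξ j / ‖ξ‖ : ℝ) : ℂ) * 𝓕 f ξ) r x‖ₑ ^ 2) +
      18 * (C1 : ℝ≥0∞) ^ 2 * (1 + CB) * ∫⁻ r in Ioi a, ∫⁻ x in A1 n, ‖S1 f r x‖ₑ ^ 2) := by
        rw [lintegral_add_left, lintegral_const_mul' _ _ (by finiteness),
          lintegral_const_mul' _ _ (by finiteness), lintegral_add_left mA0, lintegral_finsetSum]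
        · intro j _
          exact mA (hj_meas hf j)
        · refine Measurable.const_mul (mA0.add ?_) _
          exact Finset.measurable_sum _ fun j _ => mA (hj_meas hf j)
    _ ≤ (2 : ℝ≥0∞) ^ (n - 1) * (9 * (C1 : ℝ≥0∞) ^ 2 * CR * C2 *
        (CA * (∫⁻ x, ‖f x‖ₑ ^ 2) + ∑ _j : Fin n, CA * (∫⁻ x, ‖f x‖ₑ ^ 2)) +
      18 * (C1 : ℝ≥0∞) ^ 2 * (1 + CB) * (CA * ∫⁻ x, ‖f x‖ₑ ^ 2)) := by
        refine mul_le_mul_right ?_ _
        refine add_le_add (mul_le_mul_right (add_le_add bA0 (Finset.sum_le_sum fun j _ => bAj j)) _)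
          (mul_le_mul_right bA0 _)
    _ = _ := by
        rw [Finset.sum_const, Finset.card_univ, Fintype.card_fin, nsmul_eq_mul]
        push_cast
        ring

end Pool.Agent.CRN
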