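import Pool.Agent.CRN.Targets

set_option autoImplicit false

/-!
# CRN, target IBPN: integration by parts on the ball
-/

namespace Pool.Agent.CRN

open MeasureTheory FourierTransform Set Filter Topology
open scoped ENNReal NNReal
open Pool.Agent.MBS (E ex S Sstar)

namespace IBPN_

variable {n : ℕ}

/-- the weight -/
noncomputable def h (R : ℝ) (ζ : E n) : ℝ := max 0 ((R ^ 2 - ‖ζ‖ ^ 2) / 2)

theorem cont_h (R : ℝ) : Continuous (h R : E n → ℝ) := by
  unfold h
  fun_prop

theorem h_out {R : ℝ} (hR : 0 ≤ R) {ζ : E n} (hζ : R ≤ ‖ζ‖) : h R ζ = 0 := by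
  unfold h
  apply max_eq_left
  nlinarith

theorem h_in {R : ℝ} {ζ : E n} (hζ : ‖ζ‖ ≤ R) : h R ζ = (R ^ 2 - ‖ζ‖ ^ 2) / 2 := by
  unfold h
  apply max_eq_right
  nlinarith [norm_nonneg ζ]

theorem norm_ex (z ζ : E n) : ‖ex z ζ‖ = 1 := by
  unfold ex
  rw [show 2 * (Real.pi : ℂ) * Complex.I * ((inner ℝ z ζ : ℝ) : ℂ) =
    ((2 * Real.pi * inner ℝ z ζ : ℝ) : ℂ) * Complex.I by push_cast; ring]
  exact Complex.norm_exp_ofReal_mul_I _

theorem cont_ex (z : E n) : Continuous (fun ζ : E n => ex z ζ) := by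
  unfold ex
  fun_prop

theorem ex_sub (z ζ : E n) (t : ℝ) : ex z (ζ - t • z) =
    Complex.exp (-(2 * Real.pi * Complex.I * ‖z‖ ^ 2) * t) * ex z ζ := by
  unfold ex
  rw [inner_sub_right, inner_smul_right, real_inner_self_eq_norm_sq, ← Complex.exp_add]
  congr 1
  push_cast
  ring

theorem norm_add_sq (a z : E n) (t : ℝ) :
    ‖a + t • z‖ ^ 2 = ‖a‖ ^ 2 + 2 * t * inner ℝ z a + t ^ 2 * ‖z‖ ^ 2 := by
  rw [norm_add_sq_real, inner_smul_right, norm_smul, mul_pow, Real.norm_eq_abs, sq_abs,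
    real_inner_comm]
  ring

/-- the translated integrand -/
noncomputable def F (R : ℝ) (z : E n) (t : ℝ) (a : E n) : ℂ := ((h R (a + t • z) : ℝ) : ℂ) * ex z a

theorem lip_h {R : ℝ} (hR : 0 < R) (z a : E n) {t t' : ℝ} (ht : |t| ≤ 1) (ht' : |t'| ≤ 1) :
    |h R (a + t • z) - h R (a + t' • z)| ≤
      (Metric.closedBall (0 : E n) (R + ‖z‖)).indicator
        (fun _ => (R + ‖z‖) * ‖z‖ + ‖z‖ ^ 2) a * |t - t'| := by
  by_cases ha : ‖a‖ ≤ R + ‖z‖
  · rw [indicator_of_mem (by simpa using ha)]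
    unfold h
    have h1 : |max 0 ((R ^ 2 - ‖a + t • z‖ ^ 2) / 2) - max 0 ((R ^ 2 - ‖a + t' • z‖ ^ 2) / 2)| ≤
        |(R ^ 2 - ‖a + t • z‖ ^ 2) / 2 - (R ^ 2 - ‖a + t' • z‖ ^ 2) / 2| := by
      rw [max_comm 0, max_comm 0]
      exact abs_max_sub_max_le_abs _ _ _
    refine h1.trans ?_
    rw [norm_add_sq, norm_add_sq]
    have h2 : (R ^ 2 - (‖a‖ ^ 2 + 2 * t * inner ℝ z a + t ^ 2 * ‖z‖ ^ 2)) / 2 -
        (R ^ 2 - (‖a‖ ^ 2 + 2 * t' * inner ℝ z a + t' ^ 2 * ‖z‖ ^ 2)) / 2 =
        -((inner ℝ z a + (t + t') / 2 * ‖z‖ ^ 2) * (t - t')) := by ring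
    rw [h2, abs_neg, abs_mul]
    refine mul_le_mul_of_nonneg_right ?_ (abs_nonneg _)
    refine (abs_add_le _ _).trans ?_
    have h3 : |inner ℝ z a| ≤ (R + ‖z‖) * ‖z‖ := by
      refine (abs_real_inner_le_norm z a).trans ?_
      rw [mul_comm]
      exact mul_le_mul_of_nonneg_right ha (norm_nonneg _)
    have h4 : |(t + t') / 2 * ‖z‖ ^ 2| ≤ ‖z‖ ^ 2 := by
      rw [abs_mul, abs_of_nonneg (sq_nonneg ‖z‖)]
      have : |(t + t') / 2| ≤ 1 := by
        rw [abs_le] at ht ht' ⊢
        constructor <;> linarith [ht.1, ht.2, ht'.1, ht'.2]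
      nlinarith [sq_nonneg ‖z‖]
    linarith
  · rw [indicator_of_notMem (by simpa using ha), zero_mul]
    push Not at ha
    have key : ∀ s : ℝ, |s| ≤ 1 → h R (a + s • z) = 0 := by
      intro s hs
      apply h_out hR.le
      have h1 : ‖s • z‖ ≤ ‖z‖ := by
        rw [norm_smul, Real.norm_eq_abs]
        nlinarith [norm_nonneg z]
      have h2 : ‖a‖ ≤ ‖a + s • z‖ + ‖s • z‖ := by
        have := norm_sub_le (a + s • z) (s • z)
        rwa [add_sub_cancel_right] at this
      linarith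
    rw [key t ht, key t' ht']
    simp

theorem deriv_pt {R : ℝ} (hR : 0 < R) (z a : E n) (ha : ‖a‖ ≠ R) :
    HasDerivAt (fun t => F R z t a) ((Metric.closedBall (0 : E n) R).indicator
      (fun a => -(((inner ℝ z a : ℝ) : ℂ) * ex z a)) a) 0 := by
  have hc : Continuous (fun t : ℝ => ‖a + t • z‖) := by fun_prop
  rcases lt_or_gt_of_ne ha with h1 | h1
  · rw [indicator_of_mem (by simpa using h1.le)]
    have hev : ∀ᶠ t : ℝ in 𝓝 0, ‖a + t • z‖ < R := by
      apply hc.continuousAt.eventually_lt continuousAt_const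
      simpa using h1
    have h2 : HasDerivAt (fun t : ℝ => (R ^ 2 - (‖a‖ ^ 2 + 2 * t * inner ℝ z a +
        t ^ 2 * ‖z‖ ^ 2)) / 2) (-(inner ℝ z a)) 0 := by
      have h3 : HasDerivAt (fun t : ℝ => (R ^ 2 - (‖a‖ ^ 2 + 2 * t * inner ℝ z a +
        t ^ 2 * ‖z‖ ^ 2)) / 2) ((0 - (0 + 2 * 1 * inner ℝ z a + 2 * (0 : ℝ) ^ (2 - 1) * 1 *
          ‖z‖ ^ 2)) / 2) 0 := by
        refine HasDerivAt.div_const ?_ 2
        refine (hasDerivAt_const _ _).sub ?_
        refine HasDerivAt.add ?_ ?_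
        · refine (hasDerivAt_const _ _).add ?_
          exact ((hasDerivAt_id (0 : ℝ)).const_mul 2).mul_const _
        · exact ((hasDerivAt_id (0 : ℝ)).fun_pow 2).mul_const _
      convert h3 using 1
      ring
    have h4 := (h2.ofReal_comp).mul_const (ex z a)
    have h5 : ((-(inner ℝ z a) : ℝ) : ℂ) * ex z a = -(((inner ℝ z a : ℝ) : ℂ) * ex z a) := by
      push_cast
      ring
    rw [h5] at h4
    refine h4.congr_of_eventuallyEq ?_
    filter_upwards [hev] with t ht
    unfold F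
    rw [h_in ht.le, norm_add_sq]
  · rw [indicator_of_notMem (by simpa using h1)]
    have hev : ∀ᶠ t : ℝ in 𝓝 0, R < ‖a + t • z‖ := by
      apply continuousAt_const.eventually_lt hc.continuousAt
      simpa using h1
    refine (hasDerivAt_const (0 : ℝ) (0 : ℂ)).congr_of_eventuallyEq ?_
    filter_upwards [hev] with t ht
    unfold F
    rw [h_out hR.le ht.le]
    simp

theorem int_F (R : ℝ) (z : E n) (t : ℝ) : ∫ a, F R z t a =
    Complex.exp (-(2 * Real.pi * Complex.I * ‖z‖ ^ 2) * t) * ∫ a, ((h R a : ℝ) : ℂ) * ex z a := by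
  have h1 : ∫ a, F R z t a = ∫ a, ((h R a : ℝ) : ℂ) * ex z (a - t • z) := by
    rw [← integral_add_right_eq_self (fun a => ((h R a : ℝ) : ℂ) * ex z (a - t • z)) (t • z)]
    refine integral_congr_ae (ae_of_all _ fun a => ?_)
    unfold F
    simp only [add_sub_cancel_right]
  rw [h1, ← integral_const_mul]
  refine integral_congr_ae (ae_of_all _ fun a => ?_)
  simp only [ex_sub]
  ring

end IBPN_

open IBPN_ in
theorem p_IBPN : T_IBPN := by
  intro n z R _ hR
  have hcF : ∀ t : ℝ, Continuous (F R z t) := by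
    intro t
    unfold F
    exact (Complex.continuous_ofReal.comp ((cont_h R).comp (by fun_prop))).mul (cont_ex z)
  have hint : Integrable (F R z 0) := by
    refine (hcF 0).integrable_of_hasCompactSupport ?_
    refine HasCompactSupport.intro (isCompact_closedBall (0 : E n) R) fun a ha => ?_
    have ha' : R < ‖a‖ := by simpa using ha
    unfold F
    rw [zero_smul, add_zero, h_out hR.le ha'.le]
    simp
  have hder := (hasDerivAt_integral_of_dominated_loc_of_lip (μ := (volume : Measure (E n)))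
    (F := F R z) (x₀ := (0 : ℝ))
    (F' := (Metric.closedBall (0 : E n) R).indicator
      (fun a => -(((inner ℝ z a : ℝ) : ℂ) * ex z a)))
    (s := Metric.closedBall (0 : ℝ) 1)
    (bound := (Metric.closedBall (0 : E n) (R + ‖z‖)).indicator
        (fun _ => (R + ‖z‖) * ‖z‖ + ‖z‖ ^ 2))
    (Metric.closedBall_mem_nhds _ one_pos)
    (Eventually.of_forall fun t => (hcF t).aestronglyMeasurable) hint ?_ ?_ ?_ ?_).2
  · have h1 : (fun t : ℝ => ∫ a, F R z t a) = fun t : ℝ =>
        Complex.exp (-(2 * Real.pi * Complex.I * ‖z‖ ^ 2) * t) *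
          ∫ a, ((h R a : ℝ) : ℂ) * ex z a := by
      funext t
      exact int_F R z t
    rw [h1] at hder
    have h2 : HasDerivAt (fun t : ℝ =>
        Complex.exp (-(2 * Real.pi * Complex.I * ‖z‖ ^ 2) * t) *
          ∫ a, ((h R a : ℝ) : ℂ) * ex z a)
        (Complex.exp (-(2 * Real.pi * Complex.I * ‖z‖ ^ 2) * ((0 : ℝ) : ℂ)) *
          (-(2 * Real.pi * Complex.I * ‖z‖ ^ 2) * 1) * ∫ a, ((h R a : ℝ) : ℂ) * ex z a) 0 := by
      refine HasDerivAt.mul_const ?_ _
      refine HasDerivAt.cexp ?_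
      exact (hasDerivAt_id (0 : ℝ)).ofReal_comp.const_mul _
    have h3 := hder.unique h2
    rw [integral_indicator Metric.isClosed_closedBall.measurableSet, integral_neg] at h3
    have h4 : ∫ a, ((h R a : ℝ) : ℂ) * ex z a =
        ∫ ζ in Metric.closedBall (0 : E n) R, (((R ^ 2 - ‖ζ‖ ^ 2) / 2 : ℝ) : ℂ) * ex z ζ := by
      rw [← setIntegral_eq_integral_of_forall_compl_eq_zero
        (s := Metric.closedBall (0 : E n) R)]
      · refine setIntegral_congr_fun Metric.isClosed_closedBall.measurableSet fun a ha => ?_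
        have ha' : ‖a‖ ≤ R := by simpa using ha
        simp only [h_in ha']
      · intro a ha
        have ha' : R < ‖a‖ := by simpa using ha
        rw [h_out hR.le ha'.le]
        simp
    rw [h4] at h3
    have h5 := neg_eq_iff_eq_neg.mp h3
    rw [h5]
    simp
  · refine Continuous.aestronglyMeasurable ?_ |>.indicator
      Metric.isClosed_closedBall.measurableSet
    refine Continuous.neg ?_
    refine Continuous.mul ?_ (cont_ex z)
    exact Complex.continuous_ofReal.comp (by fun_prop)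
  · refine ae_of_all _ fun a => ?_
    refine LipschitzOnWith.of_dist_le_mul fun t ht t' ht' => ?_
    have ht1 : |t| ≤ 1 := by simpa using ht
    have ht1' : |t'| ≤ 1 := by simpa using ht'
    have h1 := lip_h hR z a ht1 ht1'
    have h2 : 0 ≤ (Metric.closedBall (0 : E n) (R + ‖z‖)).indicator
        (fun _ => (R + ‖z‖) * ‖z‖ + ‖z‖ ^ 2) a := by
      refine indicator_nonneg (fun _ _ => ?_) a
      positivity
    rw [dist_eq_norm, Real.dist_eq]
    unfold F
    rw [← sub_mul, norm_mul, norm_ex, mul_one, ← Complex.ofReal_sub, Complex.norm_real,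
      Real.norm_eq_abs, Real.coe_nnabs, abs_of_nonneg h2]
    exact h1
  · refine IntegrableOn.integrable_indicator ?_ Metric.isClosed_closedBall.measurableSet
    refine integrableOn_const ?_
    exact (measure_closedBall_lt_top).ne
  · have h0 : ∀ᵐ a : E n, ‖a‖ ≠ R := by
      have := Measure.addHaar_sphere_of_ne_zero (volume : Measure (E n)) (0 : E n) hR.ne'
      rw [measure_eq_zero_iff_ae_notMem] at this
      filter_upwards [this] with a ha
      intro h1
      exact ha (by simpa using h1)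
    filter_upwards [h0] with a ha
    exact deriv_pt hR z a ha

end Pool.Agent.CRN
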