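import Pool.Agent.CRN.Targets

set_option autoImplicit false

/-!
# CRN: radii at most `2^M` (target LOWN)
-/

namespace Pool.Agent.CRN

open MeasureTheory FourierTransform Set Filter Topology
open scoped ENNReal NNReal
open Pool.Agent.MBS (E ex S Sstar)

namespace LOWN_

variable {n : ℕ}

theorem fourier_cont {g : E n → ℂ} (hg : Integrable g) : Continuous (𝓕 g) :=
  VectorFourier.fourierIntegral_continuous Real.continuous_fourierChar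
    (by simp only [innerₗ_apply_apply]; fun_prop) hg

theorem plancherel {f : E n → ℂ} (h1 : Integrable f) (h2 : MemLp f 2) :
    ∫⁻ x, ‖𝓕 f x‖ₑ ^ 2 = ∫⁻ x, ‖f x‖ₑ ^ 2 := by
  have h := Pool.Agent.H25.Plancherel.eLpNorm_fourier_eq h1 h2
  rw [eLpNorm_eq_lintegral_rpow_enorm_toReal (by norm_num) (by norm_num),
    eLpNorm_eq_lintegral_rpow_enorm_toReal (by norm_num) (by norm_num)] at h
  have key2 := ENNReal.rpow_left_injective (x := 1 / (2 : ℝ≥0∞).toReal) (by norm_num) h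
  simpa only [ENNReal.toReal_ofNat, ENNReal.rpow_ofNat] using key2

theorem sq_add (a b : ℝ≥0∞) : (a + b) ^ 2 ≤ 4 * a ^ 2 + 4 * b ^ 2 := by
  rcases le_total a b with h | h
  · calc (a + b) ^ 2 ≤ (b + b) ^ 2 := pow_le_pow_left' (add_le_add_left h b) 2
      _ = 4 * b ^ 2 := by ring
      _ ≤ _ := le_add_self
  · calc (a + b) ^ 2 ≤ (a + a) ^ 2 := pow_le_pow_left' (add_le_add_right h a) 2
      _ = 4 * a ^ 2 := by ring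
      _ ≤ _ := le_self_add

theorem sqrt_sq (X : ℝ≥0∞) : (X ^ (1 / (2 : ℝ))) ^ 2 = X := by
  rw [← ENNReal.rpow_natCast, ← ENNReal.rpow_mul]
  norm_num

theorem le_sqrt {X K : ℝ≥0∞} (h : X ^ 2 ≤ K) : X ≤ K ^ (1 / (2 : ℝ)) := by
  have h1 := ENNReal.rpow_le_rpow h (show (0 : ℝ) ≤ 1 / 2 by norm_num)
  rw [← ENNReal.rpow_natCast, ← ENNReal.rpow_mul] at h1
  norm_num at h1
  simpa using h1

theorem cs_one {F : ℝ → ℝ≥0∞} (hF : Measurable F) {a b : ℝ} (hab : b ≤ a + 1) :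
    (∫⁻ r in Ioc a b, F r) ^ 2 ≤ ∫⁻ r in Ioc a b, F r ^ 2 := by
  have h := ENNReal.lintegral_mul_le_Lp_mul_Lq (volume.restrict (Ioc a b))
    Real.HolderConjugate.two_two (f := F) (g := fun _ => 1) hF.aemeasurable
    measurable_const.aemeasurable
  have h2 := pow_le_pow_left' h 2
  rw [mul_pow, sqrt_sq, sqrt_sq] at h2
  have h3 : ∫⁻ _ : ℝ in Ioc a b, (1 : ℝ≥0∞) ^ (2 : ℝ) ≤ 1 := by
    simp only [ENNReal.one_rpow, lintegral_const, one_mul, Measure.restrict_apply_univ,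
      Real.volume_Ioc]
    rw [← ENNReal.ofReal_one]
    exact ENNReal.ofReal_le_ofReal (by linarith)
  simp only [Pi.mul_apply, mul_one] at h2
  calc (∫⁻ r in Ioc a b, F r) ^ 2 ≤ _ := h2
    _ ≤ (∫⁻ r in Ioc a b, F r ^ (2 : ℝ)) * 1 := mul_le_mul_right h3 _
    _ = _ := by simp

/-- the pointwise bound -/
theorem pointwise {f : E n → ℂ} (hc : Continuous (fun p : ℝ × E n => S1 f p.1 p.2))
    (hd : ∀ (x : E n) (a b : ℝ), 0 ≤ a → a ≤ b → S f b x = S f a x + ∫ r in a..b, S1 f r x)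
    (M : ℕ) (x : E n) :
    (⨆ R ∈ Ioc (0 : ℝ) (2 ^ M), ‖S f R x‖ₑ) ^ 2 ≤
      4 * (⨆ (j : ℕ) (_ : j ≤ 2 ^ M), ‖S f (j : ℝ) x‖ₑ) ^ 2 +
        4 * ∫⁻ r in Ioi (0 : ℝ), ‖S1 f r x‖ₑ ^ 2 := by
  set K : ℝ≥0∞ := 4 * (⨆ (j : ℕ) (_ : j ≤ 2 ^ M), ‖S f (j : ℝ) x‖ₑ) ^ 2 +
        4 * ∫⁻ r in Ioi (0 : ℝ), ‖S1 f r x‖ₑ ^ 2 with hK
  have hcx : Continuous fun r : ℝ => S1 f r x := hc.comp (Continuous.prodMk_left x)
  have key : ∀ R ∈ Ioc (0 : ℝ) (2 ^ M), ‖S f R x‖ₑ ≤ K ^ (1 / (2 : ℝ)) := by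
    intro R hR
    refine le_sqrt ?_
    have hR0 : 0 ≤ R := hR.1.le
    set j : ℕ := ⌊R⌋₊ with hj
    have hj1 : (j : ℝ) ≤ R := Nat.floor_le hR0
    have hj2 : R < (j : ℝ) + 1 := Nat.lt_floor_add_one R
    have hj3 : j ≤ 2 ^ M := by
      have : (j : ℝ) ≤ ((2 ^ M : ℕ) : ℝ) := by
        push_cast
        exact hj1.trans hR.2
      exact_mod_cast this
    have h1 : ‖S f R x‖ₑ ≤ ‖S f (j : ℝ) x‖ₑ + ∫⁻ r in Ioc (j : ℝ) R, ‖S1 f r x‖ₑ := by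
      rw [hd x j R (Nat.cast_nonneg j) hj1, intervalIntegral.integral_of_le hj1]
      exact (enorm_add_le _ _).trans (add_le_add le_rfl (enorm_integral_le_lintegral_enorm _))
    have h2 : (∫⁻ r in Ioc (j : ℝ) R, ‖S1 f r x‖ₑ) ^ 2 ≤
        ∫⁻ r in Ioi (0 : ℝ), ‖S1 f r x‖ₑ ^ 2 := by
      refine (cs_one hcx.measurable.enorm hj2.le).trans (lintegral_mono_set ?_)
      intro r hr
      exact lt_of_le_of_lt (Nat.cast_nonneg j) hr.1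
    have h3 : ‖S f (j : ℝ) x‖ₑ ≤ ⨆ (j : ℕ) (_ : j ≤ 2 ^ M), ‖S f (j : ℝ) x‖ₑ :=
      le_iSup₂_of_le (f := fun (j : ℕ) (_ : j ≤ 2 ^ M) => ‖S f (j : ℝ) x‖ₑ) j hj3 le_rfl
    calc ‖S f R x‖ₑ ^ 2 ≤ (‖S f (j : ℝ) x‖ₑ + ∫⁻ r in Ioc (j : ℝ) R, ‖S1 f r x‖ₑ) ^ 2 :=
          pow_le_pow_left' h1 2
      _ ≤ 4 * ‖S f (j : ℝ) x‖ₑ ^ 2 + 4 * (∫⁻ r in Ioc (j : ℝ) R, ‖S1 f r x‖ₑ) ^ 2 := sq_add _ _
      _ ≤ K := add_le_add (mul_le_mul_right (pow_le_pow_left' h3 2) _) (mul_le_mul_right h2 _)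
  calc (⨆ R ∈ Ioc (0 : ℝ) (2 ^ M), ‖S f R x‖ₑ) ^ 2 ≤ (K ^ (1 / (2 : ℝ))) ^ 2 :=
        pow_le_pow_left' (iSup₂_le key) 2
    _ = K := sqrt_sq K

end LOWN_

open LOWN_ in
theorem p_LOWN (h1 : T_RMN) (h2 : T_AHN) (h3 : T_DSN) : T_LOWN := by
  intro n hn
  obtain ⟨C1, hC1⟩ := h1 n (by omega)
  obtain ⟨C2, hC2⟩ := h2 n hn
  refine ⟨4 * C1 + 4 * C2, fun M f hf => ?_⟩
  obtain ⟨hc, hd⟩ := h3 n f hn hf
  have hm2 : Measurable fun p : E n × ℝ => ‖S1 f p.2 p.1‖ₑ ^ 2 :=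
    (hc.comp (continuous_snd.prodMk continuous_fst)).measurable.enorm.pow_const 2
  have hb : Measurable fun x : E n => 4 * ∫⁻ r in Ioi (0 : ℝ), ‖S1 f r x‖ₑ ^ 2 :=
    (hm2.lintegral_prod_right').const_mul 4
  have hA : ∫⁻ x in Metric.closedBall (0 : E n) 2,
      4 * (⨆ (j : ℕ) (_ : j ≤ 2 ^ M), ‖S f (j : ℝ) x‖ₑ) ^ 2 ≤
      4 * (C1 * ((M : ℝ≥0∞) + 1) ^ 2 * ∫⁻ x, ‖f x‖ₑ ^ 2) := by
    rw [lintegral_const_mul' _ _ (by norm_num)]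
    exact mul_le_mul_right ((setLIntegral_le_lintegral _ _).trans (hC1 M f hf)) _
  have hB : ∫⁻ x in Metric.closedBall (0 : E n) 2,
      4 * ∫⁻ r in Ioi (0 : ℝ), ‖S1 f r x‖ₑ ^ 2 ≤ 4 * (C2 * ∫⁻ x, ‖f x‖ₑ ^ 2) := by
    rw [lintegral_const_mul' _ _ (by norm_num), lintegral_lintegral_swap hm2.aemeasurable]
    refine mul_le_mul_right ?_ _
    rw [← plancherel hf.int hf.sq]
    exact hC2 (𝓕 f) (fourier_cont hf.int).measurable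
  have hone : (1 : ℝ≥0∞) ≤ ((M : ℝ≥0∞) + 1) ^ 2 := by
    refine one_le_pow₀ ?_
    exact le_add_self
  calc ∫⁻ x in Metric.closedBall (0 : E n) 2, (⨆ R ∈ Ioc (0 : ℝ) (2 ^ M), ‖S f R x‖ₑ) ^ 2
      ≤ ∫⁻ x in Metric.closedBall (0 : E n) 2,
        (4 * (⨆ (j : ℕ) (_ : j ≤ 2 ^ M), ‖S f (j : ℝ) x‖ₑ) ^ 2 +
          4 * ∫⁻ r in Ioi (0 : ℝ), ‖S1 f r x‖ₑ ^ 2) :=
        lintegral_mono fun x => pointwise hc hd M x
    _ = _ := lintegral_add_right _ hb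
    _ ≤ 4 * (C1 * ((M : ℝ≥0∞) + 1) ^ 2 * ∫⁻ x, ‖f x‖ₑ ^ 2) +
        4 * (C2 * ∫⁻ x, ‖f x‖ₑ ^ 2) := add_le_add hA hB
    _ ≤ 4 * (C1 * ((M : ℝ≥0∞) + 1) ^ 2 * ∫⁻ x, ‖f x‖ₑ ^ 2) +
        4 * (C2 * (((M : ℝ≥0∞) + 1) ^ 2 * ∫⁻ x, ‖f x‖ₑ ^ 2)) := by
        gcongr
        calc ∫⁻ x, ‖f x‖ₑ ^ 2 = 1 * ∫⁻ x, ‖f x‖ₑ ^ 2 := (one_mul _).symm
          _ ≤ _ := mul_le_mul_left hone _
    _ = _ := by push_cast; ring

end Pool.Agent.CRN
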