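import Pool.Agent.CRN.Targets

set_option autoImplicit false

/-!
# MMN: the annulus multipliers in `ℝⁿ`, decay and continuity
-/

namespace Pool.Agent.CRN

open MeasureTheory FourierTransform Set Filter Topology
open scoped ENNReal NNReal
open Pool.Agent.MBS (E ex S Sstar)
open Pool.Agent.CAR (e1)

namespace MMN_

variable {n : ℕ}

lemma norm_smul_sph {r : ℝ} (hr : 0 ≤ r) (ω : Metric.sphere (0 : E n) 1) :
    ‖r • (ω : E n)‖ = r := by
  rw [norm_smul, norm_eq_of_mem_sphere ω, mul_one, Real.norm_eq_abs, abs_of_nonneg hr]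

/-- the weight `(1+|ζ|)^(-(n+5))` -/
noncomputable def wt (ζ : E n) : ℝ := ((1 + ‖ζ‖) ^ (n + 5))⁻¹

/-- its integral -/
noncomputable def IW (n : ℕ) : ℝ := ∫ ζ : E n, wt ζ

lemma wt_nonneg (ζ : E n) : 0 ≤ wt ζ := by unfold wt; positivity

lemma cont_wt : Continuous (wt (n := n)) := by
  unfold wt
  refine Continuous.inv₀ (by fun_prop) fun ζ => by positivity

lemma int_wt : Integrable (wt (n := n)) := by
  have h := integrable_one_add_norm (E := E n) (μ := volume) (r := ((n + 5 : ℕ) : ℝ)) (by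
    rw [finrank_euclideanSpace, Fintype.card_fin]
    exact_mod_cast (by omega : n < n + 5))
  refine h.congr (Eventually.of_forall fun ζ => ?_)
  have h1 : (0 : ℝ) ≤ 1 + ‖ζ‖ := by positivity
  show (1 + ‖ζ‖) ^ (-((n + 5 : ℕ) : ℝ)) = wt ζ
  rw [Real.rpow_neg h1, Real.rpow_natCast]
  rfl

lemma IW_nonneg : 0 ≤ IW n := integral_nonneg fun ζ => wt_nonneg ζ

lemma B_nonneg {ψ : E n → ℂ} {B : ℝ} (h : Psi ψ B) : 0 ≤ B := by
  have := h.dec 0
  simp only [norm_zero, add_zero, one_pow, inv_one, mul_one] at this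
  exact (norm_nonneg _).trans this

/-- the decay of `ψ`, split -/
lemma dec' {ψ : E n → ℂ} {B : ℝ} (h : Psi ψ B) {s : ℝ} (hs : 0 ≤ s) {ζ : E n} (hζ : s ≤ ‖ζ‖) :
    ‖ψ ζ‖ ≤ B * ((1 + s) ^ (n + 3))⁻¹ * wt ζ := by
  refine (h.dec ζ).trans ?_
  rw [mul_assoc]
  refine mul_le_mul_of_nonneg_left ?_ (B_nonneg h)
  unfold wt
  rw [← mul_inv]
  refine inv_anti₀ (by positivity) ?_
  calc (1 + s) ^ (n + 3) * (1 + ‖ζ‖) ^ (n + 5) ≤ (1 + ‖ζ‖) ^ (n + 3) * (1 + ‖ζ‖) ^ (n + 5) := by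
        gcongr
    _ = (1 + ‖ζ‖) ^ (2 * n + 8) := by
        rw [← pow_add]
        congr 1
        omega

lemma psi_int {ψ : E n → ℂ} {B : ℝ} (h : Psi ψ B) : Integrable ψ := by
  refine (int_wt.const_mul B).mono' h.cont.aestronglyMeasurable (Eventually.of_forall fun ζ => ?_)
  have := dec' h le_rfl (norm_nonneg ζ)
  simpa using this

lemma psi_int' {ψ : E n → ℂ} {B : ℝ} (h : Psi ψ B) (ξ : E n) :
    Integrable fun ζ => ψ (ξ - ζ) := (psi_int h).comp_sub_left ξ

lemma psi_bdd {ψ : E n → ℂ} {B : ℝ} (h : Psi ψ B) (ζ : E n) : ‖ψ ζ‖ ≤ B := by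
  refine (h.dec ζ).trans ?_
  refine mul_le_of_le_one_right (B_nonneg h) (inv_le_one_of_one_le₀ ?_)
  exact one_le_pow₀ (by linarith [norm_nonneg ζ])

lemma tail {ψ : E n → ℂ} {B : ℝ} (h : Psi ψ B) (ξ : E n) {A : Set (E n)} (hA : MeasurableSet A)
    {s : ℝ} (hs : 0 ≤ s) (hAs : ∀ ζ ∈ A, s ≤ ‖ξ - ζ‖) :
    ‖∫ ζ in A, ψ (ξ - ζ)‖ ≤ B * IW n * ((1 + s) ^ (n + 3))⁻¹ := by
  have hi : Integrable fun ζ : E n => B * ((1 + s) ^ (n + 3))⁻¹ * wt (ξ - ζ) :=
    (int_wt.comp_sub_left ξ).const_mul _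
  calc ‖∫ ζ in A, ψ (ξ - ζ)‖ ≤ ∫ ζ in A, ‖ψ (ξ - ζ)‖ := norm_integral_le_integral_norm _
    _ ≤ ∫ ζ in A, B * ((1 + s) ^ (n + 3))⁻¹ * wt (ξ - ζ) :=
        setIntegral_mono_on (psi_int' h ξ).norm.integrableOn hi.integrableOn hA
          fun ζ hζ => dec' h hs (hAs ζ hζ)
    _ ≤ ∫ ζ, B * ((1 + s) ^ (n + 3))⁻¹ * wt (ξ - ζ) :=
        setIntegral_le_integral hi (Eventually.of_forall fun ζ => by
          have := B_nonneg h
          have := wt_nonneg (ξ - ζ)
          positivity)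
    _ = B * IW n * ((1 + s) ^ (n + 3))⁻¹ := by
        rw [integral_const_mul, integral_sub_left_eq_self (fun ζ : E n => wt ζ) volume ξ]
        unfold IW
        ring

lemma mm_bound {ψ : E n → ℂ} {B : ℝ} (h : Psi ψ B) (R : ℝ) (ξ : E n) :
    ‖mm ψ R ξ‖ ≤ B * IW n * dw (n + 3) R ξ := by
  unfold mm dw
  rcases le_total R ‖ξ‖ with hR | hR
  · refine tail h ξ Metric.isClosed_closedBall.measurableSet (abs_nonneg _) fun ζ hζ => ?_
    rw [abs_of_nonneg (by linarith)]
    have h1 : ‖ζ‖ ≤ R := by simpa using hζ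
    have h2 := norm_sub_norm_le ξ ζ
    linarith
  · have h1 := integral_add_compl (μ := volume) (s := Metric.closedBall (0 : E n) R)
      Metric.isClosed_closedBall.measurableSet (psi_int' h ξ)
    rw [integral_sub_left_eq_self ψ volume ξ, h.int0] at h1
    rw [eq_neg_of_add_eq_zero_left h1, norm_neg]
    refine tail h ξ Metric.isClosed_closedBall.measurableSet.compl (abs_nonneg _) fun ζ hζ => ?_
    rw [abs_of_nonpos (by linarith)]
    have h1 : R < ‖ζ‖ := by simpa using hζ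
    have h2 := norm_sub_norm_le ζ ξ
    rw [norm_sub_rev] at h2
    linarith

lemma int_sph (hf : IsFiniteMeasure (sg n)) (ξ : E n) (R : ℝ) :
    Integrable (fun ω : Metric.sphere (0 : E n) 1 => wt (ξ - R • (ω : E n))) (sg n) := by
  refine (integrable_const (1 : ℝ)).mono' ?_ (Eventually.of_forall fun ω => ?_)
  · refine Continuous.aestronglyMeasurable ?_
    exact cont_wt.comp (by fun_prop)
  · rw [Real.norm_eq_abs, abs_of_nonneg (wt_nonneg _)]
    unfold wt
    refine inv_le_one_of_one_le₀ (one_le_pow₀ ?_)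
    linarith [norm_nonneg (ξ - R • (ω : E n))]

/-- the spherical means of the weight -/
lemma sph_int (hP : T_POLN) (hn : 0 < n) (ξ : E n) {R : ℝ} (hR : 0 ≤ R) :
    R ^ (n - 1) * ∫ ω, wt (ξ - R • (ω : E n)) ∂(sg n) ≤ 2 ^ (n + 5) * IW n := by
  obtain ⟨h1, -, hf⟩ := hP n hn
  have hRn : 0 ≤ R ^ (n - 1) := pow_nonneg hR _
  have h2 := h1 (fun x => ENNReal.ofReal (wt (ξ - x)))
    (ENNReal.measurable_ofReal.comp (cont_wt.comp (by fun_prop)).measurable)
  have h3 : ∫⁻ x, ENNReal.ofReal (wt (ξ - x)) = ENNReal.ofReal (IW n) := by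
    rw [← ofReal_integral_eq_lintegral_ofReal (int_wt.comp_sub_left ξ)
      (Eventually.of_forall fun x => wt_nonneg _),
      integral_sub_left_eq_self (fun ζ : E n => wt ζ) volume ξ]
    rfl
  -- pointwise comparison
  have h4 : ∀ r ∈ Ioc R (R + 1), ∀ ω : Metric.sphere (0 : E n) 1,
      wt (ξ - R • (ω : E n)) ≤ 2 ^ (n + 5) * wt (ξ - r • (ω : E n)) := by
    intro r hr ω
    have a1 : ‖ξ - r • (ω : E n)‖ ≤ ‖ξ - R • (ω : E n)‖ + 1 := by
      have a2 : ξ - r • (ω : E n) = (ξ - R • (ω : E n)) - (r - R) • (ω : E n) := by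
        rw [sub_smul]
        abel
      rw [a2]
      refine (norm_sub_le _ _).trans ?_
      rw [norm_smul_sph (by linarith [hr.1]) ω]
      linarith [hr.2]
    unfold wt
    have a3 : (0 : ℝ) < 1 + ‖ξ - r • (ω : E n)‖ := by positivity
    have a4 : (0 : ℝ) < 1 + ‖ξ - R • (ω : E n)‖ := by positivity
    rw [← div_eq_mul_inv, inv_eq_one_div, div_le_div_iff₀ (pow_pos a4 _) (pow_pos a3 _), one_mul,
      ← mul_pow]
    refine pow_le_pow_left₀ a3.le ?_ _
    linarith [norm_nonneg (ξ - R • (ω : E n))]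
  have h5 : ENNReal.ofReal (R ^ (n - 1) * ∫ ω, wt (ξ - R • (ω : E n)) ∂(sg n)) ≤
      ENNReal.ofReal (2 ^ (n + 5)) * ENNReal.ofReal (IW n) := by
    rw [← h3, h2, ← integral_const_mul, ofReal_integral_eq_lintegral_ofReal
      ((int_sph hf ξ R).const_mul _)
      (Eventually.of_forall fun ω => mul_nonneg hRn (wt_nonneg _))]
    set c := ∫⁻ ω, ENNReal.ofReal (R ^ (n - 1) * wt (ξ - R • (ω : E n))) ∂(sg n) with hc
    have h6 : ∀ r ∈ Ioc R (R + 1), c ≤ ENNReal.ofReal (2 ^ (n + 5)) *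
        ∫⁻ ω, ENNReal.ofReal (r ^ (n - 1)) * ENNReal.ofReal (wt (ξ - r • (ω : E n))) ∂(sg n) := by
      intro r hr
      rw [← lintegral_const_mul' _ _ ENNReal.ofReal_ne_top]
      refine lintegral_mono fun ω => ?_
      have hrn : 0 ≤ r ^ (n - 1) := pow_nonneg (hR.trans hr.1.le) _
      rw [← ENNReal.ofReal_mul hrn, ← ENNReal.ofReal_mul (by positivity)]
      refine ENNReal.ofReal_le_ofReal ?_
      have b1 := h4 r hr ω
      have b2 : R ^ (n - 1) ≤ r ^ (n - 1) := pow_le_pow_left₀ hR hr.1.le _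
      calc R ^ (n - 1) * wt (ξ - R • (ω : E n)) ≤
            r ^ (n - 1) * (2 ^ (n + 5) * wt (ξ - r • (ω : E n))) :=
            mul_le_mul b2 b1 (wt_nonneg _) hrn
        _ = _ := by ring
    calc c = ∫⁻ _ in Ioc R (R + 1), c := by
          rw [setLIntegral_const, Real.volume_Ioc]
          simp
      _ ≤ ∫⁻ r in Ioc R (R + 1), ENNReal.ofReal (2 ^ (n + 5)) *
            ∫⁻ ω, ENNReal.ofReal (r ^ (n - 1)) *
              ENNReal.ofReal (wt (ξ - r • (ω : E n))) ∂(sg n) :=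
          setLIntegral_mono' measurableSet_Ioc h6
      _ ≤ ∫⁻ r in Ioi (0 : ℝ), ENNReal.ofReal (2 ^ (n + 5)) *
            ∫⁻ ω, ENNReal.ofReal (r ^ (n - 1)) *
              ENNReal.ofReal (wt (ξ - r • (ω : E n))) ∂(sg n) :=
          lintegral_mono_set fun r hr => lt_of_le_of_lt hR hr.1
      _ = _ := lintegral_const_mul' _ _ ENNReal.ofReal_ne_top
  rw [← ENNReal.ofReal_mul (by positivity)] at h5
  exact (ENNReal.ofReal_le_ofReal_iff (mul_nonneg (by positivity) IW_nonneg)).1 h5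

lemma m1_bound (hP : T_POLN) (hn : 0 < n) {ψ : E n → ℂ} {B : ℝ} (h : Psi ψ B) {R : ℝ}
    (hR : 0 ≤ R) (ξ : E n) : ‖m1 ψ R ξ‖ ≤ B * (2 ^ (n + 5) * IW n) * dw (n + 3) R ξ := by
  have hf := (hP n hn).2.2
  have hB := B_nonneg h
  have hRn : 0 ≤ R ^ (n - 1) := pow_nonneg hR _
  unfold m1 dw
  rw [norm_mul, Complex.norm_real, Real.norm_eq_abs, abs_of_nonneg hRn]
  set s := |‖ξ‖ - R| with hs
  have hcp := h.cont
  have hi : Integrable (fun ω : Metric.sphere (0 : E n) 1 =>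
      B * ((1 + s) ^ (n + 3))⁻¹ * wt (ξ - R • (ω : E n))) (sg n) := (int_sph hf ξ R).const_mul _
  have hb : ∀ ω : Metric.sphere (0 : E n) 1, ‖ψ (ξ - R • (ω : E n))‖ ≤
      B * ((1 + s) ^ (n + 3))⁻¹ * wt (ξ - R • (ω : E n)) := by
    intro ω
    refine dec' h (abs_nonneg _) ?_
    have := abs_norm_sub_norm_le ξ (R • (ω : E n))
    rwa [norm_smul_sph hR] at this
  calc R ^ (n - 1) * ‖∫ ω, ψ (ξ - R • (ω : E n)) ∂(sg n)‖
      ≤ R ^ (n - 1) * ∫ ω, B * ((1 + s) ^ (n + 3))⁻¹ * wt (ξ - R • (ω : E n)) ∂(sg n) :=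
        mul_le_mul_of_nonneg_left
          (norm_integral_le_of_norm_le hi (Eventually.of_forall hb)) hRn
    _ = B * ((1 + s) ^ (n + 3))⁻¹ * (R ^ (n - 1) * ∫ ω, wt (ξ - R • (ω : E n)) ∂(sg n)) := by
        rw [integral_const_mul]
        ring
    _ ≤ B * ((1 + s) ^ (n + 3))⁻¹ * (2 ^ (n + 5) * IW n) :=
        mul_le_mul_of_nonneg_left (sph_int hP hn ξ hR) (by positivity)
    _ = B * (2 ^ (n + 5) * IW n) * ((1 + s) ^ (n + 3))⁻¹ := by ring

lemma polar_mm (hP : T_POLN) (hn : 0 < n) {ψ : E n → ℂ} {B : ℝ} (h : Psi ψ B) {R : ℝ}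
    (hR : 0 ≤ R) (ξ : E n) : mm ψ R ξ = ∫ r in (0 : ℝ)..R, m1 ψ r ξ := by
  have h1 := (hP n hn).2.1 ((Metric.closedBall (0 : E n) R).indicator fun ζ => ψ (ξ - ζ))
    ((psi_int' h ξ).indicator Metric.isClosed_closedBall.measurableSet)
  rw [integral_indicator Metric.isClosed_closedBall.measurableSet] at h1
  unfold mm
  rw [h1, intervalIntegral.integral_of_le hR, ← Ioi_inter_Iic, ← integral_indicator
    measurableSet_Ioi, ← integral_indicator (measurableSet_Ioi.inter measurableSet_Iic)]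
  congr 1
  ext r
  by_cases hr : 0 < r
  · rw [indicator_of_mem (by exact hr)]
    by_cases hr2 : r ≤ R
    · rw [indicator_of_mem (by exact ⟨hr, hr2⟩)]
      unfold m1
      congr 1
      refine integral_congr_ae (Eventually.of_forall fun ω => ?_)
      refine indicator_of_mem ?_ _
      rw [mem_closedBall_zero_iff, norm_smul_sph hr.le]
      exact hr2
    · rw [indicator_of_notMem (by
        rintro ⟨-, h3⟩
        exact hr2 h3)]
      have : ∫ ω, (Metric.closedBall (0 : E n) R).indicator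
          (fun ζ => ψ (ξ - ζ)) (r • (ω : E n)) ∂(sg n) = 0 := by
        refine integral_eq_zero_of_ae (Eventually.of_forall fun ω => ?_)
        refine indicator_of_notMem ?_ _
        rw [mem_closedBall_zero_iff, norm_smul_sph hr.le]
        exact hr2
      rw [this, mul_zero]
  · rw [indicator_of_notMem (by exact hr), indicator_of_notMem (by
      rintro ⟨h3, -⟩
      exact hr h3)]

end MMN_

open MMN_ in
theorem p_MMN (h1 : T_POLN) : T_MMN := by
  intro n ψ B hn h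
  have hn0 : 0 < n := by omega
  have hB := B_nonneg h
  have hf := (h1 n hn0).2.2
  refine ⟨fun R hR ξ => polar_mm h1 hn0 h hR ξ, ?_, ?_⟩
  · have hcp := h.cont
    unfold m1
    refine (Complex.continuous_ofReal.comp (continuous_fst.pow _)).mul ?_
    refine continuous_of_dominated (bound := fun _ => B) (fun p => ?_)
      (fun p => Eventually.of_forall fun ω => psi_bdd h _) (integrable_const B)
      (Eventually.of_forall fun ω => ?_)
    · refine Continuous.aestronglyMeasurable ?_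
      fun_prop
    · fun_prop
  · refine ⟨B * (IW n + 2 ^ (n + 5) * IW n) + 1, ?_, fun R ξ hR => ?_⟩
    · have := IW_nonneg (n := n)
      positivity
    · have hd : 0 ≤ dw (n + 3) R ξ := by unfold dw; positivity
      have h2 := IW_nonneg (n := n)
      constructor
      · refine (mm_bound h R ξ).trans (mul_le_mul_of_nonneg_right ?_ hd)
        have : 0 ≤ B * (2 ^ (n + 5) * IW n) := by positivity
        nlinarith
      · refine (m1_bound h1 hn0 h hR ξ).trans (mul_le_mul_of_nonneg_right ?_ hd)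
        have : 0 ≤ B * IW n := by positivity
        nlinarith

end Pool.Agent.CRN
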