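import Pool.Agent.CRN.Targets
import Pool.Agent.MBS.J8

set_option autoImplicit false

/-!
# CRN, target NDJN: the dyadic shells, by scaling
-/

namespace Pool.Agent.CRN

open MeasureTheory FourierTransform Set Filter Topology
open scoped ENNReal NNReal
open Pool.Agent.MBS (E ex S Sstar)

namespace NDJN_

variable {n : ℕ}

/-- the dilated function -/
def ds (c : ℝ) (f : E n → ℂ) (y : E n) : ℂ := f (c • y)

theorem nice {c : ℝ} (hc : 0 < c) {f : E n → ℂ} (hf : Nice f) : Nice (ds c f) := by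
  have h1 : Measurable (ds c f) := hf.meas.comp (measurable_const_smul c)
  refine ⟨h1, hf.int.comp_smul hc.ne', ?_⟩
  rw [memLp_two_iff_integrable_sq_norm h1.aestronglyMeasurable]
  have h2 := (memLp_two_iff_integrable_sq_norm hf.meas.aestronglyMeasurable).1 hf.sq
  exact h2.comp_smul hc.ne'

theorem fourier {c : ℝ} (hc : 0 < c) (f : E n → ℂ) (ξ : E n) :
    𝓕 (ds c f) ξ = ((c⁻¹) ^ n : ℝ) • 𝓕 f (c⁻¹ • ξ) := by
  have h1 := Pool.Agent.MBS.J8.fourier_dil (inv_pos.2 hc) f ξ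
  have h2 : Pool.Agent.MBS.dil c⁻¹ f = ds c f := by
    funext x
    unfold Pool.Agent.MBS.dil ds
    rw [inv_inv]
  rw [h2] at h1
  exact h1

theorem ex_scale {c : ℝ} (hc : 0 < c) (x ξ : E n) : ex (c • x) (c⁻¹ • ξ) = ex x ξ := by
  unfold ex
  rw [real_inner_smul_left, real_inner_smul_right, mul_inv_cancel_left₀ hc.ne']

theorem S_scale {c : ℝ} (hc : 0 < c) (f : E n → ℂ) (R : ℝ) (x : E n) :
    S (ds c f) R x = S f (R / c) (c • x) := by
  unfold S
  rw [← integral_indicator Metric.isClosed_closedBall.measurableSet,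
    ← integral_indicator Metric.isClosed_closedBall.measurableSet]
  set G : E n → ℂ := (Metric.closedBall (0 : E n) (R / c)).indicator
    (fun η => 𝓕 f η * ex (c • x) η) with hG
  have h1 := Measure.integral_comp_inv_smul_of_nonneg (volume : Measure (E n)) G hc.le
  rw [finrank_euclideanSpace_fin] at h1
  have h2 : ∀ ξ : E n, (Metric.closedBall (0 : E n) R).indicator
      (fun ξ => 𝓕 (ds c f) ξ * ex x ξ) ξ = ((c⁻¹) ^ n : ℝ) • G (c⁻¹ • ξ) := by
    intro ξ
    have h3 : c⁻¹ • ξ ∈ Metric.closedBall (0 : E n) (R / c) ↔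
        ξ ∈ Metric.closedBall (0 : E n) R := by
      rw [mem_closedBall_zero_iff, mem_closedBall_zero_iff, norm_smul,
        Real.norm_of_nonneg (inv_pos.2 hc).le, ← div_eq_inv_mul]
      exact div_le_div_iff_of_pos_right hc
    by_cases h4 : ξ ∈ Metric.closedBall (0 : E n) R
    · rw [indicator_of_mem h4, hG, indicator_of_mem (h3.2 h4), fourier hc, ex_scale hc,
        smul_mul_assoc]
    · rw [indicator_of_notMem h4, hG, indicator_of_notMem (fun h => h4 (h3.1 h)), smul_zero]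
  rw [integral_congr_ae (Filter.Eventually.of_forall h2), integral_smul, h1, smul_smul]
  have h5 : (c⁻¹) ^ n * c ^ n = 1 := by
    rw [← mul_pow, inv_mul_cancel₀ hc.ne', one_pow]
  rw [h5, one_smul]

theorem Sstar_scale {c : ℝ} (hc : 0 < c) (f : E n → ℂ) (x : E n) :
    Sstar (ds c f) x = Sstar f (c • x) := by
  unfold Sstar
  apply le_antisymm
  · refine iSup₂_le fun R hR => ?_
    rw [S_scale hc]
    exact le_iSup₂_of_le (R / c) (div_pos hR hc) le_rfl
  · refine iSup₂_le fun R hR => ?_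
    refine le_iSup₂_of_le (R * c) (mul_pos hR hc) ?_
    rw [S_scale hc, mul_div_cancel_right₀ _ hc.ne']

theorem rt_smul (i j : Fin n) (c φ : ℝ) (y : E n) : c • rt i j φ y = rt i j φ (c • y) := by
  ext k
  unfold rt
  simp only [PiLp.smul_apply, smul_eq_mul]
  split_ifs <;> ring

theorem ad {K : ℕ} (c : ℝ) {f : E n → ℂ} (hf : AD K f) : AD K (ds c f) := by
  intro i j hij y
  obtain ⟨a, ha⟩ := hf i j hij (c • y)
  refine ⟨a, fun φ => ?_⟩
  unfold ds
  rw [rt_smul]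
  exact ha φ

end NDJN_

open NDJN_ in
theorem p_NDJN (h1 : T_NDN) : T_NDJN := by
  intro hC n hn
  obtain ⟨C, hCC⟩ := h1 hC n hn
  refine ⟨C, fun K j f hK hf hAD => ?_⟩
  set c : ℝ := (2 : ℝ) ^ j with hc
  have hc0 : 0 < c := by positivity
  have hA : MeasurableSet (sh n j) :=
    (measurableSet_le measurable_const measurable_norm).inter
      (measurableSet_lt measurable_norm measurable_const)
  set B : Set (E n) := (fun x : E n => c • x) ⁻¹' sh n j with hB
  have hBm : MeasurableSet B := measurable_const_smul c hA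
  have hB1 : B ⊆ A1 n := by
    intro x hx
    obtain ⟨h3, h4⟩ : c • x ∈ sh n j := hx
    rw [norm_smul, Real.norm_of_nonneg hc0.le, ← hc] at h3
    rw [norm_smul, Real.norm_of_nonneg hc0.le, zpow_add₀ two_ne_zero, zpow_one, ← hc] at h4
    constructor
    · by_contra h5
      nlinarith [not_le.1 h5]
    · by_contra h5
      nlinarith [not_le.1 h5]
  have h2 : ∫⁻ x in B, Sstar (ds c f) x ^ 2 ≤
      C * ENNReal.ofReal (Real.log (2 + K) ^ 2) * ∫⁻ x, ‖ds c f x‖ₑ ^ 2 :=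
    (lintegral_mono_set hB1).trans (hCC K (ds c f) hK (nice hc0 hf) (ad c hAD))
  have h3 : ∫⁻ x in B, Sstar (ds c f) x ^ 2 =
      ENNReal.ofReal ((c ^ n)⁻¹) * ∫⁻ x in sh n j, Sstar f x ^ 2 := by
    simp only [Sstar_scale hc0]
    exact Pool.Agent.MBS.J8.setLint_smul hc0 (fun x => Sstar f x ^ 2) B (sh n j) hBm hA
      (fun x => Iff.rfl)
  have h4 : ∫⁻ x, ‖ds c f x‖ₑ ^ 2 = ENNReal.ofReal ((c ^ n)⁻¹) * ∫⁻ x, ‖f x‖ₑ ^ 2 :=
    Pool.Agent.MBS.J8.lint_smul hc0 (fun x => ‖f x‖ₑ ^ 2)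
  rw [h3, h4] at h2
  set κ : ℝ≥0∞ := ENNReal.ofReal ((c ^ n)⁻¹) with hκ
  have hκ0 : κ ≠ 0 := by
    rw [hκ, Ne, ENNReal.ofReal_eq_zero, not_le]
    positivity
  have hκt : κ ≠ ⊤ := ENNReal.ofReal_ne_top
  have h7 : (C : ℝ≥0∞) * ENNReal.ofReal (Real.log (2 + K) ^ 2) *
      (κ * ∫⁻ x, ‖f x‖ₑ ^ 2) =
      κ * (C * ENNReal.ofReal (Real.log (2 + K) ^ 2) * ∫⁻ x, ‖f x‖ₑ ^ 2) := by ring
  rw [h7] at h2
  exact (ENNReal.mul_le_mul_iff_right hκ0 hκt).1 h2

end Pool.Agent.CRN
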