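import Pool.Agent.CRN.Targets

set_option autoImplicit false

/-!
# CRN: the unit shell (target NDN)
-/

namespace Pool.Agent.CRN

open MeasureTheory FourierTransform Set Filter Topology
open scoped ENNReal NNReal
open Pool.Agent.MBS (E ex S Sstar ex_norm ex_continuous)

namespace NDN_

variable {n : ℕ}

lemma fourier_cont {g : E n → ℂ} (hg : Integrable g) : Continuous (𝓕 g) :=
  VectorFourier.fourierIntegral_continuous Real.continuous_fourierChar
    (by simp only [innerₗ_apply_apply]; fun_prop) hg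

lemma S_cont {f : E n → ℂ} (hf : Integrable f) (R : ℝ) : Continuous (S f R) := by
  have hF := fourier_cont hf
  refine continuous_of_dominated (F := fun x ξ => 𝓕 f ξ * ex x ξ) (bound := fun ξ => ‖𝓕 f ξ‖)
    (fun x => ?_) (fun x => ae_of_all _ fun ξ => ?_) ?_ (ae_of_all _ fun ξ => ?_)
  · exact (hF.mul (ex_continuous.comp (continuous_const.prodMk continuous_id))).aestronglyMeasurable
  · rw [norm_mul, ex_norm, mul_one]
  · exact hF.norm.continuousOn.integrableOn_compact (isCompact_closedBall _ _)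
  · exact continuous_const.mul (ex_continuous.comp (continuous_id.prodMk continuous_const))

/-- The two maximal functions. -/
noncomputable def M1 (f : E n → ℂ) (B : ℝ) (x : E n) : ℝ≥0∞ := ⨆ R ∈ Ioc (0 : ℝ) B, ‖S f R x‖ₑ

noncomputable def M2 (f : E n → ℂ) (A : ℝ) (x : E n) : ℝ≥0∞ := ⨆ R ∈ Ici A, ‖S f R x - S f A x‖ₑ

lemma M1_meas {f : E n → ℂ} (hf : Integrable f) (B : ℝ) : Measurable (M1 f B) := by
  unfold M1
  refine LowerSemicontinuous.measurable ?_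
  refine lowerSemicontinuous_iSup fun R => lowerSemicontinuous_iSup fun _ => ?_
  exact (S_cont hf R).enorm.lowerSemicontinuous

lemma Sstar_le (f : E n → ℂ) {A B : ℝ} (hA : 0 < A) (hAB : A ≤ B) (x : E n) :
    Sstar f x ≤ M1 f B x + M2 f A x := by
  unfold Sstar
  refine iSup_le fun R => iSup_le fun hR => ?_
  rcases le_total R A with h | h
  · refine le_trans ?_ le_self_add
    exact le_iSup₂_of_le (f := fun (R : ℝ) (_ : R ∈ Ioc (0 : ℝ) B) => ‖S f R x‖ₑ) R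
      ⟨hR, h.trans hAB⟩ le_rfl
  · have h1 : S f R x = S f A x + (S f R x - S f A x) := by ring
    rw [h1]
    refine (enorm_add_le _ _).trans (add_le_add ?_ ?_)
    · exact le_iSup₂_of_le (f := fun (R : ℝ) (_ : R ∈ Ioc (0 : ℝ) B) => ‖S f R x‖ₑ) A
        ⟨hA, hAB⟩ le_rfl
    · exact le_iSup₂_of_le (f := fun (R : ℝ) (_ : R ∈ Ici A) => ‖S f R x - S f A x‖ₑ) R h le_rfl

lemma sq_add (a b : ℝ≥0∞) : (a + b) ^ 2 ≤ 4 * a ^ 2 + 4 * b ^ 2 := by
  have h1 : a + b ≤ 2 * max a b := by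
    rw [two_mul]
    exact add_le_add (le_max_left _ _) (le_max_right _ _)
  calc (a + b) ^ 2 ≤ (2 * max a b) ^ 2 := pow_le_pow_left' h1 2
    _ = 4 * max a b ^ 2 := by rw [mul_pow]; norm_num
    _ ≤ _ := by
      rcases le_total a b with h | h
      · rw [max_eq_right h]; exact le_add_self
      · rw [max_eq_left h]; exact le_self_add

lemma log_ge (K : ℕ) (hK : 1 ≤ K) : 1 ≤ Real.log (2 + (K : ℝ)) := by
  have h0 : (1 : ℝ) ≤ K := by exact_mod_cast hK
  rw [Real.le_log_iff_exp_le (by linarith)]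
  have := Real.exp_one_lt_d9
  linarith

lemma pick (K : ℕ) (hK : 1 ≤ K) : ∃ M : ℕ, (K : ℝ) ^ 4 ≤ 2 ^ M ∧
    (M : ℝ) + 1 ≤ 13 * Real.log (2 + (K : ℝ)) := by
  have h0 : (1 : ℝ) ≤ K := by exact_mod_cast hK
  have hl := log_ge K hK
  refine ⟨4 * Nat.clog 2 K, ?_, ?_⟩
  · have h1 : K ≤ 2 ^ Nat.clog 2 K := Nat.le_pow_clog (by norm_num) K
    have h2 : (K : ℝ) ≤ 2 ^ Nat.clog 2 K := by exact_mod_cast h1
    calc (K : ℝ) ^ 4 ≤ (2 ^ Nat.clog 2 K) ^ 4 := pow_le_pow_left₀ (by linarith) h2 4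
      _ = 2 ^ (4 * Nat.clog 2 K) := by rw [← pow_mul, mul_comm]
  · have h3 : (Nat.clog 2 K : ℝ) * Real.log 2 ≤ 2 * Real.log (2 + (K : ℝ)) := by
      rcases Nat.eq_or_lt_of_le hK with h | h
      · rw [← h, Nat.clog_one_right]
        push_cast
        have : 0 ≤ Real.log (2 + 1 : ℝ) := Real.log_nonneg (by norm_num)
        linarith
      · have h4 : 2 ^ (Nat.clog 2 K).pred < K := Nat.pow_pred_clog_lt_self (by norm_num) h
        have h5 : (2 : ℝ) ^ (Nat.clog 2 K).pred ≤ K := by exact_mod_cast h4.le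
        have h6 : 0 < Nat.clog 2 K := Nat.clog_pos (by norm_num) h
        have h7 : Real.log ((2 : ℝ) ^ (Nat.clog 2 K).pred) ≤ Real.log K :=
          Real.log_le_log (by positivity) h5
        rw [Real.log_pow] at h7
        have h8 : (((Nat.clog 2 K).pred : ℕ) : ℝ) = (Nat.clog 2 K : ℝ) - 1 := by
          rw [Nat.pred_eq_sub_one, Nat.cast_sub h6]; norm_num
        rw [h8] at h7
        have h9 : Real.log 2 ≤ Real.log (2 + (K : ℝ)) :=
          Real.log_le_log (by norm_num) (by linarith)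
        have h10 : Real.log K ≤ Real.log (2 + (K : ℝ)) :=
          Real.log_le_log (by linarith) (by linarith)
        nlinarith
    have h11 := Real.log_two_gt_d9
    push_cast
    have h12 : (Nat.clog 2 K : ℝ) * (2 / 3) ≤ (Nat.clog 2 K : ℝ) * Real.log 2 :=
      mul_le_mul_of_nonneg_left (by linarith) (Nat.cast_nonneg _)
    linarith

end NDN_

open NDN_ in
/-- NDN. -/
theorem p_NDN (h1 : T_LOWN) (h2 : T_HIN) : T_NDN := by
  intro hC n hn
  obtain ⟨C1, H1⟩ := h1 n hn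
  obtain ⟨C2, H2⟩ := h2 hC n hn
  refine ⟨4 * C1 * 169 + 4 * C2, fun K f hK hf hA => ?_⟩
  obtain ⟨M, hM, hML⟩ := pick K hK
  have hL := log_ge K hK
  set L : ℝ := Real.log (2 + (K : ℝ)) with hLd
  set N : ℝ≥0∞ := ∫⁻ x, ‖f x‖ₑ ^ 2 with hN
  have hK0 : (0 : ℝ) < K := by exact_mod_cast hK
  have hA0 : (0 : ℝ) < (K : ℝ) ^ 4 := by positivity
  have hm := M1_meas hf.int (2 ^ M : ℝ)
  have hM1 : ((M : ℝ≥0∞) + 1) ^ 2 ≤ 169 * ENNReal.ofReal (L ^ 2) := by
    have e1 : (M : ℝ≥0∞) + 1 = ENNReal.ofReal ((M : ℝ) + 1) := by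
      rw [ENNReal.ofReal_add (Nat.cast_nonneg M) zero_le_one, ENNReal.ofReal_natCast,
        ENNReal.ofReal_one]
    rw [e1, ← ENNReal.ofReal_pow (by positivity)]
    have e2 : ((M : ℝ) + 1) ^ 2 ≤ 169 * L ^ 2 := by
      have := pow_le_pow_left₀ (by positivity) hML 2
      calc ((M : ℝ) + 1) ^ 2 ≤ (13 * L) ^ 2 := this
        _ = 169 * L ^ 2 := by ring
    refine (ENNReal.ofReal_le_ofReal e2).trans (le_of_eq ?_)
    rw [ENNReal.ofReal_mul (by norm_num)]
    norm_num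
  have hL1 : (1 : ℝ≥0∞) ≤ ENNReal.ofReal (L ^ 2) := by
    rw [← ENNReal.ofReal_one]
    exact ENNReal.ofReal_le_ofReal (one_le_pow₀ hL)
  have s1 : ∫⁻ x in A1 n, M1 f (2 ^ M) x ^ 2 ≤ C1 * (169 * ENNReal.ofReal (L ^ 2)) * N := by
    calc ∫⁻ x in A1 n, M1 f (2 ^ M) x ^ 2
        ≤ ∫⁻ x in Metric.closedBall (0 : E n) 2, M1 f (2 ^ M) x ^ 2 := by
          refine lintegral_mono_set fun x hx => ?_
          rw [mem_closedBall_zero_iff]
          exact hx.2
      _ ≤ C1 * ((M : ℝ≥0∞) + 1) ^ 2 * N := H1 M f hf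
      _ ≤ _ := by gcongr
  have s2 : ∫⁻ x in A1 n, M2 f ((K : ℝ) ^ 4) x ^ 2 ≤ C2 * ENNReal.ofReal (L ^ 2) * N := by
    calc ∫⁻ x in A1 n, M2 f ((K : ℝ) ^ 4) x ^ 2 ≤ C2 * N := H2 K f hK hf hA
      _ = C2 * 1 * N := by rw [mul_one]
      _ ≤ _ := by gcongr
  calc ∫⁻ x in A1 n, Sstar f x ^ 2
      ≤ ∫⁻ x in A1 n, (4 * M1 f (2 ^ M) x ^ 2 + 4 * M2 f ((K : ℝ) ^ 4) x ^ 2) := by
        refine lintegral_mono fun x => ?_
        exact (pow_le_pow_left' (Sstar_le f hA0 hM x) 2).trans (sq_add _ _)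
    _ = 4 * (∫⁻ x in A1 n, M1 f (2 ^ M) x ^ 2) + 4 * ∫⁻ x in A1 n, M2 f ((K : ℝ) ^ 4) x ^ 2 := by
        rw [lintegral_add_left ((hm.pow_const 2).const_mul 4),
          lintegral_const_mul' _ _ (by norm_num), lintegral_const_mul' _ _ (by norm_num)]
    _ ≤ 4 * (C1 * (169 * ENNReal.ofReal (L ^ 2)) * N) +
        4 * (C2 * ENNReal.ofReal (L ^ 2) * N) := by gcongr
    _ = _ := by
        push_cast
        ring


end Pool.Agent.CRN
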