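import Pool.Agent.CRN.Targets

set_option autoImplicit false

/-!
# CRN, OFFAN: small radii, `f` near the origin, `x` in the unit shell of `ℝⁿ`
-/

namespace Pool.Agent.CRN

open MeasureTheory FourierTransform Set Filter Topology
open scoped ENNReal NNReal
open Pool.Agent.MBS (E ex S Sstar)
open Pool.Agent.CAR (e1)

namespace OFFAN_

/-- `|g(R)|² ≤ ∫_0^{R₀} (|g|² + |G|²)` for `g(R) = ∫_0^R G`. -/
theorem supb {g G : ℝ → ℂ} (hG : ContinuousOn G (Ici 0))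
    (hg : ∀ R : ℝ, 0 ≤ R → g R = ∫ s in (0 : ℝ)..R, G s) {R R0 : ℝ} (hR : 0 ≤ R) (hR0 : R ≤ R0) :
    ‖g R‖ₑ ^ 2 ≤ ∫⁻ s in Ioc 0 R0, (‖g s‖ₑ ^ 2 + ‖G s‖ₑ ^ 2) := by
  have hii : ∀ a b : ℝ, 0 ≤ a → 0 ≤ b → IntervalIntegrable G volume a b := by
    intro a b ha hb
    apply ContinuousOn.intervalIntegrable
    apply hG.mono
    intro x hx
    have := hx.1
    exact le_trans (le_min ha hb) this
  have hder : ∀ s : ℝ, 0 < s → HasDerivAt g (G s) s := by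
    intro s hs
    have h1 : HasDerivAt (fun R => ∫ s in (0 : ℝ)..R, G s) (G s) s := by
      apply intervalIntegral.integral_hasDerivAt_right (hii 0 s le_rfl hs.le)
      · exact ContinuousOn.stronglyMeasurableAtFilter isOpen_Ioi
          (hG.mono Ioi_subset_Ici_self) s hs
      · exact (hG s hs.le).continuousAt (Ici_mem_nhds hs)
    apply h1.congr_of_eventuallyEq
    filter_upwards [Ioi_mem_nhds hs] with t ht
    exact hg t (le_of_lt ht)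
  have hcont : ContinuousOn g (Icc 0 R) := by
    have h1 : ContinuousOn (fun t => ∫ s in (0 : ℝ)..t, G s) (uIcc 0 R) :=
      intervalIntegral.continuousOn_primitive_interval' (hii 0 R le_rfl hR) left_mem_uIcc
    rw [uIcc_of_le hR] at h1
    exact h1.congr fun t ht => hg t ht.1
  have hGc : ContinuousOn G (Icc 0 R) := hG.mono Icc_subset_Ici_self
  have h0 : g 0 = 0 := by rw [hg 0 le_rfl, intervalIntegral.integral_same]
  have hin : ContinuousOn (fun s => 2 * (inner ℝ (g s) (G s) : ℝ)) (Icc 0 R) :=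
    continuousOn_const.mul (hcont.inner hGc)
  have hin' : IntervalIntegrable (fun s => 2 * (inner ℝ (g s) (G s) : ℝ)) volume 0 R := by
    apply ContinuousOn.intervalIntegrable
    rwa [uIcc_of_le hR]
  have hftc : ∫ s in (0 : ℝ)..R, 2 * (inner ℝ (g s) (G s) : ℝ) = ‖g R‖ ^ 2 - ‖g 0‖ ^ 2 := by
    apply intervalIntegral.integral_eq_sub_of_hasDerivAt_of_le (f := fun s => ‖g s‖ ^ 2) hR
    · exact hcont.norm.pow 2
    · intro s hs
      exact (hder s hs.1).norm_sq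
    · exact hin'
  have hsq : ContinuousOn (fun s => ‖g s‖ ^ 2 + ‖G s‖ ^ 2) (Icc 0 R) :=
    (hcont.norm.pow 2).add (hGc.norm.pow 2)
  have hsq' : IntervalIntegrable (fun s => ‖g s‖ ^ 2 + ‖G s‖ ^ 2) volume 0 R := by
    apply ContinuousOn.intervalIntegrable
    rwa [uIcc_of_le hR]
  have hle : ‖g R‖ ^ 2 ≤ ∫ s in (0 : ℝ)..R, (‖g s‖ ^ 2 + ‖G s‖ ^ 2) := by
    have h1 : ‖g R‖ ^ 2 = ∫ s in (0 : ℝ)..R, 2 * (inner ℝ (g s) (G s) : ℝ) := by
      rw [hftc, h0, norm_zero]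
      ring
    rw [h1]
    apply intervalIntegral.integral_mono_on hR hin' hsq'
    intro s _
    have h2 := real_inner_le_norm (g s) (G s)
    nlinarith [sq_nonneg (‖g s‖ - ‖G s‖)]
  have he : ∀ z : ℂ, ‖z‖ₑ ^ 2 = ENNReal.ofReal (‖z‖ ^ 2) := by
    intro z
    rw [ENNReal.ofReal_pow (norm_nonneg _), ofReal_norm]
  calc ‖g R‖ₑ ^ 2 = ENNReal.ofReal (‖g R‖ ^ 2) := he _
    _ ≤ ENNReal.ofReal (∫ s in (0 : ℝ)..R, (‖g s‖ ^ 2 + ‖G s‖ ^ 2)) := ENNReal.ofReal_le_ofReal hle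
    _ = ∫⁻ s in Ioc 0 R, ENNReal.ofReal (‖g s‖ ^ 2 + ‖G s‖ ^ 2) := by
        rw [intervalIntegral.integral_of_le hR]
        apply ofReal_integral_eq_lintegral_ofReal
        · exact (intervalIntegrable_iff_integrableOn_Ioc_of_le hR).1 hsq'
        · exact Eventually.of_forall fun s => by positivity
    _ = ∫⁻ s in Ioc 0 R, (‖g s‖ₑ ^ 2 + ‖G s‖ₑ ^ 2) := by
        congr 1
        ext s
        rw [ENNReal.ofReal_add (by positivity) (by positivity), he, he]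
    _ ≤ ∫⁻ s in Ioc 0 R0, (‖g s‖ₑ ^ 2 + ‖G s‖ₑ ^ 2) :=
        lintegral_mono_set (Ioc_subset_Ioc_right hR0)

theorem rt1 (a : ℝ≥0∞) : (a ^ (1 / (2 : ℝ))) ^ 2 = a := by
  rw [← ENNReal.rpow_natCast, ← ENNReal.rpow_mul]
  norm_num

theorem rt2 (a : ℝ≥0∞) : (a ^ 2) ^ (1 / (2 : ℝ)) = a := by
  rw [← ENNReal.rpow_natCast, ← ENNReal.rpow_mul]
  norm_num

theorem rt3 {a b : ℝ≥0∞} (h : a ^ 2 ≤ b) : a ≤ b ^ (1 / (2 : ℝ)) := by
  rw [← rt2 a]
  exact ENNReal.rpow_le_rpow h (by norm_num)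

theorem rt4 {a b : ℝ≥0∞} (h : a ≤ b ^ (1 / (2 : ℝ))) : a ^ 2 ≤ b := by
  calc a ^ 2 ≤ (b ^ (1 / (2 : ℝ))) ^ 2 := by gcongr
    _ = b := rt1 b

theorem slice {n : ℕ} {G : ℝ → E n → ℂ}
    (h : ContinuousOn (fun p : ℝ × E n => G p.1 p.2) (Ici 0 ×ˢ univ)) (x : E n) :
    ContinuousOn (fun R => G R x) (Ici 0) := by
  have h1 : ContinuousOn (fun R : ℝ => ((R, x) : ℝ × E n)) (Ici 0) := by fun_prop
  have h2 : MapsTo (fun R : ℝ => ((R, x) : ℝ × E n)) (Ici 0) (Ici 0 ×ˢ univ) := by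
    intro R hR
    exact Set.mk_mem_prod hR (mem_univ x)
  exact ContinuousOn.comp (g := fun p : ℝ × E n => G p.1 p.2) h h1 h2

/-- Cauchy-Schwarz on the ball of radius `r`. -/
theorem cs {n : ℕ} {f : E n → ℂ} {r : ℝ} (hr : 0 < r) (hf : Nice f)
    (hs : ∀ y, f y ≠ 0 → ‖y‖ ≤ r) :
    (∫⁻ x, ‖f x‖ₑ) ^ 2 ≤ ENNReal.ofReal (r ^ n) * volume (Metric.ball (0 : E n) 1) *
      ∫⁻ x, ‖f x‖ₑ ^ 2 := by
  have hm : AEMeasurable (fun x => ‖f x‖ₑ) (volume : Measure (E n)) := hf.meas.enorm.aemeasurable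
  have h1 : ∫⁻ x, ‖f x‖ₑ = ∫⁻ x in Metric.closedBall (0 : E n) r, ‖f x‖ₑ * 1 := by
    rw [← lintegral_indicator Metric.isClosed_closedBall.measurableSet]
    apply lintegral_congr
    intro x
    by_cases hx : x ∈ Metric.closedBall (0 : E n) r
    · rw [indicator_of_mem hx, mul_one]
    · rw [indicator_of_notMem hx]
      have : f x = 0 := by
        by_contra h
        exact hx (by simpa using hs x h)
      rw [this, enorm_zero]
  have hpq : (2 : ℝ).HolderConjugate 2 := by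
    constructor <;> norm_num
  have h2 := ENNReal.lintegral_mul_le_Lp_mul_Lq
    (volume.restrict (Metric.closedBall (0 : E n) r)) hpq (f := fun x => ‖f x‖ₑ)
    (g := fun _ => (1 : ℝ≥0∞)) hm.restrict aemeasurable_const
  have h3 : (∫⁻ x, ‖f x‖ₑ) ^ 2 ≤
      (∫⁻ x in Metric.closedBall (0 : E n) r, ‖f x‖ₑ ^ 2) *
        volume (Metric.closedBall (0 : E n) r) := by
    have h4 : (∫⁻ x, ‖f x‖ₑ) ≤ (∫⁻ x in Metric.closedBall (0 : E n) r, ‖f x‖ₑ ^ (2 : ℝ)) ^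
        (1 / (2 : ℝ)) * (∫⁻ x in Metric.closedBall (0 : E n) r, (1 : ℝ≥0∞) ^ (2 : ℝ)) ^
        (1 / (2 : ℝ)) := by
      rw [h1]
      exact h2
    have h5 : ∀ a : ℝ≥0∞, (a ^ (1 / (2 : ℝ))) ^ 2 = a := by
      intro a
      rw [← ENNReal.rpow_natCast, ← ENNReal.rpow_mul]
      norm_num
    calc (∫⁻ x, ‖f x‖ₑ) ^ 2 ≤ ((∫⁻ x in Metric.closedBall (0 : E n) r, ‖f x‖ₑ ^ (2 : ℝ)) ^
        (1 / (2 : ℝ)) * (∫⁻ x in Metric.closedBall (0 : E n) r, (1 : ℝ≥0∞) ^ (2 : ℝ)) ^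
        (1 / (2 : ℝ))) ^ 2 := by gcongr
      _ = (∫⁻ x in Metric.closedBall (0 : E n) r, ‖f x‖ₑ ^ (2 : ℝ)) *
          (∫⁻ x in Metric.closedBall (0 : E n) r, (1 : ℝ≥0∞) ^ (2 : ℝ)) := by
          rw [mul_pow, h5, h5]
      _ = _ := by
          congr 1
          · congr 1
            ext x
            rw [← ENNReal.rpow_natCast]
            norm_num
          · simp
  have hvol : volume (Metric.closedBall (0 : E n) r) =
      ENNReal.ofReal (r ^ n) * volume (Metric.ball (0 : E n) 1) := by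
    rw [Measure.addHaar_closedBall _ _ hr.le, finrank_euclideanSpace, Fintype.card_fin]
  calc (∫⁻ x, ‖f x‖ₑ) ^ 2 ≤ (∫⁻ x in Metric.closedBall (0 : E n) r, ‖f x‖ₑ ^ 2) *
        volume (Metric.closedBall (0 : E n) r) := h3
    _ ≤ (∫⁻ x, ‖f x‖ₑ ^ 2) * (ENNReal.ofReal (r ^ n) * volume (Metric.ball (0 : E n) 1)) := by
        rw [hvol]
        gcongr
        exact Measure.restrict_le_self
    _ = _ := mul_comm _ _

theorem num {n : ℕ} (hn : 2 ≤ n) {r : ℝ} (hr : 0 < r) (hr2 : r ≤ 1 / 2) :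
    (1 + (Real.sqrt r)⁻¹) ^ n * r ^ n ≤ 2 ^ n * r := by
  have hsr : 0 < Real.sqrt r := Real.sqrt_pos.2 hr
  have hs2 : Real.sqrt r * Real.sqrt r = r := Real.mul_self_sqrt hr.le
  have hle1 : Real.sqrt r ≤ 1 := by
    rw [Real.sqrt_le_iff]
    constructor <;> linarith
  have hR1 : 1 ≤ (Real.sqrt r)⁻¹ := (one_le_inv₀ hsr).2 hle1
  have h1 : (1 + (Real.sqrt r)⁻¹) * r ≤ 2 * Real.sqrt r := by
    have h2 : (Real.sqrt r)⁻¹ * r = Real.sqrt r := by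
      nth_rewrite 2 [← hs2]
      rw [← mul_assoc, inv_mul_cancel₀ hsr.ne', one_mul]
    have h3 : r ≤ (Real.sqrt r)⁻¹ * r := le_mul_of_one_le_left hr.le hR1
    rw [add_mul, one_mul]
    linarith
  rw [← mul_pow]
  calc ((1 + (Real.sqrt r)⁻¹) * r) ^ n ≤ (2 * Real.sqrt r) ^ n :=
        pow_le_pow_left₀ (by positivity) h1 n
    _ = 2 ^ n * Real.sqrt r ^ n := mul_pow _ _ _
    _ ≤ 2 ^ n * Real.sqrt r ^ 2 :=
        mul_le_mul_of_nonneg_left (pow_le_pow_of_le_one hsr.le hle1 hn) (by positivity)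
    _ = 2 ^ n * r := by rw [sq, hs2]

end OFFAN_

theorem p_OFFAN (h1 : T_PSIN) (h2 : T_SMN) (h3 : T_ENN) : T_OFFAN := by
  intro n hn
  obtain ⟨ψ, B, hψ⟩ := h1 n (by omega)
  obtain ⟨C, hC⟩ := h3 n ψ B hn hψ
  have hVt : volume (Metric.ball (0 : E n) 1) ≠ ⊤ := measure_ball_lt_top.ne
  obtain ⟨V, hV⟩ : ∃ V : ℝ≥0, (V : ℝ≥0∞) = volume (Metric.ball (0 : E n) 1) :=
    ⟨_, ENNReal.coe_toNNReal hVt⟩
  refine ⟨C * V * 2 ^ n, ?_⟩
  intro r f hr hr2 hf hs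
  obtain ⟨hcont, hint, -, hen⟩ := hC f hf
  set R0 : ℝ := (Real.sqrt r)⁻¹ with hR0
  have hsr : 0 < Real.sqrt r := Real.sqrt_pos.2 hr
  have hR0p : 0 < R0 := inv_pos.2 hsr
  have hpt : ∀ x : E n, x ∈ A1 n → (⨆ R ∈ Ioc 0 R0, ‖S f R x‖ₑ) ^ 2 ≤
      ∫⁻ R in Ioc 0 R0, (‖FF ψ f R x‖ₑ ^ 2 + ‖F1 ψ f R x‖ₑ ^ 2) := by
    intro x hx
    have hS : ∀ R : ℝ, 0 ≤ R → S f R x = FF ψ f R x := by
      apply h2 n ψ B hn hψ f hf x
      intro y hy
      have hy' := hs y hy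
      have e1 := norm_sub_norm_le x y
      have e2 := norm_sub_le x y
      constructor <;> linarith [hx.1, hx.2]
    have hF1 : ContinuousOn (fun R => F1 ψ f R x) (Ici 0) := OFFAN_.slice hcont x
    have key : ∀ R ∈ Ioc 0 R0, ‖S f R x‖ₑ ≤
        (∫⁻ R in Ioc 0 R0, (‖FF ψ f R x‖ₑ ^ 2 + ‖F1 ψ f R x‖ₑ ^ 2)) ^ (1 / (2 : ℝ)) := by
      intro R hR
      rw [hS R hR.1.le]
      exact OFFAN_.rt3 (OFFAN_.supb (g := fun R => FF ψ f R x) hF1 (fun R hR => hint x R hR)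
        hR.1.le hR.2)
    exact OFFAN_.rt4 (iSup₂_le key)
  have hms : MeasurableSet (A1 n) := by
    apply IsClosed.measurableSet
    exact (isClosed_le continuous_const continuous_norm).inter
      (isClosed_le continuous_norm continuous_const)
  calc ∫⁻ x in A1 n, (⨆ R ∈ Ioc 0 R0, ‖S f R x‖ₑ) ^ 2
      ≤ ∫⁻ x in A1 n, ∫⁻ R in Ioc 0 R0, (‖FF ψ f R x‖ₑ ^ 2 + ‖F1 ψ f R x‖ₑ ^ 2) := by
        apply lintegral_mono_ae
        exact (ae_restrict_iff' hms).2 (Eventually.of_forall hpt)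
    _ ≤ ∫⁻ x, ∫⁻ R in Ioc 0 R0, (‖FF ψ f R x‖ₑ ^ 2 + ‖F1 ψ f R x‖ₑ ^ 2) :=
        lintegral_mono' Measure.restrict_le_self le_rfl
    _ ≤ C * ENNReal.ofReal ((1 + R0) ^ n) * (∫⁻ x, ‖f x‖ₑ) ^ 2 := hen R0 hR0p.le
    _ ≤ C * ENNReal.ofReal ((1 + R0) ^ n) * (ENNReal.ofReal (r ^ n) *
          volume (Metric.ball (0 : E n) 1) * ∫⁻ x, ‖f x‖ₑ ^ 2) := by
        gcongr
        exact OFFAN_.cs hr hf hs
    _ = C * V * ENNReal.ofReal ((1 + R0) ^ n * r ^ n) * ∫⁻ x, ‖f x‖ₑ ^ 2 := by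
        rw [ENNReal.ofReal_mul (p := (1 + R0) ^ n) (by positivity), ← hV]
        ring
    _ ≤ C * V * ENNReal.ofReal (2 ^ n * r) * ∫⁻ x, ‖f x‖ₑ ^ 2 := by
        have := OFFAN_.num hn hr hr2
        gcongr
    _ = ((C * V * 2 ^ n : ℝ≥0) : ℝ≥0∞) * ENNReal.ofReal r * ∫⁻ x, ‖f x‖ₑ ^ 2 := by
        rw [ENNReal.ofReal_mul (by positivity)]
        push_cast
        rw [show ENNReal.ofReal (2 ^ n) = 2 ^ n by
          rw [ENNReal.ofReal_pow (by norm_num)]; norm_num]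
        ring

end Pool.Agent.CRN
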