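import Pool.Agent.CRN.Targets
import Pool.Agent.MBS.J3

set_option autoImplicit false

/-!
# OFFBN: large radii, oscillator lemma (n-dimensional version of `CRL/P_OFFB.lean`)
-/

namespace Pool.Agent.CRN

open MeasureTheory FourierTransform Set Filter Topology
open scoped ENNReal NNReal
open Pool.Agent.MBS (E ex S Sstar)

namespace OFFBN_

variable {n : ℕ}

lemma enorm_sq (z : ℂ) : ‖z‖ₑ ^ 2 = ENNReal.ofReal (‖z‖ ^ 2) := by
  rw [← ofReal_norm, ENNReal.ofReal_pow (norm_nonneg _)]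

/-- the oscillator lemma on `[R, R+L]` -/
lemma osc (F F1 F2 : ℝ → ℂ) (w R L : ℝ) (hL : 0 < L) (hR : 0 < R)
    (hc : ContinuousOn F2 (Ioi 0))
    (hF : ∀ t, 0 < t → HasDerivAt F (F1 t) t) (hF1 : ∀ t, 0 < t → HasDerivAt F1 (F2 t) t) :
    ‖F R‖ₑ ^ 2 ≤ ∫⁻ t in Ioc R (R + L), (ENNReal.ofReal (162 / L) * ‖F t‖ₑ ^ 2 +
      ENNReal.ofReal (2 * L ^ 3) * ‖F2 t + ((w ^ 2 : ℝ) : ℂ) * F t‖ₑ ^ 2) := by
  have hab : R < R + L := by linarith
  have hsub : Icc R (R + L) ⊆ Ioi (0 : ℝ) := fun t ht => lt_of_lt_of_le hR ht.1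
  have hcF : ContinuousOn F (Icc R (R + L)) := fun t ht =>
    (hF t (hsub ht)).continuousAt.continuousWithinAt
  have hcF2 : ContinuousOn F2 (Icc R (R + L)) := hc.mono hsub
  have h1 := Pool.Agent.MBS.ode_bound F F1 F2 w R (R + L) hab hcF2
    (fun t ht => hF t (hsub ht)) (fun t ht => hF1 t (hsub ht)) R ⟨le_rfl, hab.le⟩
  have hL' : R + L - R = L := by ring
  rw [hL'] at h1
  obtain ⟨G, hG⟩ : ∃ G : ℝ → ℂ, G = fun t => F2 t + ((w ^ 2 : ℝ) : ℂ) * F t := ⟨_, rfl⟩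
  have hcG : ContinuousOn G (Icc R (R + L)) := by
    rw [hG]; exact hcF2.add (continuousOn_const.mul hcF)
  have h1' : ‖F R‖ ≤ ∫ t in R..(R + L), (9 / L * ‖F t‖ + L * ‖G t‖) := by
    rw [hG]; exact h1
  have hch : ContinuousOn (fun t => 9 / L * ‖F t‖ + L * ‖G t‖) (Icc R (R + L)) :=
    (continuousOn_const.mul hcF.norm).add (continuousOn_const.mul hcG.norm)
  have h2 := Pool.Agent.MBS.sq_integral_le (fun t => 9 / L * ‖F t‖ + L * ‖G t‖) R (R + L) hab hch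
  rw [hL'] at h2
  have h3 : ‖F R‖ ^ 2 ≤ ∫ t in Ioc R (R + L), L * (9 / L * ‖F t‖ + L * ‖G t‖) ^ 2 := by
    calc ‖F R‖ ^ 2 ≤ (∫ t in R..(R + L), (9 / L * ‖F t‖ + L * ‖G t‖)) ^ 2 :=
          pow_le_pow_left₀ (norm_nonneg _) h1' 2
      _ ≤ L * ∫ t in R..(R + L), (9 / L * ‖F t‖ + L * ‖G t‖) ^ 2 := h2
      _ = ∫ t in R..(R + L), L * (9 / L * ‖F t‖ + L * ‖G t‖) ^ 2 := by
          rw [intervalIntegral.integral_const_mul]
      _ = ∫ t in Ioc R (R + L), L * (9 / L * ‖F t‖ + L * ‖G t‖) ^ 2 :=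
          intervalIntegral.integral_of_le hab.le
  have hint : IntegrableOn (fun t => L * (9 / L * ‖F t‖ + L * ‖G t‖) ^ 2) (Ioc R (R + L)) :=
    ((continuousOn_const.mul (hch.pow 2)).integrableOn_Icc).mono_set Ioc_subset_Icc_self
  have h4 : ENNReal.ofReal (∫ t in Ioc R (R + L), L * (9 / L * ‖F t‖ + L * ‖G t‖) ^ 2) =
      ∫⁻ t in Ioc R (R + L), ENNReal.ofReal (L * (9 / L * ‖F t‖ + L * ‖G t‖) ^ 2) :=
    ofReal_integral_eq_lintegral_ofReal hint (Eventually.of_forall fun t => by positivity)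
  rw [enorm_sq]
  refine (ENNReal.ofReal_le_ofReal h3).trans ?_
  rw [h4]
  refine lintegral_mono fun t => ?_
  have e1 : F2 t + ((w ^ 2 : ℝ) : ℂ) * F t = G t := by rw [hG]
  rw [e1, enorm_sq, enorm_sq, ← ENNReal.ofReal_mul (by positivity),
    ← ENNReal.ofReal_mul (by positivity), ← ENNReal.ofReal_add (by positivity) (by positivity)]
  refine ENNReal.ofReal_le_ofReal ?_
  have h5 : (9 / L * ‖F t‖ + L * ‖G t‖) ^ 2 ≤ 2 * ((9 / L * ‖F t‖) ^ 2 + (L * ‖G t‖) ^ 2) := by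
    nlinarith [sq_nonneg (9 / L * ‖F t‖ - L * ‖G t‖)]
  have h6 : L * (2 * ((9 / L * ‖F t‖) ^ 2 + (L * ‖G t‖) ^ 2)) =
      162 / L * ‖F t‖ ^ 2 + 2 * L ^ 3 * ‖G t‖ ^ 2 := by
    field_simp
    ring
  rw [← h6]
  exact mul_le_mul_of_nonneg_left h5 hL.le

/-- multiplication by a bounded function -/
lemma mulnice {f : E n → ℂ} {r : ℝ} (hr : 0 < r) (hr2 : r ≤ 1 / 2) (hf : Nice f)
    (hs : ∀ y, f y ≠ 0 → ‖y‖ ≤ r) (m : E n → ℂ) (hm : Measurable m)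
    (hb : ∀ y, ‖y‖ ≤ r → ‖m y‖ ≤ r) :
    Nice (fun y => m y * f y) ∧ (∀ y, m y * f y ≠ 0 → ‖y‖ ≤ r) ∧
      ∫⁻ y, ‖m y * f y‖ₑ ^ 2 ≤ ENNReal.ofReal (r ^ 2) * ∫⁻ y, ‖f y‖ₑ ^ 2 := by
  have hb' : ∀ y, ‖m y * f y‖ ≤ r * ‖f y‖ := by
    intro y
    by_cases h : f y = 0
    · simp [h]
    · rw [norm_mul]
      exact mul_le_mul_of_nonneg_right (hb y (hs y h)) (norm_nonneg _)
  have hb1 : ∀ y, ‖m y * f y‖ ≤ ‖f y‖ := fun y =>
    (hb' y).trans (by nlinarith [norm_nonneg (f y)])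
  have hmeas : Measurable (fun y => m y * f y) := hm.mul hf.meas
  refine ⟨⟨hmeas, hf.int.mono hmeas.aestronglyMeasurable (Eventually.of_forall hb1),
    hf.sq.of_le hmeas.aestronglyMeasurable (Eventually.of_forall hb1)⟩, ?_, ?_⟩
  · intro y hy
    exact hs y fun h => hy (by rw [h, mul_zero])
  · rw [← lintegral_const_mul' _ _ ENNReal.ofReal_ne_top]
    refine lintegral_mono fun y => ?_
    rw [enorm_sq, enorm_sq, ← ENNReal.ofReal_mul (by positivity)]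
    refine ENNReal.ofReal_le_ofReal ?_
    rw [← mul_pow]
    exact pow_le_pow_left₀ (norm_nonneg _) (hb' y) 2

/-- the energy density -/
noncomputable def AA (ψ h : E n → ℂ) (t : ℝ) (x : E n) : ℝ≥0∞ :=
  ‖FF ψ h t x‖ₑ ^ 2 + ‖F1 ψ h t x‖ₑ ^ 2

lemma meas_AA (ψ f : E n → ℂ)
    (hc : ContinuousOn (fun p : ℝ × E n => F1 ψ f p.1 p.2) (Ici 0 ×ˢ univ))
    (hFF : ∀ (x : E n) (R : ℝ), 0 ≤ R → FF ψ f R x = ∫ r in (0 : ℝ)..R, F1 ψ f r x) :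
    ∃ H : ℝ × E n → ℝ≥0∞, Measurable H ∧ ∀ t x, 0 ≤ t → H (t, x) = AA ψ f t x := by
  classical
  obtain ⟨G1, hG1⟩ : ∃ G1 : ℝ × E n → ℂ, G1 = (Ici (0 : ℝ) ×ˢ (univ : Set (E n))).piecewise
    (fun p => F1 ψ f p.1 p.2) (fun _ => 0) := ⟨_, rfl⟩
  have hG1m : Measurable G1 := by
    rw [hG1]
    exact hc.measurable_piecewise continuousOn_const (measurableSet_Ici.prod MeasurableSet.univ)
  have hG1e : ∀ t x, 0 ≤ t → G1 (t, x) = F1 ψ f t x := by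
    intro t x ht
    rw [hG1]
    exact piecewise_eq_of_mem _ _ _ (show (t, x) ∈ Ici (0 : ℝ) ×ˢ (univ : Set (E n)) from
      ⟨ht, mem_univ _⟩)
  obtain ⟨K, hK⟩ : ∃ K : (ℝ × E n) × ℝ → ℂ, K = fun q =>
    indicator {q : (ℝ × E n) × ℝ | 0 < q.2 ∧ q.2 ≤ q.1.1} (fun q => G1 (q.2, q.1.2)) q := ⟨_, rfl⟩
  have hKm : Measurable K := by
    rw [hK]
    refine Measurable.indicator ?_ ?_
    · exact hG1m.comp (measurable_snd.prodMk (measurable_snd.comp measurable_fst))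
    · exact (measurableSet_lt measurable_const measurable_snd).inter
        (measurableSet_le measurable_snd (measurable_fst.comp measurable_fst))
  have hG0m : Measurable (fun p : ℝ × E n => ∫ s, K (p, s)) :=
    (hKm.stronglyMeasurable.integral_prod_right').measurable
  have hG0e : ∀ t x, 0 ≤ t → ∫ s, K ((t, x), s) = FF ψ f t x := by
    intro t x ht
    rw [hFF x t ht, intervalIntegral.integral_of_le ht, ← integral_indicator measurableSet_Ioc]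
    refine integral_congr_ae (Eventually.of_forall fun s => ?_)
    by_cases hs : s ∈ Ioc 0 t
    · have e1 : K ((t, x), s) = G1 (s, x) := by
        rw [hK]
        exact indicator_of_mem (show ((t, x), s) ∈ {q : (ℝ × E n) × ℝ | 0 < q.2 ∧ q.2 ≤ q.1.1}
          from ⟨hs.1, hs.2⟩) _
      show K ((t, x), s) = _
      rw [indicator_of_mem hs, e1, hG1e s x hs.1.le]
    · have e1 : K ((t, x), s) = 0 := by
        rw [hK]
        exact indicator_of_notMem (fun h => hs ⟨h.1, h.2⟩) _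
      show K ((t, x), s) = _
      rw [indicator_of_notMem hs, e1]
  refine ⟨fun p => ‖∫ s, K (p, s)‖ₑ ^ 2 + ‖G1 p‖ₑ ^ 2,
    (hG0m.enorm.pow_const 2).add (hG1m.enorm.pow_const 2), ?_⟩
  intro t x ht
  unfold AA
  rw [← hG0e t x ht, ← hG1e t x ht]


lemma far (r : ℝ) (hr2 : r ≤ 1 / 2) (x y : E n) (hx : 1 ≤ ‖x‖ ∧ ‖x‖ ≤ 2) (h : ‖y‖ ≤ r) :
    1 / 2 ≤ ‖x - y‖ ∧ ‖x - y‖ ≤ 5 / 2 := by
  have h1 := norm_sub_norm_le x y
  have h2 := norm_sub_le x y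
  constructor
  · linarith [hx.1]
  · linarith [hx.2]

lemma hasD (Φ : ℝ → E n → ℂ)
    (hc : ContinuousOn (fun p : ℝ × E n => Φ p.1 p.2) (Ici 0 ×ˢ univ)) (x : E n) (t : ℝ)
    (ht : 0 < t) :
    HasDerivAt (fun R => ∫ s in (0 : ℝ)..R, Φ s x) (Φ t x) t := by
  have hcx : ContinuousOn (fun s => Φ s x) (Ici 0) := by
    have hp : Continuous (fun s : ℝ => ((s, x) : ℝ × E n)) := by fun_prop
    exact ContinuousOn.comp (g := fun p : ℝ × E n => Φ p.1 p.2) (f := fun s : ℝ => (s, x)) hc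
      hp.continuousOn (fun s hs => ⟨hs, mem_univ _⟩)
  refine intervalIntegral.integral_hasDerivAt_right ?_ ?_ ?_
  · refine ContinuousOn.intervalIntegrable ?_
    rw [uIcc_of_le ht.le]
    exact hcx.mono fun s hs => hs.1
  · exact (hcx.mono Ioi_subset_Ici_self).stronglyMeasurableAtFilter isOpen_Ioi t ht
  · exact hcx.continuousAt (Ici_mem_nhds ht)

lemma S1_eq (ψ : E n → ℂ) (B : ℝ) (hψ : Psi ψ B) (h2 : T_SMN) (h4 : T_D2SN)
    (hn : 2 ≤ n) (f : E n → ℂ)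
    (hf : Nice f) (r : ℝ) (hr2 : r ≤ 1 / 2) (hs : ∀ y, f y ≠ 0 → ‖y‖ ≤ r)
    (hc : ContinuousOn (fun p : ℝ × E n => F1 ψ f p.1 p.2) (Ici 0 ×ˢ univ))
    (hFF : ∀ (x : E n) (R : ℝ), 0 ≤ R → FF ψ f R x = ∫ r in (0 : ℝ)..R, F1 ψ f r x)
    (x : E n) (hx : 1 ≤ ‖x‖ ∧ ‖x‖ ≤ 2) :
    (∀ t, 0 ≤ t → S f t x = FF ψ f t x) ∧ ∀ t, 0 < t → S1 f t x = F1 ψ f t x := by
  have hS : ∀ t, 0 ≤ t → S f t x = FF ψ f t x :=
    h2 n ψ B hn hψ f hf x fun y hy => far r hr2 x y hx (hs y hy)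
  refine ⟨hS, fun t ht => ?_⟩
  have hd1 : HasDerivAt (fun R => S f R x) (S1 f t x) t :=
    (h4 n f hn hf (fun y hy => (hs y hy).trans (by linarith)) x t ht).1
  have hd3 : HasDerivAt (fun R => S f R x) (F1 ψ f t x) t := by
    refine (hasD (F1 ψ f) hc x t ht).congr_of_eventuallyEq ?_
    filter_upwards [Ioi_mem_nhds ht] with s hs'
    rw [hS s (le_of_lt hs'), hFF x s (le_of_lt hs')]
  exact HasDerivAt.unique hd1 hd3


/-- the multipliers `y_j` and `|y|^2` -/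
noncomputable def mo (n : ℕ) : Option (Fin n) → E n → ℂ
  | none => fun y => ((‖y‖ ^ 2 : ℝ) : ℂ)
  | some j => fun y => ((y j : ℝ) : ℂ)

/-- pointwise bound of the integrand -/
lemma ptw (q t X : ℝ) (xx : Fin n → ℝ) (a b : ℂ) (c : Option (Fin n) → ℂ) (hq : 0 < q)
    (hn : 2 ≤ n) (ht : (q ^ 2)⁻¹ ≤ t) (h0 : ∀ j, |xx j| ≤ 2) :
    ENNReal.ofReal (162 / q⁻¹) * ‖a‖ₑ ^ 2 + ENNReal.ofReal (2 * q⁻¹ ^ 3) *
      ‖(((n : ℂ) - 1) / t * b - 4 * Real.pi ^ 2 * X ^ 2 * a +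
        4 * Real.pi ^ 2 * (2 * (∑ j : Fin n, (xx j : ℂ) * c (some j)) - c none)) +
        (((2 * Real.pi * X) ^ 2 : ℝ) : ℂ) * a‖ₑ ^ 2 ≤
      ENNReal.ofReal ((162 + 4 * (n : ℝ) ^ 2) * q) * (‖a‖ₑ ^ 2 + ‖b‖ₑ ^ 2) +
        ENNReal.ofReal (102400 * ((n : ℝ) + 1) * q⁻¹ ^ 3) * ∑ o, ‖c o‖ₑ ^ 2 := by
  have hq2 : 0 < (q ^ 2)⁻¹ := by positivity
  have ht0 : 0 < t := lt_of_lt_of_le hq2 ht
  have hti : 1 / t ≤ q ^ 2 := by
    rw [one_div]
    exact inv_le_of_inv_le₀ (by positivity) ht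
  have hn1 : (2 : ℝ) ≤ n := by exact_mod_cast hn
  have e : (((n : ℂ) - 1) / t * b - 4 * Real.pi ^ 2 * X ^ 2 * a +
        4 * Real.pi ^ 2 * (2 * (∑ j : Fin n, (xx j : ℂ) * c (some j)) - c none)) +
        (((2 * Real.pi * X) ^ 2 : ℝ) : ℂ) * a =
      (((n : ℝ) - 1 : ℝ) : ℂ) * (b / t) +
        (∑ j : Fin n, ((4 * Real.pi ^ 2 * 2 * xx j : ℝ) : ℂ) * c (some j)) -
        ((4 * Real.pi ^ 2 : ℝ) : ℂ) * c none := by
    have e0 : ∑ j : Fin n, ((4 * Real.pi ^ 2 * 2 * xx j : ℝ) : ℂ) * c (some j) =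
        4 * Real.pi ^ 2 * (2 * ∑ j : Fin n, (xx j : ℂ) * c (some j)) := by
      rw [Finset.mul_sum, Finset.mul_sum]
      refine Finset.sum_congr rfl fun j _ => ?_
      push_cast
      ring
    rw [e0]
    push_cast
    ring
  rw [e]
  have hpi : Real.pi ^ 2 ≤ 10 := by nlinarith [Real.pi_lt_d2, Real.pi_pos]
  have hb : ‖(((n : ℝ) - 1 : ℝ) : ℂ) * (b / t)‖ ≤ n * (q ^ 2 * ‖b‖) := by
    rw [norm_mul, norm_div, Complex.norm_real, Complex.norm_real, Real.norm_eq_abs,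
      Real.norm_eq_abs, abs_of_pos ht0, abs_of_nonneg (by linarith), div_eq_mul_one_div,
      mul_comm ‖b‖]
    exact mul_le_mul (by linarith) (mul_le_mul_of_nonneg_right hti (norm_nonneg _))
      (by positivity) (by positivity)
  have hx : ∀ y : ℝ, |y| ≤ 2 → ∀ c : ℂ, ‖((4 * Real.pi ^ 2 * 2 * y : ℝ) : ℂ) * c‖ ≤ 160 * ‖c‖ := by
    intro y hy c
    rw [norm_mul, Complex.norm_real, Real.norm_eq_abs, abs_mul, abs_of_nonneg (by positivity)]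
    refine mul_le_mul_of_nonneg_right ?_ (norm_nonneg _)
    nlinarith [abs_nonneg y, sq_nonneg Real.pi]
  have hc2 : ‖((4 * Real.pi ^ 2 : ℝ) : ℂ) * c none‖ ≤ 160 * ‖c none‖ := by
    rw [norm_mul, Complex.norm_real, Real.norm_eq_abs, abs_of_nonneg (by positivity)]
    refine mul_le_mul_of_nonneg_right ?_ (norm_nonneg _)
    linarith
  have hsum : ‖∑ j : Fin n, ((4 * Real.pi ^ 2 * 2 * xx j : ℝ) : ℂ) * c (some j)‖ ≤
      160 * ∑ j : Fin n, ‖c (some j)‖ := by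
    rw [Finset.mul_sum]
    exact norm_sum_le_of_le _ fun j _ => hx (xx j) (h0 j) (c (some j))
  have hN : ‖(((n : ℝ) - 1 : ℝ) : ℂ) * (b / t) +
        (∑ j : Fin n, ((4 * Real.pi ^ 2 * 2 * xx j : ℝ) : ℂ) * c (some j)) -
        ((4 * Real.pi ^ 2 : ℝ) : ℂ) * c none‖ ≤
      n * (q ^ 2 * ‖b‖) + 160 * ∑ o, ‖c o‖ := by
    rw [Fintype.sum_option]
    refine (norm_sub_le _ _).trans ?_
    have h1 := norm_add_le ((((n : ℝ) - 1 : ℝ) : ℂ) * (b / t))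
      (∑ j : Fin n, ((4 * Real.pi ^ 2 * 2 * xx j : ℝ) : ℂ) * c (some j))
    linarith
  have hcs : (∑ o, ‖c o‖) ^ 2 ≤ ((n : ℝ) + 1) * ∑ o, ‖c o‖ ^ 2 := by
    have h1 := sq_sum_le_card_mul_sum_sq (s := (Finset.univ : Finset (Option (Fin n))))
      (f := fun o => ‖c o‖)
    have h2 : ((Finset.univ : Finset (Option (Fin n))).card : ℝ) = (n : ℝ) + 1 := by
      rw [Finset.card_univ, Fintype.card_option, Fintype.card_fin]
      push_cast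
      ring
    rw [h2] at h1
    exact h1
  have hN2 : ‖(((n : ℝ) - 1 : ℝ) : ℂ) * (b / t) +
        (∑ j : Fin n, ((4 * Real.pi ^ 2 * 2 * xx j : ℝ) : ℂ) * c (some j)) -
        ((4 * Real.pi ^ 2 : ℝ) : ℂ) * c none‖ ^ 2 ≤
      2 * ((n : ℝ) ^ 2 * (q ^ 4 * ‖b‖ ^ 2)) + 51200 * (((n : ℝ) + 1) * ∑ o, ‖c o‖ ^ 2) := by
    refine (pow_le_pow_left₀ (norm_nonneg _) hN 2).trans ?_
    have h1 : (n * (q ^ 2 * ‖b‖) + 160 * ∑ o, ‖c o‖) ^ 2 ≤
        2 * ((n : ℝ) ^ 2 * (q ^ 4 * ‖b‖ ^ 2)) + 51200 * (∑ o, ‖c o‖) ^ 2 := by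
      nlinarith [sq_nonneg (n * (q ^ 2 * ‖b‖) - 160 * ∑ o, ‖c o‖)]
    linarith
  simp only [enorm_sq]
  rw [← ENNReal.ofReal_sum_of_nonneg (fun o _ => by positivity),
    ← ENNReal.ofReal_add (by positivity) (by positivity),
    ← ENNReal.ofReal_mul (by positivity), ← ENNReal.ofReal_mul (by positivity),
    ← ENNReal.ofReal_mul (by positivity), ← ENNReal.ofReal_mul (by positivity),
    ← ENNReal.ofReal_add (by positivity) (by positivity),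
    ← ENNReal.ofReal_add (by positivity) (by positivity)]
  refine ENNReal.ofReal_le_ofReal ?_
  have hm := mul_le_mul_of_nonneg_left hN2 (show (0 : ℝ) ≤ 2 * q⁻¹ ^ 3 by positivity)
  refine (add_le_add_right hm _).trans ?_
  obtain ⟨Z, hZ⟩ : ∃ Z : ℝ, Z = ∑ o, ‖c o‖ ^ 2 := ⟨_, rfl⟩
  rw [← hZ]
  have e1 : 2 * q⁻¹ ^ 3 * (2 * ((n : ℝ) ^ 2 * (q ^ 4 * ‖b‖ ^ 2)) +
      51200 * (((n : ℝ) + 1) * Z)) =
      4 * (n : ℝ) ^ 2 * q * ‖b‖ ^ 2 + 102400 * ((n : ℝ) + 1) * q⁻¹ ^ 3 * Z := by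
    field_simp
    ring
  have e2 : 162 / q⁻¹ * ‖a‖ ^ 2 = 162 * q * ‖a‖ ^ 2 := by
    rw [div_inv_eq_mul]
  rw [e1, e2]
  have h5 : 0 ≤ q * ‖b‖ ^ 2 := by positivity
  have h6 : 0 ≤ (n : ℝ) ^ 2 * q * ‖a‖ ^ 2 := by positivity
  nlinarith


lemma per_x (ψ : E n → ℂ) (B : ℝ) (hψ : Psi ψ B) (h2 : T_SMN) (h4 : T_D2SN) (hn : 2 ≤ n)
    (hE : ∀ g : E n → ℂ, Nice g →
      ContinuousOn (fun p : ℝ × E n => F1 ψ g p.1 p.2) (Ici 0 ×ˢ univ) ∧
      ∀ (x : E n) (R : ℝ), 0 ≤ R → FF ψ g R x = ∫ r in (0 : ℝ)..R, F1 ψ g r x)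
    (q : ℝ) (hq : 0 < q) (hr2 : q ^ 4 ≤ 1 / 2) (f : E n → ℂ) (g : Option (Fin n) → E n → ℂ)
    (eg : ∀ o, g o = fun y => mo n o y * f y)
    (hf : Nice f) (ng : ∀ o, Nice (g o))
    (hs : ∀ y, f y ≠ 0 → ‖y‖ ≤ q ^ 4) (sg : ∀ o, ∀ y, g o y ≠ 0 → ‖y‖ ≤ q ^ 4)
    (x : E n) (hx : 1 ≤ ‖x‖ ∧ ‖x‖ ≤ 2) (R : ℝ) (hR : (q ^ 2)⁻¹ ≤ R) :
    ‖S f R x‖ₑ ^ 2 ≤ ∫⁻ t in Ioi (0 : ℝ), (ENNReal.ofReal ((162 + 4 * (n : ℝ) ^ 2) * q) *
      AA ψ f t x + ENNReal.ofReal (102400 * ((n : ℝ) + 1) * q⁻¹ ^ 3) * ∑ o, AA ψ (g o) t x) := by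
  have hR0 : 0 < R := lt_of_lt_of_le (by positivity) hR
  have hle : ∀ g : E n → ℂ, (∀ y, g y ≠ 0 → ‖y‖ ≤ q ^ 4) → ∀ y, g y ≠ 0 → ‖y‖ ≤ 1 :=
    fun g hg y hy => (hg y hy).trans (by linarith)
  have hDS : ∀ g : E n → ℂ, Nice g → (∀ y, g y ≠ 0 → ‖y‖ ≤ q ^ 4) →
      ContinuousOn (fun t : ℝ => S g t x) (Ioi 0) := by
    intro g hg hgs t ht
    exact ((h4 n g hn hg (hle g hgs) x t ht).1).continuousAt.continuousWithinAt
  have hD1 : ContinuousOn (fun t : ℝ => S1 f t x) (Ioi 0) := by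
    intro t ht
    exact ((h4 n f hn hf (hle f hs) x t ht).2).continuousAt.continuousWithinAt
  have hcc : ContinuousOn (fun t : ℝ => ((n : ℂ) - 1) / t * S1 f t x -
    4 * Real.pi ^ 2 * ‖x‖ ^ 2 * S f t x +
    4 * Real.pi ^ 2 * (2 * (∑ j : Fin n, (x j : ℂ) * S (g (some j)) t x) -
      S (g none) t x)) (Ioi 0) := by
    refine ContinuousOn.add (ContinuousOn.sub (ContinuousOn.mul (ContinuousOn.div
      continuousOn_const Complex.continuous_ofReal.continuousOn ?_) hD1)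
      (continuousOn_const.mul (hDS f hf hs)))
      (continuousOn_const.mul ((continuousOn_const.mul (continuousOn_finset_sum _ fun j _ =>
        continuousOn_const.mul (hDS (g (some j)) (ng _) (sg _)))).sub
          (hDS (g none) (ng _) (sg _))))
    intro t ht
    exact Complex.ofReal_ne_zero.mpr (ne_of_gt ht)
  have hosc := osc (fun t => S f t x) (fun t => S1 f t x)
    (fun t : ℝ => ((n : ℂ) - 1) / t * S1 f t x - 4 * Real.pi ^ 2 * ‖x‖ ^ 2 * S f t x +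
    4 * Real.pi ^ 2 * (2 * (∑ j : Fin n, (x j : ℂ) * S (g (some j)) t x) - S (g none) t x))
    (2 * Real.pi * ‖x‖) R q⁻¹ (by positivity) hR0 hcc
    (fun t ht => (h4 n f hn hf (hle f hs) x t ht).1)
    (fun t ht => by
      have h := (h4 n f hn hf (hle f hs) x t ht).2
      simp only [eg]
      exact h)
  refine hosc.trans ?_
  have hx0 : ∀ j : Fin n, |x j| ≤ 2 := fun j => (PiLp.norm_apply_le x j).trans hx.2
  have hSf := S1_eq ψ B hψ h2 h4 hn f hf (q ^ 4) hr2 hs (hE f hf).1 (hE f hf).2 x hx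
  have hSg := fun o => S1_eq ψ B hψ h2 h4 hn (g o) (ng o) (q ^ 4) hr2 (sg o)
    (hE (g o) (ng o)).1 (hE (g o) (ng o)).2 x hx
  have hmono : ∫⁻ t in Ioc R (R + q⁻¹), (ENNReal.ofReal ((162 + 4 * (n : ℝ) ^ 2) * q) *
      AA ψ f t x + ENNReal.ofReal (102400 * ((n : ℝ) + 1) * q⁻¹ ^ 3) * ∑ o, AA ψ (g o) t x) ≤
      ∫⁻ t in Ioi (0 : ℝ), (ENNReal.ofReal ((162 + 4 * (n : ℝ) ^ 2) * q) *
      AA ψ f t x + ENNReal.ofReal (102400 * ((n : ℝ) + 1) * q⁻¹ ^ 3) * ∑ o, AA ψ (g o) t x) :=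
    lintegral_mono_set fun t ht => lt_trans hR0 ht.1
  refine le_trans (setLIntegral_mono' measurableSet_Ioc fun t ht => ?_) hmono
  have ht0 : 0 < t := lt_trans hR0 ht.1
  refine (ptw q t ‖x‖ (fun j => x j) (S f t x) (S1 f t x) (fun o => S (g o) t x) hq hn
    (hR.trans ht.1.le) hx0).trans ?_
  refine add_le_add ?_ (mul_le_mul_right (Finset.sum_le_sum fun o _ => ?_) _)
  · rw [hSf.1 t ht0.le, hSf.2 t ht0]
    exact le_rfl
  · rw [(hSg o).1 t ht0.le]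
    exact le_self_add

lemma sup_sq {u : ℝ → ℝ≥0∞} {s : Set ℝ} {Z : ℝ≥0∞} (h : ∀ R ∈ s, u R ^ 2 ≤ Z) :
    (⨆ R ∈ s, u R) ^ 2 ≤ Z := by
  have h1 : (⨆ R ∈ s, u R) ≤ Z ^ ((2 : ℝ)⁻¹) := by
    refine iSup₂_le fun R hR => ?_
    rw [ENNReal.le_rpow_inv_iff (by norm_num)]
    have := h R hR
    rwa [← ENNReal.rpow_natCast] at this
  rw [ENNReal.le_rpow_inv_iff (by norm_num)] at h1
  rw [← ENNReal.rpow_natCast]
  exact h1


lemma lin5 {α ι : Type*} [MeasurableSpace α] [Fintype ι] (μ : Measure α) (g : α → ℝ≥0∞)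
    (G : ι → α → ℝ≥0∞) (mg : Measurable g) (mG : ∀ o, Measurable (G o)) (c1 c2 : ℝ≥0∞) :
    ∫⁻ a, (c1 * g a + c2 * ∑ o, G o a) ∂μ =
      c1 * (∫⁻ a, g a ∂μ) + c2 * ∑ o, ∫⁻ a, G o a ∂μ := by
  rw [lintegral_add_left (mg.const_mul c1), lintegral_const_mul _ mg,
    lintegral_const_mul c2 (Finset.measurable_sum _ fun o _ => mG o),
    lintegral_finset_sum _ fun o _ => mG o]

lemma lint5 {ι : Type*} [Fintype ι] (H : ℝ × E n → ℝ≥0∞) (G : ι → ℝ × E n → ℝ≥0∞)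
    (mH : Measurable H) (mG : ∀ o, Measurable (G o)) (c1 c2 : ℝ≥0∞) :
    ∫⁻ x, ∫⁻ t in Ioi (0 : ℝ), (c1 * H (t, x) + c2 * ∑ o, G o (t, x)) =
      c1 * (∫⁻ x, ∫⁻ t in Ioi (0 : ℝ), H (t, x)) +
        c2 * ∑ o, ∫⁻ x, ∫⁻ t in Ioi (0 : ℝ), G o (t, x) := by
  have hm : ∀ G : ℝ × E n → ℝ≥0∞, Measurable G → ∀ x, Measurable fun t => G (t, x) :=
    fun G hG x => hG.comp (measurable_id.prodMk measurable_const)
  have hi : ∀ G : ℝ × E n → ℝ≥0∞, Measurable G →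
      Measurable fun x => ∫⁻ t in Ioi (0 : ℝ), G (t, x) :=
    fun G hG => hG.lintegral_prod_left'
  rw [← lin5 volume _ (fun o x => ∫⁻ t in Ioi (0 : ℝ), G o (t, x)) (hi H mH)
    (fun o => hi (G o) (mG o)) c1 c2]
  refine lintegral_congr fun x => ?_
  exact lin5 _ _ (fun o t => G o (t, x)) (hm H mH x) (fun o => hm (G o) (mG o) x) c1 c2

end OFFBN_

open OFFBN_ in
theorem p_OFFBN (h1 : T_PSIN) (h2 : T_SMN) (h3 : T_ENN) (h4 : T_D2SN) : T_OFFBN := by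
  intro n hn
  obtain ⟨ψ, B, hψ⟩ := h1 n (by omega)
  obtain ⟨C, hC⟩ := h3 n ψ B hn hψ
  obtain ⟨M, hM⟩ : ∃ M : ℕ, M = 162 + 4 * n ^ 2 + 102400 * (n + 1) ^ 2 := ⟨_, rfl⟩
  refine ⟨M * C, fun r f hr hr2 hf hs => ?_⟩
  obtain ⟨q, hq⟩ : ∃ q : ℝ, q = Real.sqrt (Real.sqrt r) := ⟨_, rfl⟩
  have hq0 : 0 < q := by rw [hq]; exact Real.sqrt_pos.mpr (Real.sqrt_pos.mpr hr)
  have hq2 : Real.sqrt r = q ^ 2 := by rw [hq, Real.sq_sqrt (Real.sqrt_nonneg _)]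
  have hq4 : r = q ^ 4 := by
    have h := Real.sq_sqrt hr.le
    rw [hq2] at h
    rw [← h]; ring
  rw [← hq, hq2]
  subst hq4
  clear hq hq2
  have hq1 : q ≤ 1 := by
    by_contra h
    have h' : 1 ≤ q := (not_le.mp h).le
    have := one_le_pow₀ h' (n := 4)
    linarith
  -- the auxiliary functions
  obtain ⟨g, eg⟩ : ∃ g : Option (Fin n) → E n → ℂ, ∀ o, g o = fun y => mo n o y * f y :=
    ⟨fun o y => mo n o y * f y, fun _ => rfl⟩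
  have hmm : ∀ o : Option (Fin n), Measurable (mo n o) := by
    intro o
    cases o with
    | none =>
      have : Continuous (fun y : E n => ((‖y‖ ^ 2 : ℝ) : ℂ)) := by fun_prop
      exact this.measurable
    | some j =>
      have : Continuous (fun y : E n => ((y j : ℝ) : ℂ)) := by fun_prop
      exact this.measurable
  have hmb : ∀ o : Option (Fin n), ∀ y : E n, ‖y‖ ≤ q ^ 4 → ‖mo n o y‖ ≤ q ^ 4 := by
    intro o y hy
    cases o with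
    | none =>
      show ‖((‖y‖ ^ 2 : ℝ) : ℂ)‖ ≤ q ^ 4
      rw [Complex.norm_real, Real.norm_eq_abs, abs_of_nonneg (by positivity)]
      nlinarith [norm_nonneg y]
    | some j =>
      show ‖((y j : ℝ) : ℂ)‖ ≤ q ^ 4
      rw [Complex.norm_real]
      exact (PiLp.norm_apply_le y j).trans hy
  have hmul := fun o => mulnice hr hr2 hf hs (mo n o) (hmm o) (hmb o)
  have ng : ∀ o, Nice (g o) := fun o => by rw [eg o]; exact (hmul o).1
  have sg' : ∀ o, ∀ y, g o y ≠ 0 → ‖y‖ ≤ q ^ 4 := fun o => by rw [eg o]; exact (hmul o).2.1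
  obtain ⟨N, hN⟩ : ∃ N : ℝ≥0∞, N = ∫⁻ x, ‖f x‖ₑ ^ 2 := ⟨_, rfl⟩
  have ig : ∀ o, ∫⁻ y, ‖g o y‖ₑ ^ 2 ≤ ENNReal.ofReal ((q ^ 4) ^ 2) * N := fun o => by
    rw [eg o, hN]; exact (hmul o).2.2
  have hE : ∀ g : E n → ℂ, Nice g →
      ContinuousOn (fun p : ℝ × E n => F1 ψ g p.1 p.2) (Ici 0 ×ˢ univ) ∧
      ∀ (x : E n) (R : ℝ), 0 ≤ R → FF ψ g R x = ∫ r in (0 : ℝ)..R, F1 ψ g r x :=
    fun g hg => ⟨(hC g hg).1, (hC g hg).2.1⟩
  have hEN : ∀ g : E n → ℂ, Nice g →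
      ∫⁻ x, ∫⁻ R in Ioi (0 : ℝ), AA ψ g R x ≤ C * ∫⁻ x, ‖g x‖ₑ ^ 2 :=
    fun g hg => (hC g hg).2.2.1
  obtain ⟨H, mH, hH⟩ := meas_AA ψ f (hE f hf).1 (hE f hf).2
  choose G mG hG using fun o => meas_AA ψ (g o) (hE (g o) (ng o)).1 (hE (g o) (ng o)).2
  have hI : ∀ (g : E n → ℂ) (G : ℝ × E n → ℝ≥0∞), (∀ t x, 0 ≤ t → G (t, x) = AA ψ g t x) →
      ∫⁻ x, ∫⁻ t in Ioi (0 : ℝ), G (t, x) = ∫⁻ x, ∫⁻ t in Ioi (0 : ℝ), AA ψ g t x := by
    intro g G hG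
    refine lintegral_congr fun x => ?_
    exact setLIntegral_congr_fun measurableSet_Ioi fun t ht => hG t x (le_of_lt ht)
  have hms : MeasurableSet (A1 n) :=
    (measurableSet_le measurable_const measurable_norm).inter
      (measurableSet_le measurable_norm measurable_const)
  have hn0 : (0 : ℝ) ≤ n := Nat.cast_nonneg n
  calc ∫⁻ x in A1 n, (⨆ R ∈ Ici (q ^ 2)⁻¹, ‖S f R x‖ₑ) ^ 2
      ≤ ∫⁻ x in A1 n, ∫⁻ t in Ioi (0 : ℝ),
        (ENNReal.ofReal ((162 + 4 * (n : ℝ) ^ 2) * q) * AA ψ f t x +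
        ENNReal.ofReal (102400 * ((n : ℝ) + 1) * q⁻¹ ^ 3) * ∑ o, AA ψ (g o) t x) := by
        refine setLIntegral_mono' hms fun x hx => sup_sq fun R hR => ?_
        exact per_x ψ B hψ h2 h4 hn hE q hq0 hr2 f g eg hf ng hs sg' x hx R hR
    _ ≤ ∫⁻ x, ∫⁻ t in Ioi (0 : ℝ), (ENNReal.ofReal ((162 + 4 * (n : ℝ) ^ 2) * q) * AA ψ f t x +
        ENNReal.ofReal (102400 * ((n : ℝ) + 1) * q⁻¹ ^ 3) * ∑ o, AA ψ (g o) t x) :=
        setLIntegral_le_lintegral _ _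
    _ = ∫⁻ x, ∫⁻ t in Ioi (0 : ℝ), (ENNReal.ofReal ((162 + 4 * (n : ℝ) ^ 2) * q) * H (t, x) +
        ENNReal.ofReal (102400 * ((n : ℝ) + 1) * q⁻¹ ^ 3) * ∑ o, G o (t, x)) := by
        refine lintegral_congr fun x => ?_
        refine setLIntegral_congr_fun measurableSet_Ioi fun t ht => ?_
        show _ = _
        rw [hH t x (le_of_lt ht)]
        congr 2
        exact Finset.sum_congr rfl fun o _ => (hG o t x (le_of_lt ht)).symm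
    _ = ENNReal.ofReal ((162 + 4 * (n : ℝ) ^ 2) * q) *
          (∫⁻ x, ∫⁻ t in Ioi (0 : ℝ), AA ψ f t x) +
        ENNReal.ofReal (102400 * ((n : ℝ) + 1) * q⁻¹ ^ 3) *
          ∑ o, ∫⁻ x, ∫⁻ t in Ioi (0 : ℝ), AA ψ (g o) t x := by
        rw [lint5 H G mH mG, hI f H hH]
        congr 2
        exact Finset.sum_congr rfl fun o _ => hI (g o) (G o) (hG o)
    _ ≤ ENNReal.ofReal ((162 + 4 * (n : ℝ) ^ 2) * q) * (C * N) +
        ENNReal.ofReal (102400 * ((n : ℝ) + 1) * q⁻¹ ^ 3) *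
          ∑ _o : Option (Fin n), C * (ENNReal.ofReal ((q ^ 4) ^ 2) * N) := by
        refine add_le_add (mul_le_mul_right ((hEN f hf).trans_eq (by rw [hN])) _)
          (mul_le_mul_right (Finset.sum_le_sum fun o _ => ?_) _)
        exact (hEN (g o) (ng o)).trans (mul_le_mul_right (ig o) _)
    _ = ENNReal.ofReal ((162 + 4 * (n : ℝ) ^ 2) * q +
          ((n : ℝ) + 1) * (102400 * ((n : ℝ) + 1) * q⁻¹ ^ 3) * (q ^ 4) ^ 2) * (C * N) := by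
        rw [ENNReal.ofReal_add (by positivity) (by positivity), add_mul]
        congr 1
        rw [Finset.sum_const, Finset.card_univ, Fintype.card_option, Fintype.card_fin,
          nsmul_eq_mul]
        have e3 : ENNReal.ofReal (((n : ℝ) + 1) * (102400 * ((n : ℝ) + 1) * q⁻¹ ^ 3) *
            (q ^ 4) ^ 2) = ((n + 1 : ℕ) : ℝ≥0∞) *
              (ENNReal.ofReal (102400 * ((n : ℝ) + 1) * q⁻¹ ^ 3) *
                ENNReal.ofReal ((q ^ 4) ^ 2)) := by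
          rw [← ENNReal.ofReal_mul (by positivity), ← ENNReal.ofReal_natCast,
            ← ENNReal.ofReal_mul (by positivity)]
          congr 1
          push_cast
          ring
        rw [e3]
        ring
    _ ≤ ENNReal.ofReal ((M : ℝ) * q) * (C * N) := by
        refine mul_le_mul_left (ENNReal.ofReal_le_ofReal ?_) _
        have e4 : ((n : ℝ) + 1) * (102400 * ((n : ℝ) + 1) * q⁻¹ ^ 3) * (q ^ 4) ^ 2 =
            102400 * ((n : ℝ) + 1) ^ 2 * q ^ 5 := by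
          field_simp
        rw [e4]
        have h5 : q ^ 5 ≤ q := by
          calc q ^ 5 ≤ q ^ 1 := pow_le_pow_of_le_one hq0.le hq1 (by norm_num)
            _ = q := pow_one q
        have h6 := mul_le_mul_of_nonneg_left h5
          (show (0 : ℝ) ≤ 102400 * ((n : ℝ) + 1) ^ 2 by positivity)
        rw [hM]
        push_cast
        linarith
    _ = ↑(M * C) * ENNReal.ofReal q * N := by
        rw [ENNReal.ofReal_mul (Nat.cast_nonneg M), ENNReal.coe_mul, ENNReal.ofReal_natCast,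
          ENNReal.coe_natCast]
        ring
    _ = ↑(M * C) * ENNReal.ofReal q * ∫⁻ x, ‖f x‖ₑ ^ 2 := by rw [hN]

end Pool.Agent.CRN
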