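import Pool.Agent.CRN.Targets

set_option autoImplicit false

/-!
CRN-POLN: polar coordinates in `ℝⁿ` (MP_ee701d_an).
-/

namespace Pool.Agent.CRN

open MeasureTheory Set Filter Topology
open scoped ENNReal NNReal
open Pool.Agent.MBS (E ex S Sstar)

namespace POLN_

variable {n : ℕ}

theorem back (x : ({0}ᶜ : Set (E n))) :
    ((homeomorphUnitSphereProd (E n) x).2 : ℝ) •
      ((homeomorphUnitSphereProd (E n) x).1 : E n) = (x : E n) := by
  have hx : ‖(x : E n)‖ ≠ 0 := norm_ne_zero_iff.2 x.2
  simp [smul_smul, mul_inv_cancel₀ hx]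

theorem polarL (hn : 0 < n) (g : E n → ℝ≥0∞) (hg : Measurable g) :
    ∫⁻ x, g x = ∫⁻ r in Ioi (0 : ℝ), ENNReal.ofReal (r ^ (n - 1)) *
      ∫⁻ ω, g (r • (ω : E n)) ∂(sg n) := by
  have : Nonempty (Fin n) := ⟨⟨0, hn⟩⟩
  have hm := (volume : Measure (E n)).measurePreserving_homeomorphUnitSphereProd
  have h1 : ∫⁻ x, g x =
      ∫⁻ x : ({0}ᶜ : Set (E n)), g x ∂(Measure.comap (↑) (volume : Measure (E n))) := by
    rw [lintegral_subtype_comap (measurableSet_singleton (0 : E n)).compl g,
      restrict_compl_singleton]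
  have h2 : ∫⁻ x : ({0}ᶜ : Set (E n)), g x ∂(Measure.comap (↑) (volume : Measure (E n))) =
      ∫⁻ p : Metric.sphere (0 : E n) 1 × Ioi (0 : ℝ), g ((p.2 : ℝ) • (p.1 : E n))
        ∂((volume : Measure (E n)).toSphere.prod
          (Measure.volumeIoiPow (Module.finrank ℝ (E n) - 1))) := by
    rw [← hm.lintegral_comp_emb (Homeomorph.measurableEmbedding _)]
    refine lintegral_congr fun x => ?_
    rw [back]
  have h3 : Measurable fun p : Metric.sphere (0 : E n) 1 × Ioi (0 : ℝ) =>
      g ((p.2 : ℝ) • (p.1 : E n)) := hg.comp (by fun_prop)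
  rw [h1, h2, finrank_euclideanSpace, Fintype.card_fin, lintegral_prod_symm' _ h3]
  unfold Measure.volumeIoiPow
  rw [lintegral_withDensity_eq_lintegral_mul _ (by fun_prop)]
  · rw [← lintegral_subtype_comap measurableSet_Ioi
      (fun r => ENNReal.ofReal (r ^ (n - 1)) * ∫⁻ ω, g (r • (ω : E n)) ∂(sg n))]
    rfl
  · exact Measurable.lintegral_prod_left'
      (f := fun p : Metric.sphere (0 : E n) 1 × Ioi (0 : ℝ) => g ((p.2 : ℝ) • (p.1 : E n))) h3

theorem polarB (hn : 0 < n) (F : E n → ℂ) (hF : Integrable F) :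
    ∫ x, F x = ∫ r in Ioi (0 : ℝ), ((r ^ (n - 1) : ℝ) : ℂ) *
      ∫ ω, F (r • (ω : E n)) ∂(sg n) := by
  have : Nonempty (Fin n) := ⟨⟨0, hn⟩⟩
  have hm := (volume : Measure (E n)).measurePreserving_homeomorphUnitSphereProd
  have h1 : ∫ x, F x =
      ∫ x : ({0}ᶜ : Set (E n)), F x ∂(Measure.comap (↑) (volume : Measure (E n))) := by
    rw [integral_subtype_comap (measurableSet_singleton (0 : E n)).compl F,
      restrict_compl_singleton]
  have hc : Integrable (fun x : ({0}ᶜ : Set (E n)) => F x)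
      (Measure.comap (↑) (volume : Measure (E n))) := by
    have h := hF.integrableOn (s := ({0}ᶜ : Set (E n)))
    rwa [integrableOn_iff_comap_subtypeVal (measurableSet_singleton (0 : E n)).compl] at h
  have hI : Integrable (fun p : Metric.sphere (0 : E n) 1 × Ioi (0 : ℝ) =>
      F ((p.2 : ℝ) • (p.1 : E n))) ((volume : Measure (E n)).toSphere.prod
          (Measure.volumeIoiPow (Module.finrank ℝ (E n) - 1))) := by
    rw [← hm.integrable_comp_emb (Homeomorph.measurableEmbedding _)]
    refine hc.congr (Eventually.of_forall fun x => ?_)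
    simp only [Function.comp_def]
    rw [back]
  have h2 : ∫ x : ({0}ᶜ : Set (E n)), F x ∂(Measure.comap (↑) (volume : Measure (E n))) =
      ∫ p : Metric.sphere (0 : E n) 1 × Ioi (0 : ℝ), F ((p.2 : ℝ) • (p.1 : E n))
        ∂((volume : Measure (E n)).toSphere.prod
          (Measure.volumeIoiPow (Module.finrank ℝ (E n) - 1))) := by
    rw [← hm.integral_comp (Homeomorph.measurableEmbedding _)]
    refine integral_congr_ae (Eventually.of_forall fun x => ?_)
    simp only
    rw [back]
  rw [finrank_euclideanSpace, Fintype.card_fin] at hI h2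
  rw [h1, h2, integral_prod_symm _ hI]
  unfold Measure.volumeIoiPow
  have hd : Measurable (fun r : Ioi (0 : ℝ) => ((r.1 : ℝ) ^ (n - 1)).toNNReal) := by fun_prop
  have h3 : (Measure.withDensity (Measure.comap Subtype.val (volume : Measure ℝ))
      (fun r : Ioi (0 : ℝ) => ENNReal.ofReal (r.1 ^ (n - 1)))) =
      (Measure.withDensity (Measure.comap Subtype.val (volume : Measure ℝ))
      (fun r : Ioi (0 : ℝ) => (((r.1 ^ (n - 1)).toNNReal : ℝ≥0) : ℝ≥0∞))) := rfl
  rw [h3, integral_withDensity_eq_integral_smul hd]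
  rw [← integral_subtype_comap measurableSet_Ioi
      (fun r => ((r ^ (n - 1) : ℝ) : ℂ) * ∫ ω, F (r • (ω : E n)) ∂(sg n))]
  refine integral_congr_ae (Eventually.of_forall fun r => ?_)
  have hr : 0 ≤ (r.1 : ℝ) ^ (n - 1) := pow_nonneg (le_of_lt r.2) _
  simp only [NNReal.smul_def, Real.coe_toNNReal _ hr, Complex.real_smul]
  rfl

end POLN_

open POLN_

theorem p_POLN : T_POLN := by
  intro n hn
  refine ⟨fun F hF => ?_, fun F hF => polarB hn F hF, ?_⟩
  · rw [polarL hn F hF]
    refine lintegral_congr fun r => ?_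
    have h : Measurable (fun ω : Metric.sphere (0 : E n) 1 => F (r • (ω : E n))) :=
      hF.comp (by fun_prop)
    exact (lintegral_const_mul _ h).symm
  · unfold sg
    infer_instance

end Pool.Agent.CRN
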