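import Pool.Agent.CRN.Targets

/-!
# CRN: the target T_PSIN (the cutoff)
-/

set_option autoImplicit false

namespace Pool.Agent.CRN

open MeasureTheory FourierTransform Set Filter Topology
open scoped ENNReal NNReal SchwartzMap ContDiff
open Pool.Agent.MBS (E ex S Sstar)
open Pool.Agent.CAR (e1)

namespace PSIN_

/-- the profile of the cutoff -/
noncomputable def h (t : ℝ) : ℝ :=
  Real.smoothTransition (16 / 3 * (t - 1 / 16)) * Real.smoothTransition (4 / 39 * (16 - t))

lemma h_one {t : ℝ} (h1 : 1 / 4 ≤ t) (h2 : t ≤ 25 / 4) : h t = 1 := by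
  unfold h
  rw [Real.smoothTransition.one_of_one_le (by linarith),
    Real.smoothTransition.one_of_one_le (by linarith), mul_one]

lemma h_zero_left {t : ℝ} (h1 : t ≤ 1 / 16) : h t = 0 := by
  unfold h
  rw [Real.smoothTransition.zero_of_nonpos (by linarith), zero_mul]

lemma h_zero_right {t : ℝ} (h1 : 16 ≤ t) : h t = 0 := by
  unfold h
  rw [Real.smoothTransition.zero_of_nonpos (x := 4 / 39 * (16 - t)) (by linarith), mul_zero]

lemma h_smooth : ContDiff ℝ ∞ h := by
  unfold h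
  have h1 : ContDiff ℝ ∞ (fun t : ℝ => 16 / 3 * (t - 1 / 16)) := by fun_prop
  have h2 : ContDiff ℝ ∞ (fun t : ℝ => 4 / 39 * (16 - t)) := by fun_prop
  exact (Real.smoothTransition.contDiff.comp h1).mul (Real.smoothTransition.contDiff.comp h2)

/-- the cutoff -/
noncomputable def chi {n : ℕ} (z : E n) : ℂ := ((h (‖z‖ ^ 2) : ℝ) : ℂ)

lemma chi_smooth (n : ℕ) : ContDiff ℝ ∞ (chi (n := n)) := by
  unfold chi
  exact Complex.ofRealCLM.contDiff.comp (h_smooth.comp (contDiff_norm_sq ℝ))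

lemma chi_supp (n : ℕ) : HasCompactSupport (chi (n := n)) := by
  refine HasCompactSupport.of_support_subset_isCompact
    (isCompact_closedBall (0 : E n) 4) fun z hz => ?_
  rw [Function.mem_support] at hz
  rw [mem_closedBall_zero_iff]
  by_contra h4
  rw [not_le] at h4
  refine hz ?_
  unfold chi
  rw [h_zero_right (by nlinarith), Complex.ofReal_zero]

lemma chi_one {n : ℕ} {z : E n} (h1 : 1 / 2 ≤ ‖z‖) (h2 : ‖z‖ ≤ 5 / 2) : chi z = 1 := by
  unfold chi
  rw [h_one (by nlinarith) (by nlinarith), Complex.ofReal_one]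

lemma chi_zero (n : ℕ) : chi (0 : E n) = 0 := by
  unfold chi
  rw [norm_zero, h_zero_left (by norm_num), Complex.ofReal_zero]

/-- the cutoff as a Schwartz function -/
noncomputable def chS (n : ℕ) : 𝓢(E n, ℂ) := (chi_supp n).toSchwartzMap (chi_smooth n)

/-- its Fourier transform -/
noncomputable def psi (n : ℕ) : 𝓢(E n, ℂ) := 𝓕 (chS n)

lemma IN_eq_fourier {n : ℕ} (g : E n → ℂ) (x : E n) : IN g x = 𝓕 g (-x) := by
  rw [Real.fourier_eq', IN]
  refine integral_congr_ae (Filter.Eventually.of_forall fun ξ => ?_)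
  simp only [ex, smul_eq_mul]
  rw [inner_neg_right, real_inner_comm]
  have : (2 * Real.pi * Complex.I * ((inner ℝ ξ x : ℝ) : ℂ) : ℂ)
    = ((-2 * Real.pi * -(inner ℝ ξ x : ℝ) : ℝ) : ℂ) * Complex.I := by push_cast; ring
  rw [this]
  ring

lemma IN_psi {n : ℕ} (z : E n) : IN (psi n) z = chi z := by
  rw [IN_eq_fourier, ← Real.fourierInv_eq_fourier_neg]
  have h1 : (𝓕⁻ (psi n) : 𝓢(E n, ℂ)) = chS n := by
    unfold psi
    exact FourierTransform.fourierInv_fourier_eq (chS n)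
  have h2 : (𝓕⁻ (psi n : E n → ℂ)) z = (𝓕⁻ (psi n) : 𝓢(E n, ℂ)) z := by
    rw [SchwartzMap.fourierInv_coe]
  rw [h2, h1]
  rfl

end PSIN_

open PSIN_ in
/-- the target PSIN -/
theorem p_PSIN : T_PSIN := by
  intro n _
  refine ⟨psi n, 2 ^ (2 * n + 8, 0).1 * (Finset.Iic (2 * n + 8, 0)).sup
    (fun m => SchwartzMap.seminorm ℝ m.1 m.2) (psi n), ?_, ?_, ?_, ?_⟩
  · exact (psi n).continuous
  · intro ζ
    have h1 := SchwartzMap.one_add_le_sup_seminorm_apply (𝕜 := ℝ) (m := (2 * n + 8, 0))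
      (k := 2 * n + 8) (n := 0) le_rfl le_rfl (psi n) ζ
    rw [norm_iteratedFDeriv_zero] at h1
    have h2 : (0 : ℝ) < (1 + ‖ζ‖) ^ (2 * n + 8) := by positivity
    rw [← div_eq_mul_inv, le_div_iff₀ h2, mul_comm]
    exact h1
  · have h1 := IN_psi (0 : E n)
    rw [chi_zero] at h1
    rw [← h1]
    unfold IN
    refine integral_congr_ae (Filter.Eventually.of_forall fun ζ => ?_)
    simp [ex]
  · intro z h1 h2
    rw [IN_psi, chi_one h1 h2]

end Pool.Agent.CRN
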