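import Pool.Agent.CRN.Targets

set_option autoImplicit false

/-!
# CRN, target SERN: series of functions of bounded angular degree
-/

namespace Pool.Agent.CRN

open MeasureTheory FourierTransform Set Filter Topology
open scoped ENNReal NNReal Convolution
open Pool.Agent.MBS (E ex S Sstar)

namespace SERN_

variable {n : ℕ}

/-! ### ball sums -/

theorem ex_norm (x ξ : E n) : ‖ex x ξ‖ = 1 := by
  unfold ex
  rw [show 2 * (Real.pi : ℂ) * Complex.I * ((inner ℝ x ξ : ℝ) : ℂ) =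
    ((2 * Real.pi * inner ℝ x ξ : ℝ) : ℂ) * Complex.I by push_cast; ring]
  exact Complex.norm_exp_ofReal_mul_I _

theorem ex_cont2 : Continuous (fun p : E n × E n => ex p.1 p.2) := by
  unfold ex
  fun_prop

theorem ex_c (x : E n) : Continuous (fun ξ : E n => ex x ξ) :=
  ex_cont2.comp (continuous_const.prodMk continuous_id)

theorem fc {f : E n → ℂ} (hf : Integrable f) : Continuous (𝓕 f) := by
  have h : Continuous (fun p : E n × E n => (innerₗ (E n)) p.1 p.2) := continuous_inner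
  exact VectorFourier.fourierIntegral_continuous Real.continuous_fourierChar h hf

theorem f_sub {f g : E n → ℂ} (hf : Integrable f) (hg : Integrable g) (ξ : E n) :
    𝓕 (fun x => f x - g x) ξ = 𝓕 f ξ - 𝓕 g ξ := by
  rw [Real.fourier_eq, Real.fourier_eq, Real.fourier_eq, ← integral_sub]
  · congr 1 with x
    rw [smul_sub]
  · exact (Real.fourierIntegral_convergent_iff ξ).2 hf
  · exact (Real.fourierIntegral_convergent_iff ξ).2 hg

theorem S_sub {f g : E n → ℂ} (hf : Integrable f) (hg : Integrable g) (R : ℝ) (x : E n) :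
    S (fun y => f y - g y) R x = S f R x - S g R x := by
  unfold S
  rw [← integral_sub]
  · refine integral_congr_ae (ae_of_all _ fun ξ => ?_)
    show 𝓕 (fun y => f y - g y) ξ * ex x ξ = 𝓕 f ξ * ex x ξ - 𝓕 g ξ * ex x ξ
    rw [f_sub hf hg ξ]
    ring
  · exact (((fc hf).mul (ex_c x)).continuousOn).integrableOn_compact
      (isCompact_closedBall (0 : E n) R)
  · exact (((fc hg).mul (ex_c x)).continuousOn).integrableOn_compact
      (isCompact_closedBall (0 : E n) R)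

theorem S_zero (R : ℝ) (x : E n) : S (fun _ : E n => (0 : ℂ)) R x = 0 := by
  have h := S_sub (f := fun _ : E n => (0 : ℂ)) (g := fun _ : E n => (0 : ℂ))
    (integrable_zero _ _ _) (integrable_zero _ _ _) R x
  simpa using h

theorem S_add {f g : E n → ℂ} (hf : Integrable f) (hg : Integrable g) (R : ℝ) (x : E n) :
    S (fun y => f y + g y) R x = S f R x + S g R x := by
  have h := S_sub (f := fun y => f y + g y) (g := g) (hf.add hg) hg R x
  have h2 : (fun y => f y + g y - g y) = f := by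
    funext y
    ring
  rw [h2] at h
  rw [h]
  ring

theorem S_sum {u : ℕ → E n → ℂ} (hu : ∀ j, Integrable (u j)) (J : ℕ) (R : ℝ) (x : E n) :
    S (fun y => ∑ j ∈ Finset.range J, u j y) R x = ∑ j ∈ Finset.range J, S (u j) R x := by
  induction J with
  | zero => simpa using S_zero R x
  | succ J ih =>
    simp only [Finset.sum_range_succ]
    rw [S_add (integrable_finsetSum _ fun j _ => hu j) (hu J), ih]

theorem S_cont {f : E n → ℂ} (hf : Integrable f) (R : ℝ) : Continuous (S f R) := by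
  have hF := fc hf
  refine continuous_of_dominated (F := fun x ξ => 𝓕 f ξ * ex x ξ) (bound := fun ξ => ‖𝓕 f ξ‖)
    (fun x => ?_) (fun x => ae_of_all _ fun ξ => ?_) ?_ (ae_of_all _ fun ξ => ?_)
  · exact (hF.mul (ex_c x)).aestronglyMeasurable
  · rw [norm_mul, ex_norm, mul_one]
  · exact hF.norm.continuousOn.integrableOn_compact (isCompact_closedBall _ _)
  · exact continuous_const.mul (ex_cont2.comp (continuous_id.prodMk continuous_const))

theorem Sstar_meas {f : E n → ℂ} (hf : Integrable f) : Measurable (Sstar f) := by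
  unfold Sstar
  refine LowerSemicontinuous.measurable ?_
  refine lowerSemicontinuous_iSup fun R => lowerSemicontinuous_iSup fun _ => ?_
  exact (S_cont hf R).enorm.lowerSemicontinuous

theorem S_le_Sstar (f : E n → ℂ) {R : ℝ} (hR : 0 < R) (x : E n) : ‖S f R x‖ₑ ≤ Sstar f x := by
  unfold Sstar
  exact le_iSup₂ (f := fun (R : ℝ) (_ : 0 < R) => ‖S f R x‖ₑ) R hR

theorem conv_good {h : E n → ℂ} (hc : Continuous h) (hi : Integrable h)
    (hF : Integrable (𝓕 h)) (x : E n) :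
    Tendsto (fun R : ℝ => S h R x) atTop (𝓝 (h x)) := by
  have h2 : Integrable (fun ξ => 𝓕 h ξ * ex x ξ) := by
    refine Integrable.mono hF (hF.1.mul (ex_c x).aestronglyMeasurable) (ae_of_all _ fun ξ => ?_)
    rw [norm_mul, ex_norm, mul_one]
  have h3 := (aecover_closedBall (μ := (volume : Measure (E n))) (x := (0 : E n))
    (tendsto_id (α := ℝ) (x := atTop))).integral_tendsto_of_countably_generated h2
  have h4 : ∫ ξ, 𝓕 h ξ * ex x ξ = h x := by
    have h5 := congrFun (hc.fourierInv_fourier_eq hi hF) x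
    rw [Real.fourierInv_eq'] at h5
    rw [← h5]
    refine integral_congr_ae (ae_of_all _ fun ξ => ?_)
    show 𝓕 h ξ * ex x ξ = Complex.exp (((2 * Real.pi * inner ℝ ξ x : ℝ) : ℂ) * Complex.I) • 𝓕 h ξ
    rw [smul_eq_mul, mul_comm]
    congr 1
    unfold ex
    congr 1
    rw [real_inner_comm]
    push_cast
    ring
  rw [h4] at h3
  exact h3

/-! ### the norm in `L²` -/

theorem lint_eLp (f : E n → ℂ) : ∫⁻ x, ‖f x‖ₑ ^ 2 = eLpNorm f 2 ^ 2 := by
  rw [eLpNorm_eq_lintegral_rpow_enorm_toReal (by norm_num) (by norm_num)]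
  simp only [ENNReal.toReal_ofNat, ENNReal.rpow_ofNat, one_div]
  rw [← ENNReal.rpow_natCast, ← ENNReal.rpow_mul]
  norm_num

theorem planch {f : E n → ℂ} (hf : Nice f) : ∫⁻ ξ, ‖𝓕 f ξ‖ₑ ^ 2 = ∫⁻ x, ‖f x‖ₑ ^ 2 := by
  rw [lint_eLp, lint_eLp, Pool.Agent.H25.Plancherel.eLpNorm_fourier_eq hf.int hf.sq]

/-- the `L²` norm of a function with values in `[0, ∞]` -/
noncomputable def N2 (F : E n → ℝ≥0∞) : ℝ≥0∞ := (∫⁻ x, F x ^ 2) ^ (1 / 2 : ℝ)

theorem N2_mono {F G : E n → ℝ≥0∞} (h : ∀ x, F x ≤ G x) : N2 F ≤ N2 G := by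
  unfold N2
  exact ENNReal.rpow_le_rpow (lintegral_mono fun x => pow_le_pow_left' (h x) 2) (by norm_num)

theorem N2_sq (F : E n → ℝ≥0∞) : N2 F ^ 2 = ∫⁻ x, F x ^ 2 := by
  unfold N2
  rw [← ENNReal.rpow_natCast, ← ENNReal.rpow_mul]
  norm_num

theorem N2_add {F G : E n → ℝ≥0∞} (hF : Measurable F) (hG : Measurable G) :
    N2 (fun x => F x + G x) ≤ N2 F + N2 G := by
  have h := ENNReal.lintegral_Lp_add_le (μ := (volume : Measure (E n))) (p := 2)
    hF.aemeasurable hG.aemeasurable (by norm_num)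
  simpa [N2] using h

theorem N2_sum {F : ℕ → E n → ℝ≥0∞} (hF : ∀ j, Measurable (F j)) (J : ℕ) :
    N2 (fun x => ∑ j ∈ Finset.range J, F j x) ≤ ∑ j ∈ Finset.range J, N2 (F j) := by
  induction J with
  | zero => simp [N2]
  | succ J ih =>
    simp only [Finset.sum_range_succ]
    refine (N2_add (Finset.measurable_sum _ fun j _ => hF j) (hF J)).trans ?_
    gcongr

theorem N2_tsum {F : ℕ → E n → ℝ≥0∞} (hF : ∀ j, Measurable (F j)) :
    N2 (fun x => ∑' j, F j x) ≤ ∑' j, N2 (F j) := by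
  have h1 : ∫⁻ x, (∑' j, F j x) ^ 2 = ⨆ J : ℕ, ∫⁻ x, (∑ j ∈ Finset.range J, F j x) ^ 2 := by
    rw [← lintegral_iSup]
    · refine lintegral_congr fun x => ?_
      rw [ENNReal.tsum_eq_iSup_nat]
      have hm : Monotone fun J : ℕ => ∑ j ∈ Finset.range J, F j x := fun a b hab =>
        Finset.sum_le_sum_of_subset (Finset.range_mono hab)
      exact (ENNReal.iSup_pow_of_ne_zero (two_ne_zero) _)
    · intro J
      exact (Finset.measurable_sum _ fun j _ => hF j).pow_const 2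
    · intro a b hab x
      exact pow_le_pow_left' (Finset.sum_le_sum_of_subset (Finset.range_mono hab)) 2
  have h2 : ∫⁻ x, (∑' j, F j x) ^ 2 ≤ (∑' j, N2 (F j)) ^ 2 := by
    rw [h1]
    refine iSup_le fun J => ?_
    rw [← N2_sq]
    exact pow_le_pow_left' ((N2_sum hF J).trans (ENNReal.sum_le_tsum _)) 2
  unfold N2 at h2 ⊢
  calc (∫⁻ x, (∑' j, F j x) ^ 2) ^ (1 / 2 : ℝ)
      ≤ ((∑' j, (∫⁻ x, F j x ^ 2) ^ (1 / 2 : ℝ)) ^ 2) ^ (1 / 2 : ℝ) :=
        ENNReal.rpow_le_rpow h2 (by norm_num)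
    _ = _ := by
        rw [← ENNReal.rpow_natCast, ← ENNReal.rpow_mul]
        norm_num

/-- bound for the ball sums by the `L²` norm -/
theorem S_bound {h : E n → ℂ} (hh : Nice h) (R : ℝ) (x : E n) :
    ‖S h R x‖ₑ ≤ volume (Metric.closedBall (0 : E n) R) ^ (1 / 2 : ℝ) *
      (∫⁻ y, ‖h y‖ₑ ^ 2) ^ (1 / 2 : ℝ) := by
  have hm : Measurable fun ξ => ‖𝓕 h ξ‖ₑ := (fc hh.int).measurable.enorm
  have hCS := ENNReal.lintegral_mul_le_Lp_mul_Lq
    (volume.restrict (Metric.closedBall (0 : E n) R)) Real.HolderConjugate.two_two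
    (f := fun _ => (1 : ℝ≥0∞)) (g := fun ξ => ‖𝓕 h ξ‖ₑ) aemeasurable_const hm.aemeasurable
  simp only [Pi.mul_apply, one_mul, one_pow, lintegral_const, Measure.restrict_apply,
    MeasurableSet.univ, univ_inter, ENNReal.rpow_ofNat] at hCS
  have h1 : ∫⁻ ξ in Metric.closedBall (0 : E n) R, ‖𝓕 h ξ‖ₑ ^ 2 ≤ ∫⁻ y, ‖h y‖ₑ ^ 2 := by
    rw [← planch hh]
    exact setLIntegral_le_lintegral _ _
  calc ‖S h R x‖ₑ ≤ ∫⁻ ξ in Metric.closedBall (0 : E n) R, ‖𝓕 h ξ * ex x ξ‖ₑ :=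
        enorm_integral_le_lintegral_enorm _
    _ = ∫⁻ ξ in Metric.closedBall (0 : E n) R, ‖𝓕 h ξ‖ₑ := by
        refine lintegral_congr fun ξ => ?_
        rw [enorm_mul]
        have : ‖ex x ξ‖ₑ = 1 := by
          rw [← ofReal_norm, ex_norm, ENNReal.ofReal_one]
        rw [this, mul_one]
    _ ≤ _ := hCS
    _ ≤ _ := by
        gcongr

/-! ### nice functions -/

theorem nice_sub {f g : E n → ℂ} (hf : Nice f) (hg : Nice g) : Nice (fun y => f y - g y) :=
  ⟨hf.meas.sub hg.meas, hf.int.sub hg.int, hf.sq.sub hg.sq⟩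

theorem nice_sum {u : ℕ → E n → ℂ} (h : ∀ j, Nice (u j)) (J : ℕ) :
    Nice (fun y => ∑ j ∈ Finset.range J, u j y) :=
  ⟨Finset.measurable_sum _ (fun k _ => (h k).meas),
    integrable_finsetSum _ (fun k _ => (h k).int), memLp_finsetSum _ (fun k _ => (h k).sq)⟩

/-- the partial sums converge in `L²`, so the ball sums converge -/
theorem Sstar_le_tsum {f : E n → ℂ} {g : ℕ → E n → ℂ} (hf : Nice f) (hg : ∀ j, Nice (g j))
    (hc : Tendsto (fun J => ∫⁻ x, ‖f x - ∑ j ∈ Finset.range J, g j x‖ₑ ^ 2) atTop (𝓝 0))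
    (x : E n) : Sstar f x ≤ ∑' j, Sstar (g j) x := by
  unfold Sstar
  refine iSup₂_le fun R hR => ?_
  have h1 : ∀ J : ℕ, ‖S f R x‖ₑ ≤ (∑' j, Sstar (g j) x) +
      volume (Metric.closedBall (0 : E n) R) ^ (1 / 2 : ℝ) *
      (∫⁻ y, ‖f y - ∑ j ∈ Finset.range J, g j y‖ₑ ^ 2) ^ (1 / 2 : ℝ) := by
    intro J
    have h2 : S f R x = (∑ j ∈ Finset.range J, S (g j) R x) +
        S (fun y => f y - ∑ j ∈ Finset.range J, g j y) R x := by
      rw [S_sub hf.int (nice_sum hg J).int, S_sum (fun j => (hg j).int)]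
      ring
    rw [h2]
    refine (enorm_add_le _ _).trans (add_le_add ?_ (S_bound (nice_sub hf (nice_sum hg J)) R x))
    refine (enorm_sum_le _ _).trans ?_
    refine (Finset.sum_le_sum fun j _ => S_le_Sstar (g j) hR x).trans (ENNReal.sum_le_tsum _)
  have hv : volume (Metric.closedBall (0 : E n) R) ^ (1 / 2 : ℝ) ≠ ⊤ :=
    ENNReal.rpow_ne_top_of_nonneg (by norm_num) measure_closedBall_lt_top.ne
  have h3 : Tendsto (fun J => (∑' j, Sstar (g j) x) +
      volume (Metric.closedBall (0 : E n) R) ^ (1 / 2 : ℝ) *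
      (∫⁻ y, ‖f y - ∑ j ∈ Finset.range J, g j y‖ₑ ^ 2) ^ (1 / 2 : ℝ)) atTop
      (𝓝 ((∑' j, Sstar (g j) x) + volume (Metric.closedBall (0 : E n) R) ^ (1 / 2 : ℝ) *
        (0 : ℝ≥0∞) ^ (1 / 2 : ℝ))) := by
    refine Tendsto.const_add _ (ENNReal.Tendsto.const_mul ?_ (Or.inr hv))
    exact (ENNReal.continuous_rpow_const.tendsto 0).comp hc
  rw [ENNReal.zero_rpow_of_pos (by norm_num), mul_zero, add_zero] at h3
  exact ge_of_tendsto' h3 h1

theorem cheb {F : E n → ℝ≥0∞} (hF : Measurable F) {l : ℝ} (hl : 0 < l) :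
    volume {x | ENNReal.ofReal l < F x} ≤ (∫⁻ x, F x ^ 2) / ENNReal.ofReal l ^ 2 := by
  have hl' : ENNReal.ofReal l ≠ 0 := (ENNReal.ofReal_pos.2 hl).ne'
  refine le_trans (measure_mono ?_) (meas_ge_le_lintegral_div
    ((hF.pow_const 2).aemeasurable) (pow_ne_zero 2 hl')
    (ENNReal.pow_ne_top ENNReal.ofReal_ne_top))
  intro x hx
  have hx' : ENNReal.ofReal l < F x := hx
  exact pow_le_pow_left' hx'.le 2

/-- convergence from approximation -/
theorem conv_of {f : E n → ℂ}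
    (h : ∀ e : ℝ, 0 < e → ∃ w v : E n → ℂ, Nice w ∧ Nice v ∧ (∀ x, f x = w x + v x) ∧
      (∫⁻ x, Sstar w x ^ 2) ≤ ENNReal.ofReal e ∧ (∫⁻ x, ‖w x‖ₑ ^ 2) ≤ ENNReal.ofReal e ∧
      ∀ᵐ x, Tendsto (fun R : ℝ => S v R x) atTop (𝓝 (v x))) :
    ∀ᵐ x, Tendsto (fun R : ℝ => S f R x) atTop (𝓝 (f x)) := by
  have hbad : ∀ l : ℝ, 0 < l →
      volume {x | ¬ ∀ᶠ R : ℝ in atTop, ‖S f R x - f x‖ ≤ 3 * l} = 0 := by
    intro l hl
    have hl0 : 0 < ENNReal.ofReal l := ENNReal.ofReal_pos.2 hl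
    have hl2 : ENNReal.ofReal l ^ 2 ≠ 0 := pow_ne_zero 2 hl0.ne'
    have hmain : ∀ e : ℝ, 0 < e →
        volume {x | ¬ ∀ᶠ R : ℝ in atTop, ‖S f R x - f x‖ ≤ 3 * l} ≤
          2 / ENNReal.ofReal l ^ 2 * ENNReal.ofReal e := by
      intro e he
      obtain ⟨w, v, hw, hv, hfx, hs, hn, hc⟩ := h e he
      have hS : ∀ R x, S f R x = S w R x + S v R x := by
        intro R x
        have e1 : f = fun y => w y + v y := funext hfx
        rw [e1]
        exact S_add hw.int hv.int R x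
      have hsub : {x | ¬ ∀ᶠ R : ℝ in atTop, ‖S f R x - f x‖ ≤ 3 * l} ⊆
          ({x | ENNReal.ofReal l < Sstar w x} ∪ {x | ENNReal.ofReal l < ‖w x‖ₑ}) ∪
          {x | ¬ Tendsto (fun R : ℝ => S v R x) atTop (𝓝 (v x))} := by
        intro x hx
        by_contra hcon
        apply hx
        simp only [mem_union, mem_ofPred_eq, not_or, not_lt, not_not] at hcon
        obtain ⟨⟨hs1, hx1⟩, hx2⟩ := hcon
        have hb : ∀ R : ℝ, 0 < R → ‖S w R x‖ ≤ l := by
          intro R hR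
          have h5 := le_trans (S_le_Sstar w hR x) hs1
          rw [← ofReal_norm, ENNReal.ofReal_le_ofReal_iff hl.le] at h5
          exact h5
        rw [← ofReal_norm, ENNReal.ofReal_le_ofReal_iff hl.le] at hx1
        have hev : ∀ᶠ R : ℝ in atTop, ‖S v R x - v x‖ < l := by
          have h4 := (tendsto_iff_norm_sub_tendsto_zero.1 hx2)
          exact (tendsto_order.1 h4).2 l hl
        filter_upwards [hev, eventually_gt_atTop 0] with R hR hR0
        have e1 : S f R x - f x = S w R x - w x + (S v R x - v x) := by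
          rw [hS R x, hfx x]
          ring
        rw [e1]
        calc ‖S w R x - w x + (S v R x - v x)‖ ≤ ‖S w R x - w x‖ + ‖S v R x - v x‖ :=
              norm_add_le _ _
          _ ≤ (‖S w R x‖ + ‖w x‖) + ‖S v R x - v x‖ := by
              gcongr
              exact norm_sub_le _ _
          _ ≤ 3 * l := by linarith [hb R hR0]
      have h0 : volume {x | ¬ Tendsto (fun R : ℝ => S v R x) atTop (𝓝 (v x))} = 0 := by
        rw [← ae_iff]
        exact hc
      refine le_trans (measure_mono hsub) ?_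
      calc volume (({x | ENNReal.ofReal l < Sstar w x} ∪ {x | ENNReal.ofReal l < ‖w x‖ₑ}) ∪
          {x | ¬ Tendsto (fun R : ℝ => S v R x) atTop (𝓝 (v x))})
          ≤ (volume {x | ENNReal.ofReal l < Sstar w x} +
              volume {x | ENNReal.ofReal l < ‖w x‖ₑ}) + 0 :=
            (measure_union_le _ _).trans (add_le_add (measure_union_le _ _) h0.le)
        _ ≤ (ENNReal.ofReal e / ENNReal.ofReal l ^ 2 +
            ENNReal.ofReal e / ENNReal.ofReal l ^ 2) + 0 := by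
            gcongr
            · refine (cheb (Sstar_meas hw.int) hl).trans ?_
              gcongr
            · refine (cheb hw.meas.enorm hl).trans ?_
              gcongr
        _ = 2 / ENNReal.ofReal l ^ 2 * ENNReal.ofReal e := by
            simp only [div_eq_mul_inv]
            ring
    have hK : (2 : ℝ≥0∞) / ENNReal.ofReal l ^ 2 ≠ ⊤ := ENNReal.div_ne_top (by norm_num) hl2
    have hlim : Tendsto (fun m : ℕ => 2 / ENNReal.ofReal l ^ 2 *
        ENNReal.ofReal (1 / ((m : ℝ) + 1))) atTop (𝓝 0) := by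
      have h5 : Tendsto (fun m : ℕ => ENNReal.ofReal (1 / ((m : ℝ) + 1))) atTop (𝓝 0) := by
        have h6 := (ENNReal.continuous_ofReal.tendsto 0).comp
          (tendsto_one_div_add_atTop_nhds_zero_nat (𝕜 := ℝ))
        simpa [Function.comp_def] using h6
      have h7 := ENNReal.Tendsto.const_mul h5 (Or.inr hK)
      simpa using h7
    exact le_antisymm (ge_of_tendsto' hlim fun m => hmain _ (by positivity)) zero_le
  have hall : ∀ᵐ x, ∀ m : ℕ, ∀ᶠ R : ℝ in atTop, ‖S f R x - f x‖ ≤ 3 * (1 / ((m : ℝ) + 1)) := by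
    rw [ae_all_iff]
    intro m
    rw [ae_iff]
    exact hbad _ (by positivity)
  filter_upwards [hall] with x hx
  rw [tendsto_iff_norm_sub_tendsto_zero]
  refine tendsto_order.2 ⟨fun a ha => Eventually.of_forall fun R =>
    lt_of_lt_of_le ha (norm_nonneg _), fun a ha => ?_⟩
  obtain ⟨m, hm⟩ := exists_nat_one_div_lt (show (0 : ℝ) < a / 3 by positivity)
  filter_upwards [hx m] with R hR
  linarith

/-! ### rotations -/

theorem rt_apply (i j : Fin n) (φ : ℝ) (y : E n) (k : Fin n) :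
    rt i j φ y k = if k = i then Real.cos φ * y i - Real.sin φ * y j
      else if k = j then Real.sin φ * y i + Real.cos φ * y j else y k := rfl

theorem rt_norm {i j : Fin n} (hij : i ≠ j) (φ : ℝ) (y : E n) : ‖rt i j φ y‖ = ‖y‖ := by
  have h : ‖rt i j φ y‖ ^ 2 = ‖y‖ ^ 2 := by
    rw [EuclideanSpace.norm_sq_eq, EuclideanSpace.norm_sq_eq, ← sub_eq_zero,
      ← Finset.sum_sub_distrib]
    have h1 : ∀ k : Fin n, ‖rt i j φ y k‖ ^ 2 - ‖y k‖ ^ 2 =
        (if k = i then (Real.cos φ * y i - Real.sin φ * y j) ^ 2 - y i ^ 2 else 0) +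
        (if k = j then (Real.sin φ * y i + Real.cos φ * y j) ^ 2 - y j ^ 2 else 0) := by
      intro k
      rw [rt_apply, Real.norm_eq_abs, Real.norm_eq_abs, sq_abs, sq_abs]
      by_cases h2 : k = i
      · have h3 : k ≠ j := fun h4 => hij (h2.symm.trans h4)
        rw [if_pos h2, if_pos h2, if_neg h3, h2]
        ring
      · by_cases h3 : k = j
        · rw [if_neg h2, if_pos h3, if_neg h2, if_pos h3, h3]
          ring
        · rw [if_neg h2, if_neg h3, if_neg h2, if_neg h3]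
          ring
    rw [Finset.sum_congr rfl fun k _ => h1 k, Finset.sum_add_distrib,
      Finset.sum_ite_eq' Finset.univ i, Finset.sum_ite_eq' Finset.univ j,
      if_pos (Finset.mem_univ _), if_pos (Finset.mem_univ _)]
    have h4 := Real.sin_sq_add_cos_sq φ
    have h5 : (Real.cos φ * y i - Real.sin φ * y j) ^ 2 - y i ^ 2 +
        ((Real.sin φ * y i + Real.cos φ * y j) ^ 2 - y j ^ 2) =
        (Real.sin φ ^ 2 + Real.cos φ ^ 2 - 1) * (y i ^ 2 + y j ^ 2) := by ring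
    rw [h5, h4]
    ring
  exact (sq_eq_sq₀ (norm_nonneg _) (norm_nonneg _)).1 h

/-- the rotation as a linear map -/
noncomputable def rl (i j : Fin n) (φ : ℝ) : E n →ₗ[ℝ] E n where
  toFun := rt i j φ
  map_add' x y := by
    ext k
    rw [PiLp.add_apply, rt_apply, rt_apply, rt_apply, PiLp.add_apply, PiLp.add_apply,
      PiLp.add_apply]
    split_ifs <;> ring
  map_smul' c x := by
    ext k
    rw [PiLp.smul_apply, rt_apply, rt_apply, PiLp.smul_apply, PiLp.smul_apply, PiLp.smul_apply]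
    simp only [smul_eq_mul, RingHom.id_apply]
    split_ifs <;> ring

/-- the rotation as an isometry -/
noncomputable def re {i j : Fin n} (hij : i ≠ j) (φ : ℝ) : E n ≃ₗᵢ[ℝ] E n :=
  ({ rl i j φ with norm_map' := fun y => rt_norm hij φ y } :
    E n →ₗᵢ[ℝ] E n).toLinearIsometryEquiv rfl

theorem re_apply {i j : Fin n} (hij : i ≠ j) (φ : ℝ) (y : E n) : re hij φ y = rt i j φ y := rfl

theorem rt_sub (i j : Fin n) (φ : ℝ) (x y : E n) :
    rt i j φ (x - y) = rt i j φ x - rt i j φ y := (rl i j φ).map_sub x y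

theorem rt_integral {i j : Fin n} (hij : i ≠ j) (φ : ℝ) (F : E n → ℂ) :
    ∫ t, F (rt i j φ t) = ∫ t, F t :=
  (re hij φ).measurePreserving.integral_comp' (f := (re hij φ).toMeasurableEquiv) F

theorem rt_integrable {i j : Fin n} (hij : i ≠ j) (φ : ℝ) {F : E n → ℂ} (hF : Integrable F) :
    Integrable fun t => F (rt i j φ t) :=
  (re hij φ).measurePreserving.integrable_comp_of_integrable hF

/-! ### interpolation of trigonometric polynomials -/

theorem ci_add (s t : ℝ) : ci (s + t) = ci s * ci t := by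
  unfold ci
  rw [← Complex.exp_add]
  congr 1
  push_cast
  ring

theorem ci_orth (K : ℕ) (k l : ℤ) (hk : |k| ≤ K) (hl : |l| ≤ K) :
    ∑ m ∈ Finset.range (2 * K + 1), ci (k * (2 * Real.pi * m / (2 * K + 1))) *
      ci (-(l * (2 * Real.pi * m / (2 * K + 1)))) = if k = l then (2 * K + 1 : ℂ) else 0 := by
  have hpi := Real.pi_pos
  have hN : (0 : ℝ) < 2 * K + 1 := by positivity
  set z : ℂ := Complex.exp (2 * Real.pi * Complex.I * (((k - l : ℤ) : ℂ) / (2 * K + 1))) with hz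
  have h1 : ∀ m ∈ Finset.range (2 * K + 1), ci (k * (2 * Real.pi * m / (2 * K + 1))) *
      ci (-(l * (2 * Real.pi * m / (2 * K + 1)))) = z ^ m := by
    intro m _
    rw [← ci_add, hz, ← Complex.exp_nat_mul]
    unfold ci
    congr 1
    push_cast
    ring
  rw [Finset.sum_congr rfl h1]
  split_ifs with h
  · have h2 : z = 1 := by
      rw [hz, h]
      simp
    rw [h2]
    simp
  · have hNc : (2 * (K : ℂ) + 1) ≠ 0 := by
      have : (2 * (K : ℂ) + 1) = ((2 * K + 1 : ℕ) : ℂ) := by push_cast; ring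
      rw [this]
      exact_mod_cast Nat.succ_ne_zero (2 * K)
    have h2 : z ≠ 1 := by
      rw [hz, Ne, Complex.exp_eq_one_iff]
      rintro ⟨q, hq⟩
      have h3 : (2 * (Real.pi : ℂ) * Complex.I) ≠ 0 := by
        simp [Real.pi_ne_zero]
      have h4 : ((k - l : ℤ) : ℂ) / (2 * K + 1) = q := by
        apply mul_left_cancel₀ h3
        rw [hq]
        ring
      rw [div_eq_iff hNc] at h4
      have h5 : k - l = q * (2 * K + 1) := by exact_mod_cast h4
      have h6 : q = 0 := by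
        have h7 := abs_le.1 hk
        have h8 := abs_le.1 hl
        rcases lt_trichotomy q 0 with h9 | h9 | h9
        · exfalso
          have : q * (2 * K + 1) ≤ -1 * (2 * K + 1) := by
            apply mul_le_mul_of_nonneg_right (by omega) (by positivity)
          omega
        · exact h9
        · exfalso
          have : 1 * (2 * (K : ℤ) + 1) ≤ q * (2 * K + 1) := by
            apply mul_le_mul_of_nonneg_right (by omega) (by positivity)
          omega
      rw [h6, zero_mul] at h5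
      exact h (by omega)
    rw [geom_sum_eq h2]
    have h3 : z ^ (2 * K + 1) = 1 := by
      rw [hz, ← Complex.exp_nat_mul, Complex.exp_eq_one_iff]
      refine ⟨k - l, ?_⟩
      push_cast
      field_simp
    rw [h3, sub_self, zero_div]

/-- the coefficients from the values at the nodes -/
theorem interp (K : ℕ) (c : ℤ → ℂ) (p : ℝ → ℂ)
    (hp : ∀ φ : ℝ, p φ = ∑ k ∈ Finset.Icc (-(K : ℤ)) K, c k * ci (k * φ)) (l : ℤ)
    (hl : l ∈ Finset.Icc (-(K : ℤ)) K) :
    c l = (2 * K + 1 : ℂ)⁻¹ * ∑ m ∈ Finset.range (2 * K + 1),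
      p (2 * Real.pi * m / (2 * K + 1)) * ci (-(l * (2 * Real.pi * m / (2 * K + 1)))) := by
  have hNc : (2 * (K : ℂ) + 1) ≠ 0 := by
    have : (2 * (K : ℂ) + 1) = ((2 * K + 1 : ℕ) : ℂ) := by push_cast; ring
    rw [this]
    exact_mod_cast Nat.succ_ne_zero (2 * K)
  have hl' : |l| ≤ K := by
    rw [Finset.mem_Icc] at hl
    exact abs_le.2 hl
  have h1 : ∑ m ∈ Finset.range (2 * K + 1),
      p (2 * Real.pi * m / (2 * K + 1)) * ci (-(l * (2 * Real.pi * m / (2 * K + 1)))) =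
      ∑ k ∈ Finset.Icc (-(K : ℤ)) K, c k * ∑ m ∈ Finset.range (2 * K + 1),
        ci (k * (2 * Real.pi * m / (2 * K + 1))) *
          ci (-(l * (2 * Real.pi * m / (2 * K + 1)))) := by
    simp only [hp, Finset.sum_mul, Finset.mul_sum]
    rw [Finset.sum_comm]
    refine Finset.sum_congr rfl fun k _ => Finset.sum_congr rfl fun m _ => ?_
    ring
  rw [h1]
  have h2 : ∀ k ∈ Finset.Icc (-(K : ℤ)) K, c k * ∑ m ∈ Finset.range (2 * K + 1),
        ci (k * (2 * Real.pi * m / (2 * K + 1))) *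
          ci (-(l * (2 * Real.pi * m / (2 * K + 1)))) =
      if k = l then c k * (2 * K + 1 : ℂ) else 0 := by
    intro k hk
    rw [Finset.mem_Icc] at hk
    rw [ci_orth K k l (abs_le.2 hk) hl']
    split_ifs <;> simp
  rw [Finset.sum_congr rfl h2, Finset.sum_ite_eq' (Finset.Icc (-(K : ℤ)) K) l, if_pos hl]
  field_simp

/-! ### convolution with a radial function -/

theorem AD_conv {K : ℕ} {g G : E n → ℂ} (hg : Integrable g) (hAD : AD K g)
    (hG : Continuous G) (hGb : ∃ C : ℝ, ∀ x, ‖G x‖ ≤ C)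
    (hrad : ∀ x y, ‖x‖ = ‖y‖ → G x = G y) : AD K (fun x => ∫ t, g t * G (x - t)) := by
  intro i j hij y
  obtain ⟨C, hC⟩ := hGb
  choose c hc using hAD i j hij
  have hprod : ∀ φ : ℝ, Integrable fun t => g (rt i j φ t) * G (y - t) := by
    intro φ
    refine (rt_integrable hij φ hg).mul_bdd (c := C) ?_ ?_
    · exact (hG.comp (continuous_const.sub continuous_id)).aestronglyMeasurable
    · exact ae_of_all _ fun t => hC _
  have hcoef : ∀ k ∈ Finset.Icc (-(K : ℤ)) K, Integrable fun t => c t k * G (y - t) := by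
    intro k hk
    have h1 : (fun t => c t k * G (y - t)) = fun t => (2 * K + 1 : ℂ)⁻¹ *
        ∑ m ∈ Finset.range (2 * K + 1), (g (rt i j (2 * Real.pi * m / (2 * K + 1)) t) *
          G (y - t)) * ci (-(k * (2 * Real.pi * m / (2 * K + 1)))) := by
      funext t
      rw [interp K (c t) (fun φ => g (rt i j φ t)) (hc t) k hk, mul_assoc, Finset.sum_mul]
      congr 1
      refine Finset.sum_congr rfl fun m _ => ?_
      ring
    rw [h1]
    exact (integrable_finsetSum _ fun m _ => (hprod _).mul_const _).const_mul _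
  refine ⟨fun k => ∫ t, c t k * G (y - t), fun φ => ?_⟩
  show ∫ t, g t * G (rt i j φ y - t) = _
  rw [← rt_integral hij φ (fun t => g t * G (rt i j φ y - t))]
  have h2 : ∀ t, g (rt i j φ t) * G (rt i j φ y - rt i j φ t) =
      ∑ k ∈ Finset.Icc (-(K : ℤ)) K, c t k * G (y - t) * ci (k * φ) := by
    intro t
    have h3 : G (rt i j φ y - rt i j φ t) = G (y - t) := by
      apply hrad
      rw [← rt_sub, rt_norm hij]
    rw [h3, hc t φ, Finset.sum_mul]
    refine Finset.sum_congr rfl fun k _ => ?_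
    ring
  simp only [h2]
  rw [integral_finsetSum _ fun k hk => (hcoef k hk).mul_const _]
  refine Finset.sum_congr rfl fun k _ => ?_
  rw [integral_mul_const]

theorem AD_sub {K : ℕ} {f g : E n → ℂ} (hf : AD K f) (hg : AD K g) :
    AD K (fun y => f y - g y) := by
  intro i j hij y
  obtain ⟨c, hc⟩ := hf i j hij y
  obtain ⟨d, hd⟩ := hg i j hij y
  refine ⟨fun k => c k - d k, fun φ => ?_⟩
  show f (rt i j φ y) - g (rt i j φ y) = _
  rw [hc φ, hd φ, ← Finset.sum_sub_distrib]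
  refine Finset.sum_congr rfl fun k _ => ?_
  ring

/-- the Gaussian -/
noncomputable def ga (n : ℕ) (d : ℝ) (ξ : E n) : ℂ := Complex.exp (-(d : ℂ) * ‖ξ‖ ^ 2)

theorem ga_cont (d : ℝ) : Continuous (ga n d) := by
  unfold ga
  fun_prop

theorem ga_norm (d : ℝ) (ξ : E n) : ‖ga n d ξ‖ = Real.exp (-(d * ‖ξ‖ ^ 2)) := by
  unfold ga
  rw [show -(d : ℂ) * (‖ξ‖ : ℂ) ^ 2 = ((-(d * ‖ξ‖ ^ 2) : ℝ) : ℂ) by push_cast; ring]
  rw [← Complex.ofReal_exp, Complex.norm_real, Real.norm_eq_abs, abs_of_pos (Real.exp_pos _)]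

theorem ga_le (d : ℝ) (hd : 0 ≤ d) (ξ : E n) : ‖ga n d ξ‖ ≤ 1 := by
  rw [ga_norm, Real.exp_le_one_iff]
  have : 0 ≤ d * ‖ξ‖ ^ 2 := by positivity
  linarith

theorem ga_int {d : ℝ} (hd : 0 < d) : Integrable (ga n d) := by
  have h := GaussianFourier.integrable_cexp_neg_mul_sq_norm_add (V := E n) (b := (d : ℂ))
    (by simpa using hd) 0 0
  unfold ga
  simpa using h

theorem ga_fourier {d : ℝ} (hd : 0 < d) (w : E n) :
    𝓕 (ga n d) w = ((Real.pi : ℂ) / d) ^ ((n : ℂ) / 2) * ga n (Real.pi ^ 2 / d) w := by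
  have h := fourier_gaussian_innerProductSpace (V := E n) (b := (d : ℂ)) (by simpa using hd) w
  unfold ga
  rw [h]
  simp only [finrank_euclideanSpace, Fintype.card_fin]
  congr 2
  push_cast
  ring

theorem ga_double {d : ℝ} (hd : 0 < d) (ξ : E n) : 𝓕 (𝓕 (ga n d)) ξ = ga n d ξ := by
  have hi : Integrable (𝓕 (ga n d)) := by
    have h1 : 𝓕 (ga n d) = fun w => ((Real.pi : ℂ) / d) ^ ((n : ℂ) / 2) *
        ga n (Real.pi ^ 2 / d) w := funext fun w => ga_fourier hd w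
    rw [h1]
    exact (ga_int (by positivity)).const_mul _
  have h2 := congrFun ((ga_cont d).fourierInv_fourier_eq (ga_int hd) hi) (-ξ)
  rw [Real.fourierInv_eq_fourier_neg, neg_neg] at h2
  rw [h2]
  unfold ga
  rw [norm_neg]

theorem fourier_bdd {g : E n → ℂ} (ξ : E n) : ‖𝓕 g ξ‖ ≤ ∫ x, ‖g x‖ := by
  rw [Real.fourier_eq]
  refine (norm_integral_le_integral_norm _).trans (le_of_eq ?_)
  refine integral_congr_ae (ae_of_all _ fun x => ?_)
  show ‖Real.fourierChar (-inner ℝ x ξ) • g x‖ = ‖g x‖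
  rw [Circle.norm_smul]

theorem approx {K : ℕ} {g : E n → ℂ} (hg : Nice g) (hAD : AD K g) {e : ℝ} (he : 0 < e) :
    ∃ h : E n → ℂ, Nice h ∧ AD K h ∧ (∀ x, Tendsto (fun R : ℝ => S h R x) atTop (𝓝 (h x))) ∧
      ∫⁻ x, ‖g x - h x‖ₑ ^ 2 ≤ ENNReal.ofReal e := by
  set H : ℝ → E n → ℂ := fun d x => ∫ t, g t * 𝓕 (ga n d) (x - t) with hH
  have hφi : ∀ d : ℝ, 0 < d → Integrable (𝓕 (ga n d)) := by
    intro d hd
    have h1 : 𝓕 (ga n d) = fun w => ((Real.pi : ℂ) / d) ^ ((n : ℂ) / 2) *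
        ga n (Real.pi ^ 2 / d) w := funext fun w => ga_fourier hd w
    rw [h1]
    exact (ga_int (by positivity)).const_mul _
  have hφc : ∀ d : ℝ, 0 < d → Continuous (𝓕 (ga n d)) := fun d hd => fc (ga_int hd)
  have hφb : ∀ d : ℝ, ∀ x, ‖𝓕 (ga n d) x‖ ≤ ∫ y, ‖ga n d y‖ := fun d x => fourier_bdd x
  have hconv : ∀ d : ℝ, H d = g ⋆[ContinuousLinearMap.mul ℂ ℂ, volume] 𝓕 (ga n d) :=
    fun d => rfl
  have hHc : ∀ d : ℝ, 0 < d → Continuous (H d) := by
    intro d hd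
    rw [hconv d]
    refine BddAbove.continuous_convolution_right_of_integrable _ ?_ hg.int (hφc d hd)
    exact ⟨∫ y, ‖ga n d y‖, by rintro _ ⟨x, rfl⟩; exact hφb d x⟩
  have hHi : ∀ d : ℝ, 0 < d → Integrable (H d) := by
    intro d hd
    rw [hconv d]
    exact hg.int.integrable_convolution _ (hφi d hd)
  have hHb : ∀ d : ℝ, 0 < d → ∀ x, ‖H d x‖ ≤ (∫ t, ‖g t‖) * ∫ y, ‖ga n d y‖ := by
    intro d hd x
    rw [hH]
    refine (norm_integral_le_integral_norm _).trans ?_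
    rw [← integral_mul_const]
    refine integral_mono_of_nonneg (ae_of_all _ fun t => norm_nonneg _)
      (hg.int.norm.mul_const _) (ae_of_all _ fun t => ?_)
    show ‖g t * 𝓕 (ga n d) (x - t)‖ ≤ ‖g t‖ * ∫ y, ‖ga n d y‖
    rw [norm_mul]
    exact mul_le_mul_of_nonneg_left (hφb d _) (norm_nonneg _)
  have hHn : ∀ d : ℝ, 0 < d → Nice (H d) := by
    intro d hd
    refine ⟨(hHc d hd).measurable, hHi d hd, ?_⟩
    rw [memLp_two_iff_integrable_sq_norm (hHc d hd).aestronglyMeasurable]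
    have h1 : (fun x => ‖H d x‖ ^ 2) = fun x => ‖H d x‖ * ‖H d x‖ := funext fun x => sq _
    rw [h1]
    refine (hHi d hd).norm.mul_bdd (c := (∫ t, ‖g t‖) * ∫ y, ‖ga n d y‖)
      (hHc d hd).norm.aestronglyMeasurable (ae_of_all _ fun x => ?_)
    rw [norm_norm]
    exact hHb d hd x
  have hHf : ∀ d : ℝ, 0 < d → ∀ ξ, 𝓕 (H d) ξ = 𝓕 g ξ * ga n d ξ := by
    intro d hd ξ
    rw [hconv d, Real.fourier_mul_convolution_eq hg.int (hφi d hd), ga_double hd]
  have hfi : ∀ d : ℝ, 0 < d → Integrable (𝓕 (H d)) := by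
    intro d hd
    have h1 : 𝓕 (H d) = fun ξ => ga n d ξ * 𝓕 g ξ := funext fun ξ => by
      rw [hHf d hd ξ, mul_comm]
    rw [h1]
    exact (ga_int hd).mul_bdd (c := ∫ x, ‖g x‖) (fc hg.int).aestronglyMeasurable
      (ae_of_all _ fun ξ => fourier_bdd ξ)
  have hlim : Tendsto (fun m : ℕ => ∫⁻ x, ‖g x - H (1 / ((m : ℝ) + 1)) x‖ₑ ^ 2) atTop (𝓝 0) := by
    have h1 : ∀ m : ℕ, ∫⁻ x, ‖g x - H (1 / ((m : ℝ) + 1)) x‖ₑ ^ 2 =
        ∫⁻ ξ, ‖𝓕 g ξ * (1 - ga n (1 / ((m : ℝ) + 1)) ξ)‖ₑ ^ 2 := by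
      intro m
      have hd : (0 : ℝ) < 1 / ((m : ℝ) + 1) := by positivity
      rw [← planch (nice_sub hg (hHn _ hd))]
      refine lintegral_congr fun ξ => ?_
      rw [f_sub hg.int (hHi _ hd), hHf _ hd]
      congr 2
      ring
    simp only [h1]
    have h2 := tendsto_lintegral_of_dominated_convergence
      (μ := (volume : Measure (E n)))
      (F := fun (m : ℕ) ξ => ‖𝓕 g ξ * (1 - ga n (1 / ((m : ℝ) + 1)) ξ)‖ₑ ^ 2)
      (f := fun _ => (0 : ℝ≥0∞)) (fun ξ => 4 * ‖𝓕 g ξ‖ₑ ^ 2)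
      (fun m => (((fc hg.int).mul (continuous_const.sub (ga_cont _))).measurable.enorm).pow_const 2)
      (fun m => ae_of_all _ fun ξ => ?_) ?_ (ae_of_all _ fun ξ => ?_)
    · simpa using h2
    · show ‖𝓕 g ξ * (1 - ga n (1 / ((m : ℝ) + 1)) ξ)‖ₑ ^ 2 ≤ 4 * ‖𝓕 g ξ‖ₑ ^ 2
      have h3 : ‖1 - ga n (1 / ((m : ℝ) + 1)) ξ‖ₑ ≤ 2 := by
        have h4 : ‖1 - ga n (1 / ((m : ℝ) + 1)) ξ‖ ≤ 2 := by
          refine (norm_sub_le _ _).trans ?_
          have h5 := ga_le (n := n) (1 / ((m : ℝ) + 1)) (by positivity) ξ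
          rw [norm_one]
          linarith
        rw [← ofReal_norm]
        calc ENNReal.ofReal ‖1 - ga n (1 / ((m : ℝ) + 1)) ξ‖ ≤ ENNReal.ofReal 2 :=
              ENNReal.ofReal_le_ofReal h4
          _ = 2 := by norm_num
      rw [enorm_mul, mul_pow, mul_comm]
      calc ‖1 - ga n (1 / ((m : ℝ) + 1)) ξ‖ₑ ^ 2 * ‖𝓕 g ξ‖ₑ ^ 2 ≤ 2 ^ 2 * ‖𝓕 g ξ‖ₑ ^ 2 := by
            gcongr
        _ = 4 * ‖𝓕 g ξ‖ₑ ^ 2 := by norm_num
    · rw [lintegral_const_mul _ ((fc hg.int).measurable.enorm.pow_const 2), planch hg, lint_eLp]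
      exact ENNReal.mul_ne_top (by norm_num) (ENNReal.pow_ne_top hg.sq.2.ne)
    · have h4 : Tendsto (fun m : ℕ => 𝓕 g ξ * (1 - ga n (1 / ((m : ℝ) + 1)) ξ)) atTop
          (𝓝 (𝓕 g ξ * (1 - 1))) := by
        refine Tendsto.const_mul _ (Tendsto.const_sub _ ?_)
        have h5 : Tendsto (fun m : ℕ => ga n (1 / ((m : ℝ) + 1)) ξ) atTop (𝓝 (ga n 0 ξ)) := by
          have h6 : Continuous fun d : ℝ => ga n d ξ := by
            unfold ga
            fun_prop
          exact (h6.tendsto 0).comp (tendsto_one_div_add_atTop_nhds_zero_nat (𝕜 := ℝ))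
        have h7 : ga n 0 ξ = 1 := by
          unfold ga
          simp
        rw [h7] at h5
        exact h5
      rw [sub_self, mul_zero] at h4
      have h5 := h4.enorm
      rw [enorm_zero] at h5
      have h6 := ((ENNReal.continuous_pow 2).tendsto 0).comp h5
      simpa [Function.comp_def] using h6
  have hev := (tendsto_order.1 hlim).2 (ENNReal.ofReal e) (ENNReal.ofReal_pos.2 he)
  obtain ⟨m, hm⟩ := hev.exists
  have hd : (0 : ℝ) < 1 / ((m : ℝ) + 1) := by positivity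
  refine ⟨H (1 / ((m : ℝ) + 1)), hHn _ hd, ?_, fun x => conv_good (hHc _ hd) (hHi _ hd)
    (hfi _ hd) x, hm.le⟩
  refine AD_conv hg.int hAD (hφc _ hd) ⟨_, hφb _⟩ ?_
  intro x y hxy
  rw [ga_fourier hd, ga_fourier hd]
  unfold ga
  rw [hxy]

/-! ### the main theorem -/

/-- the global inequality, as a statement about norms -/
theorem GL2 {C : ℝ≥0} {K : ℕ} {f : E n → ℂ}
    (h : ∫⁻ x, Sstar f x ^ 2 ≤ C * ENNReal.ofReal (Real.log (2 + K) ^ 2) * ∫⁻ x, ‖f x‖ₑ ^ 2) :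
    N2 (Sstar f) ≤ (NNReal.sqrt C : ℝ≥0∞) * (ENNReal.ofReal (Real.log (2 + K)) *
      (∫⁻ x, ‖f x‖ₑ ^ 2) ^ (1 / 2 : ℝ)) := by
  have hl : 0 ≤ Real.log (2 + (K : ℝ)) := Real.log_nonneg (by
    have : (0 : ℝ) ≤ K := Nat.cast_nonneg K
    linarith)
  have h1 : (NNReal.sqrt C : ℝ≥0∞) ^ 2 = C := by
    rw [← ENNReal.coe_pow, NNReal.sq_sqrt]
  have h2 : ((∫⁻ x, ‖f x‖ₑ ^ 2) ^ (1 / 2 : ℝ)) ^ 2 = ∫⁻ x, ‖f x‖ₑ ^ 2 :=
    N2_sq (fun x => ‖f x‖ₑ)
  have h3 : N2 (Sstar f) ^ 2 ≤ ((NNReal.sqrt C : ℝ≥0∞) * (ENNReal.ofReal (Real.log (2 + K)) *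
      (∫⁻ x, ‖f x‖ₑ ^ 2) ^ (1 / 2 : ℝ))) ^ 2 := by
    rw [N2_sq, mul_pow, mul_pow, h1, h2, ← ENNReal.ofReal_pow hl, ← mul_assoc]
    exact h
  exact (ENNReal.pow_right_strictMono two_ne_zero).le_iff_le.1 h3

theorem tail_ineq {C : ℝ≥0} (hG : ∀ (K : ℕ) (f : E n → ℂ), 1 ≤ K → Nice f → AD K f →
    ∫⁻ x, Sstar f x ^ 2 ≤ C * ENNReal.ofReal (Real.log (2 + K) ^ 2) * ∫⁻ x, ‖f x‖ₑ ^ 2)
    {f : E n → ℂ} {g : ℕ → E n → ℂ} {K : ℕ → ℕ} (hf : Nice f) (hg : ∀ j, Nice (g j))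
    (hK : ∀ j, 1 ≤ K j) (hA : ∀ j, AD (K j) (g j))
    (hc : Tendsto (fun J => ∫⁻ x, ‖f x - ∑ j ∈ Finset.range J, g j x‖ₑ ^ 2) atTop (𝓝 0)) :
    N2 (Sstar f) ≤ (NNReal.sqrt C : ℝ≥0∞) * ∑' j : ℕ, ENNReal.ofReal (Real.log (2 + K j)) *
      (∫⁻ x, ‖g j x‖ₑ ^ 2) ^ (1 / 2 : ℝ) := by
  calc N2 (Sstar f) ≤ N2 (fun x => ∑' j, Sstar (g j) x) := N2_mono (Sstar_le_tsum hf hg hc)
    _ ≤ ∑' j, N2 (Sstar (g j)) := N2_tsum fun j => Sstar_meas (hg j).int
    _ ≤ ∑' j, (NNReal.sqrt C : ℝ≥0∞) * (ENNReal.ofReal (Real.log (2 + K j)) *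
        (∫⁻ x, ‖g j x‖ₑ ^ 2) ^ (1 / 2 : ℝ)) :=
        ENNReal.tsum_le_tsum fun j => GL2 (hG (K j) (g j) (hK j) (hg j) (hA j))
    _ = _ := ENNReal.tsum_mul_left

/-- a.e. convergence for one function of bounded angular degree -/
theorem conv_AD {C : ℝ≥0} (hG : ∀ (K : ℕ) (f : E n → ℂ), 1 ≤ K → Nice f → AD K f →
    ∫⁻ x, Sstar f x ^ 2 ≤ C * ENNReal.ofReal (Real.log (2 + K) ^ 2) * ∫⁻ x, ‖f x‖ₑ ^ 2)
    {K : ℕ} {g : E n → ℂ} (hK : 1 ≤ K) (hg : Nice g) (hA : AD K g) :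
    ∀ᵐ x, Tendsto (fun R : ℝ => S g R x) atTop (𝓝 (g x)) := by
  refine conv_of fun e he => ?_
  set A : ℝ := C * Real.log (2 + K) ^ 2 with hAdef
  have hA0 : 0 ≤ A := by positivity
  obtain ⟨h, hh, hhA, hhc, hhe⟩ := approx hg hA (show (0 : ℝ) < e / (A + 1) by positivity)
  refine ⟨fun x => g x - h x, h, nice_sub hg hh, hh, fun x => by ring, ?_, ?_,
    ae_of_all _ hhc⟩
  · refine (hG K _ hK (nice_sub hg hh) (AD_sub hA hhA)).trans ?_
    calc (C : ℝ≥0∞) * ENNReal.ofReal (Real.log (2 + K) ^ 2) * ∫⁻ x, ‖g x - h x‖ₑ ^ 2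
        ≤ (C : ℝ≥0∞) * ENNReal.ofReal (Real.log (2 + K) ^ 2) * ENNReal.ofReal (e / (A + 1)) := by
          gcongr
      _ = ENNReal.ofReal (A * (e / (A + 1))) := by
          rw [ENNReal.ofReal_mul hA0, hAdef, ENNReal.ofReal_mul (NNReal.coe_nonneg C),
            ENNReal.ofReal_coe_nnreal]
      _ ≤ ENNReal.ofReal e := by
          refine ENNReal.ofReal_le_ofReal ?_
          rw [mul_div_assoc', div_le_iff₀ (by positivity)]
          nlinarith
  · refine hhe.trans (ENNReal.ofReal_le_ofReal ?_)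
    exact div_le_self he.le (by linarith)

theorem conv_sum {u : ℕ → E n → ℂ} (hu : ∀ j, Nice (u j))
    (hc : ∀ j, ∀ᵐ x, Tendsto (fun R : ℝ => S (u j) R x) atTop (𝓝 (u j x))) (J : ℕ) :
    ∀ᵐ x, Tendsto (fun R : ℝ => S (fun y => ∑ j ∈ Finset.range J, u j y) R x) atTop
      (𝓝 (∑ j ∈ Finset.range J, u j x)) := by
  filter_upwards [ae_all_iff.2 hc] with x hx
  simp only [S_sum (fun j => (hu j).int)]
  exact tendsto_finsetSum _ fun j _ => hx j

end SERN_

open SERN_ in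
theorem p_SERN (h1 : T_GLN) : T_SERN := by
  intro hCar n hn
  obtain ⟨C, hG⟩ := h1 hCar n hn
  refine ⟨NNReal.sqrt C, ?_⟩
  intro f g K hf hg hK hA hc
  refine ⟨tail_ineq hG hf hg hK hA hc, fun hfin => ?_⟩
  refine conv_of fun e he => ?_
  set a : ℕ → ℝ≥0∞ := fun j => ENNReal.ofReal (Real.log (2 + K j)) *
    (∫⁻ x, ‖g j x‖ₑ ^ 2) ^ (1 / 2 : ℝ) with ha
  have hshift : ∀ J : ℕ, Tendsto (fun I => ∫⁻ x, ‖(f x - ∑ j ∈ Finset.range J, g j x) -
      ∑ j ∈ Finset.range I, g (j + J) x‖ₑ ^ 2) atTop (𝓝 0) := by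
    intro J
    have h2 := (tendsto_add_atTop_iff_nat J).2 hc
    refine h2.congr fun I => ?_
    refine lintegral_congr fun x => ?_
    congr 2
    rw [add_comm I J, Finset.sum_range_add, sub_sub]
    congr 2
    exact Finset.sum_congr rfl fun j _ => by rw [add_comm]
  have htail : ∀ J : ℕ, ∫⁻ x, Sstar (fun y => f y - ∑ j ∈ Finset.range J, g j y) x ^ 2 ≤
      ((NNReal.sqrt C : ℝ≥0∞) * ∑' j : ℕ, a (j + J)) ^ 2 := by
    intro J
    rw [← N2_sq]
    exact pow_le_pow_left' (tail_ineq hG (nice_sub hf (nice_sum hg J)) (fun j => hg (j + J))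
      (fun j => hK (j + J)) (fun j => hA (j + J)) (hshift J)) 2
  have hlim : Tendsto (fun J => ((NNReal.sqrt C : ℝ≥0∞) * ∑' j : ℕ, a (j + J)) ^ 2) atTop
      (𝓝 0) := by
    have h3 := ENNReal.tendsto_sum_nat_add a hfin
    have h4 := ENNReal.Tendsto.const_mul (a := (NNReal.sqrt C : ℝ≥0∞)) h3
      (Or.inr ENNReal.coe_ne_top)
    rw [mul_zero] at h4
    have h5 := ((ENNReal.continuous_pow 2).tendsto 0).comp h4
    simpa [Function.comp_def] using h5
  have he' : 0 < ENNReal.ofReal e := ENNReal.ofReal_pos.2 he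
  obtain ⟨J, hJ1, hJ2⟩ := (((tendsto_order.1 hlim).2 _ he').and
    ((tendsto_order.1 hc).2 _ he')).exists
  refine ⟨fun y => f y - ∑ j ∈ Finset.range J, g j y, fun y => ∑ j ∈ Finset.range J, g j y,
    nice_sub hf (nice_sum hg J), nice_sum hg J, fun x => by ring, (htail J).trans hJ1.le,
    hJ2.le, conv_sum hg (fun j => conv_AD hG (hK j) (hg j) (hA j)) J⟩

end Pool.Agent.CRN
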