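import Pool.Agent.CRN.Targets

set_option autoImplicit false

/-!
# CRN: shells (target SHL)
-/

namespace Pool.Agent.CRN

open MeasureTheory FourierTransform Set Filter Topology
open scoped ENNReal NNReal
open Pool.Agent.MBS (E ex S Sstar ex_norm ex_continuous)

namespace SHL_

variable {n : ℕ}

/-- The kernel. -/
noncomputable def ker (R : ℝ) (x y : E n) : ℂ :=
  ∫ ξ in Metric.closedBall (0 : E n) R,
    Complex.exp ((-2 * Real.pi * (inner ℝ y ξ : ℝ) : ℝ) * Complex.I) * ex x ξ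

lemma ch_norm (y ξ : E n) :
    ‖Complex.exp ((-2 * Real.pi * (inner ℝ y ξ : ℝ) : ℝ) * Complex.I)‖ = 1 :=
  Complex.norm_exp_ofReal_mul_I _

lemma ch_cont : Continuous fun p : E n × E n =>
    Complex.exp ((-2 * Real.pi * (inner ℝ p.2 p.1 : ℝ) : ℝ) * Complex.I) := by
  have h1 : Continuous fun p : E n × E n => (-2 * Real.pi * (inner ℝ p.2 p.1 : ℝ) : ℝ) :=
    continuous_const.mul (continuous_snd.inner continuous_fst)
  exact Complex.continuous_exp.comp ((Complex.continuous_ofReal.comp h1).mul continuous_const)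

lemma S_ker {g : E n → ℂ} (hg : Integrable g) (R : ℝ) (x : E n) :
    S g R x = ∫ y, g y * ker R x y := by
  have hI : Integrable (Function.uncurry fun (ξ y : E n) =>
      (Complex.exp ((-2 * Real.pi * (inner ℝ y ξ : ℝ) : ℝ) * Complex.I) * ex x ξ) * g y)
      ((volume.restrict (Metric.closedBall (0 : E n) R)).prod volume) := by
    have : IsFiniteMeasure (volume.restrict (Metric.closedBall (0 : E n) R)) :=
      ⟨by rw [Measure.restrict_apply_univ]; exact measure_closedBall_lt_top⟩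
    have h1 : Integrable (fun z : E n × E n => (1 : ℂ) * g z.2)
        ((volume.restrict (Metric.closedBall (0 : E n) R)).prod volume) :=
      (integrable_const (1 : ℂ)).mul_prod hg
    have h2 : Continuous fun z : E n × E n =>
        Complex.exp ((-2 * Real.pi * (inner ℝ z.2 z.1 : ℝ) : ℝ) * Complex.I) * ex x z.1 :=
      ch_cont.mul (ex_continuous.comp (continuous_const.prodMk continuous_fst))
    have h3 := h1.bdd_mul (c := 1) h2.aestronglyMeasurable (ae_of_all _ fun z => by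
      rw [norm_mul, ch_norm, ex_norm, mul_one])
    refine h3.congr (ae_of_all _ fun z => ?_)
    simp only [Function.uncurry, one_mul]
  calc S g R x = ∫ ξ in Metric.closedBall (0 : E n) R, ∫ y,
        (Complex.exp ((-2 * Real.pi * (inner ℝ y ξ : ℝ) : ℝ) * Complex.I) * ex x ξ) * g y := by
        unfold S
        refine integral_congr_ae (ae_of_all _ fun ξ => ?_)
        simp only
        rw [Real.fourier_eq', ← integral_mul_const]
        refine integral_congr_ae (ae_of_all _ fun y => ?_)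
        simp only [smul_eq_mul]
        ring
    _ = ∫ y, ∫ ξ in Metric.closedBall (0 : E n) R,
        (Complex.exp ((-2 * Real.pi * (inner ℝ y ξ : ℝ) : ℝ) * Complex.I) * ex x ξ) * g y :=
        integral_integral_swap hI
    _ = ∫ y, g y * ker R x y := by
        refine integral_congr_ae (ae_of_all _ fun y => ?_)
        simp only
        rw [integral_mul_const, mul_comm]
        rfl

lemma gk_int {g : E n → ℂ} (hg : Integrable g) (R : ℝ) (x : E n) :
    Integrable fun y => g y * ker R x y := by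
  have : IsFiniteMeasure (volume.restrict (Metric.closedBall (0 : E n) R)) :=
    ⟨by rw [Measure.restrict_apply_univ]; exact measure_closedBall_lt_top⟩
  have h1 : Continuous (ker R x) := by
    refine continuous_of_dominated (F := fun y ξ =>
      Complex.exp ((-2 * Real.pi * (inner ℝ y ξ : ℝ) : ℝ) * Complex.I) * ex x ξ)
      (bound := fun _ => 1) (fun y => ?_) (fun y => ae_of_all _ fun ξ => ?_)
      (integrable_const _) (ae_of_all _ fun ξ => ?_)
    · exact ((ch_cont.comp (continuous_id.prodMk continuous_const)).mul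
        (ex_continuous.comp (continuous_const.prodMk continuous_id))).aestronglyMeasurable
    · rw [norm_mul, ch_norm, ex_norm, mul_one]
    · exact (ch_cont.comp (continuous_const.prodMk continuous_id)).mul continuous_const
  have h2 : ∀ y, ‖ker R x y‖ ≤ ∫ _ in Metric.closedBall (0 : E n) R, (1 : ℝ) := fun y => by
    refine (norm_integral_le_integral_norm _).trans (le_of_eq ?_)
    refine integral_congr_ae (ae_of_all _ fun ξ => ?_)
    simp only
    rw [norm_mul, ch_norm, ex_norm, mul_one]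
  exact hg.mul_bdd h1.aestronglyMeasurable (ae_of_all _ h2)

lemma S_ind {f : E n → ℂ} (hf : Integrable f) {A : Set (E n)} (hA : MeasurableSet A) (R : ℝ)
    (x : E n) : S (A.indicator f) R x = ∫ y in A, f y * ker R x y := by
  rw [S_ker (hf.indicator hA), ← integral_indicator hA]
  refine integral_congr_ae (ae_of_all _ fun y => ?_)
  by_cases h : y ∈ A
  · simp [h]
  · simp [h]

lemma sh_meas (n : ℕ) (i : ℤ) : MeasurableSet (sh n i) :=
  (measurableSet_le measurable_const measurable_norm).inter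
    (measurableSet_lt measurable_norm measurable_const)

lemma sh_uniq {i i' : ℤ} {y : E n} (h : y ∈ sh n i) (h' : y ∈ sh n i') : i = i' := by
  have key : ∀ {a b : ℤ}, y ∈ sh n a → y ∈ sh n b → a ≤ b := by
    intro a b ha hb
    by_contra hlt
    push Not at hlt
    have h1 : (2 : ℝ) ^ (b + 1) ≤ (2 : ℝ) ^ a := zpow_le_zpow_right₀ (by norm_num) (by omega)
    exact absurd (hb.2.trans_le h1) (not_lt.2 ha.1)
  exact le_antisymm (key h h') (key h' h)

lemma sh_ex {y : E n} (hy : y ≠ 0) : ∃ i : ℤ, y ∈ sh n i := by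
  have h1 : 0 < ‖y‖ := norm_pos_iff.2 hy
  exact ⟨Int.log 2 ‖y‖, Int.zpow_log_le_self (by norm_num) h1,
    Int.lt_zpow_succ_log_self (by norm_num) ‖y‖⟩

/-- The pieces. -/
def pc (n : ℕ) (j i : ℤ) : Set (E n) :=
  if i = j then sh n (j - 1) ∪ sh n j ∪ sh n (j + 1) else if 2 ≤ |i - j| then sh n i else ∅

lemma pc_meas (n : ℕ) (j i : ℤ) : MeasurableSet (pc n j i) := by
  unfold pc
  split_ifs
  · exact ((sh_meas _ _).union (sh_meas _ _)).union (sh_meas _ _)
  · exact sh_meas _ _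
  · exact MeasurableSet.empty

/-- A point of a piece. -/
lemma pc_mem {j i : ℤ} {y : E n} (h : y ∈ pc n j i) :
    ∃ l : ℤ, y ∈ sh n l ∧ ((i = j ∧ |l - j| ≤ 1) ∨ (2 ≤ |i - j| ∧ l = i)) := by
  unfold pc at h
  split_ifs at h with h1 h2
  · rcases h with (h | h) | h
    · exact ⟨_, h, Or.inl ⟨h1, by rw [abs_le]; omega⟩⟩
    · exact ⟨_, h, Or.inl ⟨h1, by simp⟩⟩
    · exact ⟨_, h, Or.inl ⟨h1, by rw [abs_le]; omega⟩⟩
  · exact ⟨i, h, Or.inr ⟨h2, rfl⟩⟩
  · exact absurd h (notMem_empty _)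

lemma pc_disj (n : ℕ) (j : ℤ) : Pairwise (Function.onFun Disjoint (pc n j)) := by
  intro i i' hne
  refine Set.disjoint_left.2 fun y h h' => hne ?_
  obtain ⟨l, hl, h1⟩ := pc_mem h
  obtain ⟨l', hl', h2⟩ := pc_mem h'
  have h3 := sh_uniq hl hl'
  subst h3
  rcases h1 with ⟨a1, a2⟩ | ⟨a1, a2⟩
  · rcases h2 with ⟨b1, b2⟩ | ⟨b1, b2⟩
    · rw [a1, b1]
    · rw [b2] at a2
      omega
  · rcases h2 with ⟨b1, b2⟩ | ⟨b1, b2⟩
    · rw [a2] at b2
      omega
    · rw [← a2, b2]

lemma pc_cover (j : ℤ) {y : E n} (hy : y ≠ 0) : y ∈ ⋃ i, pc n j i := by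
  obtain ⟨i, hi⟩ := sh_ex hy
  by_cases h : 2 ≤ |i - j|
  · refine mem_iUnion.2 ⟨i, ?_⟩
    have h1 : i ≠ j := by
      rintro rfl
      simp at h
    simp only [pc, if_neg h1, if_pos h]
    exact hi
  · refine mem_iUnion.2 ⟨j, ?_⟩
    simp only [pc, if_true]
    push Not at h
    have h2 := abs_lt.1 h
    have h3 : i = j - 1 ∨ i = j ∨ i = j + 1 := by omega
    rcases h3 with rfl | rfl | rfl
    · exact Or.inl (Or.inl hi)
    · exact Or.inl (Or.inr hi)
    · exact Or.inr hi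

lemma disjoint_sh (n : ℕ) : Pairwise (Function.onFun Disjoint (sh n)) := by
  intro i j hij
  rw [Function.onFun, Set.disjoint_left]
  exact fun x hi hj => hij (sh_uniq hi hj)

lemma norm_rt (i j : Fin n) (hij : i ≠ j) (φ : ℝ) (y : E n) : ‖rt i j φ y‖ = ‖y‖ := by
  have h1 : ∀ x : E n, ‖x‖ ^ 2 = ∑ k, x k ^ 2 := fun x => by
    rw [EuclideanSpace.norm_sq_eq]
    exact Finset.sum_congr rfl fun k _ => by rw [Real.norm_eq_abs, sq_abs]
  have h2 : ‖rt i j φ y‖ ^ 2 - ‖y‖ ^ 2 = 0 := by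
    rw [h1, h1, ← Finset.sum_sub_distrib,
      Finset.sum_eq_add i j hij (fun k _ hk => ?_) (fun h => absurd (Finset.mem_univ _) h)
        (fun h => absurd (Finset.mem_univ _) h)]
    · simp only [rt, if_true, if_neg hij.symm]
      nlinarith [Real.sin_sq_add_cos_sq φ]
    · simp only [rt, if_neg hk.1, if_neg hk.2, sub_self]
  have h3 : ‖rt i j φ y‖ ^ 2 = ‖y‖ ^ 2 := by linarith
  exact (sq_eq_sq₀ (norm_nonneg _) (norm_nonneg _)).1 h3

theorem lint_indicator (g : E n → ℂ) (A : Set (E n)) (hA : MeasurableSet A) :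
    ∫⁻ x, ‖A.indicator g x‖ₑ ^ 2 = ∫⁻ x in A, ‖g x‖ₑ ^ 2 := by
  rw [← lintegral_indicator hA]
  congr 1
  funext x
  by_cases hx : x ∈ A
  · rw [indicator_of_mem hx, indicator_of_mem hx]
  · rw [indicator_of_notMem hx, indicator_of_notMem hx]
    simp

theorem sum_sh (h : E n → ℝ≥0∞) : ∑' j : ℤ, ∫⁻ x in sh n j, h x ≤ ∫⁻ x, h x := by
  rw [← lintegral_iUnion (sh_meas n) (disjoint_sh n)]
  exact setLIntegral_le_lintegral _ _

theorem sum_near (h : E n → ℝ≥0∞) :
    ∑' j : ℤ, ∫⁻ x in sh n (j - 1) ∪ sh n j ∪ sh n (j + 1), h x ≤ 3 * ∫⁻ x, h x := by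
  have h1 : ∀ j : ℤ, ∫⁻ x in sh n (j - 1) ∪ sh n j ∪ sh n (j + 1), h x ≤
      ((∫⁻ x in sh n (j - 1), h x) + ∫⁻ x in sh n j, h x) + ∫⁻ x in sh n (j + 1), h x := fun j =>
    (lintegral_union_le _ _ _).trans (add_le_add (lintegral_union_le _ _ _) le_rfl)
  refine (ENNReal.tsum_le_tsum h1).trans ?_
  rw [ENNReal.tsum_add, ENNReal.tsum_add]
  have e1 : ∑' j : ℤ, ∫⁻ x in sh n (j - 1), h x = ∑' j : ℤ, ∫⁻ x in sh n j, h x :=
    (Equiv.subRight (1 : ℤ)).tsum_eq (fun j => ∫⁻ x in sh n j, h x)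
  have e2 : ∑' j : ℤ, ∫⁻ x in sh n (j + 1), h x = ∑' j : ℤ, ∫⁻ x in sh n j, h x :=
    (Equiv.addRight (1 : ℤ)).tsum_eq (fun j => ∫⁻ x in sh n j, h x)
  rw [e1, e2]
  have h2 := sum_sh h
  refine (add_le_add (add_le_add h2 h2) h2).trans (le_of_eq ?_)
  ring

lemma ad_ind {f : E n → ℂ} {K : ℕ} (h : AD K f) (s : Set ℝ) :
    AD K ({x : E n | ‖x‖ ∈ s}.indicator f) := by
  intro i j hij y
  by_cases hy : ‖y‖ ∈ s
  · obtain ⟨c, hc⟩ := h i j hij y
    refine ⟨c, fun φ => ?_⟩
    rw [indicator_of_mem (by rw [mem_ofPred_eq, norm_rt i j hij]; exact hy)]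
    exact hc φ
  · refine ⟨fun _ => 0, fun φ => ?_⟩
    rw [indicator_of_notMem (by rw [mem_ofPred_eq, norm_rt i j hij]; exact hy)]
    simp

lemma sub_sh (hn : 2 ≤ n) {f : E n → ℂ} (hf : Nice f) (j : ℤ) (x : E n) : Sstar f x ≤
    Sstar ((sh n (j - 1) ∪ sh n j ∪ sh n (j + 1)).indicator f) x +
      ∑' i : ℤ, if 2 ≤ |i - j| then Sstar ((sh n i).indicator f) x else 0 := by
  have hne : Nonempty (Fin n) := ⟨⟨0, by omega⟩⟩
  have hfi := hf.int
  unfold Sstar
  refine iSup₂_le fun R hR => ?_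
  have hcov : (⋃ i, pc n j i : Set (E n)) =ᵐ[volume] univ := by
    rw [ae_eq_univ]
    refine measure_mono_null (t := {0}) (fun y hy => ?_) (measure_singleton _)
    by_contra h0
    exact hy (pc_cover j h0)
  have h1 : S f R x = ∑' i, ∫ y in pc n j i, f y * ker R x y := by
    rw [S_ker hfi, ← setIntegral_univ, ← setIntegral_congr_set hcov]
    exact integral_iUnion (pc_meas n j) (pc_disj n j) (gk_int hfi R x).integrableOn
  have h2 : ‖S f R x‖ₑ ≤ ∑' i, ‖∫ y in pc n j i, f y * ker R x y‖ₑ := by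
    rw [h1]
    exact enorm_tsum_le_tsum_enorm
  refine h2.trans ?_
  rw [ENNReal.tsum_eq_add_tsum_ite j]
  refine add_le_add ?_ (ENNReal.tsum_le_tsum fun i => ?_)
  · have h3 : pc n j j = sh n (j - 1) ∪ sh n j ∪ sh n (j + 1) := by simp [pc]
    rw [← S_ind hfi (pc_meas n j j) R x, h3]
    exact le_iSup₂_of_le R hR le_rfl
  · by_cases h : i = j
    · simp [h]
    · rw [if_neg h]
      by_cases h4 : 2 ≤ |i - j|
      · rw [if_pos h4, ← S_ind hfi (pc_meas n j i) R x]
        have h3 : pc n j i = sh n i := by simp [pc, h, h4]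
        rw [h3]
        exact le_iSup₂_of_le R hR le_rfl
      · have h3 : pc n j i = ∅ := by simp only [pc, if_neg h, if_neg h4]
        rw [if_neg h4, h3]
        simp


end SHL_

open SHL_ in
/-- SHL. -/
theorem p_SHL : T_SHL := by
  intro n f hn hf
  refine ⟨fun K s h => ad_ind h s, fun j x => sub_sh hn hf j x, ?_, ?_⟩
  · have h1 : ∀ j : ℤ, ∫⁻ x, ‖(sh n (j - 1) ∪ sh n j ∪ sh n (j + 1)).indicator f x‖ₑ ^ 2 =
        ∫⁻ x in sh n (j - 1) ∪ sh n j ∪ sh n (j + 1), ‖f x‖ₑ ^ 2 := fun j =>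
      lint_indicator _ _ (((sh_meas _ _).union (sh_meas _ _)).union (sh_meas _ _))
    simp only [h1]
    exact sum_near _
  · have h1 : ∀ i : ℤ, ∫⁻ x, ‖(sh n i).indicator f x‖ₑ ^ 2 = ∫⁻ x in sh n i, ‖f x‖ₑ ^ 2 :=
      fun i => lint_indicator _ _ (sh_meas _ _)
    simp only [h1]
    exact sum_sh _


end Pool.Agent.CRN
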