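import Pool.Agent.CRN.Targets

set_option autoImplicit false

/-!
# CRN-SMN: far from the support the ball sum is the operator with the annulus multiplier
-/

namespace Pool.Agent.CRN

open MeasureTheory FourierTransform Set Filter Topology
open scoped ENNReal NNReal
open Pool.Agent.MBS (E ex S Sstar)
open Pool.Agent.CAR (e1)

variable {n : ℕ}

namespace SMN_

theorem ex_norm (x ξ : E n) : ‖ex x ξ‖ = 1 := Pool.Agent.MBS.ex_norm x ξ

theorem ex_cont : Continuous (fun p : E n × E n => ex p.1 p.2) := Pool.Agent.MBS.ex_continuous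

theorem fourier_cont {f : E n → ℂ} (hf : Integrable f) : Continuous (𝓕 f) := by
  have := VectorFourier.fourierIntegral_continuous (V := E n) (W := E n)
      Real.continuous_fourierChar (L := innerₗ (E n)) continuous_inner hf
  exact this

theorem ex_sub (x y ξ : E n) :
    ((Real.fourierChar (-inner ℝ y ξ) : Circle) : ℂ) * ex x ξ = ex (x - y) ξ := by
  unfold ex
  rw [Real.fourierChar_apply, ← Complex.exp_add, inner_sub_left]
  congr 1
  push_cast
  ring

theorem ex_add (z ξ ζ : E n) : ex z (ξ + ζ) = ex z ξ * ex z ζ := by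
  unfold ex
  rw [← Complex.exp_add, inner_add_right]
  congr 1
  push_cast
  ring

theorem fourier_mul (f : E n → ℂ) (x ξ : E n) :
    𝓕 f ξ * ex x ξ = ∫ y, f y * ex (x - y) ξ := by
  rw [Real.fourier_eq, ← integral_mul_const]
  refine integral_congr_ae (Filter.Eventually.of_forall fun y => ?_)
  simp only
  rw [← ex_sub, Circle.smul_def, smul_eq_mul]
  ring

theorem fourier_le (f : E n → ℂ) (ξ : E n) : ‖𝓕 f ξ‖ ≤ ∫ y, ‖f y‖ :=
  VectorFourier.norm_fourierIntegral_le_integral_norm Real.fourierChar volume (innerₗ (E n)) f ξ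

theorem psi_int {ψ : E n → ℂ} {B : ℝ} (h : Psi ψ B) : Integrable ψ := by
  have h1 : Integrable (fun ζ : E n => B * (1 + ‖ζ‖) ^ (-((2 * n + 8 : ℕ) : ℝ))) :=
    (integrable_one_add_norm (by
      rw [finrank_euclideanSpace_fin]
      have : n < 2 * n + 8 := by omega
      exact_mod_cast this)).const_mul B
  refine Integrable.mono' h1 h.cont.aestronglyMeasurable (ae_of_all _ fun ζ => ?_)
  refine (h.dec ζ).trans (le_of_eq ?_)
  rw [Real.rpow_neg (by positivity), Real.rpow_natCast]

theorem int1 {ψ : E n → ℂ} (hψ : Integrable ψ) {f : E n → ℂ} (hf : Integrable f) (x ζ : E n) :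
    Integrable (Function.uncurry fun (ξ y : E n) => ψ (ξ - ζ) * (f y * ex (x - y) ξ))
      ((volume : Measure (E n)).prod volume) := by
  have h1 : Integrable (fun ξ : E n => ψ (ξ - ζ)) := hψ.comp_sub_right ζ
  have h2 : Integrable (fun z : E n × E n => ψ (z.1 - ζ) * f z.2)
      ((volume : Measure (E n)).prod volume) := h1.mul_prod hf
  have h3 : Continuous (fun z : E n × E n => ex (x - z.2) z.1) :=
    ex_cont.comp ((continuous_const.sub continuous_snd).prodMk continuous_fst)
  refine Integrable.mono h2 ?_ ?_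
  · have := h2.aestronglyMeasurable.mul h3.aestronglyMeasurable
    refine this.congr (Filter.Eventually.of_forall fun z => ?_)
    simp only [Pi.mul_apply, Function.uncurry]
    exact mul_assoc _ _ _
  · refine Filter.Eventually.of_forall fun z => le_of_eq ?_
    simp only [Function.uncurry]
    rw [norm_mul, norm_mul, norm_mul, ex_norm, mul_one]

/-- the inner identity -/
theorem inner_id {ψ : E n → ℂ} {B : ℝ} (h : Psi ψ B) {f : E n → ℂ} (hf : Integrable f)
    (x : E n) (hx : ∀ y, f y ≠ 0 → 1 / 2 ≤ ‖x - y‖ ∧ ‖x - y‖ ≤ 5 / 2) (ζ : E n) :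
    ∫ ξ, ψ (ξ - ζ) * (𝓕 f ξ * ex x ξ) = 𝓕 f ζ * ex x ζ := by
  have h1 : ∀ ξ : E n, ψ (ξ - ζ) * (𝓕 f ξ * ex x ξ) =
      ∫ y, ψ (ξ - ζ) * (f y * ex (x - y) ξ) := by
    intro ξ
    rw [fourier_mul, ← integral_const_mul]
  simp only [h1]
  rw [integral_integral_swap (int1 (psi_int h) hf x ζ), fourier_mul]
  refine integral_congr_ae (Filter.Eventually.of_forall fun y => ?_)
  simp only
  by_cases hy : f y = 0
  · simp [hy]
  · have h2 : ∀ ξ : E n, ψ (ξ - ζ) * (f y * ex (x - y) ξ) =
        f y * (ψ (ξ - ζ) * ex (x - y) ξ) := fun ξ => by ring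
    simp only [h2]
    rw [integral_const_mul]
    congr 1
    rw [← integral_add_right_eq_self (fun ξ => ψ (ξ - ζ) * ex (x - y) ξ) ζ]
    have h3 : ∀ ξ : E n, ψ (ξ + ζ - ζ) * ex (x - y) (ξ + ζ) =
        (ψ ξ * ex (x - y) ξ) * ex (x - y) ζ := by
      intro ξ
      rw [add_sub_cancel_right, ex_add]
      ring
    simp only [h3]
    rw [integral_mul_const]
    have h4 : ∫ ξ, ψ ξ * ex (x - y) ξ = 1 := h.one (x - y) (hx y hy).1 (hx y hy).2
    rw [h4, one_mul]

theorem int2 {ψ : E n → ℂ} (hc : Continuous ψ) (hψ : Integrable ψ) {f : E n → ℂ}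
    (hf : Integrable f) (x : E n) (R : ℝ) :
    Integrable (Function.uncurry fun (ξ ζ : E n) => ψ (ξ - ζ) * (𝓕 f ξ * ex x ξ))
      ((volume : Measure (E n)).prod (volume.restrict (Metric.closedBall (0 : E n) R))) := by
  have hfin : IsFiniteMeasure (volume.restrict (Metric.closedBall (0 : E n) R)) :=
    ⟨by rw [Measure.restrict_apply_univ]; exact measure_closedBall_lt_top⟩
  have hm : Continuous (fun z : E n × E n => ψ (z.1 - z.2)) :=
    hc.comp (continuous_fst.sub continuous_snd)
  have h0 : Integrable (fun z : E n × E n => ψ (z.1 - z.2))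
      ((volume : Measure (E n)).prod (volume.restrict (Metric.closedBall (0 : E n) R))) := by
    rw [integrable_prod_iff' hm.aestronglyMeasurable]
    refine ⟨ae_of_all _ fun ζ => hψ.comp_sub_right ζ, ?_⟩
    have : ∀ ζ : E n, ∫ ξ, ‖ψ (ξ - ζ)‖ = ∫ ξ, ‖ψ ξ‖ := fun ζ =>
      integral_sub_right_eq_self (fun ξ => ‖ψ ξ‖) ζ
    simp only [this]
    exact integrable_const _
  have hg : Continuous (fun z : E n × E n => 𝓕 f z.1 * ex x z.1) :=
    ((fourier_cont hf).comp continuous_fst).mul
      (ex_cont.comp (continuous_const.prodMk continuous_fst))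
  refine Integrable.mono' (h0.norm.mul_const (∫ y, ‖f y‖))
    (hm.mul hg).aestronglyMeasurable (ae_of_all _ fun z => ?_)
  simp only [Function.uncurry]
  rw [norm_mul, norm_mul, ex_norm, mul_one]
  exact mul_le_mul_of_nonneg_left (fourier_le f z.1) (norm_nonneg _)

end SMN_

theorem p_SMN : T_SMN := by
  intro n ψ B _ h f hf x hx R _
  have hψ := SMN_.psi_int h
  unfold FF IN mm S
  have h1 : ∀ ξ : E n, (∫ ζ in Metric.closedBall (0 : E n) R, ψ (ξ - ζ)) * 𝓕 f ξ * ex x ξ =
      ∫ ζ in Metric.closedBall (0 : E n) R, ψ (ξ - ζ) * (𝓕 f ξ * ex x ξ) := by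
    intro ξ
    rw [integral_mul_const, mul_assoc]
  simp only [h1]
  rw [integral_integral_swap (SMN_.int2 h.cont hψ hf.int x R)]
  exact integral_congr_ae (ae_of_all _ fun ζ => (SMN_.inner_id h hf.int x hx ζ).symm)

end Pool.Agent.CRN
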