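import Pool.Agent.CAR.P_CARL
import Pool.Agent.CRN.P_ADFN
import Pool.Agent.CRN.P_AHN
import Pool.Agent.CRN.P_ARCN
import Pool.Agent.CRN.P_BERN
import Pool.Agent.CRN.P_BESN
import Pool.Agent.CRN.P_D2SN
import Pool.Agent.CRN.P_DSN
import Pool.Agent.CRN.P_ENN
import Pool.Agent.CRN.P_GLN
import Pool.Agent.CRN.P_HELN
import Pool.Agent.CRN.P_HI1
import Pool.Agent.CRN.P_HI2
import Pool.Agent.CRN.P_HIN
import Pool.Agent.CRN.P_IBPN
import Pool.Agent.CRN.P_LEN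
import Pool.Agent.CRN.P_LOWN
import Pool.Agent.CRN.P_MMN
import Pool.Agent.CRN.P_NDJN
import Pool.Agent.CRN.P_NDN
import Pool.Agent.CRN.P_OFFAN
import Pool.Agent.CRN.P_OFFBN
import Pool.Agent.CRN.P_OFFIN
import Pool.Agent.CRN.P_OFFN
import Pool.Agent.CRN.P_POLN
import Pool.Agent.CRN.P_PSIN
import Pool.Agent.CRN.P_RAYN
import Pool.Agent.CRN.P_RMN
import Pool.Agent.CRN.P_SERN
import Pool.Agent.CRN.P_SHL
import Pool.Agent.CRN.P_SMN

set_option autoImplicit false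

/-!
# CRN: assembly (MP_ee701d_an), all dimensions n >= 2
-/

namespace Pool.Agent.CRN

theorem q_CARLS : T_CARLS := Pool.Agent.CAR.p_CARLS

theorem q_MMN : T_MMN := p_MMN p_POLN

theorem q_ENN : T_ENN := p_ENN p_POLN q_MMN

theorem q_LEN : T_LEN := p_LEN p_ARCN

theorem q_OFFIN : T_OFFIN := p_OFFIN p_PSIN q_MMN p_SMN q_ENN q_LEN

theorem q_BESN : T_BESN := p_BESN p_POLN p_IBPN

theorem q_D2SN : T_D2SN := p_D2SN p_POLN q_BESN

theorem q_OFFAN : T_OFFAN := p_OFFAN p_PSIN p_SMN q_ENN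

theorem q_OFFBN : T_OFFBN := p_OFFBN p_PSIN p_SMN q_ENN q_D2SN

theorem q_OFFN : T_OFFN := p_OFFN q_OFFIN q_OFFAN q_OFFBN

theorem q_AHN : T_AHN := p_AHN p_POLN

theorem q_DSN : T_DSN := p_DSN p_POLN

theorem q_LOWN : T_LOWN := p_LOWN p_RMN q_AHN q_DSN

theorem q_HI1 : T_HI1 := p_HI1 q_DSN p_HELN

theorem q_HI2 : T_HI2 := p_HI2 p_HELN q_DSN

theorem q_HIN : T_HIN :=
  p_HIN p_POLN q_AHN q_DSN p_HELN p_ADFN p_BERN p_RAYN q_HI1 q_HI2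

theorem q_NDN : T_NDN := p_NDN q_LOWN q_HIN

theorem q_NDJN : T_NDJN := p_NDJN q_NDN

theorem q_GLN : T_GLN := p_GLN q_NDJN q_OFFN p_SHL

theorem q_SERN : T_SERN := p_SERN q_GLN

end Pool.Agent.CRN
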