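import Pool.Agent.MBS.J1
import Pool.Agent.CAR.Defs
import Pool.Agent.H25.Plancherel

set_option autoImplicit false

/-!
# Ball partial sums of functions of bounded angular degree in `ℝⁿ` (MP_ee701d_an, CRN): definitions

`E n = ℝⁿ`, `ex x ξ = e^{2 π i x·ξ}`, `S f R x = ∫_{|ξ| ≤ R} f^(ξ) ex x ξ dξ`, `Sstar f = sup_{R>0} |S f R|` (all from
`Pool.Agent.MBS`).
-/

namespace Pool.Agent.CRN

open MeasureTheory FourierTransform Set Filter Topology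
open scoped ENNReal NNReal
open Pool.Agent.MBS (E ex S Sstar)
open Pool.Agent.CAR (e1)

variable {n : ℕ}

/-- the surface measure of the unit sphere -/
noncomputable def sg (n : ℕ) : Measure (Metric.sphere (0 : E n) 1) := (volume : Measure (E n)).toSphere

/-- `∫ h(ξ) ex x ξ dξ` -/
noncomputable def IN (h : E n → ℂ) (x : E n) : ℂ := ∫ ξ, h ξ * ex x ξ

/-- `e^{i t}` -/
noncomputable def ci (t : ℝ) : ℂ := Complex.exp (t * Complex.I)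

/-- the rotation by `φ` in the coordinate plane `(i, j)` -/
noncomputable def rt (i j : Fin n) (φ : ℝ) (y : E n) : E n :=
  WithLp.toLp 2 (fun k => if k = i then Real.cos φ * y i - Real.sin φ * y j
    else if k = j then Real.sin φ * y i + Real.cos φ * y j else y k)

/-- angular degree at most `K`: on every orbit of the rotations of a coordinate plane `f` is a
trigonometric polynomial of degree at most `K` -/
def AD (K : ℕ) (f : E n → ℂ) : Prop := ∀ i j : Fin n, i ≠ j → ∀ y : E n, ∃ c : ℤ → ℂ,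
  ∀ φ : ℝ, f (rt i j φ y) = ∑ k ∈ Finset.Icc (-(K : ℤ)) K, c k * ci (k * φ)

/-- `f` is a Borel function in `L¹ ∩ L²` -/
structure Nice (f : E n → ℂ) : Prop where
  meas : Measurable f
  int : Integrable f
  sq : MemLp f 2

/-- the dyadic shell `2^j ≤ |x| < 2^(j+1)` -/
def sh (n : ℕ) (j : ℤ) : Set (E n) := {x | (2 : ℝ) ^ j ≤ ‖x‖ ∧ ‖x‖ < (2 : ℝ) ^ (j + 1)}

/-- the cutoff: `ψ = χ^`, `χ` smooth with compact support in `ℝⁿ ∖ {0}`, `χ = 1` for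
`1/2 ≤ |z| ≤ 5/2` -/
structure Psi (ψ : E n → ℂ) (B : ℝ) : Prop where
  cont : Continuous ψ
  dec : ∀ ζ, ‖ψ ζ‖ ≤ B * ((1 + ‖ζ‖) ^ (2 * n + 8))⁻¹
  int0 : ∫ ζ, ψ ζ = 0
  one : ∀ z : E n, 1 / 2 ≤ ‖z‖ → ‖z‖ ≤ 5 / 2 → IN ψ z = 1

/-- `1_{|ξ| ≤ R} * ψ` -/
noncomputable def mm (ψ : E n → ℂ) (R : ℝ) (ξ : E n) : ℂ :=
  ∫ ζ in Metric.closedBall (0 : E n) R, ψ (ξ - ζ)

/-- its `R`-derivative -/
noncomputable def m1 (ψ : E n → ℂ) (R : ℝ) (ξ : E n) : ℂ :=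
  ((R ^ (n - 1) : ℝ) : ℂ) * ∫ ω, ψ (ξ - R • (ω : E n)) ∂(sg n)

/-- the decay weight of the annulus multipliers -/
noncomputable def dw (m : ℕ) (R : ℝ) (ξ : E n) : ℝ := ((1 + |‖ξ‖ - R|) ^ m)⁻¹

noncomputable def FF (ψ f : E n → ℂ) (R : ℝ) (x : E n) : ℂ := IN (fun ξ => mm ψ R ξ * 𝓕 f ξ) x

noncomputable def F1 (ψ f : E n → ℂ) (R : ℝ) (x : E n) : ℂ := IN (fun ξ => m1 ψ R ξ * 𝓕 f ξ) x

/-- the ball kernel and its `R`-derivative -/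
noncomputable def DD (R : ℝ) (z : E n) : ℂ := ∫ ζ in Metric.closedBall (0 : E n) R, ex z ζ

noncomputable def D1 (R : ℝ) (z : E n) : ℂ :=
  ((R ^ (n - 1) : ℝ) : ℂ) * ∫ ω, ex z (R • (ω : E n)) ∂(sg n)

/-- `R^{n-1} ∫_{|ω|=1} h(Rω) ex x (Rω) dσ(ω)` -/
noncomputable def SH (h : E n → ℂ) (R : ℝ) (x : E n) : ℂ :=
  ((R ^ (n - 1) : ℝ) : ℂ) * ∫ ω, h (R • (ω : E n)) * ex x (R • (ω : E n)) ∂(sg n)

/-- the `R`-derivative of `S f R x` -/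
noncomputable def S1 (f : E n → ℂ) (R : ℝ) (x : E n) : ℂ := SH (𝓕 f) R x

/-- the (closed) unit shell -/
def A1 (n : ℕ) : Set (E n) := {x | 1 ≤ ‖x‖ ∧ ‖x‖ ≤ 2}

/-- second derivative at `0` along the rotation orbit in the plane `(i,j)` -/
noncomputable def L2 (i j : Fin n) (u : E n → ℂ) (x : E n) : ℂ :=
  deriv (deriv (fun φ : ℝ => u (rt i j φ x))) 0

/-- the angular Laplacian: sum over the coordinate planes `i < j` -/
noncomputable def Lam (u : E n → ℂ) (x : E n) : ℂ :=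
  ∑ i : Fin n, ∑ j : Fin n, if i < j then L2 i j u x else 0

/-- derivative of `ρ^((n-1)/2) SH h R (ρθ)` in `ρ` -/
noncomputable def WD (h : E n → ℂ) (R : ℝ) (θ : E n) (ρ : ℝ) : ℂ :=
  ((ρ ^ (((n : ℝ) - 1) / 2) : ℝ) : ℂ) *
    ((∑ j : Fin n, (θ j : ℂ) * SH (fun ξ => 2 * Real.pi * Complex.I * (ξ j : ℂ) * h ξ) R (ρ • θ)) +
      ((((n : ℝ) - 1) / 2 / ρ : ℝ) : ℂ) * SH h R (ρ • θ))

/-- the amplitudes on the ray `θ` at radius `r`, averaged over `1 ≤ s ≤ 2` -/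
noncomputable def Bp (f : E n → ℂ) (r : ℝ) (θ : E n) : ℂ :=
  ∫ s in (1 : ℝ)..2, e1 (-(r * s)) * ((WD (𝓕 f) r θ s + 2 * Real.pi * Complex.I * r *
    (((s ^ (((n : ℝ) - 1) / 2) : ℝ) : ℂ) * S1 f r (s • θ))) / (4 * Real.pi * Complex.I * r))

noncomputable def Bm (f : E n → ℂ) (r : ℝ) (θ : E n) : ℂ :=
  ∫ s in (1 : ℝ)..2, e1 (r * s) * ((WD (𝓕 f) r θ s - 2 * Real.pi * Complex.I * r *
    (((s ^ (((n : ℝ) - 1) / 2) : ℝ) : ℂ) * S1 f r (s • θ))) / (4 * Real.pi * Complex.I * r))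

/-- the Carleson theorem on the line, strong type (2,2), for `g = f^ ∈ L¹ ∩ L²` -/
def T_CARLS : Prop := ∃ C : ℝ≥0, ∀ g : ℝ → ℂ, Measurable g → Integrable g →
  Integrable (fun ξ => ‖g ξ‖ ^ 2) →
    ∫⁻ x, (⨆ m : ℝ, ‖∫ ξ in Iio m, g ξ * e1 (x * ξ)‖ₑ) ^ 2 ≤ C * ∫⁻ ξ, ‖g ξ‖ₑ ^ 2

end Pool.Agent.CRN
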