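import Pool.Agent.CRN.Targets4
import Pool.Agent.CRL.P_MODB

set_option autoImplicit false

/-!
# G2: functions of bounded angular degree in the plane
-/

namespace Pool.Agent.CRN

open MeasureTheory FourierTransform Set Filter Topology
open scoped ENNReal NNReal
open Pool.Agent.MBS (E ex S Sstar)

namespace G2_

lemma rt_eq (θ : ℝ) (x : E 2) : rt 0 1 θ x = CRL.rot θ x := by
  unfold rt CRL.rot
  congr 1
  funext k
  fin_cases k <;> simp

lemma mode_zero {K : ℕ} {f : E 2 → ℂ} (hf : AD K f) (k : ℤ) (hk : k ∉ Finset.Icc (-(K : ℤ)) K)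
    (x : E 2) : CRL.amode k f x = 0 := by
  obtain ⟨c, hc⟩ := hf 0 1 (by decide) x
  have h1 : CRL.amode k f x = CRL.MODB_.cf (fun θ => f (CRL.rot θ x)) k := rfl
  have h2 : (fun θ => f (CRL.rot θ x)) =
      fun θ => ∑ j ∈ Finset.Icc (-(K : ℤ)) K, c j * CRL.ci (j * θ) := by
    funext θ
    rw [← rt_eq, hc θ]
    rfl
  rw [h1, h2, CRL.MODB_.cf_poly, if_neg hk]

lemma log_pos3 (t : ℝ) (ht : 0 ≤ t) : 0 ≤ Real.log (3 + t) := Real.log_nonneg (by linarith)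

lemma wk_mono {K : ℕ} {k : ℤ} (hk : k ∈ Finset.Icc (-(K : ℤ)) K) :
    CRL.wk k ≤ CRL.wk K := by
  have h : |(k : ℝ)| ≤ |((K : ℤ) : ℝ)| := by
    rw [Finset.mem_Icc] at hk
    have h1 : |k| ≤ (K : ℤ) := abs_le.2 hk
    have h2 : ((|k| : ℤ) : ℝ) ≤ ((K : ℤ) : ℝ) := by exact_mod_cast h1
    rw [Int.cast_abs] at h2
    exact h2.trans (le_abs_self _)
  unfold CRL.wk
  have h0 := abs_nonneg (k : ℝ)
  have h3 := log_pos3 _ h0
  have h4 : Real.log (3 + |(k : ℝ)|) ≤ Real.log (3 + |((K : ℤ) : ℝ)|) :=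
    Real.log_le_log (by linarith) (by linarith)
  have h5 := log_pos3 _ h3
  have h6 : Real.log (3 + Real.log (3 + |(k : ℝ)|)) ≤
      Real.log (3 + Real.log (3 + |((K : ℤ) : ℝ)|)) :=
    Real.log_le_log (by linarith) (by linarith)
  exact pow_le_pow_left₀ h5 h6 13

lemma wk_eq (K : ℕ) :
    CRL.wk K = (Real.log (3 + Real.log (3 + K)) ^ (13 / 2 : ℝ)) ^ 2 := by
  have h0 : (0 : ℝ) ≤ K := K.cast_nonneg
  have h1 := log_pos3 _ (log_pos3 _ h0)
  unfold CRL.wk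
  rw [← Real.rpow_natCast _ 2, ← Real.rpow_mul h1, Int.cast_natCast, abs_of_nonneg h0,
    ← Real.rpow_natCast]
  norm_num

end G2_

open G2_

theorem p_G2 : T_G2 := by
  intro hG hM hC hL
  obtain ⟨C, hC⟩ := hG hC hL
  refine ⟨C, fun K f _ hf hA => ?_⟩
  have hn : CRL.Nice f := ⟨hf.meas, hf.int, hf.sq⟩
  have h1 : CRL.NN f ≤ ENNReal.ofReal (CRL.wk K) * ∫⁻ x, ‖f x‖ₑ ^ 2 := by
    rw [← (hM f hn).1, ← ENNReal.tsum_mul_left]
    unfold CRL.NN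
    refine ENNReal.tsum_le_tsum fun k => ?_
    by_cases hk : k ∈ Finset.Icc (-(K : ℤ)) K
    · gcongr
      exact wk_mono hk
    · have h2 : ∫⁻ x, ‖CRL.amode k f x‖ₑ ^ 2 = 0 := by
        simp [mode_zero hA k hk]
      rw [h2, mul_zero]
      exact zero_le
  calc ∫⁻ x, Sstar f x ^ 2 ≤ C * CRL.NN f := hC f hn
    _ ≤ C * (ENNReal.ofReal (CRL.wk K) * ∫⁻ x, ‖f x‖ₑ ^ 2) := by gcongr
    _ = _ := by rw [wk_eq, mul_assoc]

end Pool.Agent.CRN
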