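import Pool.Agent.CRN.Targets

set_option autoImplicit false

/-! # CRN: LEN, local energy -/

namespace Pool.Agent.CRN

open MeasureTheory FourierTransform Set Filter Topology
open scoped ENNReal NNReal
open Pool.Agent.MBS (E ex S Sstar ex_norm ex_continuous)

variable {n : ℕ}

namespace LEN_

theorem ex_add (x ξ η : E n) : ex x (ξ + η) = ex x ξ * ex x η := by
  unfold ex
  rw [← Complex.exp_add, inner_add_right]
  congr 1
  push_cast
  ring

theorem ex_cont (x : E n) : Continuous fun ξ : E n => ex x ξ :=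
  ex_continuous.comp (Continuous.prodMk_right x)

/-- the indicator of the ball of radius `δ` -/
noncomputable def be (δ : ℝ) : E n → ℂ :=
  (Metric.closedBall (0 : E n) δ).indicator (fun _ => (1 : ℂ))

theorem be_int (δ : ℝ) : Integrable (be δ : E n → ℂ) := by
  refine (integrable_indicator_iff Metric.isClosed_closedBall.measurableSet).2 ?_
  exact integrableOn_const measure_closedBall_lt_top.ne

/-- the moving average of `u` over balls of radius `δ` -/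
noncomputable def gg (u : E n → ℂ) (δ : ℝ) (ξ : E n) : ℂ := ∫ ζ, u ζ * be δ (ξ - ζ)

theorem F_int {u : E n → ℂ} (hu : Integrable u) (δ : ℝ) :
    Integrable (fun p : E n × E n => u p.2 * be δ (p.1 - p.2)) (volume.prod volume) :=
  hu.convolution_integrand (ContinuousLinearMap.mul ℂ ℂ) (be_int δ)

theorem gg_int {u : E n → ℂ} (hu : Integrable u) (δ : ℝ) : Integrable (gg u δ) :=
  (F_int hu δ).integral_prod_left

theorem IN_gg {u : E n → ℂ} (hu : Integrable u) (δ : ℝ) (x : E n) :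
    IN (gg u δ) x = IN (be δ) x * IN u x := by
  unfold IN gg
  have hF : Integrable (fun p : E n × E n => u p.2 * be δ (p.1 - p.2) * ex x p.1)
      (volume.prod volume) := by
    refine Integrable.mono (F_int hu δ) ?_ (ae_of_all _ fun p => ?_)
    · exact (F_int hu δ).1.mul ((ex_cont x).comp continuous_fst).aestronglyMeasurable
    · rw [norm_mul, ex_norm, mul_one]
  calc ∫ ξ, (∫ ζ, u ζ * be δ (ξ - ζ)) * ex x ξ
      = ∫ ξ, ∫ ζ, u ζ * be δ (ξ - ζ) * ex x ξ := by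
        simp_rw [integral_mul_const]
    _ = ∫ ζ, ∫ ξ, u ζ * be δ (ξ - ζ) * ex x ξ := integral_integral_swap hF
    _ = ∫ ζ, (∫ η, be δ η * ex x η) * (u ζ * ex x ζ) := by
        refine integral_congr_ae (ae_of_all _ fun ζ => ?_)
        show ∫ ξ, u ζ * be δ (ξ - ζ) * ex x ξ = (∫ η, be δ η * ex x η) * (u ζ * ex x ζ)
        rw [← integral_add_right_eq_self _ ζ, ← integral_mul_const]
        refine integral_congr_ae (ae_of_all _ fun η => ?_)
        show u ζ * be δ (η + ζ - ζ) * ex x (η + ζ) = be δ η * ex x η * (u ζ * ex x ζ)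
        rw [add_sub_cancel_right, ex_add]
        ring
    _ = _ := integral_const_mul _ _

theorem IN_be (δ : ℝ) (x : E n) :
    IN (be δ) x = ∫ ζ in Metric.closedBall (0 : E n) δ, ex x ζ := by
  unfold IN be
  rw [← integral_indicator Metric.isClosed_closedBall.measurableSet]
  refine integral_congr_ae (ae_of_all _ fun ζ => ?_)
  by_cases h : ζ ∈ Metric.closedBall (0 : E n) δ
  · simp only [indicator_of_mem h, one_mul]
  · simp only [indicator_of_notMem h, zero_mul]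

/-- the real part of a character near the origin -/
theorem ex_re {x ζ : E n} {r : ℝ} (hr : 0 < r) (hx : ‖x‖ ≤ r) (hζ : ‖ζ‖ ≤ (8 * r)⁻¹) :
    1 / 2 ≤ (ex x ζ).re := by
  have h1 : |(inner ℝ x ζ : ℝ)| ≤ 1 / 8 := by
    refine (abs_real_inner_le_norm x ζ).trans ?_
    calc ‖x‖ * ‖ζ‖ ≤ r * (8 * r)⁻¹ := mul_le_mul hx hζ (norm_nonneg _) hr.le
      _ = 1 / 8 := by field_simp
  have h2 : (ex x ζ).re = Real.cos (2 * Real.pi * inner ℝ x ζ) := by
    unfold ex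
    rw [show (2 * Real.pi * Complex.I * ((inner ℝ x ζ : ℝ) : ℂ) : ℂ) =
      ((2 * Real.pi * (inner ℝ x ζ : ℝ) : ℝ) : ℂ) * Complex.I by push_cast; ring]
    exact Complex.exp_ofReal_mul_I_re _
  rw [h2, ← Real.cos_abs, ← Real.cos_pi_div_three]
  refine Real.cos_le_cos_of_nonneg_of_le_pi (abs_nonneg _) (by linarith [Real.pi_pos]) ?_
  rw [abs_mul, abs_of_pos Real.two_pi_pos]
  nlinarith [Real.pi_pos]

/-- the volume of the unit ball -/
noncomputable def vb (n : ℕ) : ℝ := (volume (Metric.ball (0 : E n) 1)).toReal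

theorem vb_pos (n : ℕ) : 0 < vb n :=
  ENNReal.toReal_pos (Metric.measure_ball_pos _ _ one_pos).ne' measure_ball_lt_top.ne

theorem vol (x : E n) (δ : ℝ) (hδ : 0 ≤ δ) :
    volume (Metric.closedBall x δ) = ENNReal.ofReal (vb n * δ ^ n) := by
  rw [Measure.addHaar_closedBall _ _ hδ, finrank_euclideanSpace_fin, mul_comm,
    ENNReal.ofReal_mul (vb_pos n).le, vb, ENNReal.ofReal_toReal measure_ball_lt_top.ne]

theorem IN_be_ge {x : E n} {r : ℝ} (hr : 0 < r) (hx : ‖x‖ ≤ r) :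
    vb n * (8 * r)⁻¹ ^ n / 2 ≤ ‖IN (be (8 * r)⁻¹) x‖ := by
  have hvb := vb_pos n
  have hδ : 0 ≤ (8 * r)⁻¹ := by positivity
  rw [IN_be]
  refine le_trans ?_ (Complex.re_le_norm _)
  have hi : IntegrableOn (fun ζ : E n => ex x ζ) (Metric.closedBall (0 : E n) (8 * r)⁻¹) :=
    (ex_cont x).continuousOn.integrableOn_compact (isCompact_closedBall _ _)
  have h1 : (∫ ζ in Metric.closedBall (0 : E n) (8 * r)⁻¹, ex x ζ).re =
      ∫ ζ in Metric.closedBall (0 : E n) (8 * r)⁻¹, (ex x ζ).re :=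
    (Complex.reCLM.integral_comp_comm hi).symm
  have h2 : ∫ ζ in Metric.closedBall (0 : E n) (8 * r)⁻¹, (1 / 2 : ℝ) =
      vb n * (8 * r)⁻¹ ^ n / 2 := by
    rw [setIntegral_const, Measure.real, vol _ _ hδ, ENNReal.toReal_ofReal (by positivity),
      smul_eq_mul]
    ring
  rw [h1, ← h2]
  refine setIntegral_mono_on (integrableOn_const measure_closedBall_lt_top.ne) hi.re
    Metric.isClosed_closedBall.measurableSet fun ζ hζ => ?_
  exact ex_re hr hx (by simpa using hζ)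

/-- Cauchy–Schwarz for lower integrals -/
theorem cs {μ : Measure (E n)} {f g : E n → ℝ≥0∞} (hf : AEMeasurable f μ)
    (hg : AEMeasurable g μ) :
    (∫⁻ a, f a * g a ∂μ) ^ 2 ≤ (∫⁻ a, f a ^ 2 ∂μ) * ∫⁻ a, g a ^ 2 ∂μ := by
  have h := ENNReal.lintegral_mul_le_Lp_mul_Lq μ Real.HolderConjugate.two_two hf hg
  have h2 := pow_le_pow_left' h 2
  rw [mul_pow] at h2
  have e : ∀ X : ℝ≥0∞, (X ^ (1 / (2 : ℝ))) ^ 2 = X := fun X => by
    rw [← ENNReal.rpow_natCast, ← ENNReal.rpow_mul]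
    norm_num
  rw [e, e] at h2
  simpa using h2

theorem gg_le (u : E n → ℂ) (δ : ℝ) (ξ : E n) :
    ‖gg u δ ξ‖ₑ ≤ ∫⁻ ζ in Metric.closedBall ξ δ, ‖u ζ‖ₑ := by
  unfold gg
  refine (enorm_integral_le_lintegral_enorm _).trans (le_of_eq ?_)
  rw [← lintegral_indicator Metric.isClosed_closedBall.measurableSet]
  refine lintegral_congr fun ζ => ?_
  unfold be
  by_cases h : ζ ∈ Metric.closedBall ξ δ
  · have h' : ξ - ζ ∈ Metric.closedBall (0 : E n) δ := by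
      rw [mem_closedBall_zero_iff, ← dist_eq_norm, dist_comm]
      exact h
    rw [indicator_of_mem h, indicator_of_mem h', mul_one]
  · have h' : ξ - ζ ∉ Metric.closedBall (0 : E n) δ := by
      rw [mem_closedBall_zero_iff, ← dist_eq_norm, dist_comm]
      exact h
    rw [indicator_of_notMem h, indicator_of_notMem h', mul_zero, enorm_zero]

theorem gg_sq_le {u : E n → ℂ} (hu : Measurable u) (δ R : ℝ) (ξ : E n) :
    ‖gg u δ ξ‖ₑ ^ 2 ≤ (∫⁻ ζ in Metric.closedBall ξ δ,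
      ‖u ζ‖ₑ ^ 2 * ENNReal.ofReal ((1 + |‖ζ‖ - R|) ^ 2)) *
      ∫⁻ ζ in Metric.closedBall ξ δ, ENNReal.ofReal (dw 2 R ζ) := by
  have hpos : ∀ ζ : E n, 0 < 1 + |‖ζ‖ - R| := fun ζ => by positivity
  have hm1 : Measurable fun ζ : E n => ENNReal.ofReal (1 + |‖ζ‖ - R|) := by fun_prop
  have hm2 : Measurable fun ζ : E n => ENNReal.ofReal ((1 + |‖ζ‖ - R|)⁻¹) := by fun_prop
  calc ‖gg u δ ξ‖ₑ ^ 2 ≤ (∫⁻ ζ in Metric.closedBall ξ δ, ‖u ζ‖ₑ) ^ 2 :=
        pow_le_pow_left' (gg_le u δ ξ) 2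
    _ = (∫⁻ ζ in Metric.closedBall ξ δ, (‖u ζ‖ₑ * ENNReal.ofReal (1 + |‖ζ‖ - R|)) *
        ENNReal.ofReal ((1 + |‖ζ‖ - R|)⁻¹)) ^ 2 := by
        congr 1
        refine lintegral_congr fun ζ => ?_
        rw [mul_assoc, ← ENNReal.ofReal_mul (hpos ζ).le, mul_inv_cancel₀ (hpos ζ).ne',
          ENNReal.ofReal_one, mul_one]
    _ ≤ _ := cs ((hu.enorm.mul hm1).aemeasurable) hm2.aemeasurable
    _ = _ := by
        congr 1
        · refine lintegral_congr fun ζ => ?_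
          rw [mul_pow, ENNReal.ofReal_pow (hpos ζ).le]
        · refine lintegral_congr fun ζ => ?_
          unfold dw
          rw [← ENNReal.ofReal_pow (inv_nonneg.2 (hpos ζ).le), inv_pow]

theorem tonelli {h : E n → ℝ≥0∞} (hh : Measurable h) (δ : ℝ) (hδ : 0 ≤ δ) :
    ∫⁻ ξ, ∫⁻ ζ in Metric.closedBall ξ δ, h ζ =
      ENNReal.ofReal (vb n * δ ^ n) * ∫⁻ ζ, h ζ := by
  have hs : MeasurableSet {p : E n × E n | dist p.2 p.1 ≤ δ} :=
    measurableSet_le (measurable_snd.dist measurable_fst) measurable_const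
  have e1 : ∀ ξ : E n, ∫⁻ ζ in Metric.closedBall ξ δ, h ζ =
      ∫⁻ ζ, {p : E n × E n | dist p.2 p.1 ≤ δ}.indicator (fun p => h p.2) (ξ, ζ) := by
    intro ξ
    rw [← lintegral_indicator Metric.isClosed_closedBall.measurableSet]
    rfl
  have e2 : ∀ ζ : E n, ∫⁻ ξ, {p : E n × E n | dist p.2 p.1 ≤ δ}.indicator (fun p => h p.2) (ξ, ζ) =
      ENNReal.ofReal (vb n * δ ^ n) * h ζ := by
    intro ζ
    have e3 : ∀ ξ : E n, {p : E n × E n | dist p.2 p.1 ≤ δ}.indicator (fun p => h p.2) (ξ, ζ) =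
        (Metric.closedBall ζ δ).indicator (fun _ => h ζ) ξ := by
      intro ξ
      by_cases hx : ξ ∈ Metric.closedBall ζ δ
      · rw [indicator_of_mem hx]
        refine indicator_of_mem (s := {p : E n × E n | dist p.2 p.1 ≤ δ}) ?_ _
        show dist ζ ξ ≤ δ
        rw [dist_comm]
        exact hx
      · rw [indicator_of_notMem hx]
        refine indicator_of_notMem (s := {p : E n × E n | dist p.2 p.1 ≤ δ}) ?_ _
        show ¬ dist ζ ξ ≤ δ
        rw [dist_comm]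
        exact hx
    simp_rw [e3]
    rw [lintegral_indicator_const Metric.isClosed_closedBall.measurableSet, vol _ _ hδ, mul_comm]
  simp_rw [e1]
  rw [lintegral_lintegral_swap]
  · simp_rw [e2]
    rw [lintegral_const_mul _ hh]
  · exact ((hh.comp measurable_snd).indicator hs).aemeasurable

theorem lint_of_eLpNorm {u v : E n → ℂ} (h : eLpNorm u 2 = eLpNorm v 2) :
    ∫⁻ x, ‖u x‖ₑ ^ 2 = ∫⁻ x, ‖v x‖ₑ ^ 2 := by
  rw [eLpNorm_eq_lintegral_rpow_enorm_toReal (by norm_num) (by norm_num),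
    eLpNorm_eq_lintegral_rpow_enorm_toReal (by norm_num) (by norm_num)] at h
  have h2 := congrArg (fun t => t ^ (2 : ℝ)) h
  simp only [← ENNReal.rpow_mul] at h2
  simpa using h2

theorem IN_eq_fourier (h : E n → ℂ) (x : E n) : IN h x = 𝓕 h (-x) := by
  have e := Pool.Agent.MBS.T_eq_fourier (fun _ : E n => (1 : ℝ)) h x
  unfold Pool.Agent.MBS.T at e
  simpa [IN] using e

theorem plancherelIN {f : E n → ℂ} (h1 : Integrable f) (h2 : MemLp f 2) :
    ∫⁻ x, ‖IN f x‖ₑ ^ 2 = ∫⁻ x, ‖f x‖ₑ ^ 2 := by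
  rw [← lint_of_eLpNorm (Pool.Agent.H25.Plancherel.eLpNorm_fourier_eq h1 h2),
    ← lintegral_neg_eq_self (fun x => ‖𝓕 f x‖ₑ ^ 2)]
  refine lintegral_congr fun x => ?_
  rw [IN_eq_fourier]

theorem enorm_sq (z : ℂ) : ‖z‖ₑ ^ 2 = ENNReal.ofReal (‖z‖ ^ 2) := by
  rw [← ofReal_norm, ENNReal.ofReal_pow (norm_nonneg z)]

theorem memLp_of_lint {u : E n → ℂ} (hu : AEStronglyMeasurable u)
    (h : ∫⁻ x, ‖u x‖ₑ ^ 2 ≠ ⊤) : MemLp u 2 := by
  rw [memLp_two_iff_integrable_sq_norm hu]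
  refine ⟨(hu.norm.pow 2), ?_⟩
  rw [hasFiniteIntegral_iff_enorm]
  refine lt_of_le_of_lt (le_of_eq ?_) (lt_top_iff_ne_top.2 h)
  refine lintegral_congr fun x => ?_
  rw [enorm_sq, ← ofReal_norm, Real.norm_eq_abs, abs_of_nonneg (sq_nonneg _)]

end LEN_

open LEN_ in
theorem p_LEN (h1 : T_ARCN) : T_LEN := by
  intro n hn
  obtain ⟨C, hC⟩ := h1 n hn
  have hvb := vb_pos n
  set D : ℝ := 4 * 8 ^ n / vb n with hD
  have hD0 : 0 < D := by positivity
  refine ⟨C * D.toNNReal + 1, fun u R r hu hr hr1 => ?_⟩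
  have hr0 : ENNReal.ofReal r ≠ 0 := (ENNReal.ofReal_pos.2 hr).ne'
  have hmA : Measurable fun ζ : E n => ‖u ζ‖ₑ ^ 2 * ENNReal.ofReal ((1 + |‖ζ‖ - R|) ^ 2) := by
    have := hu.meas
    fun_prop
  set A : ℝ≥0∞ := ∫⁻ ξ, ‖u ξ‖ₑ ^ 2 * ENNReal.ofReal ((1 + |‖ξ‖ - R|) ^ 2) with hA
  by_cases hAt : A = ⊤
  · rw [hAt, ENNReal.mul_top]
    · exact le_top
    · refine mul_ne_zero ?_ hr0
      exact ENNReal.coe_ne_zero.2 (by positivity)
  have hδ : 0 < (8 * r)⁻¹ := by positivity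
  set δ : ℝ := (8 * r)⁻¹ with hδd
  -- the second factor
  have hB : ∀ ξ : E n, ∫⁻ ζ in Metric.closedBall ξ δ, ENNReal.ofReal (dw 2 R ζ) ≤
      C * ENNReal.ofReal (r⁻¹ ^ (n - 1)) := by
    intro ξ
    refine (lintegral_mono_set (Metric.closedBall_subset_closedBall ?_)).trans
      (hC ξ R r⁻¹ ((one_le_inv₀ hr).2 hr1))
    rw [hδd]
    exact inv_anti₀ hr (by linarith)
  have hG : ∫⁻ ξ, ‖gg u δ ξ‖ₑ ^ 2 ≤
      ENNReal.ofReal (vb n * δ ^ n) * A * (C * ENNReal.ofReal (r⁻¹ ^ (n - 1))) := by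
    calc ∫⁻ ξ, ‖gg u δ ξ‖ₑ ^ 2 ≤ ∫⁻ ξ, (∫⁻ ζ in Metric.closedBall ξ δ,
          ‖u ζ‖ₑ ^ 2 * ENNReal.ofReal ((1 + |‖ζ‖ - R|) ^ 2)) * (C * ENNReal.ofReal (r⁻¹ ^ (n - 1))) :=
          lintegral_mono fun ξ => (gg_sq_le hu.meas δ R ξ).trans (mul_le_mul_right (hB ξ) _)
      _ = (∫⁻ ξ, ∫⁻ ζ in Metric.closedBall ξ δ,
          ‖u ζ‖ₑ ^ 2 * ENNReal.ofReal ((1 + |‖ζ‖ - R|) ^ 2)) * (C * ENNReal.ofReal (r⁻¹ ^ (n - 1))) :=
          lintegral_mul_const' _ _ (ENNReal.mul_ne_top ENNReal.coe_ne_top ENNReal.ofReal_ne_top)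
      _ = _ := by rw [tonelli hmA δ hδ.le]
  have hgi : Integrable (gg u δ) := gg_int hu.int δ
  have hgL : MemLp (gg u δ) 2 := by
    refine memLp_of_lint hgi.1 ?_
    refine ne_top_of_le_ne_top ?_ hG
    exact ENNReal.mul_ne_top (ENNReal.mul_ne_top ENNReal.ofReal_ne_top hAt)
      (ENNReal.mul_ne_top ENNReal.coe_ne_top ENNReal.ofReal_ne_top)
  have hpl := plancherelIN hgi hgL
  have hm : 0 < (vb n * δ ^ n / 2) ^ 2 := by positivity
  have hkey : ENNReal.ofReal ((vb n * δ ^ n / 2) ^ 2) *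
      ∫⁻ x in Metric.closedBall (0 : E n) r, ‖IN u x‖ₑ ^ 2 ≤
      ENNReal.ofReal (vb n * δ ^ n) * A * (C * ENNReal.ofReal (r⁻¹ ^ (n - 1))) := by
    calc ENNReal.ofReal ((vb n * δ ^ n / 2) ^ 2) *
          ∫⁻ x in Metric.closedBall (0 : E n) r, ‖IN u x‖ₑ ^ 2
        = ∫⁻ x in Metric.closedBall (0 : E n) r,
          ENNReal.ofReal ((vb n * δ ^ n / 2) ^ 2) * ‖IN u x‖ₑ ^ 2 :=
          (lintegral_const_mul' _ _ ENNReal.ofReal_ne_top).symm
      _ ≤ ∫⁻ x in Metric.closedBall (0 : E n) r, ‖IN (gg u δ) x‖ₑ ^ 2 := by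
          refine setLIntegral_mono' Metric.isClosed_closedBall.measurableSet fun x hx => ?_
          rw [IN_gg hu.int, enorm_mul, mul_pow]
          refine mul_le_mul_left ?_ _
          rw [ENNReal.ofReal_pow (by positivity)]
          refine pow_le_pow_left' ?_ 2
          rw [← ofReal_norm]
          exact ENNReal.ofReal_le_ofReal (IN_be_ge hr (by simpa using hx))
      _ ≤ ∫⁻ x, ‖IN (gg u δ) x‖ₑ ^ 2 := setLIntegral_le_lintegral _ _
      _ = ∫⁻ ξ, ‖gg u δ ξ‖ₑ ^ 2 := hpl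
      _ ≤ _ := hG
  have hinv : ENNReal.ofReal (((vb n * δ ^ n / 2) ^ 2)⁻¹) *
      ENNReal.ofReal ((vb n * δ ^ n / 2) ^ 2) = 1 := by
    rw [← ENNReal.ofReal_mul (by positivity), inv_mul_cancel₀ hm.ne', ENNReal.ofReal_one]
  have hnum : ENNReal.ofReal (((vb n * δ ^ n / 2) ^ 2)⁻¹) *
      (ENNReal.ofReal (vb n * δ ^ n) * ENNReal.ofReal (r⁻¹ ^ (n - 1))) =
      (D.toNNReal : ℝ≥0∞) * ENNReal.ofReal r := by
    rw [← ENNReal.ofReal_mul (by positivity), ← ENNReal.ofReal_mul (by positivity),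
      show (D.toNNReal : ℝ≥0∞) = ENNReal.ofReal D from rfl, ← ENNReal.ofReal_mul hD0.le]
    congr 1
    obtain ⟨m, rfl⟩ : ∃ m, n = m + 1 := ⟨n - 1, by omega⟩
    have hV : vb (m + 1) ≠ 0 := hvb.ne'
    have hrne : r ≠ 0 := hr.ne'
    have e1 : (8 * r)⁻¹ ^ (m + 1) = (8 ^ (m + 1) * r ^ (m + 1))⁻¹ := by
      rw [inv_pow, mul_pow]
    have e2 : r⁻¹ ^ m = (r ^ m)⁻¹ := inv_pow _ _
    rw [hδd, hD, Nat.add_sub_cancel, e1, e2, pow_succ r m]
    field_simp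
    norm_num
  calc ∫⁻ x in Metric.closedBall (0 : E n) r, ‖IN u x‖ₑ ^ 2
      = ENNReal.ofReal (((vb n * δ ^ n / 2) ^ 2)⁻¹) *
        (ENNReal.ofReal ((vb n * δ ^ n / 2) ^ 2) *
        ∫⁻ x in Metric.closedBall (0 : E n) r, ‖IN u x‖ₑ ^ 2) := by
        rw [← mul_assoc, hinv, one_mul]
    _ ≤ ENNReal.ofReal (((vb n * δ ^ n / 2) ^ 2)⁻¹) *
        (ENNReal.ofReal (vb n * δ ^ n) * A * (C * ENNReal.ofReal (r⁻¹ ^ (n - 1)))) :=
        mul_le_mul_right hkey _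
    _ = C * (ENNReal.ofReal (((vb n * δ ^ n / 2) ^ 2)⁻¹) *
        (ENNReal.ofReal (vb n * δ ^ n) * ENNReal.ofReal (r⁻¹ ^ (n - 1)))) * A := by ring
    _ = C * ((D.toNNReal : ℝ≥0∞) * ENNReal.ofReal r) * A := by rw [hnum]
    _ = (C * D.toNNReal : ℝ≥0) * ENNReal.ofReal r * A := by push_cast; ring
    _ ≤ _ := by
        gcongr
        exact le_self_add

end Pool.Agent.CRN
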