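import Pool.Agent.CRN.Targets4
import Pool.Agent.CRN.P_SERN

set_option autoImplicit false

/-!
# The series theorem with a general weight

The proof of `P_SERN.lean`, with a weight `W K ≥ 1` in place of `log (2 + K)`.
-/

namespace Pool.Agent.CRN

open MeasureTheory FourierTransform Set Filter Topology
open scoped ENNReal NNReal Convolution
open Pool.Agent.MBS (E ex S Sstar)

namespace SERW_

open SERN_ (N2 N2_sq N2_mono N2_tsum Sstar_le_tsum Sstar_meas conv_of approx nice_sub nice_sum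
  AD_sub conv_sum)

variable {n : ℕ}

/-- the global inequality, as a statement about norms -/
theorem GL2 {C : ℝ≥0} {w : ℝ} (hl : 0 ≤ w) {f : E n → ℂ}
    (h : ∫⁻ x, Sstar f x ^ 2 ≤ C * ENNReal.ofReal (w ^ 2) * ∫⁻ x, ‖f x‖ₑ ^ 2) :
    N2 (Sstar f) ≤ (NNReal.sqrt C : ℝ≥0∞) * (ENNReal.ofReal w *
      (∫⁻ x, ‖f x‖ₑ ^ 2) ^ (1 / 2 : ℝ)) := by
  have h1 : (NNReal.sqrt C : ℝ≥0∞) ^ 2 = C := by
    rw [← ENNReal.coe_pow, NNReal.sq_sqrt]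
  have h2 : ((∫⁻ x, ‖f x‖ₑ ^ 2) ^ (1 / 2 : ℝ)) ^ 2 = ∫⁻ x, ‖f x‖ₑ ^ 2 :=
    N2_sq (fun x => ‖f x‖ₑ)
  have h3 : N2 (Sstar f) ^ 2 ≤ ((NNReal.sqrt C : ℝ≥0∞) * (ENNReal.ofReal w *
      (∫⁻ x, ‖f x‖ₑ ^ 2) ^ (1 / 2 : ℝ))) ^ 2 := by
    rw [N2_sq, mul_pow, mul_pow, h1, h2, ← ENNReal.ofReal_pow hl, ← mul_assoc]
    exact h
  exact (ENNReal.pow_right_strictMono two_ne_zero).le_iff_le.1 h3

theorem tail_ineq {C : ℝ≥0} {W : ℕ → ℝ} (hW : ∀ K, 1 ≤ K → 1 ≤ W K)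
    (hG : ∀ (K : ℕ) (f : E n → ℂ), 1 ≤ K → Nice f → AD K f →
    ∫⁻ x, Sstar f x ^ 2 ≤ C * ENNReal.ofReal (W K ^ 2) * ∫⁻ x, ‖f x‖ₑ ^ 2)
    {f : E n → ℂ} {g : ℕ → E n → ℂ} {K : ℕ → ℕ} (hf : Nice f) (hg : ∀ j, Nice (g j))
    (hK : ∀ j, 1 ≤ K j) (hA : ∀ j, AD (K j) (g j))
    (hc : Tendsto (fun J => ∫⁻ x, ‖f x - ∑ j ∈ Finset.range J, g j x‖ₑ ^ 2) atTop (𝓝 0)) :
    N2 (Sstar f) ≤ (NNReal.sqrt C : ℝ≥0∞) * ∑' j : ℕ, ENNReal.ofReal (W (K j)) *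
      (∫⁻ x, ‖g j x‖ₑ ^ 2) ^ (1 / 2 : ℝ) := by
  calc N2 (Sstar f) ≤ N2 (fun x => ∑' j, Sstar (g j) x) := N2_mono (Sstar_le_tsum hf hg hc)
    _ ≤ ∑' j, N2 (Sstar (g j)) := N2_tsum fun j => Sstar_meas (hg j).int
    _ ≤ ∑' j, (NNReal.sqrt C : ℝ≥0∞) * (ENNReal.ofReal (W (K j)) *
        (∫⁻ x, ‖g j x‖ₑ ^ 2) ^ (1 / 2 : ℝ)) :=
        ENNReal.tsum_le_tsum fun j => GL2 (zero_le_one.trans (hW _ (hK j)))
          (hG (K j) (g j) (hK j) (hg j) (hA j))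
    _ = _ := ENNReal.tsum_mul_left

/-- a.e. convergence for one function of bounded angular degree -/
theorem conv_AD {C : ℝ≥0} {W : ℕ → ℝ}
    (hG : ∀ (K : ℕ) (f : E n → ℂ), 1 ≤ K → Nice f → AD K f →
    ∫⁻ x, Sstar f x ^ 2 ≤ C * ENNReal.ofReal (W K ^ 2) * ∫⁻ x, ‖f x‖ₑ ^ 2)
    {K : ℕ} {g : E n → ℂ} (hK : 1 ≤ K) (hg : Nice g) (hA : AD K g) :
    ∀ᵐ x, Tendsto (fun R : ℝ => S g R x) atTop (𝓝 (g x)) := by
  refine conv_of fun e he => ?_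
  set A : ℝ := C * W K ^ 2 with hAdef
  have hA0 : 0 ≤ A := by positivity
  obtain ⟨h, hh, hhA, hhc, hhe⟩ := approx hg hA (show (0 : ℝ) < e / (A + 1) by positivity)
  refine ⟨fun x => g x - h x, h, nice_sub hg hh, hh, fun x => by ring, ?_, ?_,
    ae_of_all _ hhc⟩
  · refine (hG K _ hK (nice_sub hg hh) (AD_sub hA hhA)).trans ?_
    calc (C : ℝ≥0∞) * ENNReal.ofReal (W K ^ 2) * ∫⁻ x, ‖g x - h x‖ₑ ^ 2
        ≤ (C : ℝ≥0∞) * ENNReal.ofReal (W K ^ 2) * ENNReal.ofReal (e / (A + 1)) := by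
          gcongr
      _ = ENNReal.ofReal (A * (e / (A + 1))) := by
          rw [ENNReal.ofReal_mul hA0, hAdef, ENNReal.ofReal_mul (NNReal.coe_nonneg C),
            ENNReal.ofReal_coe_nnreal]
      _ ≤ ENNReal.ofReal e := by
          refine ENNReal.ofReal_le_ofReal ?_
          rw [mul_div_assoc', div_le_iff₀ (by positivity)]
          nlinarith
  · refine hhe.trans (ENNReal.ofReal_le_ofReal ?_)
    exact div_le_self he.le (by linarith)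

end SERW_

open SERN_ SERW_ in
theorem p_SERW : T_SERW := by
  intro n W hn hW hex
  obtain ⟨C, hG⟩ := hex
  refine ⟨NNReal.sqrt C, ?_⟩
  intro f g K hf hg hK hA hc
  refine ⟨SERW_.tail_ineq hW hG hf hg hK hA hc, fun hfin => ?_⟩
  refine conv_of fun e he => ?_
  set a : ℕ → ℝ≥0∞ := fun j => ENNReal.ofReal (W (K j)) *
    (∫⁻ x, ‖g j x‖ₑ ^ 2) ^ (1 / 2 : ℝ) with ha
  have hshift : ∀ J : ℕ, Tendsto (fun I => ∫⁻ x, ‖(f x - ∑ j ∈ Finset.range J, g j x) -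
      ∑ j ∈ Finset.range I, g (j + J) x‖ₑ ^ 2) atTop (𝓝 0) := by
    intro J
    have h2 := (tendsto_add_atTop_iff_nat J).2 hc
    refine h2.congr fun I => ?_
    refine lintegral_congr fun x => ?_
    congr 2
    rw [add_comm I J, Finset.sum_range_add, sub_sub]
    congr 2
    exact Finset.sum_congr rfl fun j _ => by rw [add_comm]
  have htail : ∀ J : ℕ, ∫⁻ x, Sstar (fun y => f y - ∑ j ∈ Finset.range J, g j y) x ^ 2 ≤
      ((NNReal.sqrt C : ℝ≥0∞) * ∑' j : ℕ, a (j + J)) ^ 2 := by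
    intro J
    rw [← N2_sq]
    exact pow_le_pow_left' (SERW_.tail_ineq hW hG (nice_sub hf (nice_sum hg J))
      (fun j => hg (j + J)) (fun j => hK (j + J)) (fun j => hA (j + J)) (hshift J)) 2
  have hlim : Tendsto (fun J => ((NNReal.sqrt C : ℝ≥0∞) * ∑' j : ℕ, a (j + J)) ^ 2) atTop
      (𝓝 0) := by
    have h3 := ENNReal.tendsto_sum_nat_add a hfin
    have h4 := ENNReal.Tendsto.const_mul (a := (NNReal.sqrt C : ℝ≥0∞)) h3
      (Or.inr ENNReal.coe_ne_top)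
    rw [mul_zero] at h4
    have h5 := ((ENNReal.continuous_pow 2).tendsto 0).comp h4
    simpa [Function.comp_def] using h5
  have he' : 0 < ENNReal.ofReal e := ENNReal.ofReal_pos.2 he
  obtain ⟨J, hJ1, hJ2⟩ := (((tendsto_order.1 hlim).2 _ he').and
    ((tendsto_order.1 hc).2 _ he')).exists
  refine ⟨fun y => f y - ∑ j ∈ Finset.range J, g j y, fun y => ∑ j ∈ Finset.range J, g j y,
    nice_sub hf (nice_sum hg J), nice_sum hg J, fun x => by ring, (htail J).trans hJ1.le,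
    hJ2.le, conv_sum hg (fun j => SERW_.conv_AD hG (hK j) (hg j) (hA j)) J⟩

end Pool.Agent.CRN
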