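import Pool.Agent.CRN.Defs

set_option autoImplicit false

/-!
# CRN: ball partial sums of functions of bounded angular degree in `ℝⁿ`, targets

Every target `T_X` is to be proved as `theorem p_X : T_X` (other targets may be taken as hypotheses) in a
NEW file `Pool/Agent/CRN/P_X.lean` importing this one, namespace `Pool.Agent.CRN`, helper lemmas in
the sub-namespace `X_`. Plancherel: `Pool.Agent.H25.Plancherel.eLpNorm_fourier_eq` (functions in `L¹ ∩ L²`),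
see `Pool/Agent/KSP/FA2.lean` (`plancherelIE`) for the form used here. MANY targets are the
`n`-dimensional versions of landed planar files `Pool/Agent/CRL/P_X.lean` (their definitions: `Pool/Agent/CRL/Defs.lean`):
copy and adapt them.
-/

namespace Pool.Agent.CRN

open MeasureTheory FourierTransform Set Filter Topology
open scoped ENNReal NNReal
open Pool.Agent.MBS (E ex S Sstar)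
open Pool.Agent.CAR (e1)

/-! ### polar coordinates, kernels -/

/-- **POLN** (45 min): polar coordinates. Mathlib: `measurePreserving_homeomorphUnitSphereProd`,
`Measure.toSphere`, `Measure.volumeIoiPow`. -/
def T_POLN : Prop := ∀ n : ℕ, 0 < n →
  (∀ F : E n → ℝ≥0∞, Measurable F →
    ∫⁻ x, F x = ∫⁻ r in Ioi (0 : ℝ), ∫⁻ ω, ENNReal.ofReal (r ^ (n - 1)) * F (r • (ω : E n)) ∂(sg n)) ∧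
  (∀ F : E n → ℂ, Integrable F →
    ∫ x, F x = ∫ r in Ioi (0 : ℝ), ((r ^ (n - 1) : ℝ) : ℂ) * ∫ ω, F (r • (ω : E n)) ∂(sg n)) ∧
  IsFiniteMeasure (sg n)

/-- **PSIN** (45 min): the cutoff exists, see `CRL/P_PSI.lean`. -/
def T_PSIN : Prop := ∀ n : ℕ, 1 ≤ n → ∃ (ψ : E n → ℂ) (B : ℝ), Psi ψ B

/-- **MMN** (60 min; uses POLN): the annulus multipliers, see `CRL/P_MM.lean`. (a) polar coordinates,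
(b) continuity under the integral. (c) `mm`: as in the plane, `∫_{|ζ| ≥ s} (1+|ζ|)^(-(2n+8)) ≤ C (1+s)^(-(n+3))`.
`m1`: `(1+|ξ-Rω|)^(-(2n+8)) ≤ (1+||ξ|-R|)^(-(n+3)) (1+|ξ-Rω|)^(-(n+5))`, and
`R^{n-1} ∫ (1+|ξ-Rω|)^(-(n+5)) dσ ≤ 2^{n+5} ∫_R^{R+1} r^{n-1} ∫ (1+|ξ-rω|)^(-(n+5)) dσ dr ≤
2^{n+5} ∫ (1+|ξ-ζ|)^(-(n+5)) dζ` (`|ξ-rω| ≤ |ξ-Rω| + 1`), finite. -/
def T_MMN : Prop := ∀ (n : ℕ) (ψ : E n → ℂ) (B : ℝ), 2 ≤ n → Psi ψ B →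
  (∀ R : ℝ, 0 ≤ R → ∀ ξ, mm ψ R ξ = ∫ r in (0 : ℝ)..R, m1 ψ r ξ) ∧
  Continuous (fun p : ℝ × E n => m1 ψ p.1 p.2) ∧
  ∃ C : ℝ, 0 < C ∧ ∀ (R : ℝ) (ξ : E n), 0 ≤ R →
    ‖mm ψ R ξ‖ ≤ C * dw (n + 3) R ξ ∧ ‖m1 ψ R ξ‖ ≤ C * dw (n + 3) R ξ

/-- **SMN** (30 min): see `CRL/P_SM.lean`. -/
def T_SMN : Prop := ∀ (n : ℕ) (ψ : E n → ℂ) (B : ℝ), 2 ≤ n → Psi ψ B → ∀ f : E n → ℂ, Nice f →
  ∀ x : E n, (∀ y, f y ≠ 0 → 1 / 2 ≤ ‖x - y‖ ∧ ‖x - y‖ ≤ 5 / 2) →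
    ∀ R : ℝ, 0 ≤ R → S f R x = FF ψ f R x

/-- **ENN** (75 min; uses MMN, POLN): energy, see `CRL/P_EN.lean`. In (d)
`∫ (1+||ξ|-R|)^(-(2n+6)) dξ = σ(S) ∫ r^{n-1} (1+|r-R|)^(-(2n+6)) dr ≤ C (1+R)^{n-1}`. -/
def T_ENN : Prop := ∀ (n : ℕ) (ψ : E n → ℂ) (B : ℝ), 2 ≤ n → Psi ψ B →
  ∃ C : ℝ≥0, ∀ f : E n → ℂ, Nice f →
  ContinuousOn (fun p : ℝ × E n => F1 ψ f p.1 p.2) (Ici 0 ×ˢ univ) ∧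
  (∀ (x : E n) (R : ℝ), 0 ≤ R → FF ψ f R x = ∫ r in (0 : ℝ)..R, F1 ψ f r x) ∧
  (∫⁻ x, ∫⁻ R in Ioi (0 : ℝ), (‖FF ψ f R x‖ₑ ^ 2 + ‖F1 ψ f R x‖ₑ ^ 2) ≤ C * ∫⁻ x, ‖f x‖ₑ ^ 2) ∧
  ∀ R0 : ℝ, 0 ≤ R0 →
    ∫⁻ x, ∫⁻ R in Ioc 0 R0, (‖FF ψ f R x‖ₑ ^ 2 + ‖F1 ψ f R x‖ₑ ^ 2) ≤
      C * ENNReal.ofReal ((1 + R0) ^ n) * (∫⁻ x, ‖f x‖ₑ) ^ 2

/-- **ARCN** (60 min): a ball of radius `ρ ≥ 1` meets the annuli of a sphere in pieces of area `ρ^{n-1}`.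
Split `ℝⁿ` according to the coordinate of largest modulus: if it is `ζ_j`, then for fixed other coordinates
(in a cube of side `2ρ`) `t = ζ_j ↦ |ζ|` has derivative of modulus `≥ 1/√n` where `|t|` is the largest coordinate
(two half lines), so `∫ (1+||ζ|-R|)^(-2) dt ≤ 4√n`. See `CRL/P_ARC.lean`. -/
def T_ARCN : Prop := ∀ n : ℕ, 2 ≤ n → ∃ C : ℝ≥0, ∀ (ξ : E n) (R ρ : ℝ), 1 ≤ ρ →
  ∫⁻ ζ in Metric.closedBall ξ ρ, ENNReal.ofReal (dw 2 R ζ) ≤ C * ENNReal.ofReal (ρ ^ (n - 1))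

/-- **LEN** (60 min; uses ARCN): local energy, see `CRL/P_LE.lean`. `β_r(ζ) = r^n β(rζ)`,
`|β_r ∗ u|² ≤ C r^{2n} (∫_{B(ξ,1/r)} dw 2 R) (∫_{B(ξ,1/r)} |u|² (1+||ζ|-R|)²)`, powers of `r`: `2n - (n-1) - n = 1`. -/
def T_LEN : Prop := ∀ n : ℕ, 2 ≤ n → ∃ C : ℝ≥0, ∀ (u : E n → ℂ) (R r : ℝ), Nice u → 0 < r →
  r ≤ 1 →
  ∫⁻ x in Metric.closedBall (0 : E n) r, ‖IN u x‖ₑ ^ 2 ≤
    C * ENNReal.ofReal r * ∫⁻ ξ, ‖u ξ‖ₑ ^ 2 * ENNReal.ofReal ((1 + |‖ξ‖ - R|) ^ 2)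

/-- **OFFIN** (45 min; uses PSIN, MMN, SMN, ENN, LEN): see `CRL/P_OFFI.lean`. -/
def T_OFFIN : Prop := ∀ n : ℕ, 2 ≤ n → ∃ C : ℝ≥0, ∀ (r : ℝ) (f : E n → ℂ), 0 < r → r ≤ 1 / 2 →
  Nice f → (∀ y, f y ≠ 0 → 1 ≤ ‖y‖ ∧ ‖y‖ ≤ 2) →
    ∫⁻ x in Metric.closedBall (0 : E n) r, Sstar f x ^ 2 ≤
      C * ENNReal.ofReal r * ∫⁻ x, ‖f x‖ₑ ^ 2

/-- **IBPN** (45 min): integration by parts on the ball. `h(ζ) = max 0 (R²-|ζ|²) / 2` is Lipschitz with compact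
support. By translation invariance `∫ h(ζ+tz) ex z ζ dζ = e^{-2πit|z|²} ∫ h(ζ) ex z ζ dζ`; differentiate at
`t = 0` (left side: dominated convergence, the derivative of `t ↦ h(ζ+tz)` at `0` is `-z·ζ 1_{|ζ|<R}` for
`|ζ| ≠ R`). -/
def T_IBPN : Prop := ∀ (n : ℕ) (z : E n) (R : ℝ), 1 ≤ n → 0 < R →
  ∫ ζ in Metric.closedBall (0 : E n) R, ((inner ℝ z ζ : ℝ) : ℂ) * ex z ζ =
    2 * Real.pi * Complex.I * ‖z‖ ^ 2 *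
      ∫ ζ in Metric.closedBall (0 : E n) R, (((R ^ 2 - ‖ζ‖ ^ 2) / 2 : ℝ) : ℂ) * ex z ζ

/-- **BESN** (60 min; uses POLN, IBPN): Bessel's equation for the ball kernel. `DD R z = ∫_0^R D1 r z dr` (POLN).
`D1' = (n-1)/R · D1 + R^{n-1} ∫ 2πi (z·ω) ex z (Rω) dσ`. Let `Q(R) = ∫_{|ζ| ≤ R} 2πi (z·ζ) ex z ζ dζ`;
`Q'(R) = R · R^{n-1} ∫ 2πi (z·ω) ex z (Rω) dσ` (POLN), and by IBPN
`Q(R) = -4π²|z|² ∫_{|ζ| ≤ R} (R²-|ζ|²)/2 ex z ζ = -4π²|z|² ∫_0^R r DD r z dr` (Fubini), so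
`Q'(R) = -4π²|z|² R DD R z`. -/
def T_BESN : Prop := ∀ (n : ℕ) (z : E n) (R : ℝ), 2 ≤ n → 0 < R →
  HasDerivAt (fun r => DD r z) (D1 R z) R ∧
  HasDerivAt (fun r => D1 r z)
    (((n : ℂ) - 1) / R * D1 R z - 4 * Real.pi ^ 2 * ‖z‖ ^ 2 * DD R z) R

/-- **D2SN** (60 min; uses BESN, POLN): see `CRL/P_D2S.lean`. -/
def T_D2SN : Prop := ∀ (n : ℕ) (f : E n → ℂ), 2 ≤ n → Nice f → (∀ y, f y ≠ 0 → ‖y‖ ≤ 1) →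
  ∀ (x : E n) (R : ℝ), 0 < R →
  HasDerivAt (fun r => S f r x) (S1 f R x) R ∧
  HasDerivAt (fun r => S1 f r x) (((n : ℂ) - 1) / R * S1 f R x -
    4 * Real.pi ^ 2 * ‖x‖ ^ 2 * S f R x +
    4 * Real.pi ^ 2 * (2 * (∑ j : Fin n, (x j : ℂ) * S (fun y => (y j : ℂ) * f y) R x) -
      S (fun y => ((‖y‖ ^ 2 : ℝ) : ℂ) * f y) R x)) R

/-- **OFFAN** (45 min; uses PSIN, SMN, ENN): see `CRL/P_OFFA.lean`. `(∫ |f|)² ≤ C rⁿ ∫ |f|²`,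
`(1+R₀)ⁿ rⁿ ≤ 2ⁿ r^{n/2} ≤ 2ⁿ r`. -/
def T_OFFAN : Prop := ∀ n : ℕ, 2 ≤ n → ∃ C : ℝ≥0, ∀ (r : ℝ) (f : E n → ℂ), 0 < r → r ≤ 1 / 2 →
  Nice f → (∀ y, f y ≠ 0 → ‖y‖ ≤ r) →
    ∫⁻ x in A1 n, (⨆ R ∈ Ioc 0 (Real.sqrt r)⁻¹, ‖S f R x‖ₑ) ^ 2 ≤
      C * ENNReal.ofReal r * ∫⁻ x, ‖f x‖ₑ ^ 2

/-- **OFFBN** (75 min; uses PSIN, SMN, ENN, D2SN): see `CRL/P_OFFB.lean`. The only change: the term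
`(n-1)/R · S1`. -/
def T_OFFBN : Prop := ∀ n : ℕ, 2 ≤ n → ∃ C : ℝ≥0, ∀ (r : ℝ) (f : E n → ℂ), 0 < r → r ≤ 1 / 2 →
  Nice f → (∀ y, f y ≠ 0 → ‖y‖ ≤ r) →
    ∫⁻ x in A1 n, (⨆ R ∈ Ici (Real.sqrt r)⁻¹, ‖S f R x‖ₑ) ^ 2 ≤
      C * ENNReal.ofReal (Real.sqrt (Real.sqrt r)) * ∫⁻ x, ‖f x‖ₑ ^ 2

/-- **OFFN** (45 min; uses OFFIN, OFFAN, OFFBN): scaling, see `CRL/P_OFF.lean`. -/
def T_OFFN : Prop := ∀ n : ℕ, 2 ≤ n → ∃ C : ℝ≥0, ∀ (i j : ℤ) (f : E n → ℂ), 2 ≤ |i - j| →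
  Nice f → (∀ y, f y ≠ 0 → y ∈ sh n i) →
    ∫⁻ x in sh n j, Sstar f x ^ 2 ≤
      C * ENNReal.ofReal ((2 : ℝ) ^ (-(|i - j| : ℝ) / 4)) * ∫⁻ x, ‖f x‖ₑ ^ 2

/-! ### small radii: Rademacher–Menshov -/

/-- **RMN** (45 min): Rademacher–Menshov for integer radii. Binary expansion: `{|ξ| ≤ j}`, `j ≤ 2^M`, is the
disjoint union of at most `M+1` annuli `a 2^i < |ξ| ≤ (a+1) 2^i` with different `i ≤ M` (plus a null set), so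
`sup_j |S f j| ≤ Σ_{i ≤ M} (Σ_a |P_{i,a} f|²)^(1/2)`; Plancherel for each `i`, Cauchy–Schwarz over `i`. -/
def T_RMN : Prop := ∀ n : ℕ, 1 ≤ n → ∃ C : ℝ≥0, ∀ (M : ℕ) (f : E n → ℂ), Nice f →
  ∫⁻ x, (⨆ (j : ℕ) (_ : j ≤ 2 ^ M), ‖S f (j : ℝ) x‖ₑ) ^ 2 ≤
    C * ((M : ℝ≥0∞) + 1) ^ 2 * ∫⁻ x, ‖f x‖ₑ ^ 2

/-- **AHN** (60 min; uses POLN): the local extension estimate (Agmon–Hörmander). For fixed `R` let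
`W(x) = e^{4π} e^{-π|x|²} ≥ 1` on `|x| ≤ 2`, `W^(ζ) = e^{4π} e^{-π|ζ|²}`. `∫_{|x| ≤ 2} |SH h R|² ≤ ∫ |SH h R|² W =
R^{2(n-1)} ∫∫ h(Rω) conj h(Rω') W^(R(ω'-ω)) dσ dσ' ≤ R^{n-1} ∫ |h(Rω)|² dσ · sup_ω R^{n-1} ∫ W^(R(ω-ω')) dσ'`
(Schur), and the last supremum is bounded as in MMN: for `R ≤ r ≤ R+1`, `|Rω-rω'| ≤ |Rω-Rω'| + 1`, so
`(1+|Rω-Rω'|)^(-(n+1)) ≤ 2^{n+1} (1+|Rω-rω'|)^(-(n+1))`; integrate over `r` and use POLN. Integrate over `R` (POLN).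
(If `ω ↦ h(Rω)` is not integrable, `SH h R = 0`.) -/
def T_AHN : Prop := ∀ n : ℕ, 2 ≤ n → ∃ C : ℝ≥0, ∀ h : E n → ℂ, Measurable h →
  ∫⁻ R in Ioi (0 : ℝ), ∫⁻ x in Metric.closedBall (0 : E n) 2, ‖SH h R x‖ₑ ^ 2 ≤
    C * ∫⁻ ξ, ‖h ξ‖ₑ ^ 2

/-- **DSN** (30 min; uses POLN): `S1` is the `R`-derivative of `S`. -/
def T_DSN : Prop := ∀ (n : ℕ) (f : E n → ℂ), 2 ≤ n → Nice f →
  Continuous (fun p : ℝ × E n => S1 f p.1 p.2) ∧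
  ∀ (x : E n) (a b : ℝ), 0 ≤ a → a ≤ b → S f b x = S f a x + ∫ r in a..b, S1 f r x

/-- **LOWN** (45 min; uses RMN, AHN, DSN): radii `≤ 2^M` on the ball `|x| ≤ 2`. With `j = ⌊R⌋`,
`|S f R| ≤ |S f j| + ∫_j^{j+1} |S1 f r| dr`, and `(∫_j^{j+1} |S1|)² ≤ ∫_0^∞ |S1|² dr`; AHN with `h = 𝓕f`. -/
def T_LOWN : Prop := ∀ n : ℕ, 2 ≤ n → ∃ C : ℝ≥0, ∀ (M : ℕ) (f : E n → ℂ), Nice f →
  ∫⁻ x in Metric.closedBall (0 : E n) 2, (⨆ R ∈ Ioc (0 : ℝ) (2 ^ M), ‖S f R x‖ₑ) ^ 2 ≤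
    C * ((M : ℝ≥0∞) + 1) ^ 2 * ∫⁻ x, ‖f x‖ₑ ^ 2

/-! ### large radii -/

/-- **HELN** (75 min): Helmholtz equation in polar coordinates. Everything is differentiated under the
integral over the sphere; for the plane wave `e(x) = ex x ξ`, `|ξ| = R`: `Σ_{i<j} L_{ij}² e =
(-4π²(|x|²|ξ|²-(x·ξ)²) - 2πi(n-1) x·ξ) e` (`L_{ij}² e` = second derivative at `φ = 0` of
`φ ↦ e(rt i j φ x)`; `d/dφ (rt i j φ x)·ξ = x_i ξ_j - x_j ξ_i` and `d²/dφ² = -(x_i ξ_i + x_j ξ_j)` at `φ = 0`;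
`Σ_{i<j} (x_i ξ_j - x_j ξ_i)² = |x|²|ξ|²-(x·ξ)²`, `Σ_{i<j} (x_i ξ_i + x_j ξ_j) = (n-1) x·ξ`). With `x = ρθ`, `a = (n-1)/2`,
`u(ρ) = SH h R (ρθ)`: `ρ² u'' + (n-1) ρ u' + Lam u = -4π²R²ρ² u`, so `w = ρ^a u` satisfies
`w'' = -4π²R² w + ρ^{a-2} (a(a-1) u - Lam u)`, `a(a-1) = (n-1)(n-3)/4`. -/
def T_HELN : Prop := ∀ (n : ℕ) (h : E n → ℂ), 2 ≤ n → Continuous h →
  (∀ (R : ℝ) (θ : E n) (ρ : ℝ), 0 < R → ‖θ‖ = 1 → 0 < ρ →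
    HasDerivAt (fun s : ℝ => ((s ^ (((n : ℝ) - 1) / 2) : ℝ) : ℂ) * SH h R (s • θ))
      (WD h R θ ρ) ρ ∧
    HasDerivAt (fun s : ℝ => WD h R θ s)
      (-(4 * Real.pi ^ 2 * R ^ 2 * (((ρ ^ (((n : ℝ) - 1) / 2) : ℝ) : ℂ) * SH h R (ρ • θ))) +
        ((ρ ^ (((n : ℝ) - 1) / 2 - 2) : ℝ) : ℂ) *
          (((((n : ℝ) - 1) * (n - 3) / 4 : ℝ) : ℂ) * SH h R (ρ • θ) - Lam (SH h R) (ρ • θ))) ρ) ∧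
  Continuous (fun p : ℝ × E n => Lam (SH h p.1) p.2)

/-- **ADFN** (60 min): `S1 f R` inherits the angular degree. For the plane `(i,j)` and `|k| ≤ K` put
`f_k(y) = (2π)⁻¹ ∫_{-π}^{π} f(rt i j φ y) ci(-kφ) dφ`: `f_k` is integrable, and `f(rt i j φ y) = Σ_{|k| ≤ K} f_k(y) ci(kφ)`
(the coefficients of a trigonometric polynomial). `S1 f R (rt i j φ x) = S1 (f ∘ rt i j φ) R x` (the rotation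
preserves the volume, the inner product and `σ`), linear in `f`. -/
def T_ADFN : Prop := ∀ (n K : ℕ) (f : E n → ℂ), 2 ≤ n → Nice f → AD K f → ∀ R : ℝ,
  AD K (S1 f R)

/-- **BERN** (60 min): Bernstein's inequality on the rotation orbits. For each plane
`L2 i j u (rt i j φ x) = d²/dφ² u(rt i j φ x)`, and by Parseval for trigonometric polynomials of degree `≤ K`
`∫_{-π}^{π} |d²/dφ² u(rt φ x)|² dφ ≤ K⁴ ∫_{-π}^{π} |u(rt φ x)|² dφ`; integrate over `x ∈ A1` (the shell and the volume are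
invariant under `rt i j φ`), Tonelli; Cauchy–Schwarz for the sum over the planes. (`L2 i j u` is measurable: it is
`-Σ k² c_k(x)`, `c_k(x) = (2π)⁻¹ ∫ u(rt φ x) ci(-kφ) dφ` continuous.) -/
def T_BERN : Prop := ∀ n : ℕ, 2 ≤ n → ∃ C : ℝ≥0, ∀ (K : ℕ) (u : E n → ℂ), 1 ≤ K → Continuous u →
  AD K u → ∫⁻ x in A1 n, ‖Lam u x‖ₑ ^ 2 ≤ C * (K : ℝ≥0∞) ^ 4 * ∫⁻ x in A1 n, ‖u x‖ₑ ^ 2

/-- **RAYN** (45 min): the strong Carleson theorem for one-sided integrals. `B 1_{(a,R₀]} ∈ L¹ ∩ L²`,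
monotone convergence in `R₀`; for `s = -1` substitute `ρ → -ρ`. See `CRL/P_RAYS.lean`. -/
def T_RAYN : Prop := T_CARLS → ∃ C : ℝ≥0, ∀ (B : ℝ → ℂ) (a s : ℝ), Measurable B →
  (s = 1 ∨ s = -1) →
    ∫⁻ ρ, (⨆ R : ℝ, ‖∫ r in Ioc a R, B r * e1 (s * (r * ρ))‖ₑ) ^ 2 ≤
      C * ∫⁻ r in Ioi a, ‖B r‖ₑ ^ 2

/-- **HI1** (75 min; uses DSN, HELN): variation of parameters on the ray `θ`. `S f R x - S f a x =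
∫_a^R S1 f r x dr`, `x = ρθ`, `α = (n-1)/2`. For fixed `r ≥ 1` put `w(ρ) = ρ^α S1 f r (ρθ)` and
`B_±(ρ) = e1(∓rρ) (w' ± 2πir w)/(4πir)`. Then `w = e1(rρ) B_+ - e1(-rρ) B_-` and
`B_±' = e1(∓rρ) (w'' + 4π²r² w)/(4πir)`, so by HELN `|B_±'| ≤ C r⁻¹ (|S1 f r (ρθ)| + |Lam (S1 f r) (ρθ)|)` on `[1,2]`, and
`|B_±(ρ) - ∫_1^2 B_±(s) ds| ≤ ∫_1^2 |B_±'|`; `Bp`, `Bm` are these averages. Integrate over `r ∈ (a, R]`. -/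
def T_HI1 : Prop := ∀ n : ℕ, 2 ≤ n → ∃ C : ℝ≥0, ∀ (f : E n → ℂ) (θ : E n) (a R ρ : ℝ), Nice f →
  ‖θ‖ = 1 → 1 ≤ a → a ≤ R → 1 ≤ ρ → ρ ≤ 2 →
    ‖S f R (ρ • θ) - S f a (ρ • θ)‖ₑ ≤
      C * ((⨆ R' : ℝ, ‖∫ r in Ioc a R', Bp f r θ * e1 (1 * (r * ρ))‖ₑ) +
        (⨆ R' : ℝ, ‖∫ r in Ioc a R', Bm f r θ * e1 (-1 * (r * ρ))‖ₑ) +
        ∫⁻ r in Ioi a, ENNReal.ofReal r⁻¹ * ∫⁻ s in Icc (1 : ℝ) 2,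
          (‖S1 f r (s • θ)‖ₑ + ‖Lam (S1 f r) (s • θ)‖ₑ))

/-- **HI2** (45 min; uses HELN, DSN): size and measurability of the amplitudes. Cauchy–Schwarz in
`s`; `|WD (𝓕f) r θ s| ≤ C (Σ_j |SH (2πi ξ_j 𝓕f) r (sθ)| + |S1 f r (sθ)|)`, and `|ξ| = r` on the sphere, so
`SH (2πi ξ_j 𝓕f) r = 2πi r SH (ξ_j/|ξ| 𝓕f) r`. Continuity of `WD` and `S1` in `(r, s, θ)` for `r ≥ 1`. -/
def T_HI2 : Prop := ∀ n : ℕ, 2 ≤ n → ∃ C : ℝ≥0, ∀ f : E n → ℂ, Nice f →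
  Measurable (fun p : ℝ × Metric.sphere (0 : E n) 1 => Bp f p.1 (p.2 : E n)) ∧
  Measurable (fun p : ℝ × Metric.sphere (0 : E n) 1 => Bm f p.1 (p.2 : E n)) ∧
  ∀ (r : ℝ) (θ : E n), 1 ≤ r → ‖θ‖ = 1 →
    ‖Bp f r θ‖ₑ ^ 2 + ‖Bm f r θ‖ₑ ^ 2 ≤ C * ∫⁻ s in Icc (1 : ℝ) 2, (‖S1 f r (s • θ)‖ₑ ^ 2 +
      ∑ j : Fin n, ‖SH (fun ξ => ((ξ j / ‖ξ‖ : ℝ) : ℂ) * 𝓕 f ξ) r (s • θ)‖ₑ ^ 2)

/-- **HIN** (90 min; uses POLN, AHN, DSN, HELN, ADFN, BERN, RAYN, HI1, HI2): radii `≥ K⁴`. Polar coordinates on the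
shell (`1 ≤ ρ^{n-1} ≤ 2^{n-1}`). By HI1 with `a = K⁴`: RAYN for `Bp`, `Bm` for each `θ`, then HI2 and AHN
(`h = 𝓕f` and `h = ξ_j/|ξ| 𝓕f`, all with `∫|h|² ≤ ∫|f|²`; `∫_θ ∫_1^2 ds ≤ ∫_{A1} dx`). Error term:
`(∫_a^∞ r⁻¹ Φ(r) dr)² ≤ a⁻¹ ∫_a^∞ Φ²`, `Φ² ≤ 2 ∫_1^2 (|S1|² + |Lam S1|²) ds`, `∫_θ ≤ ∫_{A1}`, BERN (with ADFN, DSN):
`≤ C a⁻¹ K⁴ ∫_r ∫_{A1} |S1 f r|² ≤ C ‖f‖²` (AHN). -/
def T_HIN : Prop := T_CARLS → ∀ n : ℕ, 2 ≤ n → ∃ C : ℝ≥0, ∀ (K : ℕ) (f : E n → ℂ), 1 ≤ K →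
  Nice f → AD K f →
    ∫⁻ x in A1 n, (⨆ R ∈ Ici ((K : ℝ) ^ 4), ‖S f R x - S f ((K : ℝ) ^ 4) x‖ₑ) ^ 2 ≤
      C * ∫⁻ x, ‖f x‖ₑ ^ 2

/-! ### assembly -/

/-- **NDN** (30 min; uses LOWN, HIN): the unit shell. `2^M ≥ K⁴`, `M + 1 ≤ C log(2+K)`. -/
def T_NDN : Prop := T_CARLS → ∀ n : ℕ, 2 ≤ n → ∃ C : ℝ≥0, ∀ (K : ℕ) (f : E n → ℂ), 1 ≤ K →
  Nice f → AD K f →
    ∫⁻ x in A1 n, Sstar f x ^ 2 ≤ C * ENNReal.ofReal (Real.log (2 + K) ^ 2) * ∫⁻ x, ‖f x‖ₑ ^ 2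

/-- **NDJN** (45 min; uses NDN): the shell `sh n j`, by scaling, see `CRL/P_NBJ.lean`; the angular degree is
invariant under dilations. -/
def T_NDJN : Prop := T_CARLS → ∀ n : ℕ, 2 ≤ n → ∃ C : ℝ≥0, ∀ (K : ℕ) (j : ℤ) (f : E n → ℂ), 1 ≤ K →
  Nice f → AD K f →
    ∫⁻ x in sh n j, Sstar f x ^ 2 ≤
      C * ENNReal.ofReal (Real.log (2 + K) ^ 2) * ∫⁻ x, ‖f x‖ₑ ^ 2

/-- **SHL** (45 min): shells: the angular degree is inherited by `1_{sh i} f` etc. (`‖rt i j φ y‖ = ‖y‖`), and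
subadditivity (see `CRL/P_SUB.lean`, `CRL/P_SHN.lean`). -/
def T_SHL : Prop := ∀ (n : ℕ) (f : E n → ℂ), 2 ≤ n → Nice f →
  (∀ (K : ℕ) (s : Set ℝ), AD K f → AD K ({x : E n | ‖x‖ ∈ s}.indicator f)) ∧
  (∀ (j : ℤ) (x : E n), Sstar f x ≤
    Sstar ((sh n (j - 1) ∪ sh n j ∪ sh n (j + 1)).indicator f) x +
      ∑' i : ℤ, if 2 ≤ |i - j| then Sstar ((sh n i).indicator f) x else 0) ∧
  (∑' j : ℤ, ∫⁻ x, ‖(sh n (j - 1) ∪ sh n j ∪ sh n (j + 1)).indicator f x‖ₑ ^ 2) ≤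
    3 * ∫⁻ x, ‖f x‖ₑ ^ 2 ∧
  (∑' i : ℤ, ∫⁻ x, ‖(sh n i).indicator f x‖ₑ ^ 2) ≤ ∫⁻ x, ‖f x‖ₑ ^ 2

/-- **GLN** (75 min; uses NDJN, OFFN, SHL): the global inequality, see `CRL/P_GLBS.lean`. -/
def T_GLN : Prop := T_CARLS → ∀ n : ℕ, 2 ≤ n → ∃ C : ℝ≥0, ∀ (K : ℕ) (f : E n → ℂ), 1 ≤ K →
  Nice f → AD K f →
    ∫⁻ x, Sstar f x ^ 2 ≤ C * ENNReal.ofReal (Real.log (2 + K) ^ 2) * ∫⁻ x, ‖f x‖ₑ ^ 2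

/-- **SERN** (75 min; uses GLN): series. `|S h R x| ≤ C_R ‖h‖₂` (Cauchy–Schwarz, Plancherel), so
`Sstar f ≤ Σ_j Sstar (g j)`; Minkowski. A.e. convergence: for `h_j = f - Σ_{i<j} g i` the inequality gives
`‖Sstar h_j‖₂ → 0`; so it is enough that `S g R → g` a.e. for `g` Nice with `AD K g`. For such `g` let
`g_ε = g ∗ φ_ε`, `φ_ε(x) = ε^{-n} e^{-π|x|²/ε²}`: `AD K g_ε`, `𝓕 g_ε = 𝓕g · e^{-πε²|ξ|²} ∈ L¹`, so `S g_ε R x → g_ε x` for a.e. `x`,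
`‖g - g_ε‖₂ → 0`, and GLN for `g - g_ε`. -/
def T_SERN : Prop := T_CARLS → ∀ n : ℕ, 2 ≤ n → ∃ C : ℝ≥0, ∀ (f : E n → ℂ) (g : ℕ → E n → ℂ)
  (K : ℕ → ℕ), Nice f → (∀ j, Nice (g j)) → (∀ j, 1 ≤ K j) → (∀ j, AD (K j) (g j)) →
  Tendsto (fun J => ∫⁻ x, ‖f x - ∑ j ∈ Finset.range J, g j x‖ₑ ^ 2) atTop (𝓝 0) →
    (∫⁻ x, Sstar f x ^ 2) ^ (1 / 2 : ℝ) ≤
      C * ∑' j : ℕ, ENNReal.ofReal (Real.log (2 + K j)) * (∫⁻ x, ‖g j x‖ₑ ^ 2) ^ (1 / 2 : ℝ) ∧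
    ((∑' j : ℕ, ENNReal.ofReal (Real.log (2 + K j)) * (∫⁻ x, ‖g j x‖ₑ ^ 2) ^ (1 / 2 : ℝ)) ≠ ⊤ →
      ∀ᵐ x, Tendsto (fun R : ℝ => S f R x) atTop (𝓝 (f x)))

end Pool.Agent.CRN
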