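import Pool.Agent.CRN.Targets
import Pool.Agent.CRL.Targets3

set_option autoImplicit false

/-!
# CRN: the series theorem with a general weight, and the plane
-/

namespace Pool.Agent.CRN

open MeasureTheory FourierTransform Set Filter Topology
open scoped ENNReal NNReal
open Pool.Agent.MBS (E ex S Sstar)

/-- **SERW** (45 min): `P_SERN.lean` with a general weight `W` in place of `log (2+K)`: the same proof. -/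
def T_SERW : Prop := ∀ (n : ℕ) (W : ℕ → ℝ), 2 ≤ n → (∀ K, 1 ≤ K → 1 ≤ W K) →
  (∃ C : ℝ≥0, ∀ (K : ℕ) (f : E n → ℂ), 1 ≤ K → Nice f → AD K f →
    ∫⁻ x, Sstar f x ^ 2 ≤ C * ENNReal.ofReal (W K ^ 2) * ∫⁻ x, ‖f x‖ₑ ^ 2) →
  ∃ C : ℝ≥0, ∀ (f : E n → ℂ) (g : ℕ → E n → ℂ) (K : ℕ → ℕ), Nice f → (∀ j, Nice (g j)) →
  (∀ j, 1 ≤ K j) → (∀ j, AD (K j) (g j)) →
  Tendsto (fun J => ∫⁻ x, ‖f x - ∑ j ∈ Finset.range J, g j x‖ₑ ^ 2) atTop (𝓝 0) →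
    (∫⁻ x, Sstar f x ^ 2) ^ (1 / 2 : ℝ) ≤
      C * ∑' j : ℕ, ENNReal.ofReal (W (K j)) * (∫⁻ x, ‖g j x‖ₑ ^ 2) ^ (1 / 2 : ℝ) ∧
    ((∑' j : ℕ, ENNReal.ofReal (W (K j)) * (∫⁻ x, ‖g j x‖ₑ ^ 2) ^ (1 / 2 : ℝ)) ≠ ⊤ →
      ∀ᵐ x, Tendsto (fun R : ℝ => S f R x) atTop (𝓝 (f x)))

/-- **G2** (45 min): the plane. If `f` has angular degree `≤ K` (`AD K f`, `i = 0`, `j = 1`: `rt 0 1 θ = CRL.rot θ`), then
`amode k f = 0` for `|k| > K`, so `NN f ≤ wk K Σ_k ∫ |amode k f|² = wk K ∫ |f|²` (`CRL.T_MODB`; `wk` is increasing in `|k|`), and `CRL.T_GLBS`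
with the hypotheses `CRL.T_CARLS`, `CRL.T_LLL`. -/
def T_G2 : Prop := Pool.Agent.CRL.T_GLBS → Pool.Agent.CRL.T_MODB → Pool.Agent.CRL.T_CARLS →
  Pool.Agent.CRL.T_LLL → ∃ C : ℝ≥0, ∀ (K : ℕ) (f : E 2 → ℂ), 1 ≤ K → Nice f → AD K f →
    ∫⁻ x, Sstar f x ^ 2 ≤
      C * ENNReal.ofReal ((Real.log (3 + Real.log (3 + K)) ^ (13 / 2 : ℝ)) ^ 2) *
        ∫⁻ x, ‖f x‖ₑ ^ 2

end Pool.Agent.CRN
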